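import Pool.Agent.MP_249f74_an.H90.Chn
import Pool.Agent.MP_249f74_an.H97.Poly

/-!
Statements of the modules.
-/

open Set IntermediateField

namespace Pool.Agent.MP_249f74_an.H90

open H17 (Der)
open H88 (cl)
open H96 (Kil Agr Pres Ind Fm dd Cls Van Big push)

/-- Adjoining a fundamental solution of a flat system and infinitely many independent elements. -/
def StmtPV : Prop :=
  ∀ (C Ω κ : Type) [Field C] [Field Ω] [CharZero Ω] [Algebra C Ω] [Fintype κ] [DecidableEq κ]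
    (E : Submodule Ω (Der C Ω)) (A : Der C Ω →ₗ[Ω] Matrix κ κ Ω), Amb E → FiniteDimensional Ω E →
    E ≠ ⊥ → (∀ θ ∈ E, ∀ φ ∈ E, (A φ).map θ - (A θ).map φ - A ⁅θ, φ⁆ = A θ * A φ - A φ * A θ) →
    ∃ (C' Ω' : Type) (_ : Field C') (_ : IsAlgClosed C') (_ : Field Ω') (_ : CharZero Ω')
      (_ : IsAlgClosed Ω') (_ : Algebra C' Ω') (_ : Algebra C C') (_ : Algebra C Ω')
      (_ : IsScalarTower C C' Ω') (E' : Submodule Ω' (Der C' Ω')) (i : Ω →ₐ[C] Ω')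
      (X : Matrix κ κ Ω'), Amb E' ∧ Big C' Ω' ∧ Ext i E E' ∧ X.det ≠ 0 ∧
        ∀ θ ∈ E, ∀ θ' ∈ E', (∀ f, θ' (i f) = i (θ f)) → X.map θ' = -(X * (A θ).map i)

/-- First integrals of a transversal derivation are integral at a place. -/
def StmtTRV : Prop :=
  ∀ (C Ω : Type) [Field C] [Field Ω] [CharZero Ω] [Algebra C Ω] (S : Set Ω) (π : Ω), π ∉ cl C S →
    ∃ V : ValuationSubring Ω, (∀ f ∈ cl C S, f ∈ V) ∧ V.valuation π < 1 ∧ ∀ ζ : Der C Ω,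
      (∀ s ∈ S, ζ s ∈ Algebra.adjoin (cl C S) {π}) →
      (∃ a ∈ cl C S, a ≠ 0 ∧ ∃ b ∈ Algebra.adjoin (cl C S) {π}, ζ π = a + π * b) →
      ∀ f ∈ cl C (insert π S), ζ f = 0 → f ∈ V

/-- A function which is algebraic on a generic line is algebraic. -/
def StmtFREE : Prop :=
  ∀ (C Ω ι : Type) [Field C] [Field Ω] [CharZero Ω] [IsAlgClosed Ω] [Algebra C Ω] [Fintype ι]
    (E : Submodule Ω (Der C Ω)) (m : Pt E ι) (l : Ln E ι) (K : IntermediateField C Ω), Amb E →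
    On m l → Stab l K → m.q ⬝ᵥ l.u ∉ K → ∀ r ∈ K ⊔ C⟮m.q ⬝ᵥ l.u⟯, (∀ ζ ∈ m.D, ζ r = 0) →
    r ∈ cl C (range m.q)

/-- A transcendental point can be deformed freely. -/
def StmtSTEP : Prop :=
  ∀ (C Ω ι : Type) [Field C] [Field Ω] [CharZero Ω] [IsAlgClosed Ω] [Algebra C Ω] [Fintype ι]
    (E : Submodule Ω (Der C Ω)) (m : Pt E ι) (l : Ln E ι) (K : IntermediateField C Ω), Amb E →
    On m l → Stab l K → m.q ⬝ᵥ l.u ∉ K →
    ∀ θ t : Der C Ω, ∃ φ : Der C Ω, Agr K φ θ ∧ m.Tan (φ - t)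

/-- Focusing pairs cancel. -/
def StmtRED : Prop :=
  ∀ (C Ω ι : Type) [Field C] [Field Ω] [CharZero Ω] [IsAlgClosed Ω] [Algebra C Ω] [Fintype ι]
    (E : Submodule Ω (Der C Ω)) (m : ℕ → Pt E ι) (l : ℕ → Ln E ι) (n a b : ℕ), Amb E →
    Ch m l 0 n → Cyc l n → a < b → b < n → ¬Gen (m b) (m a) →
    ∃ (C' Ω' : Type) (_ : Field C') (_ : IsAlgClosed C') (_ : Field Ω') (_ : CharZero Ω')
      (_ : IsAlgClosed Ω') (_ : Algebra C' Ω') (_ : Algebra C C') (_ : Algebra C Ω')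
      (_ : IsScalarTower C C' Ω') (E' : Submodule Ω' (Der C' Ω')) (m' : ℕ → Pt E' ι)
      (l' : ℕ → Ln E' ι) (n' : ℕ) (i0 : Ω →ₐ[C] Ω'), n' < n ∧ Amb E' ∧ Ch m' l' 0 n' ∧ Cyc l' n' ∧
        del m' l' 0 n' = i0 (del m l 0 n) ∧
        ∀ r < n', ∃ s < n, ∃ i : Ω →ₐ[C] Ω', Ext i E E' ∧ (m' r).q = i ∘ (m s).q

/-- The last mirror is of finite type. -/
def StmtBAS : Prop :=
  ∀ (C Ω ι : Type) [Field C] [Field Ω] [CharZero Ω] [Algebra C Ω] [Fintype ι]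
    (E : Submodule Ω (Der C Ω)) (m : ℕ → Pt E ι) (l : ℕ → Ln E ι) (a b : ℕ), Amb E →
    Ch m l a (b + 1) → a < b → (m b).Tr → Gen (m b) (m a) → Dec m (a + 1) (b + 1) →
    (m b).q ⬝ᵥ (l b).u ∈ cl C (Seg l (HS m) a b) →
    ∃ S : Set Ω, S.Finite ∧ (m b).Dat S ∧ S ⊆ cl C (Seg l (HS m) a b) ∧
      ∀ Z ∈ E, (∀ j, Z ((m b).q j) ∈ cl C S) → Pres (cl C S) Z

section Data

variable {C Ω ι κ : Type} [Field C] [Field Ω] [Algebra C Ω] [Fintype ι] [Fintype κ]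
  {E : Submodule Ω (Der C Ω)}

/-- Invariant forms that describe the deformations of a mirror. -/
structure Frm (m : Pt E ι) (S : Set Ω) (ν : κ → Fm C Ω) : Prop where
  fin : S.Finite
  dat : m.Dat S
  van : ∀ k, Van (ν k) S
  bas : ∀ k, ∀ Z ∈ E, ν k Z = 0
  inv : ∀ k θ, m.Tan θ → ∀ φ, dd (ν k) θ φ = 0
  ker : ∀ θ, (∀ k, ν k θ = 0) → TanS E S θ
  ind : ∀ v : κ → Ω, ∃ θ, ∀ k, ν k θ = v k

/-- Closed forms on all mirrors. -/
structure Sys (m : ℕ → Pt E ι) (a b : ℕ) (S : ℕ → Set Ω) (ν : κ → Fm C Ω)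
    (ω : ℕ → κ → Fm C Ω) : Prop where
  fin : ∀ i, (S i).Finite
  dat : ∀ i, (m i).Dat (S i)
  frm : Frm (m b) (S b) ν
  sum : ∀ k, ν k = ∑ i ∈ Finset.Ico a b, ω i k
  cν : ∀ k, Cls (ν k)
  cω : ∀ i, a ≤ i → i < b → ∀ k, Cls (ω i k)
  van : ∀ i, a ≤ i → i < b → ∀ k θ, TanS E (S i) θ → ω i k θ = 0
  ind : ∀ lam : κ → Ω, (∀ θ, ∑ k, lam k * (∑ i ∈ Finset.Ico (a + 1) b, ω i k) θ = 0) → lam = 0

/-- A Lie algebra of derivations of `M`. -/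
structure Lie (M : IntermediateField C Ω) (G : Set (Der C Ω)) : Prop where
  zero : 0 ∈ G
  add : ∀ θ ∈ G, ∀ φ ∈ G, θ + φ ∈ G
  smul : ∀ a ∈ M, ∀ θ ∈ G, a • θ ∈ G
  br : ∀ θ ∈ G, ∀ φ ∈ G, ⁅θ, φ⁆ ∈ G
  pres : ∀ θ ∈ G, Pres M θ

/-- A combination of the forms that descends to `M`. -/
structure Grp (M : IntermediateField C Ω) (LA LB : Set Ω) (ν γ : κ → Fm C Ω) (lam : κ → Ω)
    (G : Set (Der C Ω)) : Prop where
  lie : Lie M G
  val : ∀ k, ∀ θ ∈ G, ν k θ ∈ M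
  mem : ∀ k, lam k ∈ M
  con : ∀ k, ∀ θ ∈ G, θ (lam k) = 0
  ann : ∀ φ ∈ G, Kil M φ → ∑ k, lam k * ν k φ = 0
  la : ∀ θ, Pres M θ → Kil LA θ → ∃ φ ∈ G, Agr M φ θ ∧ ∀ k, ν k φ = γ k θ
  lb : ∀ θ, Pres M θ → Kil LB θ → ∃ φ ∈ G, Agr M φ θ ∧ ∀ k, ν k φ = 0

/-- A family of hypersurfaces, the level sets of closed forms. -/
structure Fam (S : Set Ω) (q n : ι → Ω) (ν : κ → Fm C Ω) : Prop where
  fin : S.Finite
  hq : ∀ j, q j ∈ S
  hn : ∀ j, n j ∈ S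
  nn : n ⬝ᵥ n = 1
  cls : ∀ k, Cls (ν k)
  van : ∀ k, Van (ν k) S
  tan : ∀ θ, (∀ k, ν k θ = 0) → n ⬝ᵥ dv q θ = 0
  kil : ∀ θ, (∀ k, ν k θ = 0) → dv q θ = 0 → Kil S θ
  surj : ∀ w, n ⬝ᵥ w = 0 → ∃ θ, (∀ k, ν k θ = 0) ∧ dv q θ = w
  ind : ∀ v : κ → Ω, ∃ θ, ∀ k, ν k θ = v k
  const : ∀ f ∈ cl C S, (∀ θ, (∀ k, ν k θ = 0) → θ f = 0) → f ∈ (⊥ : IntermediateField C Ω)
  tr : ∃ θ : Der C Ω, n ⬝ᵥ dv q θ ≠ 0

end Data

/-- Invariant forms exist in an extension. -/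
def StmtFRM : Prop :=
  ∀ (C Ω ι : Type) [Field C] [Field Ω] [CharZero Ω] [Algebra C Ω] [Fintype ι]
    (E : Submodule Ω (Der C Ω)) (m : Pt E ι) (l : Ln E ι) (S : Set Ω), Amb E → On m l → m.Tr →
    S.Finite → m.Dat S → (∀ Z ∈ E, (∀ j, Z (m.q j) ∈ cl C S) → Pres (cl C S) Z) →
    ∃ (C' Ω' : Type) (_ : Field C') (_ : IsAlgClosed C') (_ : Field Ω') (_ : CharZero Ω')
      (_ : IsAlgClosed Ω') (_ : Algebra C' Ω') (_ : Algebra C C') (_ : Algebra C Ω')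
      (_ : IsScalarTower C C' Ω') (E' : Submodule Ω' (Der C' Ω')) (i : Ω →ₐ[C] Ω')
      (h : Ext i E E') (r : ℕ) (ν : Fin r → Fm C' Ω'),
        Amb E' ∧ Big C' Ω' ∧ Frm (m.map h) (i '' S) ν

/-- Splitting of a basic form along independent mirrors. -/
def StmtSPL : Prop :=
  ∀ (C Ω ι : Type) [Field C] [Field Ω] [CharZero Ω] [Algebra C Ω] [Fintype ι]
    (E : Submodule Ω (Der C Ω)) (m : ℕ → Pt E ι) (a b : ℕ) (S : ℕ → Set Ω) (ν : Fm C Ω), Amb E →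
    (∀ i, (S i).Finite) → (∀ i, S i ⊆ (m i).H) → Dec m a b →
    (∀ θ, (∀ i, a ≤ i → i < b → TanS E (S i) θ) → ν θ = 0) → (∀ Z ∈ E, ∀ θ, dd ν Z θ = 0) →
    ∃ ω : ℕ → Fm C Ω, ν = ∑ i ∈ Finset.Ico a b, ω i ∧ ∀ i, a ≤ i → i < b →
      (∀ θ, TanS E (S i) θ → ω i θ = 0) ∧ ∀ θ, (m i).Tan θ → ∀ φ, dd (ω i) θ φ = 0

/-- The forms are closed and the middle ones are independent. -/
def StmtCLO : Prop :=
  ∀ (C Ω ι κ : Type) [Field C] [Field Ω] [CharZero Ω] [IsAlgClosed Ω] [Algebra C Ω] [Fintype ι]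
    [Fintype κ] (E : Submodule Ω (Der C Ω)) (m : ℕ → Pt E ι) (l : ℕ → Ln E ι) (a b : ℕ)
    (S0 : Set Ω) (ν : κ → Fm C Ω), Amb E → Big C Ω → Ch m l a (b + 1) → a < b → (m b).Tr →
    Gen (m b) (m a) → Dec m a b → Dec m (a + 1) (b + 1) → Frm (m b) S0 ν →
    S0 ⊆ cl C (Seg l (HS m) a b) → ∃ S ω, Sys m a b S ν ω

/-- Doubling. -/
def StmtDBL : Prop :=
  ∀ (C Ω κ : Type) [Field C] [Field Ω] [CharZero Ω] [IsAlgClosed Ω] [Algebra C Ω] [Fintype κ]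
    [DecidableEq κ] (T SA SL LA LB : Set Ω) (ν ω γ : κ → Fm C Ω), Big C Ω → T.Finite → SA.Finite →
    SL.Finite → LA ⊆ cl C T → LB ⊆ cl C T → (∀ k, Cls (ν k)) → (∀ k, Cls (γ k)) →
    (∀ k, ν k = ω k + γ k) → (∀ k, Van (ν k) SL) → (∀ k, Van (ω k) SA) → (∀ k, Van (γ k) T) →
    Ind C SA T LA → Ind C SL T LB →
    (∃ (σ : Ω ≃ₐ[C] Ω) (U : Set Ω), (∀ f ∈ cl C T, σ f = f) ∧ Ind C (σ '' SL) (SL ∪ T) T ∧
      U.Finite ∧ U ⊆ cl C (SL ∪ σ '' SL) ∧ (∀ k, Van (ν k - push σ (ν k)) U) ∧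
      ∀ k, ∃ Δ : Der C Ω, Kil T Δ ∧ Kil U Δ ∧ ∀ j, ν j Δ = if j = k then 1 else 0) ∨
    ∃ lam G, lam ≠ 0 ∧ Grp (cl C T) LA LB ν γ lam G

/-- A closed form on a Lie algebra that only depends on `z` has coefficients algebraic over `z`. -/
def StmtKAP : Prop :=
  ∀ (C Ω κ : Type) [Field C] [Field Ω] [CharZero Ω] [Algebra C Ω] [Fintype κ]
    (M : IntermediateField C Ω) (G : Set (Der C Ω)) (η : Fm C Ω) (z : κ → Ω),
    cl C (M : Set Ω) = M → Lie M G → (∀ j, z j ∈ M) → (∀ θ ∈ G, η θ ∈ M) →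
    (∀ θ ∈ G, ∀ φ ∈ G, dd η θ φ = 0) → (∀ θ, Pres M θ → dv z θ = 0 → ∃ φ ∈ G, Agr M φ θ) →
    (∀ θ ∈ G, dv z θ = 0 → η θ = 0) →
    ∃ c : κ → Ω, (∀ j, c j ∈ cl C (range z)) ∧ ∀ θ ∈ G, η θ = c ⬝ᵥ dv z θ

/-- The equation at one mirror. -/
def StmtPDE : Prop :=
  ∀ (C Ω ι κ : Type) [Field C] [Field Ω] [CharZero Ω] [Algebra C Ω] [Fintype ι] [Fintype κ]
    (E : Submodule Ω (Der C Ω)) (m : Pt E ι) (l l' : Ln E ι) (S : Set Ω) (ω : κ → Fm C Ω)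
    (lam : κ → Ω) (α β : ι → Ω), Amb E → Refl m l l' → S.Finite → m.Dat S → (∀ k, Cls (ω k)) →
    (∀ k θ, TanS E S θ → ω k θ = 0) → (∀ k, lam k ∈ cl C l'.S) → (∀ j, α j ∈ cl C l'.S) →
    (∀ j, β j ∈ cl C l'.S) →
    (∀ θ, Kil l.S θ → α ⬝ᵥ dv l'.u θ + β ⬝ᵥ dv l'.x θ = ∑ k, lam k * ω k θ) →
    ∀ θ, ∑ k, lam k * ω k θ = 0

/-- Pulling back through the inner mirrors. -/
def StmtPB : Prop :=
  ∀ (C Ω ι κ : Type) [Field C] [Field Ω] [CharZero Ω] [Algebra C Ω] [Fintype ι] [Fintype κ]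
    (E : Submodule Ω (Der C Ω)) (m : ℕ → Pt E ι) (l : ℕ → Ln E ι) (a b : ℕ) (S : ℕ → Set Ω)
    (ν : κ → Fm C Ω) (ω : ℕ → κ → Fm C Ω) (lam : κ → Ω) (G : Set (Der C Ω)), Amb E →
    Ch m l (a + 1) b → a < b → Dec m (a + 1) b → Sys m a b S ν ω →
    Grp (cl C (Seg l S (a + 1) b)) (l (a + 1)).S (l b).S ν
      (fun k => ∑ i ∈ Finset.Ico (a + 1) b, ω i k) lam G → lam = 0

/-- The pole at tangent rays. -/
def StmtPOL : Prop :=
  ∀ (C Ω ι κ : Type) [Field C] [Field Ω] [CharZero Ω] [Algebra C Ω] [Fintype ι] [Fintype κ]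
    [DecidableEq κ] (S R T : Set Ω) (q n u x : ι → Ω) (ν : κ → Fm C Ω) (k : κ) (s t h : Ω)
    (δ : Der C Ω), Fam S q n ν → n ⬝ᵥ u ≠ 0 →
    (∀ w, ∃ θ : Der C Ω, Kil S θ ∧ dv u θ = 0 ∧ ∃ c : Ω, dv x θ = w + c • u) →
    (∀ j, u j ∈ cl C R) → (∀ j, x j ∈ cl C R) → s ∉ cl C (S ∪ R) → Kil R δ → δ s = 0 →
    (∀ j, ν j δ = if j = k then 1 else 0) → n ⬝ᵥ dv q δ ≠ 0 → dv q δ = t • (x + s • u - q) →
    T ⊆ cl C (insert s (S ∪ R)) → Kil T δ → h ∈ cl C S →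
    δ h ∈ Submodule.span (cl C (S ∪ R)) T → h ∈ (⊥ : IntermediateField C Ω)

/-- Two conjugate families cannot be translated simultaneously. -/
def StmtOS : Prop :=
  ∀ (C Ω ι κ : Type) [Field C] [Field Ω] [CharZero Ω] [IsAlgClosed Ω] [Algebra C Ω] [Fintype ι]
    [Fintype κ] [DecidableEq κ] (S U : Set Ω) (q n u x : ι → Ω) (ν : κ → Fm C Ω) (σ : Ω ≃ₐ[C] Ω),
    Big C Ω → Fam S q n ν → u ⬝ᵥ u = 1 → x ⬝ᵥ u = 0 → q = x + (q ⬝ᵥ u) • u → n ⬝ᵥ u ≠ 0 →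
    (∀ a, a ⬝ᵥ u = 0 → ∃ θ : Der C Ω, Kil S θ ∧ dv u θ = a) → (∀ j, σ (u j) = u j) →
    (∀ j, σ (x j) = x j) → σ (q ⬝ᵥ u) ≠ q ⬝ᵥ u →
    Ind C (σ '' S) (S ∪ (range u ∪ range x)) (range u ∪ range x) → U.Finite →
    U ⊆ cl C (S ∪ σ '' S) → (∀ k, Van (ν k - push σ (ν k)) U) →
    (∀ k, ∃ Δ : Der C Ω, Kil (range u ∪ range x) Δ ∧ Kil U Δ ∧
      ∀ j, ν j Δ = if j = k then 1 else 0) → False

/-- The non-focusing case in a large field. -/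
def StmtNF2 : Prop :=
  ∀ (C Ω ι κ : Type) [Field C] [Field Ω] [CharZero Ω] [IsAlgClosed Ω] [Algebra C Ω] [Fintype ι]
    [Fintype κ] (E : Submodule Ω (Der C Ω)) (m : ℕ → Pt E ι) (l : ℕ → Ln E ι) (a b : ℕ)
    (S0 : Set Ω) (ν : κ → Fm C Ω), Amb E → Big C Ω → Ch m l a (b + 1) → a < b → (m b).Tr →
    Gen (m b) (m a) → Dec m a b → Dec m (a + 1) (b + 1) → Frm (m b) S0 ν →
    S0 ⊆ cl C (Seg l (HS m) a b) → False

/-- Chains without focusing can be deformed freely. -/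
def StmtD : Prop :=
  ∀ (C Ω ι : Type) [Field C] [Field Ω] [CharZero Ω] [IsAlgClosed Ω] [Algebra C Ω] [Fintype ι]
    (E : Submodule Ω (Der C Ω)) (m : ℕ → Pt E ι) (l : ℕ → Ln E ι) (a b : ℕ), Amb E →
    Ch m l a b → NoF m a b → Dec m a b

/-- Properties of generic points of algebraic mirrors that are defined over a real field. -/
def Prp : Type 1 :=
  ∀ (k Ω ι : Type) [Field k] [Algebra k ℝ] [Field Ω] [Algebra k Ω] [Fintype ι], (ι → Ω) → Prop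

/-- Invariance under embeddings. -/
def Prp.Ok (p : Prp) : Prop :=
  ∀ (k Ω Ω' ι : Type) [Field k] [Algebra k ℝ] [Field Ω] [Algebra k Ω] [Field Ω'] [Algebra k Ω']
    [Fintype ι] (i : Ω →ₐ[k] Ω') (q : ι → Ω), p k Ω' ι (i ∘ q) ↔ p k Ω ι q

/-- The point lies on a hypersurface that does not contain the isotropic quadric at infinity. -/
def NC : Prp := fun k _ ι _ _ _ _ _ q =>
  ∃ P : MvPolynomial ι k, MvPolynomial.aeval q P = 0 ∧ ¬H97.Q k ι ∣ H97.top P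

/-- The point is conjugate to a real point of a hypersurface over a real closed field. -/
def RL : Prp := fun k _ ι _ _ _ _ _ q =>
  (∀ x : ℝ, IsAlgebraic k x → x ∈ range (algebraMap k ℝ)) ∧ ¬AlgebraicIndependent k q ∧
    ∃ y : ι → ℝ, ∀ P : MvPolynomial ι k, MvPolynomial.aeval q P = 0 ↔ MvPolynomial.aeval y P = 0

lemma aeval_comp {k Ω Ω' ι : Type} [Field k] [Field Ω] [Algebra k Ω] [Field Ω'] [Algebra k Ω']
    (i : Ω →ₐ[k] Ω') (q : ι → Ω) (P : MvPolynomial ι k) :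
    MvPolynomial.aeval (i ∘ q) P = 0 ↔ MvPolynomial.aeval q P = 0 := by
  rw [show MvPolynomial.aeval (i ∘ q) P = i (MvPolynomial.aeval q P) from
    (MvPolynomial.comp_aeval_apply ..).symm, map_eq_zero]

theorem nc_ok : NC.Ok := fun k Ω Ω' ι _ _ _ _ _ _ _ i q => by simp only [NC, aeval_comp]

theorem rl_ok : RL.Ok := fun k Ω Ω' ι _ _ _ _ _ _ _ i q => by
  simp only [RL, aeval_comp, algebraicIndependent_iff]

/-- Closed chains of algebraic mirrors in general position have delay zero. -/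
def StmtA (p : Prp) : Prop :=
  ∀ (k C Ω ι : Type) [Field k] [Algebra k ℝ] [Field C] [IsAlgClosed C] [Field Ω] [CharZero Ω]
    [IsAlgClosed Ω] [Algebra C Ω] [Algebra k C] [Algebra k Ω] [IsScalarTower k C Ω] [Fintype ι]
    [Nontrivial ι] (E : Submodule Ω (Der C Ω)) (m : ℕ → Pt E ι) (l : ℕ → Ln E ι) (n : ℕ), Amb E →
    Ch m l 0 n → Cyc l n → (∀ i < n, ∀ j < n, i ≠ j → Gen (m i) (m j)) →
    (∀ i < n, ¬(m i).Tr ∧ p k Ω ι (m i).q) → del m l 0 n = 0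

/-- Closed chains have delay zero. -/
def StmtS (p : Prp) : Prop :=
  ∀ (k C Ω ι : Type) [Field k] [Algebra k ℝ] [Field C] [IsAlgClosed C] [Field Ω] [CharZero Ω]
    [IsAlgClosed Ω] [Algebra C Ω] [Algebra k C] [Algebra k Ω] [IsScalarTower k C Ω] [Fintype ι]
    [Nontrivial ι] (E : Submodule Ω (Der C Ω)) (m : ℕ → Pt E ι) (l : ℕ → Ln E ι) (n : ℕ), Amb E →
    Ch m l 0 n → Cyc l n → (∀ i < n, ¬(m i).Tr → p k Ω ι (m i).q) → del m l 0 n = 0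

/-- One step of an orbit; `J` is the jet of the equation of the mirror at the end point `q'`. -/
structure Jet {C Ω ι : Type} [Field C] [Field Ω] [Algebra C Ω] [Fintype ι] {N : ℕ}
    (δ : Fin N → Der C Ω) (q u q' u' : ι → Ω) (t : Ω) (J : List ι → Ω) : Prop where
  zero : J [] = 0
  chain : ∀ r L, δ r (J L) = ∑ j, J (j :: L) * δ r (q' j)
  symm : ∀ j j' L, J (j :: j' :: L) = J (j' :: j :: L)
  uu : u ⬝ᵥ u = 1
  gg : (fun j => J [j]) ⬝ᵥ (fun j => J [j]) ≠ 0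
  gu : (fun j => J [j]) ⬝ᵥ u ≠ 0
  move : q' = q + t • u
  refl : u' = u - (2 * ((fun j => J [j]) ⬝ᵥ u) / ((fun j => J [j]) ⬝ᵥ fun j => J [j])) •
    fun j => J [j]

/-- Closed families in the setting of jets. -/
def StmtQ (p : Prp) : Prop :=
  ∀ (k C Ω ι : Type) [Field k] [Algebra k ℝ] [Field C] [IsAlgClosed C] [Field Ω] [CharZero Ω]
    [IsAlgClosed Ω] [Algebra C Ω] [Algebra k C] [Algebra k Ω] [IsScalarTower k C Ω] [Fintype ι]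
    [Nontrivial ι] (N n : ℕ) (δ : Fin N → Der C Ω) (q u : ℕ → ι → Ω) (t : ℕ → Ω)
    (J : ℕ → List ι → Ω), (∀ f, (∀ r, δ r f = 0) → f ∈ (⊥ : IntermediateField C Ω)) →
    2 * Fintype.card ι ≤ N + 2 →
    (∀ a : Fin N → Ω, (∀ i < n, dv (q i) (∑ r, a r • δ r) = 0 ∧ dv (u i) (∑ r, a r • δ r) = 0) →
      a = 0) → q n = q 0 → u n = u 0 →
    (∀ i < n, Jet δ (q i) (u i) (q (i + 1)) (u (i + 1)) (t i) (J i)) →
    (∀ i < n, (∀ w, (fun j => J i [j]) ⬝ᵥ w = 0 → ∃ a : Fin N → Ω,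
      dv (q (i + 1)) (∑ r, a r • δ r) = w) → ¬AlgebraicIndependent C (q (i + 1)) →
      p k Ω ι (q (i + 1))) → ∑ i ∈ Finset.range n, t i = 0

section Real

variable {d : ℕ}

/-- Derivative along a field that is tangent to the level sets of `f`. -/
noncomputable def tg (f : EuclideanSpace ℝ (Fin d) → ℝ) (a : Fin d × Fin d)
    (g : EuclideanSpace ℝ (Fin d) → ℝ) : EuclideanSpace ℝ (Fin d) → ℝ := fun x =>
  fderiv ℝ g x (EuclideanSpace.single a.2 (gradient f x a.1) -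
    EuclideanSpace.single a.1 (gradient f x a.2))

/-- Iterated tangential derivatives of a polynomial. -/
noncomputable def tgs (f : EuclideanSpace ℝ (Fin d) → ℝ) (L : List (Fin d × Fin d))
    (P : MvPolynomial (Fin d) ℝ) : EuclideanSpace ℝ (Fin d) → ℝ :=
  L.foldr (tg f) fun x => MvPolynomial.eval (fun j => x j) P

/-- The polynomial vanishes to infinite order along the level set of `f` at `q`. -/
def Tang (f : EuclideanSpace ℝ (Fin d) → ℝ) (q : EuclideanSpace ℝ (Fin d))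
    (P : MvPolynomial (Fin d) ℝ) : Prop := ∀ L, tgs f L P q = 0

/-- The top form is divisible by the sum of the squares. -/
def Circ (P : MvPolynomial (Fin d) ℝ) : Prop :=
  (∑ i, MvPolynomial.X i ^ 2) ∣ MvPolynomial.homogeneousComponent P.totalDegree P

/-- Periodic orbits whose vertices have the property `R`. -/
def Orb (f : EuclideanSpace ℝ (Fin d) → ℝ) (R : EuclideanSpace ℝ (Fin d) → Prop) (n : ℕ) :
    Set (EuclideanSpace ℝ (Fin d) × EuclideanSpace ℝ (Fin d)) :=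
  {q | ∃ p u : ℕ → EuclideanSpace ℝ (Fin d), p 0 = q.1 ∧ u 0 = q.2 ∧ p n = q.1 ∧ u n = q.2 ∧
    ∀ k < n, f (p k) = 0 ∧ ‖u k‖ = 1 ∧ inner ℝ (u k) (gradient f (p k)) < 0 ∧
      (∃ t : ℝ, 0 < t ∧ p (k + 1) = p k + t • u k) ∧
      u (k + 1) = u k - (2 * inner ℝ (u k) (gradient f (p (k + 1))) /
        ‖gradient f (p (k + 1))‖ ^ 2) • gradient f (p (k + 1)) ∧ R (p k)}

end Real

/-- Properties of points of level sets. -/
def Rel : Type :=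
  ∀ d : ℕ, (EuclideanSpace ℝ (Fin d) → ℝ) → EuclideanSpace ℝ (Fin d) → Prop

/-- The jet is not circular. -/
def NCJ : Rel := fun _ f q => ∀ P, P ≠ 0 → Tang f q P → ∃ Q, Tang f q Q ∧ ¬Circ Q

/-- At a generic point the property `R` implies the property `p`. -/
def Link (p : Prp) (R : Rel) : Prop :=
  ∀ (d N : ℕ) (f : EuclideanSpace ℝ (Fin d) → ℝ) (x : EuclideanSpace ℝ (Fin d))
    (δ : Fin N → Derivation ℤ ℝ ℝ) (v : Fin N → EuclideanSpace ℝ (Fin d)) (k : Subfield ℝ),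
    ContDiff ℝ ((⊤ : ℕ∞) : WithTop ℕ∞) f → R d f x → gradient f x ≠ 0 →
    (∀ c, c ∈ k ↔ ∀ r, δ r c = 0) → (∀ r, inner ℝ (v r) (gradient f x) = 0) →
    (∀ r L α, δ r (tgs f L (MvPolynomial.monomial α 1) x) =
      fderiv ℝ (tgs f L (MvPolynomial.monomial α 1)) x (v r)) →
    (∀ w, inner ℝ w (gradient f x) = 0 → ∃ a : Fin N → ℝ, ∑ r, a r • v r = w) →
    ¬AlgebraicIndependent k (fun j => x j) → p k ℝ (Fin d) fun j => x j

/-- Periodic orbits with the property `R` are rare. -/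
def Final (R : Rel) : Prop :=
  ∀ d : ℕ, 2 ≤ d → ∀ f : EuclideanSpace ℝ (Fin d) → ℝ, ContDiff ℝ ((⊤ : ℕ∞) : WithTop ℕ∞) f →
    ∀ n : ℕ, dimH (Orb f (R d f) (n + 1)) ≤ ((2 * d - 3 : ℕ) : ENNReal)

/-- From jets to orbits. -/
def StmtAN : Prop := ∀ (p : Prp) (R : Rel), p.Ok → Link p R → StmtQ p → Final R

/-- Irreducible factors of a tangent polynomial. -/
def StmtIRR : Prop :=
  ∀ (d : ℕ) (f : EuclideanSpace ℝ (Fin d) → ℝ), ContDiff ℝ ((⊤ : ℕ∞) : WithTop ℕ∞) f →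
    ∀ q P, P ≠ 0 → Tang f q P → ∃ Q, Irreducible Q ∧ Tang f q Q

/-- Tangent polynomials are flat on the level set. -/
def StmtFLAT : Prop :=
  ∀ (d : ℕ) (f : EuclideanSpace ℝ (Fin d) → ℝ), ContDiff ℝ ((⊤ : ℕ∞) : WithTop ℕ∞) f →
    ∀ q P, f q = 0 → gradient f q ≠ 0 → Tang f q P → ∀ m : ℕ,
      Asymptotics.IsBigO (nhdsWithin q {x | f x = 0})
        (fun x => MvPolynomial.eval (fun j => x j) P) fun x => ‖x - q‖ ^ m

end Pool.Agent.MP_249f74_an.H90
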