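import Pool.Agent.MP_249f74_an.H2.Calc2

/-!
Lines, mirrors and reflections in a field with an involutive module of derivations.
-/

open Set IntermediateField

namespace Pool.Agent.MP_249f74_an.H90

open H17 (Der Kr mem_Kr cl_le cl_mono)
open H88 (cl subset_cl coe_cl)
open H96 (Kil Agr Pres Ind Fm dd Cls Van Big dif dif_apply br_apply agr_iff pres_cl cl_cl
  mem_cl_of_kil not_mem_cl ext_indep indep_bot dd_rep br_smul_left)
open H2 (KrS mem_KrS cl_KrS kil_KrS Invl)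

variable {C Ω ι : Type} [Field C] [Field Ω] [Algebra C Ω]

/-- The derivative of a vector. -/
def dv (q : ι → Ω) : Der C Ω →ₗ[Ω] (ι → Ω) := LinearMap.pi fun j => dif (q j)

@[simp] lemma dv_apply (q : ι → Ω) (θ : Der C Ω) (j : ι) : dv q θ j = θ (q j) := rfl

lemma kil_range {q : ι → Ω} {θ : Der C Ω} : Kil (range q) θ ↔ dv q θ = 0 :=
  ⟨fun h => funext fun j => h _ ⟨j, rfl⟩, fun h _ ⟨j, e⟩ => e ▸ congrFun h j⟩

lemma agr_range {q : ι → Ω} {θ φ : Der C Ω} : Agr (range q) θ φ ↔ dv q θ = dv q φ := by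
  rw [agr_iff, kil_range, map_sub, sub_eq_zero]

lemma der_two (θ : Der C Ω) : θ 2 = 0 := by simpa using θ.map_natCast 2

lemma dv_add (p q : ι → Ω) (θ : Der C Ω) : dv (p + q) θ = dv p θ + dv q θ := by ext; simp

lemma dv_sub (p q : ι → Ω) (θ : Der C Ω) : dv (p - q) θ = dv p θ - dv q θ := by ext; simp

lemma dv_neg (p : ι → Ω) (θ : Der C Ω) : dv (-p) θ = -dv p θ := by ext; simp

lemma dv_smul (a : Ω) (q : ι → Ω) (θ : Der C Ω) : dv (a • q) θ = θ a • q + a • dv q θ := by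
  ext; simp; ring

lemma dv_zero (θ : Der C Ω) : dv (0 : ι → Ω) θ = 0 := by ext; simp

lemma dv_single [DecidableEq ι] (j : ι) (θ : Der C Ω) : dv (Pi.single j (1 : Ω)) θ = 0 := by
  ext i; by_cases h : i = j <;> simp [h]

lemma dv_br (q : ι → Ω) (θ φ : Der C Ω) : dv q ⁅θ, φ⁆ = dv (dv q φ) θ - dv (dv q θ) φ := by
  ext; simp [br_apply]

lemma dv_dot [Fintype ι] (p q : ι → Ω) (θ : Der C Ω) :
    θ (p ⬝ᵥ q) = dv p θ ⬝ᵥ q + p ⬝ᵥ dv q θ := by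
  simp only [dotProduct, map_sum, Derivation.leibniz, smul_eq_mul, dv_apply,
    ← Finset.sum_add_distrib]
  exact Finset.sum_congr rfl fun _ _ => by ring

lemma dot_mem [Fintype ι] {K : IntermediateField C Ω} {p q : ι → Ω} (hp : ∀ j, p j ∈ K)
    (hq : ∀ j, q j ∈ K) : p ⬝ᵥ q ∈ K := sum_mem fun j _ => mul_mem (hp j) (hq j)

/-- The derivative of a unit vector is orthogonal to it. -/
lemma unit_dot [Fintype ι] [CharZero Ω] {u : ι → Ω} (h : u ⬝ᵥ u = 1) (θ : Der C Ω) :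
    dv u θ ⬝ᵥ u = 0 := by
  have := dv_dot u u θ
  rw [h, Derivation.map_one_eq_zero, dotProduct_comm u] at this
  linear_combination (-1 / 2 : Ω) * this

/-- A vector orthogonal to the orthogonal complement of a unit vector is a multiple of it. -/
lemma par [Fintype ι] {u g : ι → Ω} (hu : u ⬝ᵥ u = 1) (h : ∀ w, u ⬝ᵥ w = 0 → g ⬝ᵥ w = 0) :
    g = (g ⬝ᵥ u) • u := by
  classical
  ext j
  have := h (Pi.single j 1 - u j • u) (by simp [hu])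
  simp only [dotProduct_sub, dotProduct_single, mul_one, dotProduct_smul, smul_eq_mul] at this
  simp only [Pi.smul_apply, smul_eq_mul]
  linear_combination this

/-- Two transversal conditions. -/
lemma eq_zero_of_par [Fintype ι] {u v g : ι → Ω} (hu : u ⬝ᵥ u = 1) (hv : v ⬝ᵥ u ≠ 0)
    (h : ∀ w, u ⬝ᵥ w = 0 → g ⬝ᵥ w = 0) (h' : v ⬝ᵥ g = 0) : g = 0 := by
  have e := par hu h
  rw [e, dotProduct_smul, smul_eq_mul, mul_eq_zero, or_iff_left hv] at h'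
  rw [e, h', zero_smul]

/-- Elements with dual derivations are independent. -/
lemma indep_of_dual [CharZero Ω] {κ : Type} {v : κ → Ω}
    (h : ∀ j, ∃ θ : Der C Ω, θ (v j) ≠ 0 ∧ ∀ i, i ≠ j → θ (v i) = 0) : AlgebraicIndependent C v := by
  have hi : Function.Injective v := fun i j e => by
    by_contra hn
    obtain ⟨θ, h1, h2⟩ := h j
    exact h1 (e ▸ h2 i hn)
  refine (algebraicIndependent_subtype_range hi).1 ?_
  refine ((AlgebraicIndependent.matroid C Ω).indep_iff_forall_notMem_closure_sdiff (by simp)).2 ?_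
  rintro _ ⟨j, rfl⟩
  obtain ⟨θ, h1, h2⟩ := h j
  rw [← coe_cl]
  exact not_mem_cl (δ := θ) (by rintro _ ⟨⟨i, rfl⟩, hn⟩; exact h2 i fun e => hn (congrArg v e)) h1

/-- Values of a derivation on an algebraic closure. -/
lemma der_mem [CharZero Ω] {F : IntermediateField C Ω} (W : Submodule F Ω) {S : Set Ω}
    (hF : cl C S ≤ F) {θ : Der C Ω} (h : ∀ s ∈ S, θ s ∈ W) {f : Ω} (hf : f ∈ cl C S) : θ f ∈ W := by
  let G : IntermediateField C Ω := Subalgebra.toIntermediateField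
    { carrier := {x | x ∈ cl C S ∧ θ x ∈ W}
      mul_mem' := fun {a b} ha hb => ⟨mul_mem ha.1 hb.1, by
        rw [θ.leibniz]
        exact add_mem (W.smul_mem ⟨a, hF ha.1⟩ hb.2) (W.smul_mem ⟨b, hF hb.1⟩ ha.2)⟩
      add_mem' := fun {a b} ha hb => ⟨add_mem ha.1 hb.1, by rw [map_add]; exact add_mem ha.2 hb.2⟩
      algebraMap_mem' := fun c => ⟨(cl C S).algebraMap_mem c, by
        rw [θ.map_algebraMap]; exact W.zero_mem⟩ }
    fun x (hx : x ∈ cl C S ∧ θ x ∈ W) => ⟨inv_mem hx.1, by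
      rw [θ.leibniz_inv]
      exact W.smul_mem ⟨_, hF (neg_mem (pow_mem (inv_mem hx.1) _))⟩ hx.2⟩
  obtain ⟨p, -, p1, p2, p3⟩ := H17.exists_simple (E := G)
    (cl_mono (fun s hs => show s ∈ G from ⟨subset_cl S hs, h s hs⟩) hf)
  have e := H17.der_eval θ p f
  rw [p2, map_zero, eq_comm, add_comm, ← eq_neg_iff_add_eq_zero, mul_comm, ← eq_div_iff p3] at e
  have h1 : (p.derivative.eval f)⁻¹ ∈ F := hF (inv_mem (by
    rw [Polynomial.eval_eq_sum_range]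
    exact sum_mem fun i _ => mul_mem (by
      rw [Polynomial.coeff_derivative]
      exact mul_mem (p1 _).1 (add_mem (_root_.natCast_mem _ _) (one_mem _))) (pow_mem hf _)))
  rw [e, div_eq_inv_mul]
  refine W.smul_mem ⟨_, h1⟩ (neg_mem (sum_mem fun i _ => ?_))
  beta_reduce
  rw [mul_comm]
  exact W.smul_mem ⟨_, hF (pow_mem hf i)⟩ (p1 i).2

/-- The module is involutive and `C` is its field of constants. -/
structure Amb (E : Submodule Ω (Der C Ω)) : Prop where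
  br : Invl E
  const : ∀ f, (∀ θ ∈ E, θ f = 0) → f ∈ (⊥ : IntermediateField C Ω)

/-- A generic oriented line with direction `u` and foot point `x`. -/
structure Ln (E : Submodule Ω (Der C Ω)) (ι : Type) [Fintype ι] where
  /-- direction -/
  u : ι → Ω
  /-- foot point -/
  x : ι → Ω
  uu : u ⬝ᵥ u = 1
  xu : x ⬝ᵥ u = 0
  inj : ∀ θ ∈ E, dv u θ = 0 → dv x θ = 0 → θ = 0
  surj : ∀ a b : ι → Ω, a ⬝ᵥ u = 0 → b ⬝ᵥ u + x ⬝ᵥ a = 0 → ∃ θ ∈ E, dv u θ = a ∧ dv x θ = b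

/-- A generic point of a mirror with unit normal `ν`. -/
structure Pt (E : Submodule Ω (Der C Ω)) (ι : Type) [Fintype ι] where
  /-- position -/
  q : ι → Ω
  /-- normal -/
  ν : ι → Ω
  νν : ν ⬝ᵥ ν = 1
  tan : ∀ θ ∈ E, ν ⬝ᵥ dv q θ = 0
  surj : ∀ w : ι → Ω, ν ⬝ᵥ w = 0 → ∃ θ ∈ E, dv q θ = w

/-- On `S` the derivation `θ` agrees with an element of `E`. -/
def TanS (E : Submodule Ω (Der C Ω)) (S : Set Ω) (θ : Der C Ω) : Prop := ∃ Z ∈ E, Agr S θ Z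

variable [Fintype ι] {E : Submodule Ω (Der C Ω)}

/-- The coordinates of a line. -/
def Ln.S (l : Ln E ι) : Set Ω := range l.u ∪ range l.x

/-- The pencil of lines through the point. -/
def Pt.D (m : Pt E ι) : Submodule Ω (Der C Ω) := E ⊓ LinearMap.ker (dv m.q)

/-- Transcendental mirror. -/
def Pt.Tr (m : Pt E ι) : Prop := AlgebraicIndependent C m.q

open Classical in
/-- The field attached to a mirror. -/
noncomputable def Pt.H (m : Pt E ι) : IntermediateField C Ω :=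
  if m.Tr then KrS (m.D : Set (Der C Ω)) else cl C (range m.q)

/-- Derivations tangent to a mirror. -/
def Pt.Tan (m : Pt E ι) (θ : Der C Ω) : Prop := TanS E m.H θ

/-- A set of data of a mirror. -/
structure Pt.Dat (m : Pt E ι) (S : Set Ω) : Prop where
  le : S ⊆ m.H
  q : ∀ j, m.q j ∈ S
  ν : ∀ j, m.ν j ∈ S

/-- The line meets the mirror transversally at the point. -/
structure On (m : Pt E ι) (l : Ln E ι) : Prop where
  eq : m.q = l.x + (m.q ⬝ᵥ l.u) • l.u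
  c0 : m.ν ⬝ᵥ l.u ≠ 0

/-- The mirror reflects `l` to `l'`. -/
structure Refl (m : Pt E ι) (l l' : Ln E ι) : Prop where
  on : On m l
  on' : On m l'
  eq : l'.u = l.u - (2 * (m.ν ⬝ᵥ l.u)) • m.ν

/-- The rays from `m'` fill the tangent space at `m` generically. -/
def Gen (m m' : Pt E ι) : Prop :=
  ∀ W : Submodule Ω (ι → Ω), (∀ ζ ∈ m.D, ∀ w ∈ W, dv w ζ ∈ W) → m.ν ∈ W →
    (∀ θ ∈ m'.D, dv m.q θ ∈ W) → W = ⊤

section TanS

variable {S T : Set Ω} {θ φ Z : Der C Ω}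

lemma TanS.mono (h : TanS E T θ) (hS : S ⊆ T) : TanS E S θ :=
  h.imp fun _ h => ⟨h.1, h.2.mono hS⟩

lemma tanS_mem (h : Z ∈ E) : TanS E S Z := ⟨Z, h, fun _ _ => rfl⟩

lemma tanS_kil (h : Kil S θ) : TanS E S θ := ⟨0, zero_mem _, h⟩

lemma TanS.of_agr (h : TanS E S φ) (h' : Agr S θ φ) : TanS E S θ :=
  h.imp fun _ h => ⟨h.1, h'.trans h.2⟩

lemma TanS.add (h : TanS E S θ) (h' : TanS E S φ) : TanS E S (θ + φ) := by
  obtain ⟨Z, h1, h2⟩ := h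
  obtain ⟨Z', h3, h4⟩ := h'
  exact ⟨Z + Z', add_mem h1 h3, fun f hf => by simp [h2 f hf, h4 f hf]⟩

lemma TanS.smul (h : TanS E S θ) (a : Ω) : TanS E S (a • θ) := by
  obtain ⟨Z, h1, h2⟩ := h
  exact ⟨a • Z, E.smul_mem a h1, fun f hf => by simp [h2 f hf]⟩

lemma TanS.neg (h : TanS E S θ) : TanS E S (-θ) := by simpa using h.smul (-1)

lemma TanS.sub (h : TanS E S θ) (h' : TanS E S φ) : TanS E S (θ - φ) := by
  simpa [sub_eq_add_neg] using h.add h'.neg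

lemma TanS.sum {κ : Type} (s : Finset κ) {t : κ → Der C Ω} (h : ∀ i ∈ s, TanS E S (t i)) :
    TanS E S (∑ i ∈ s, t i) :=
  Finset.sum_induction _ _ (fun _ _ => TanS.add) (tanS_mem (zero_mem _)) h

lemma TanS.cl [CharZero Ω] (h : TanS E S θ) : TanS E (cl C S : Set Ω) θ :=
  h.imp fun _ h => ⟨h.1, h.2.cl⟩

end TanS

namespace Ln

variable (l : Ln E ι) {θ φ : Der C Ω}

lemma u_mem (j : ι) : l.u j ∈ l.S := Or.inl ⟨j, rfl⟩

lemma x_mem (j : ι) : l.x j ∈ l.S := Or.inr ⟨j, rfl⟩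

lemma S_finite : l.S.Finite := (finite_range _).union (finite_range _)

lemma kil_iff : Kil l.S θ ↔ dv l.u θ = 0 ∧ dv l.x θ = 0 :=
  ⟨fun h => ⟨kil_range.1 (h.mono subset_union_left), kil_range.1 (h.mono subset_union_right)⟩,
    fun h => (kil_range.2 h.1).union (kil_range.2 h.2)⟩

lemma agr_iff : Agr l.S θ φ ↔ dv l.u θ = dv l.u φ ∧ dv l.x θ = dv l.x φ := by
  rw [H96.agr_iff, kil_iff, map_sub, map_sub, sub_eq_zero, sub_eq_zero]

lemma eq_zero (h : θ ∈ E) (h0 : Kil l.S θ) : θ = 0 :=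
  l.inj θ h (l.kil_iff.1 h0).1 (l.kil_iff.1 h0).2

lemma eq_of_agr (h : θ ∈ E) (h' : φ ∈ E) (h0 : Agr l.S θ φ) : θ = φ :=
  sub_eq_zero.1 (l.eq_zero (sub_mem h h') (H96.agr_iff.1 h0))

lemma dx_dot (θ : Der C Ω) : dv l.x θ ⬝ᵥ l.u + l.x ⬝ᵥ dv l.u θ = 0 := by
  rw [← dv_dot, l.xu, map_zero]

/-- Every motion of the line is realised in `E`. -/
lemma any [CharZero Ω] (θ : Der C Ω) : ∃ Z ∈ E, Agr l.S θ Z := by
  obtain ⟨Z, h1, h2, h3⟩ := l.surj _ _ (unit_dot l.uu θ) (l.dx_dot θ)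
  exact ⟨Z, h1, l.agr_iff.2 ⟨h2.symm, h3.symm⟩⟩

include l in
lemma finite : FiniteDimensional Ω E :=
  FiniteDimensional.of_injective (((dv l.u).prod (dv l.x)).comp E.subtype)
    ((injective_iff_map_eq_zero _).2 fun θ h =>
      Subtype.ext (l.inj θ θ.2 (congrArg Prod.fst h) (congrArg Prod.snd h)))

/-- The line with the opposite orientation. -/
def neg : Ln E ι where
  u := -l.u
  x := l.x
  uu := by simp [l.uu]
  xu := by simp [l.xu]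
  inj θ h h1 h2 := l.inj θ h (by rwa [dv_neg, neg_eq_zero] at h1) h2
  surj a b ha hb := by
    obtain ⟨θ, h1, h2, h3⟩ := l.surj (-a) b (by simpa using ha) (by
      simp only [dotProduct_neg] at hb ⊢; linear_combination -hb)
    exact ⟨θ, h1, by rw [dv_neg, h2, neg_neg], h3⟩

/-- The invariant two-form. -/
def sym (θ φ : Der C Ω) : Ω := dv l.u θ ⬝ᵥ dv l.x φ - dv l.u φ ⬝ᵥ dv l.x θ

end Ln

namespace Pt

variable (m : Pt E ι) {θ φ Z ζ : Der C Ω} {S : Set Ω}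

lemma mem_D : ζ ∈ m.D ↔ ζ ∈ E ∧ dv m.q ζ = 0 := Iff.rfl

lemma mem_KrD {f : Ω} : f ∈ KrS (m.D : Set (Der C Ω)) ↔ ∀ ζ ∈ E, dv m.q ζ = 0 → ζ f = 0 :=
  mem_KrS.trans ⟨fun h ζ h1 h2 => h ζ ⟨h1, h2⟩, fun h ζ h1 => h ζ h1.1 h1.2⟩

/-- Tangent fields. -/
lemma frame [DecidableEq ι] : ∃ Z : ι → Der C Ω, (∀ j, Z j ∈ E) ∧
    (∀ j, dv m.q (Z j) = Pi.single j 1 - m.ν j • m.ν) ∧
    ∀ θ ∈ E, θ - ∑ j, θ (m.q j) • Z j ∈ m.D := by
  choose Z h1 h2 using fun j => m.surj (Pi.single j 1 - m.ν j • m.ν) (by simp [m.νν])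
  refine ⟨Z, h1, h2, fun θ hθ => ⟨sub_mem hθ (sum_mem fun j _ => E.smul_mem _ (h1 j)), ?_⟩⟩
  have := m.tan θ hθ
  rw [SetLike.mem_coe, LinearMap.mem_ker, map_sub, map_sum]
  simp only [map_smul, h2, smul_sub, Finset.sum_sub_distrib, smul_smul, ← Finset.sum_smul]
  rw [show ∑ j, θ (m.q j) * m.ν j = 0 by rw [← this, dotProduct_comm]; rfl, zero_smul, sub_zero]
  ext i
  simp [Pi.single_apply]

lemma tr_iff [CharZero Ω] : m.Tr ↔ ∃ θ : Der C Ω, m.ν ⬝ᵥ dv m.q θ ≠ 0 := by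
  classical
  refine ⟨fun h => ?_, fun ⟨θ, h⟩ => indep_of_dual fun j => ?_⟩
  · obtain ⟨θ, -, hθ⟩ := ext_indep ⊥ (indep_bot h) 0 m.ν
    exact ⟨θ, by rw [show dv m.q θ = m.ν from funext hθ, m.νν]; exact one_ne_zero⟩
  · obtain ⟨Z, -, h1⟩ := m.surj (Pi.single j 1 - (m.ν j / (m.ν ⬝ᵥ dv m.q θ)) • dv m.q θ)
      (by simp [h])
    have e : dv m.q (Z + (m.ν j / (m.ν ⬝ᵥ dv m.q θ)) • θ) = Pi.single j 1 := by
      rw [map_add, map_smul, h1, sub_add_cancel]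
    exact ⟨Z + (m.ν j / (m.ν ⬝ᵥ dv m.q θ)) • θ, (congrFun e j).trans_ne
      (by rw [Pi.single_eq_same]; exact one_ne_zero),
      fun i hi => (congrFun e i).trans (Pi.single_eq_of_ne hi _)⟩

lemma tan_of_alg [CharZero Ω] (h : ¬m.Tr) (θ : Der C Ω) : m.ν ⬝ᵥ dv m.q θ = 0 := by
  by_contra hn
  exact h (m.tr_iff.2 ⟨θ, hn⟩)

/-- A derivation that fixes the point fixes the normal. -/
lemma nu_aux [CharZero Ω] (h0 : dv m.q ζ = 0) (h : ∀ Z ∈ E, m.ν ⬝ᵥ dv m.q ⁅ζ, Z⁆ = 0) :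
    dv m.ν ζ = 0 := by
  refine eq_zero_of_par m.νν (v := m.ν) (by simp [m.νν]) (fun w hw => ?_)
    (by rw [dotProduct_comm]; exact unit_dot m.νν ζ)
  obtain ⟨Z, h1, rfl⟩ := m.surj w hw
  have a1 := dv_dot m.ν (dv m.q Z) ζ
  have a2 := h Z h1
  rw [m.tan Z h1, map_zero] at a1
  rw [dv_br, h0, dv_zero, sub_zero] at a2
  linear_combination -a1 - a2

lemma nu_D [CharZero Ω] (hE : Amb E) (h : ζ ∈ m.D) : dv m.ν ζ = 0 :=
  m.nu_aux h.2 fun _ hZ => m.tan _ (hE.br _ h.1 _ hZ)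

/-- Symmetry of the second fundamental form. -/
lemma II_symm (hE : Amb E) (h : θ ∈ E) (h' : φ ∈ E) :
    dv m.ν θ ⬝ᵥ dv m.q φ = dv m.ν φ ⬝ᵥ dv m.q θ := by
  have a1 := dv_dot m.ν (dv m.q φ) θ
  have a2 := dv_dot m.ν (dv m.q θ) φ
  have a3 := m.tan _ (hE.br _ h _ h')
  rw [m.tan _ h', map_zero] at a1
  rw [m.tan _ h, map_zero] at a2
  rw [dv_br, dotProduct_sub] at a3
  linear_combination a2 - a1 - a3

/-- The constants of the pencil are stable. -/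
lemma pres_KrD (hE : Amb E) (hZ : Z ∈ E) (h : ∀ j, Z (m.q j) ∈ KrS (m.D : Set (Der C Ω))) :
    Pres (KrS (m.D : Set (Der C Ω))) Z := fun f hf => m.mem_KrD.2 fun ζ h1 h2 => by
  have h3 := m.mem_KrD.1 hf _ (hE.br _ h1 _ hZ) (by
    rw [dv_br, h2, dv_zero, sub_zero]; exact funext fun j => m.mem_KrD.1 (h j) ζ h1 h2)
  rwa [br_apply, m.mem_KrD.1 hf ζ h1 h2, map_zero, sub_zero] at h3

lemma q_KrD (j : ι) : m.q j ∈ KrS (m.D : Set (Der C Ω)) := m.mem_KrD.2 fun _ _ h => congrFun h j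

lemma H_tr (h : m.Tr) : m.H = KrS (m.D : Set (Der C Ω)) := if_pos h

lemma H_alg (h : ¬m.Tr) : m.H = cl C (range m.q) := if_neg h

lemma qH (j : ι) : m.q j ∈ m.H := by
  by_cases h : m.Tr
  · rw [m.H_tr h]; exact m.q_KrD j
  · rw [m.H_alg h]; exact subset_cl _ ⟨j, rfl⟩

variable [CharZero Ω]

lemma H_le : m.H ≤ KrS (m.D : Set (Der C Ω)) := by
  by_cases h : m.Tr
  · rw [m.H_tr h]
  · rw [m.H_alg h]
    exact fun f hf => m.mem_KrD.2 fun ζ _ h2 => (kil_range.2 h2).cl f hf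

lemma kil_H (h : ζ ∈ m.D) : Kil (m.H : Set Ω) ζ := fun _ hf => mem_KrS.1 (m.H_le hf) ζ h

lemma cl_H : cl C (m.H : Set Ω) = m.H := by
  by_cases h : m.Tr
  · rw [m.H_tr h, cl_KrS]
  · rw [m.H_alg h, cl_cl]

lemma νH (hE : Amb E) (j : ι) : m.ν j ∈ m.H := by
  by_cases h : m.Tr
  · rw [m.H_tr h]; exact mem_KrS.2 fun ζ hζ => congrFun (m.nu_D hE hζ) j
  · rw [m.H_alg h]
    exact mem_cl_of_kil fun θ hθ =>
      congrFun (m.nu_aux (kil_range.1 hθ) fun _ _ => m.tan_of_alg h _) j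

lemma dat_H (hE : Amb E) : m.Dat m.H := ⟨subset_rfl, m.qH, m.νH hE⟩

lemma pres_H (hE : Amb E) (hZ : Z ∈ E) (h : ∀ j, Z (m.q j) ∈ m.H) : Pres m.H Z := by
  by_cases ht : m.Tr
  · rw [m.H_tr ht] at *; exact m.pres_KrD hE hZ h
  · rw [m.H_alg ht] at *; exact pres_cl (by rintro _ ⟨j, rfl⟩; exact h j)

/-- Tangent fields that preserve the field of the mirror. -/
lemma frame_H [DecidableEq ι] (hE : Amb E) : ∃ Z : ι → Der C Ω, (∀ j, Z j ∈ E) ∧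
    (∀ j, dv m.q (Z j) = Pi.single j 1 - m.ν j • m.ν) ∧ (∀ j, Pres m.H (Z j)) ∧
    (∀ j, Pres (KrS (m.D : Set (Der C Ω))) (Z j)) ∧
    ∀ θ ∈ E, ∀ f ∈ KrS (m.D : Set (Der C Ω)), θ f = ∑ j, θ (m.q j) * Z j f := by
  obtain ⟨Z, h1, h2, h3⟩ := m.frame
  have h4 : ∀ j i, Z j (m.q i) ∈ m.H := fun j i => by
    rw [show Z j (m.q i) = _ from congrFun (h2 j) i]
    exact sub_mem (by by_cases h : i = j <;> simp [h]) (mul_mem (m.νH hE j) (m.νH hE i))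
  refine ⟨Z, h1, h2, fun j => m.pres_H hE (h1 j) (h4 j),
    fun j => m.pres_KrD hE (h1 j) fun i => m.H_le (h4 j i), fun θ hθ f hf => ?_⟩
  simpa [H96.sum_apply, sub_eq_zero] using mem_KrS.1 hf _ (h3 θ hθ)

/-- The gradient of a function on the mirror. -/
lemma grad (hE : Amb E) {f : Ω} (hf : f ∈ KrS (m.D : Set (Der C Ω))) :
    ∃ g : ι → Ω, (∀ j, g j ∈ KrS (m.D : Set (Der C Ω))) ∧ (f ∈ m.H → ∀ j, g j ∈ m.H) ∧
      m.ν ⬝ᵥ g = 0 ∧ ∀ θ ∈ E, θ f = g ⬝ᵥ dv m.q θ := by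
  classical
  obtain ⟨Z, h1, h2, h3, h4, h5⟩ := m.frame_H hE
  refine ⟨fun j => Z j f, fun j => h4 j f hf, fun h j => h3 j f h, ?_, fun θ hθ => by
    rw [h5 θ hθ f hf, dotProduct_comm]; rfl⟩
  have := m.mem_KrD.1 hf (∑ j, m.ν j • Z j) (sum_mem fun j _ => E.smul_mem _ (h1 j)) (by
    simp only [map_sum, map_smul, h2, smul_sub, Finset.sum_sub_distrib, smul_smul,
      ← Finset.sum_smul]
    rw [show ∑ j, m.ν j * m.ν j = 1 from m.νν, one_smul]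
    ext i
    simp [Pi.single_apply])
  simpa [H96.sum_apply, dotProduct] using this

/-- A field containing `H` and `Z q` contains `Z H`. -/
lemma stab_H (hE : Amb E) (hZ : Z ∈ E) {K : IntermediateField C Ω} (hK : m.H ≤ K)
    (h : ∀ j, Z (m.q j) ∈ K) {f : Ω} (hf : f ∈ m.H) : Z f ∈ K := by
  obtain ⟨g, -, g1, -, g2⟩ := m.grad hE (m.H_le hf)
  rw [g2 Z hZ]
  exact dot_mem (fun j => hK (g1 hf j)) h

lemma tan_alg (h : ¬m.Tr) (θ : Der C Ω) : m.Tan θ := by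
  obtain ⟨Z, h1, h2⟩ := m.surj _ (m.tan_of_alg h θ)
  exact ⟨Z, h1, by rw [m.H_alg h]; exact (agr_range.2 h2.symm).cl⟩

omit [CharZero Ω] in
lemma tan_of_tanS (hq : ∀ j, m.q j ∈ S) (h : TanS E S θ) : m.ν ⬝ᵥ dv m.q θ = 0 := by
  obtain ⟨Z, h1, h2⟩ := h
  rw [show dv m.q θ = dv m.q Z from funext fun j => h2 _ (hq j), m.tan Z h1]

/-- A tangent derivation that fixes the point kills the data of the mirror. -/
lemma kil_of_tanS (hS : S ⊆ m.H) (hq : ∀ j, m.q j ∈ S) (h : TanS E S θ) (h0 : dv m.q θ = 0) :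
    Kil S θ := fun f hf => by
  obtain ⟨Z, h1, h2⟩ := h
  rw [h2 f hf]
  exact m.kil_H (m.mem_D.2 ⟨h1, h0 ▸ funext fun j => (h2 _ (hq j)).symm⟩) f (hS hf)

lemma Tan.br {m : Pt E ι} (hE : Amb E) (h : m.Tan θ) (h' : m.Tan φ) : m.Tan ⁅θ, φ⁆ := by
  classical
  obtain ⟨Z, h1, -, h3, -, h5⟩ := m.frame_H hE
  obtain ⟨X, x1, x2⟩ := h
  obtain ⟨Y, y1, y2⟩ := h'
  refine ⟨⁅X, Y⁆ + ∑ j, ((θ - X) (Y (m.q j)) - (φ - Y) (X (m.q j))) • Z j,
    add_mem (hE.br _ x1 _ y1) (sum_mem fun j _ => E.smul_mem _ (h1 j)), fun f hf => ?_⟩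
  have key : ∀ θ X Y : Der C Ω, Agr (m.H : Set Ω) θ X → Y ∈ E →
      θ (Y f) = X (Y f) + ∑ j, (θ - X) (Y (m.q j)) * Z j f := fun θ X Y h hY => by
    rw [h5 Y hY f (m.H_le hf)]
    simp only [map_sum, Derivation.leibniz, smul_eq_mul, Derivation.sub_apply,
      fun j => h _ (h3 j f hf), ← Finset.sum_add_distrib]
    exact Finset.sum_congr rfl fun _ _ => by ring
  rw [br_apply, x2 f hf, y2 f hf, key θ X Y x2 y1, key φ Y X y2 x1]
  simp only [Derivation.add_apply, br_apply, H96.sum_apply, Derivation.smul_apply, smul_eq_mul,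
    sub_mul, Finset.sum_sub_distrib]
  ring

omit [CharZero Ω] in
/-- The exterior derivative of a basic form with coefficients in `H`. -/
lemma dd_tan {κ : Type} [Fintype κ] {ω : Fm C Ω} {a b : κ → Ω} (ha : ∀ i, a i ∈ m.H)
    (hb : ∀ i, b i ∈ m.H) (h : ∀ θ, ω θ = ∑ i, a i * θ (b i))
    (h0 : ∀ Z ∈ E, ∀ θ, dd ω Z θ = 0) (hθ : m.Tan θ) (φ : Der C Ω) : dd ω θ φ = 0 := by
  obtain ⟨Z, h1, h2⟩ := hθ
  rw [← h0 Z h1 φ, dd_rep h, dd_rep h]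
  exact Finset.sum_congr rfl fun i _ => by rw [h2 _ (ha i), h2 _ (hb i)]

/-- A mirror with constant normal is a hyperplane. -/
lemma not_tr_of_flat (hE : Amb E) (h : ∀ Z ∈ E, dv m.ν Z = 0) : ¬m.Tr := fun ht => by
  obtain ⟨θ, hθ⟩ := m.tr_iff.1 ht
  have k : ∀ f, (∀ Z ∈ E, Z f = 0) → θ f = 0 := fun f hf => by
    obtain ⟨c, rfl⟩ := mem_bot.1 (hE.const f hf)
    exact θ.map_algebraMap c
  have h1 := k (m.ν ⬝ᵥ m.q) fun Z hZ => by rw [dv_dot, h Z hZ, m.tan Z hZ]; simp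
  rw [dv_dot, show dv m.ν θ = 0 from funext fun j => k _ fun Z hZ => congrFun (h Z hZ) j] at h1
  exact hθ (by simpa using h1)

end Pt

/-- Common functions on two mirrors in general position are constant. -/
lemma Gen.cap [CharZero Ω] {m m' : Pt E ι} (h : Gen m m') (hE : Amb E) {f : Ω}
    (hf : f ∈ KrS (m.D : Set (Der C Ω))) (hf' : f ∈ KrS (m'.D : Set (Der C Ω))) :
    f ∈ (⊥ : IntermediateField C Ω) := by
  obtain ⟨g, g1, -, g2, g3⟩ := m.grad hE hf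
  have := h (LinearMap.ker (dotProductBilin Ω Ω g)) (fun ζ hζ w hw => by
    have e := dv_dot g w ζ
    rw [show g ⬝ᵥ w = 0 from hw, map_zero,
      show dv g ζ = 0 from funext fun j => mem_KrS.1 (g1 j) ζ hζ] at e
    simpa using e.symm) (by simpa [dotProduct_comm] using g2)
    fun θ hθ => (g3 θ hθ.1).symm.trans (mem_KrS.1 hf' θ hθ)
  exact hE.const f fun θ hθ => (g3 θ hθ).trans (this.ge Submodule.mem_top)

namespace On

variable {m : Pt E ι} {l : Ln E ι} (h : On m l) {θ φ Z : Der C Ω}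
include h

lemma dq (θ : Der C Ω) :
    dv m.q θ = dv l.x θ + θ (m.q ⬝ᵥ l.u) • l.u + (m.q ⬝ᵥ l.u) • dv l.u θ := by
  conv_lhs => rw [h.eq]
  rw [dv_add, dv_smul, add_assoc]

lemma x_eq : l.x = m.q - (m.q ⬝ᵥ l.u) • l.u := eq_sub_of_add_eq h.eq.symm

lemma neg : On m l.neg := ⟨by simpa [Ln.neg] using h.eq, by simpa [Ln.neg] using h.c0⟩

/-- The point and the direction determine the line. -/
lemma kil_line (h1 : dv m.q θ = 0) (h2 : dv l.u θ = 0) : Kil l.S θ :=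
  l.kil_iff.2 ⟨h2, by rw [h.x_eq, dv_sub, dv_smul, dv_dot, h1, h2]; simp⟩

/-- The line determines the point. -/
lemma kil_pt (h1 : Kil l.S θ) (h2 : m.ν ⬝ᵥ dv m.q θ = 0) : dv m.q θ = 0 := by
  have e := h.dq θ
  rw [(l.kil_iff.1 h1).1, (l.kil_iff.1 h1).2, zero_add, smul_zero, add_zero] at e
  rw [e, dotProduct_smul, smul_eq_mul, mul_eq_zero, or_iff_left h.c0] at h2
  rw [e, h2, zero_smul]

lemma inj (hθ : θ ∈ E) (h1 : dv m.q θ = 0) (h2 : dv l.u θ = 0) : θ = 0 :=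
  l.eq_zero hθ (h.kil_line h1 h2)

/-- Prescribing the motion of the point and of the direction. -/
lemma surj {w a : ι → Ω} (hw : m.ν ⬝ᵥ w = 0) (ha : a ⬝ᵥ l.u = 0) :
    ∃ θ ∈ E, dv m.q θ = w ∧ dv l.u θ = a := by
  obtain ⟨θ, h1, h2, h3⟩ := l.surj a (w - (m.q ⬝ᵥ l.u) • a - (w ⬝ᵥ l.u + l.x ⬝ᵥ a) • l.u) ha
    (by simp [ha, l.uu])
  refine ⟨θ, h1, ?_, h2⟩
  have e := h.dq θ
  rw [h2, h3] at e
  have e1 : dv m.q θ = w + (θ (m.q ⬝ᵥ l.u) - (w ⬝ᵥ l.u + l.x ⬝ᵥ a)) • l.u := by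
    rw [e, sub_smul]; abel
  have e2 := m.tan θ h1
  rw [e1, dotProduct_add, hw, zero_add, dotProduct_smul, smul_eq_mul, mul_eq_zero,
    or_iff_left h.c0] at e2
  rw [e1, e2, zero_smul, add_zero]

/-- The pencil moves the direction freely. -/
lemma pen {a : ι → Ω} (ha : a ⬝ᵥ l.u = 0) : ∃ ζ ∈ m.D, dv l.u ζ = a := by
  obtain ⟨θ, h1, h2, h3⟩ := h.surj (w := 0) (by simp) ha
  exact ⟨θ, ⟨h1, h2⟩, h3⟩

/-- The pencil moves the tangential part of the direction freely. -/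
lemma pen' [CharZero Ω] (hE : Amb E) {w : ι → Ω} (hw : m.ν ⬝ᵥ w = 0) :
    ∃ ζ ∈ m.D, dv (l.u - (m.ν ⬝ᵥ l.u) • m.ν) ζ = w := by
  obtain ⟨ζ, h1, h2⟩ := h.pen (a := w - (w ⬝ᵥ l.u / (m.ν ⬝ᵥ l.u)) • m.ν) (by simp [h.c0])
  refine ⟨ζ, h1, ?_⟩
  rw [dv_sub, dv_smul, dv_dot, m.nu_D hE h1, h2]
  simp [hw, m.νν]

lemma sym_eq [CharZero Ω] (θ φ : Der C Ω) :
    l.sym θ φ = dv l.u θ ⬝ᵥ dv m.q φ - dv l.u φ ⬝ᵥ dv m.q θ := by
  rw [h.dq, h.dq, Ln.sym]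
  simp only [dotProduct_add, dotProduct_smul, unit_dot l.uu, dotProduct_comm (dv l.u φ) (dv l.u θ)]
  ring

/-- The motion of the point in terms of the motion of the line. -/
lemma dq_mem {K : IntermediateField C Ω} (hq : ∀ j, m.q j ∈ K) (hν : ∀ j, m.ν j ∈ K)
    (hl : l.S ⊆ K) (h0 : m.ν ⬝ᵥ dv m.q θ = 0) (hθ : ∀ f ∈ l.S, θ f ∈ K) (j : ι) :
    θ (m.q j) ∈ K := by
  have hu : ∀ j, l.u j ∈ K := fun j => hl (l.u_mem j)
  have e := h.dq θ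
  have e1 : θ (m.q ⬝ᵥ l.u) =
      -(m.ν ⬝ᵥ dv l.x θ + (m.q ⬝ᵥ l.u) * (m.ν ⬝ᵥ dv l.u θ)) / (m.ν ⬝ᵥ l.u) := by
    rw [e] at h0
    simp only [dotProduct_add, dotProduct_smul, smul_eq_mul] at h0
    rw [eq_div_iff h.c0]
    linear_combination h0
  rw [show θ (m.q j) = _ from congrFun e j, e1]
  exact add_mem (add_mem (hθ _ (l.x_mem j)) (mul_mem (div_mem (neg_mem (add_mem
    (dot_mem hν fun j => hθ _ (l.x_mem j)) (mul_mem (dot_mem hq hu)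
      (dot_mem hν fun j => hθ _ (l.u_mem j))))) (dot_mem hν hu)) (hu j)))
    (mul_mem (dot_mem hq hu) (hθ _ (l.u_mem j)))

/-- A generic direction is not asymptotic. -/
lemma II_ne [CharZero Ω] (hE : Amb E) (ht : m.Tr) (hZ : Z ∈ E)
    (hv : dv m.q Z = l.u - (m.ν ⬝ᵥ l.u) • m.ν) : dv m.ν Z ⬝ᵥ dv m.q Z ≠ 0 := fun h0 => by
  classical
  choose g g1 _ _ g4 using fun j => m.grad hE (m.H_le (m.νH hE j))
  have e : ∀ X ∈ E, ∀ w, dv m.ν X ⬝ᵥ w = ∑ j, g j ⬝ᵥ dv m.q X * w j := fun X hX w =>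
    Finset.sum_congr rfl fun j _ => by rw [← g4 j X hX]; rfl
  have d : ∀ ζ ∈ m.D, ∀ a b : ι → Ω, ζ (∑ j, g j ⬝ᵥ a * b j) =
      ∑ j, g j ⬝ᵥ dv a ζ * b j + ∑ j, g j ⬝ᵥ a * dv b ζ j := fun ζ hζ a b => by
    rw [map_sum, ← Finset.sum_add_distrib]
    refine Finset.sum_congr rfl fun j _ => ?_
    rw [Derivation.leibniz, dv_dot, show dv (g j) ζ = 0 from funext fun i => mem_KrS.1 (g1 j i) ζ hζ]
    simp; ring
  obtain ⟨Y, y1, y2, -⟩ := m.frame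
  have a1 : ∀ X ∈ E, dv m.ν X ⬝ᵥ dv m.q Z = 0 := fun X hX => by
    obtain ⟨ζ, z1, z2⟩ := h.pen' hE (m.tan X hX)
    have := d ζ z1 (dv m.q Z) (dv m.q Z)
    rw [← e Z hZ, h0, map_zero, hv, z2, ← hv, ← e X hX] at this
    have e2 := e Z hZ (dv m.q X)
    rw [← m.II_symm hE hX hZ] at e2
    linear_combination (-1 / 2 : Ω) * this + (1 / 2 : Ω) * e2
  refine m.not_tr_of_flat hE (fun X hX => ?_) ht
  refine eq_zero_of_par m.νν (v := m.ν) (by simp [m.νν]) (fun w hw => ?_)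
    (by rw [dotProduct_comm]; exact unit_dot m.νν X)
  obtain ⟨ζ, z1, z2⟩ := h.pen' hE hw
  have a2 : ∀ i, dv m.ν (Y i) ⬝ᵥ w = 0 := fun i => by
    have := d ζ z1 (dv m.q (Y i)) (dv m.q Z)
    rw [← e _ (y1 i), a1 _ (y1 i), map_zero, hv, z2, ← e _ (y1 i), y2, dv_sub, dv_smul, dv_single,
      m.nu_D hE z1, show ζ (m.ν i) = 0 from congrFun (m.nu_D hE z1) i] at this
    simpa using this.symm
  obtain ⟨W, w1, rfl⟩ := m.surj w hw
  rw [m.II_symm hE hX w1, eq_zero_of_par m.νν (v := m.ν) (g := dv m.ν W) (by simp [m.νν])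
    (fun w' hw' => ?_) (by rw [dotProduct_comm]; exact unit_dot m.νν W), zero_dotProduct]
  have a3 : ∀ i, dv m.ν W i = 0 := fun i => by
    have := a2 i
    rw [m.II_symm hE (y1 i) w1, y2] at this
    simpa [unit_dot m.νν] using this
  rw [show dv m.ν W = 0 from funext a3, zero_dotProduct]

end On

namespace Refl

variable {m : Pt E ι} {l l' : Ln E ι} (h : Refl m l l') {θ φ : Der C Ω}
include h

lemma c_eq : m.ν ⬝ᵥ l'.u = -(m.ν ⬝ᵥ l.u) := by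
  rw [h.eq, dotProduct_sub, dotProduct_smul, m.νν, smul_eq_mul]; ring

lemma symm : Refl m l' l := ⟨h.on', h.on, by rw [h.c_eq, h.eq]; ext; simp⟩

lemma neg : Refl m l'.neg l.neg :=
  ⟨h.on'.neg, h.on.neg, by simp only [Ln.neg, dotProduct_neg, h.symm.eq]; ext; simp; ring⟩

lemma du (θ : Der C Ω) : dv l'.u θ = dv l.u θ - (2 * (dv m.ν θ ⬝ᵥ l.u + m.ν ⬝ᵥ dv l.u θ)) • m.ν -
    (2 * (m.ν ⬝ᵥ l.u)) • dv m.ν θ := by
  rw [h.eq, dv_sub, dv_smul, ← dv_dot, sub_sub]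
  simp [der_two]

/-- Invariance of the two-form. -/
lemma sym_eq [CharZero Ω] (hE : Amb E) (hθ : θ ∈ E) (hφ : φ ∈ E) : l'.sym θ φ = l.sym θ φ := by
  rw [h.on.sym_eq, h.on'.sym_eq, h.du, h.du]
  simp only [sub_dotProduct, smul_dotProduct, m.tan _ hθ, m.tan _ hφ, m.II_symm hE hθ hφ]
  ring

/-- Propagation through a mirror. -/
lemma kil [CharZero Ω] {S : Set Ω} (hS : m.Dat S) (ht : TanS E S θ) (h0 : Kil l.S θ) :
    Kil S θ ∧ Kil l'.S θ := by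
  have h1 := h.on.kil_pt h0 (m.tan_of_tanS hS.q ht)
  have h2 := m.kil_of_tanS hS.le hS.q ht h1
  refine ⟨h2, h.on'.kil_line h1 ?_⟩
  rw [h.du, (l.kil_iff.1 h0).1, show dv m.ν θ = 0 from funext fun j => h2 _ (hS.ν j)]
  simp

lemma line_mem {K : IntermediateField C Ω} (hq : ∀ j, m.q j ∈ K) (hν : ∀ j, m.ν j ∈ K)
    (hu : ∀ j, l.u j ∈ K) : l'.S ⊆ K := by
  have h1 : ∀ j, l'.u j ∈ K := fun j => by
    rw [h.eq]; exact sub_mem (hu j) (mul_mem (mul_mem (ofNat_mem _ 2) (dot_mem hν hu)) (hν j))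
  rintro _ (⟨j, rfl⟩ | ⟨j, rfl⟩)
  · exact h1 j
  · rw [h.on'.x_eq]; exact sub_mem (hq j) (mul_mem (dot_mem hq h1) (h1 j))

/-- The derivative of the delay at a mirror. -/
lemma ddel [CharZero Ω] (θ : Der C Ω) : θ (m.q ⬝ᵥ (l.u - l'.u)) =
    2 * (m.ν ⬝ᵥ l.u) * (m.ν ⬝ᵥ dv m.q θ) + (l.x ⬝ᵥ dv l.u θ - l'.x ⬝ᵥ dv l'.u θ) := by
  have k : ∀ l : Ln E ι, On m l → m.q ⬝ᵥ dv l.u θ = l.x ⬝ᵥ dv l.u θ := fun l h => by
    rw [h.x_eq, sub_dotProduct, smul_dotProduct, dotProduct_comm l.u, unit_dot l.uu]; simp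
  rw [dv_dot, dv_sub, dotProduct_sub m.q, k l h.on, k l' h.on',
    show l.u - l'.u = (2 * (m.ν ⬝ᵥ l.u)) • m.ν by rw [h.eq, sub_sub_cancel],
    dotProduct_smul, dotProduct_comm _ m.ν]
  rfl

end Refl

end Pool.Agent.MP_249f74_an.H90
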