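import Pool.Agent.MP_249f74_an.H90.Spec

/-!
Closed chains of algebraic mirrors that are not circular have delay zero.
-/

open Set MvPolynomial

namespace Pool.Agent.MP_249f74_an.H90

namespace Alg

open H97 (rk cl Q top hz mem_cl subset_cl rk_le_of_cl rk_mono rk_union_le rk_insert rk_range_le
  rk_range_lt rk_le_image rk_image_le rk_image_lt inv_mem_cl root_mem_cl map_hz hz_eq hz_zero
  aeval_Q prime_Q dvd_of_generic)

variable {C K ι : Type} [Field C] [Field K] [Algebra C K] [Fintype ι] {m : ℕ}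

/-- The top form does not vanish at generic isotropic vectors. -/
def Top (m : ℕ) (P : MvPolynomial ι C) : Prop :=
  P ≠ 0 ∧ ∀ (R : Type) [Field R] [Algebra C R] (w : ι → R), w ⬝ᵥ w = 0 →
    (m : ℕ∞) ≤ rk C (range w) → aeval w (top P) ≠ 0

lemma aeval_Q' {A : Type} [CommRing A] [Algebra C A] (x : ι → A) : aeval x (Q C ι) = x ⬝ᵥ x := by
  rw [aeval_Q]
  simp only [dotProduct, pow_two]

lemma Q_ne (hm : Fintype.card ι = m + 1) : Q C ι ≠ 0 := fun h => by
  classical
  obtain ⟨j⟩ : Nonempty ι := Fintype.card_pos_iff.1 (by omega)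
  have := aeval_Q' (C := C) (Pi.single j (1 : C))
  rw [h] at this
  simp at this

lemma rk_left {A : Type} [CommRing A] [IsDomain A] [Algebra C A] (hm : Fintype.card ι = m + 1)
    {x y : ι → A} (hg : (2 * m : ℕ) ≤ rk C (range x ∪ range y)) {T : MvPolynomial ι C}
    (hT : T ≠ 0) (hy : aeval y T = 0) : (m : ℕ∞) ≤ rk C (range x) := by
  have h1 := rk_range_lt hT hy
  have h2 := rk_union_le (k := C) (range x) (range y)
  rw [hm] at h1
  generalize rk C (range x) = a at *
  generalize rk C (range y) = b at *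
  generalize rk C (range x ∪ range y) = c at *
  enat_to_nat
  omega

lemma dot_map {A A' : Type} [CommRing A] [CommRing A'] [Algebra C A] [Algebra C A']
    (f : A →ₐ[C] A') (p q : ι → A) : (f ∘ p) ⬝ᵥ (f ∘ q) = f (p ⬝ᵥ q) := by
  simp [dotProduct]

omit [Fintype ι] in
lemma ev_map {A A' : Type} [CommRing A] [CommRing A'] [Algebra C A] [Algebra C A']
    (f : A →ₐ[C] A') (p : ι → A) (P : MvPolynomial ι C) : aeval (f ∘ p) P = f (aeval p P) :=
  (comp_aeval_apply p f P).symm

lemma dot_cl {A : Type} [CommRing A] [IsDomain A] [Algebra C A] {s : Set A} {p q : ι → A}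
    (hp : ∀ j, p j ∈ cl C s) (hq : ∀ j, q j ∈ cl C s) : p ⬝ᵥ q ∈ cl C s :=
  sum_mem fun j _ => mul_mem (hp j) (hq j)

section Place

variable {B R : Type} [CommRing B] [IsDomain B] [Field R] [Algebra C B] [Algebra C R]

/-- A place of `K` over `C`. -/
structure Pl (f : B →ₐ[C] K) (φ : B →ₐ[C] R) : Prop where
  inj : Function.Injective f
  val : ∀ r : K, (∃ b, f b = r) ∨ ∃ s, f s * r = 1 ∧ φ s = 0

/-- The point and the direction are finite at the place, the residue of the direction is isotropic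
and the residues are generic. -/
def Gd (f : B →ₐ[C] K) (φ : B →ₐ[C] R) (m : ℕ) (p v : ι → K) : Prop :=
  ∃ a w : ι → B, f ∘ a = p ∧ f ∘ w = v ∧ (φ ∘ w) ⬝ᵥ (φ ∘ w) = 0 ∧
    (2 * m : ℕ) ≤ rk C (range (φ ∘ a) ∪ range (φ ∘ w))

variable {f : B →ₐ[C] K} {φ : B →ₐ[C] R} {P P' : MvPolynomial ι C} {p v : ι → K}

omit [IsDomain B] in
lemma Pl.move (h : Pl f φ) (hm : Fintype.card ι = m + 1) (hP : Top m P) (hP' : Top m P')
    (hg : Gd f φ m p v) (hp : aeval p P = 0) {r : K} (hr : aeval (p + r • v) P' = 0) :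
    (∃ b, f b = r) ∧ Gd f φ m (p + r • v) v := by
  obtain ⟨a, w, rfl, rfl, hw, hg⟩ := hg
  have ha : aeval (φ ∘ a) P = 0 := by
    rw [ev_map, h.inj ((ev_map f a P).symm.trans (hp.trans (map_zero f).symm)), map_zero]
  have h1 : (m : ℕ∞) ≤ rk C (range (φ ∘ w)) := rk_left hm (union_comm _ _ ▸ hg) hP.1 ha
  rcases h.val r with ⟨b, rfl⟩ | ⟨s, h2, h3⟩
  · refine ⟨⟨b, rfl⟩, a + b • w, w, by ext; simp, rfl, hw, hg.trans (rk_le_of_cl ?_)⟩
    have h4 : -φ b ∈ cl C (range (φ ∘ (a + b • w)) ∪ range (φ ∘ w)) := by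
      refine root_mem_cl (a := φ ∘ (a + b • w)) (b := φ ∘ w) (fun i => subset_cl (Or.inl ⟨i, rfl⟩))
        (fun i => subset_cl (Or.inr ⟨i, rfl⟩)) (hP.2 R _ hw h1) ?_
      rw [← ha]
      congr 2
      ext j
      simp
    rintro x (⟨i, rfl⟩ | ⟨i, rfl⟩)
    · rw [show (φ ∘ a) i = (φ ∘ (a + b • w)) i + -φ b * (φ ∘ w) i by simp]
      exact add_mem (subset_cl (Or.inl ⟨i, rfl⟩)) (mul_mem h4 (subset_cl (Or.inr ⟨i, rfl⟩)))
    · exact subset_cl (Or.inr ⟨i, rfl⟩)
  · have h4 : hz P' s a w = 0 := h.inj (by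
      rw [map_hz, hz_eq P' h2, map_zero]
      exact mul_eq_zero_of_right _ hr)
    have h5 := map_hz φ P' s a w
    rw [h4, map_zero, h3, hz_zero] at h5
    exact absurd h5.symm (hP'.2 R _ hw h1)

omit [Fintype ι] in
/-- If the rank does not drop, the algebraic closure is finite at the place. -/
lemma Pl.lift (h : Pl f φ) {s : Set B} (h1 : rk C (f '' s) ≤ m) (h2 : (m : ℕ∞) ≤ rk C (φ '' s))
    {y : K} (hy : y ∈ cl C (f '' s)) : ∃ b, f b = y ∧ φ b ∈ cl C (φ '' s) := by
  have key : ∀ b, f b ∈ cl C (f '' s) → rk C (insert b s) ≤ m := fun b hb => by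
    refine (rk_le_image f h.inj.injOn).trans ((rk_le_of_cl ?_).trans h1)
    rintro _ ⟨x, rfl | hx, rfl⟩
    · exact hb
    · exact subset_cl (mem_image_of_mem f hx)
  rcases h.val y with ⟨b, rfl⟩ | ⟨b, h3, h4⟩
  · refine ⟨b, rfl, ?_⟩
    by_contra hn
    have h5 := (rk_image_le φ (insert b s)).trans (key b hy)
    rw [image_insert_eq, rk_insert hn] at h5
    generalize rk C (φ '' s) = c at *
    enat_to_nat
    omega
  · have h5 := (rk_image_lt φ (s := insert b s) (subset_cl (mem_insert _ _))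
      (by rintro rfl; simp at h3) h4).trans
      (key b (by rw [eq_inv_of_mul_eq_one_left h3]; exact inv_mem_cl hy))
    have h6 := h2.trans (rk_mono (k := C) (image_mono (f := φ) (subset_insert b s)))
    generalize rk C (φ '' insert b s) = c at *
    enat_to_nat
    omega

lemma Pl.reflect (h : Pl f φ) (hm : Fintype.card ι = m + 1) (hP : P ≠ 0) (hg : Gd f φ m p v)
    (hp : aeval p P = 0) {ν : ι → K} (h1 : ν ⬝ᵥ ν = 1) (h2 : ∀ j, ν j ∈ cl C (range p)) :
    Gd f φ m p (v - (2 * (ν ⬝ᵥ v)) • ν) := by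
  obtain ⟨a, w, rfl, rfl, hw, hg⟩ := hg
  have h3 : (m : ℕ∞) ≤ rk C (range (φ ∘ a)) := rk_left hm hg (Q_ne hm) (by rw [aeval_Q', hw])
  have h4 : rk C (range (f ∘ a)) ≤ m := by
    have := rk_range_lt hP hp
    rw [hm] at this
    generalize rk C (range (f ∘ a)) = c at *
    enat_to_nat
    omega
  rw [range_comp] at h2 h3 h4
  choose n h5 h6 using fun j => h.lift h4 h3 (h2 j)
  obtain rfl : f ∘ n = ν := funext h5
  rw [← range_comp] at h6
  replace h6 : ∀ j, (φ ∘ n) j ∈ cl C (range (φ ∘ a)) := h6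
  have h7 : (φ ∘ n) ⬝ᵥ (φ ∘ n) = 1 := by
    rw [dot_map, h.inj ((dot_map f n n).symm.trans (h1.trans (map_one f).symm)), map_one]
  have h8 : φ ∘ (w - (2 * (n ⬝ᵥ w)) • n) = φ ∘ w - (2 * ((φ ∘ n) ⬝ᵥ (φ ∘ w))) • (φ ∘ n) := by
    rw [dot_map]
    ext
    simp [map_ofNat]
  refine ⟨a, w - (2 * (n ⬝ᵥ w)) • n, rfl, ?_, ?_, hg.trans (rk_le_of_cl ?_)⟩
  · rw [dot_map]
    ext
    simp [map_ofNat]
  · rw [h8]
    simp only [dotProduct_sub, sub_dotProduct, dotProduct_smul, smul_dotProduct, smul_eq_mul, hw,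
      h7, dotProduct_comm (φ ∘ w) (φ ∘ n)]
    ring
  · rw [h8]
    generalize φ ∘ n = n' at *
    generalize φ ∘ w = w' at *
    have k1 : ∀ j, n' j ∈ cl C (range (φ ∘ a) ∪ range (w' - (2 * (n' ⬝ᵥ w')) • n')) := fun j =>
      H97.cl_le (fun x hx => subset_cl (Or.inl hx)) (h6 j)
    have k2 : ∀ j, (w' - (2 * (n' ⬝ᵥ w')) • n') j ∈
        cl C (range (φ ∘ a) ∪ range (w' - (2 * (n' ⬝ᵥ w')) • n')) := fun j =>
      subset_cl (Or.inr ⟨j, rfl⟩)
    rintro x (⟨i, rfl⟩ | ⟨i, rfl⟩)
    · exact subset_cl (Or.inl ⟨i, rfl⟩)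
    · have k3 : w' i = (w' - (2 * (n' ⬝ᵥ w')) • n') i -
          2 * (n' ⬝ᵥ (w' - (2 * (n' ⬝ᵥ w')) • n')) * n' i := by
        simp only [dotProduct_sub, dotProduct_smul, smul_eq_mul, h7, Pi.sub_apply, Pi.smul_apply]
        ring
      rw [k3]
      exact sub_mem (k2 i) (mul_mem (mul_mem (ofNat_mem _ 2) (dot_cl k1 k2)) (k1 i))

end Place

omit [Fintype ι] in
lemma exists_place {s : Set K} {z : K} (hz : z ∉ cl C s) : ∃ V : ValuationSubring K,
    (∀ x ∈ IntermediateField.adjoin C s, x ∈ V) ∧ z ∈ V.nonunits := by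
  let F := IntermediateField.adjoin C s
  let A := (Algebra.adjoin F {z}).toSubring
  have hzA : z ∈ A := Algebra.subset_adjoin rfl
  have hI : Ideal.span {(⟨z, hzA⟩ : A)} ≠ ⊤ := by
    rw [Ne, Ideal.span_singleton_eq_top, isUnit_iff_exists_inv]
    rintro ⟨⟨y, hy⟩, h1⟩
    have h2 : z * y = 1 := congrArg Subtype.val h1
    have hy' : y ∈ Algebra.adjoin F {z} := hy
    rw [Algebra.adjoin_singleton_eq_range_aeval] at hy'
    obtain ⟨q, rfl⟩ := hy'
    refine hz (mem_cl.2 (IntermediateField.isAlgebraic_adjoin_iff.1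
      ⟨Polynomial.X * q - 1, fun h0 => ?_, ?_⟩))
    · simpa using congrArg (Polynomial.eval 0) h0
    · rw [map_sub, map_mul, Polynomial.aeval_X, map_one, sub_eq_zero]
      exact h2
  obtain ⟨V, h1, h2⟩ := Ideal.image_subset_nonunits_valuationSubring _ hI
  exact ⟨V, fun x hx => h1 ((Algebra.adjoin F {z}).algebraMap_mem ⟨x, hx⟩),
    h2 ⟨_, Ideal.mem_span_singleton_self _, rfl⟩⟩

/-- The starting place: the direction becomes a generic isotropic vector. -/
lemma exists_start (e : Fin (m + 1) ≃ ι) {P : MvPolynomial ι C} (hP : P ≠ 0) {p u : ι → K} {z : K}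
    (hz : z ∉ cl C (range p ∪ range u)) (hp : aeval p P = 0) (hu : u ⬝ᵥ u = 1)
    (hg : (2 * m : ℕ) ≤ rk C (range p ∪ range u)) :
    ∃ V : ValuationSubring K, z ∈ V.nonunits ∧ (∀ j, z * u j ∈ V) ∧
      (∀ x ∈ IntermediateField.adjoin C (range p ∪ range fun j : Fin m => z * u (e j.succ)),
        x ∈ V) ∧ (2 * m : ℕ) ≤ rk C (range p ∪ range fun j : Fin m => z * u (e j.succ)) := by
  have hm : Fintype.card ι = m + 1 := by rw [← Fintype.card_congr e, Fintype.card_fin]
  have hu' : u (e 0) ^ 2 = 1 - ∑ j : Fin m, u (e j.succ) ^ 2 := by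
    rw [← hu, dotProduct, ← e.sum_comp, Fin.sum_univ_succ]
    simp only [pow_two]
    ring
  have hz0 : z ≠ 0 := fun h => hz (h ▸ zero_mem _)
  set s := range p ∪ range fun j : Fin m => z * u (e j.succ) with hs
  have h1 : rk C (insert z (range p ∪ range u)) ≤ rk C (insert z s) := by
    have hz1 : z ∈ cl C (insert z s) := subset_cl (mem_insert _ _)
    have h2 : ∀ j : Fin m, u (e j.succ) ∈ cl C (insert z s) := fun j => by
      have := mul_mem (inv_mem_cl hz1)
        (subset_cl (mem_insert_of_mem z (mem_union_right (range p) (mem_range_self j))))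
      rwa [inv_mul_cancel_left₀ hz0] at this
    have h3 : u (e 0) ^ 2 ∈ cl C (insert z s) := by
      rw [hu']
      exact sub_mem (one_mem _) (sum_mem fun j _ => pow_mem (h2 j) 2)
    refine rk_le_of_cl ?_
    rintro x (rfl | ⟨j, rfl⟩ | ⟨j, rfl⟩)
    · exact hz1
    · exact subset_cl (mem_insert_of_mem z (mem_union_left _ (mem_range_self j)))
    · obtain ⟨j, rfl⟩ := e.surjective j
      refine Fin.cases ?_ h2 j
      exact mem_cl.2 ((mem_cl.1 h3).of_pow two_pos)
  have h2 : rk C s ≤ (2 * m : ℕ) := by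
    have h3 := rk_range_lt hP hp
    have h4 := rk_range_le (k := C) fun j : Fin m => z * u (e j.succ)
    have h5 : rk C s ≤ _ := rk_union_le _ _
    rw [hm] at h3
    rw [Fintype.card_fin] at h4
    generalize rk C (range fun j : Fin m => z * u (e j.succ)) = a at *
    generalize rk C (range p) = b at *
    generalize rk C s = c at *
    clear * - h3 h4 h5
    enat_to_nat
    omega
  rw [rk_insert hz] at h1
  have h3 : z ∉ cl C s := fun h => by
    have h4 : rk C (insert z s) ≤ rk C s := rk_le_of_cl <| by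
      rintro x (rfl | hx)
      · exact h
      · exact subset_cl hx
    generalize rk C (insert z s) = a at *
    generalize rk C (range p ∪ range u) = b at *
    generalize rk C s = c at *
    clear * - h1 h2 h4 hg
    enat_to_nat
    omega
  obtain ⟨V, h4, h5⟩ := exists_place h3
  have h6 : ∀ j : Fin m, z * u (e j.succ) ∈ V := fun j =>
    h4 _ (IntermediateField.subset_adjoin _ _ (mem_union_right _ (mem_range_self j)))
  refine ⟨V, h5, fun j => ?_, h4, ?_⟩
  · obtain ⟨j, rfl⟩ := e.surjective j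
    refine Fin.cases ?_ h6 j
    have h7 : (z * u (e 0)) ^ 2 = z ^ 2 - ∑ j : Fin m, (z * u (e j.succ)) ^ 2 := by
      simp only [mul_pow, ← Finset.mul_sum, hu']
      ring
    have h8 : (z * u (e 0)) ^ 2 ∈ V :=
      h7 ▸ sub_mem (pow_mem (V.nonunits_subset h5) 2) (sum_mem fun j _ => pow_mem (h6 j) 2)
    rcases V.mem_or_inv_mem (z * u (e 0)) with h | h
    · exact h
    · rcases eq_or_ne (z * u (e 0)) 0 with h0 | h0
      · exact h0 ▸ zero_mem _
      · have := mul_mem h8 h
        rwa [pow_two, mul_inv_cancel_right₀ h0] at this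
  · rw [rk_insert h3] at h1
    generalize rk C (range p ∪ range u) = b at *
    generalize rk C s = c at *
    clear * - h1 h2 hg
    enat_to_nat
    omega

/-- The total length of a generic chain between algebraic mirrors is not a nonzero constant. -/
theorem core (hm : Fintype.card ι = m + 1) {N : ℕ} {q u ν : ℕ → ι → K} {t : ℕ → K}
    {P : ℕ → MvPolynomial ι C} {z : K} (hz : z ∉ cl C (range (q 0) ∪ range (u 0)))
    (hg : (2 * m : ℕ) ≤ rk C (range (q 0) ∪ range (u 0))) (hu : u 0 ⬝ᵥ u 0 = 1)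
    (hP : ∀ i ≤ N, Top m (P i) ∧ aeval (q i) (P i) = 0)
    (hν : ∀ i < N, ν i ⬝ᵥ ν i = 1 ∧ ∀ j, ν i j ∈ cl C (range (q i)))
    (hrf : ∀ i < N, u (i + 1) = u i - (2 * (ν i ⬝ᵥ u i)) • ν i)
    (hmv : ∀ i < N, q (i + 1) = q i + t i • u (i + 1)) {c : C}
    (hc : algebraMap C K c = ∑ i ∈ Finset.range N, t i) : c = 0 := by
  let e : Fin (m + 1) ≃ ι := (Fintype.equivFinOfCardEq hm).symm
  have hz0 : z ≠ 0 := fun h => hz (h ▸ zero_mem _)
  obtain ⟨V, hzV, hzu, hF, hg0⟩ :=
    exists_start e (hP 0 N.zero_le).1.1 hz (hP 0 N.zero_le).2 hu hg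
  set s := range (q 0) ∪ range fun j : Fin m => z * u 0 (e j.succ) with hs
  let _ : Algebra C V := ((algebraMap C K).codRestrict V.toSubring fun c =>
    hF _ ((IntermediateField.adjoin C s).algebraMap_mem c)).toAlgebra
  let f : V →ₐ[C] K := { V.subtype with commutes' := fun _ => rfl }
  let φ : V →ₐ[C] IsLocalRing.ResidueField V :=
    { IsLocalRing.residue V with commutes' := fun _ => rfl }
  have hφ : ∀ b : V, φ b = 0 ↔ (b : K) ∈ V.nonunits := fun b =>
    (IsLocalRing.residue_eq_zero_iff b).trans ValuationSubring.coe_mem_nonunits_iff.symm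
  have hpl : Pl f φ := by
    refine ⟨Subtype.val_injective, fun r => ?_⟩
    by_cases hr : r ∈ V
    · exact Or.inl ⟨⟨r, hr⟩, rfl⟩
    · have h0 : r ≠ 0 := fun h => hr (h ▸ zero_mem _)
      refine Or.inr ⟨⟨r⁻¹, (V.mem_or_inv_mem r).resolve_left hr⟩, inv_mul_cancel₀ h0, ?_⟩
      rw [hφ, V.mem_nonunits_iff_or]
      exact Or.inr (by simpa using hr)
  obtain ⟨y, hy⟩ : ∃ y : V, f y = z := ⟨⟨z, V.nonunits_subset hzV⟩, rfl⟩
  have hy0 : φ y = 0 := (hφ y).2 (by rwa [← hy] at hzV)
  have key : ∀ i ≤ N, Gd f φ m (q i) (z • u i) ∧ ∃ b, f (y * b) = ∑ r ∈ Finset.range i, t r := by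
    intro i
    induction i with
    | zero =>
      refine fun _ => ⟨?_, 0, by simp⟩
      let a : ι → V := fun j => ⟨q 0 j, hF _
        (IntermediateField.subset_adjoin _ _ (mem_union_left _ (mem_range_self j)))⟩
      let w : ι → V := fun j => ⟨z * u 0 j, hzu j⟩
      have hw : f ∘ w = z • u 0 := rfl
      refine ⟨a, w, rfl, hw, ?_, hg0.trans ?_⟩
      · have h1 : w ⬝ᵥ w = y * y := hpl.inj (by
          rw [← dot_map, hw, map_mul, hy, dotProduct_smul, smul_dotProduct, hu]
          simp)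
        rw [dot_map, h1, map_mul, hy0, zero_mul]
      have h1 : f '' (range a ∪ range fun j : Fin m => w (e j.succ)) = s := by
        rw [image_union, ← range_comp, ← range_comp]
        rfl
      have h2 : InjOn φ (Algebra.adjoin C (range a ∪ range fun j : Fin m => w (e j.succ))) := by
        intro x hx y hy hxy
        have h3 : f (x - y) ∈ IntermediateField.adjoin C s := by
          apply IntermediateField.algebra_adjoin_le_adjoin
          rw [← h1, ← AlgHom.map_adjoin]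
          exact ⟨_, Subalgebra.sub_mem _ hx hy, rfl⟩
        have h4 := (hφ (x - y)).1 (by rw [map_sub, hxy, sub_self])
        rcases V.mem_nonunits_iff_or.1 h4 with h | h
        · exact sub_eq_zero.1 (Subtype.ext h)
        · exact absurd (hF _ (inv_mem h3)) h
      rw [← h1]
      refine (rk_image_le f _).trans ((rk_le_image φ h2).trans (rk_mono ?_))
      rintro _ ⟨_, ⟨j, rfl⟩ | ⟨j, rfl⟩, rfl⟩
      · exact Or.inl ⟨j, rfl⟩
      · exact Or.inr ⟨e j.succ, rfl⟩
    | succ i ih =>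
      intro hi
      have hi' : i < N := hi
      obtain ⟨h1, b, hb⟩ := ih hi'.le
      have h2 := hpl.reflect hm (hP i hi'.le).1.1 h1 (hP i hi'.le).2 (hν i hi').1 (hν i hi').2
      rw [show z • u i - (2 * (ν i ⬝ᵥ z • u i)) • ν i = z • u (i + 1) by
        rw [hrf i hi', dotProduct_smul, smul_sub, smul_smul, smul_eq_mul, mul_left_comm]] at h2
      have h3 : q i + (t i / z) • z • u (i + 1) = q (i + 1) := by
        rw [smul_smul, div_mul_cancel₀ _ hz0, hmv i hi']
      obtain ⟨⟨r, hr⟩, h4⟩ := hpl.move hm (hP i hi'.le).1 (hP _ hi).1 h2 (hP i hi'.le).2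
        (r := t i / z) (by rw [h3]; exact (hP _ hi).2)
      rw [h3] at h4
      refine ⟨h4, b + r, ?_⟩
      rw [mul_add, map_add, hb, map_mul, hy, hr, Finset.sum_range_succ, mul_div_cancel₀ _ hz0]
  obtain ⟨-, b, hb⟩ := key N le_rfl
  have h1 := congrArg φ (hpl.inj (hb.trans (hc.symm.trans (f.commutes c).symm)))
  rw [AlgHom.commutes, map_mul, hy0, zero_mul] at h1
  exact (map_eq_zero _).1 h1.symm

section Base

variable {k : Type} [Field k] [Algebra k C]

omit [Fintype ι] in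
lemma rk_tower {R : Type} [Field R] [Algebra C R] [Algebra k R] [IsScalarTower k C R]
    (s : Set R) : rk C s ≤ rk k s := by
  obtain ⟨I, hI⟩ := (AlgebraicIndependent.matroid C R).exists_isBasis s (subset_univ _)
  have h1 : AlgebraicIndependent C ((↑) : I → R) := hI.indep
  have h2 : (AlgebraicIndependent.matroid k R).Indep I :=
    h1.restrictScalars (algebraMap k C).injective
  rw [rk, hI.eRk_eq_encard]
  exact h2.encard_le_eRk_of_subset hI.subset

omit [Fintype ι] in
lemma top_map (P : MvPolynomial ι k) :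
    top (map (algebraMap k C) P) = map (algebraMap k C) (top P) := by
  classical
  have h : (map (algebraMap k C) P).totalDegree = P.totalDegree := by
    rw [totalDegree, totalDegree, support_map_of_injective _ (algebraMap k C).injective]
  ext d
  simp only [top, h, coeff_map, coeff_homogeneousComponent]
  split_ifs <;> simp

lemma prime_Q' [Algebra k ℝ] (hm : Fintype.card ι = m + 1) (h1 : 1 ≤ m) : Prime (Q k ι) := by
  let e : Fin (m + 1) ≃ ι := (Fintype.equivFinOfCardEq hm).symm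
  have : renameEquiv k e (Q k (Fin (m + 1))) = Q k ι := by
    simp only [Q, map_sum, map_pow, renameEquiv_apply, rename_X]
    exact e.sum_comp fun j => (X j : MvPolynomial ι k) ^ 2
  rw [← this]
  exact (MulEquiv.prime_iff (renameEquiv k e)).2 (prime_Q h1)

lemma top_of_nc [Algebra k ℝ] (hm : Fintype.card ι = m + 1) (h1 : 1 ≤ m) {P : MvPolynomial ι k}
    (hP : ¬Q k ι ∣ top P) : Top m (map (algebraMap k C) P) := by
  refine ⟨fun h => hP ?_, fun R _ _ w hw hr h0 => hP ?_⟩
  · rw [map_injective _ (algebraMap k C).injective (h.trans (map_zero _).symm)]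
    simp [top]
  · let _ : Algebra k R := ((algebraMap C R).comp (algebraMap k C)).toAlgebra
    have _ : IsScalarTower k C R := .of_algebraMap_eq fun _ => rfl
    rw [top_map, aeval_map_algebraMap] at h0
    refine dvd_of_generic (prime_Q' hm h1) (by rw [aeval_Q', hw]) ?_ h0
    rw [hm]
    push_cast
    gcongr
    exact hr.trans (rk_tower _)

end Base

section Gen

variable {Ω : Type} [Field Ω] [CharZero Ω] [Algebra C Ω] {E : Submodule Ω (H17.Der C Ω)}

omit [CharZero Ω] in
lemma dual {n : ι → Ω} (hn : n ⬝ᵥ n = 1) : ∃ i0, ∀ i, i ≠ i0 →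
    ∃ w : ι → Ω, n ⬝ᵥ w = 0 ∧ w i ≠ 0 ∧ ∀ j, j ≠ i0 → j ≠ i → w j = 0 := by
  classical
  obtain ⟨i0, h0⟩ : ∃ i0, n i0 ≠ 0 := by
    by_contra hh
    push Not at hh
    simp [dotProduct, hh] at hn
  refine ⟨i0, fun i hi => ⟨Pi.single i (n i0) - Pi.single i0 (n i), ?_, ?_, fun j h1 h2 => ?_⟩⟩
  · simp [mul_comm]
  · simp [hi, h0]
  · simp [h1, h2]

/-- The point and the direction are generic. -/
lemma rk_ge (hm : Fintype.card ι = m + 1) {p : Pt E ι} {l : Ln E ι} (h : On p l) :
    (2 * m : ℕ) ≤ rk C (range p.q ∪ range l.u) := by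
  classical
  obtain ⟨i0, h1⟩ := dual p.νν
  obtain ⟨j0, h2⟩ := dual l.uu
  let v : {i // i ≠ i0} ⊕ {j // j ≠ j0} → Ω := Sum.elim (fun i => p.q i) fun j => l.u j
  have hv : AlgebraicIndependent C v := by
    refine indep_of_dual ?_
    rintro (⟨i, hi⟩ | ⟨i, hi⟩)
    · obtain ⟨w, k1, k2, k3⟩ := h1 i hi
      obtain ⟨θ, -, k4, k5⟩ := h.surj (a := 0) k1 (zero_dotProduct _)
      refine ⟨θ, (congrFun k4 i).trans_ne k2, ?_⟩
      rintro (⟨j, hj⟩ | ⟨j, hj⟩) hne
      · exact (congrFun k4 j).trans (k3 j hj fun e => hne (by subst e; rfl))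
      · exact congrFun k5 j
    · obtain ⟨w, k1, k2, k3⟩ := h2 i hi
      obtain ⟨θ, -, k4, k5⟩ := h.surj (w := 0) (a := w) (dotProduct_zero _)
        (by rw [dotProduct_comm, k1])
      refine ⟨θ, (congrFun k5 i).trans_ne k2, ?_⟩
      rintro (⟨j, hj⟩ | ⟨j, hj⟩) hne
      · exact congrFun k4 j
      · exact (congrFun k5 j).trans (k3 j hj fun e => hne (by subst e; rfl))
  have h3 : (AlgebraicIndependent.matroid C Ω).Indep (range v) := hv.to_subtype_range
  refine le_trans (le_of_eq ?_) (h3.encard_le_eRk_of_subset ?_)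
  · rw [← image_univ, hv.injective.injOn.encard_image, encard_univ, ENat.card_eq_coe_fintype_card,
      Fintype.card_sum, Fintype.card_subtype_compl, Fintype.card_subtype_compl, hm]
    simp [two_mul]
  · rintro _ ⟨i | j, rfl⟩
    · exact Or.inl ⟨_, rfl⟩
    · exact Or.inr ⟨_, rfl⟩

omit [Fintype ι] [CharZero Ω] in
lemma X_not_mem (s : Set Ω) : (RatFunc.X : RatFunc Ω) ∉
    cl C (IsScalarTower.toAlgHom C Ω (RatFunc Ω) '' s) := fun h => by
  let g := IsScalarTower.toAlgHom C Ω (RatFunc Ω)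
  have h1 : IsAlgebraic g.range (RatFunc.X : RatFunc Ω) :=
    (mem_cl.1 h).tower_top_of_subalgebra_le (Algebra.adjoin_le (image_subset_range _ _))
  exact RatFunc.transcendental_X (IsAlgebraic.of_ringHom_of_comp_eq
    g.rangeRestrict.toRingHom (RingHom.id _) h1 g.rangeRestrict_surjective Function.injective_id
    (by ext; rfl))

end Gen

end Alg

open H97 (rk rk_le_image) in
theorem alg : StmtA NC := by
  intro k C Ω ι _ _ _ _ _ _ _ _ _ _ _ _ _ E m l n hE hc hy _ hp
  rcases Nat.eq_zero_or_pos n with rfl | hn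
  · simp [del]
  obtain ⟨d, hd⟩ : ∃ d, Fintype.card ι = d + 1 :=
    ⟨_, (Nat.succ_pred_eq_of_pos Fintype.card_pos).symm⟩
  have hd1 : 1 ≤ d := by have := Fintype.one_lt_card (α := ι); omega
  obtain ⟨c, hc0⟩ := IntermediateField.mem_bot.1 (hc.del_const hE hy)
  choose! P hP1 hP2 using fun i hi => (hp i hi).2
  let g := IsScalarTower.toAlgHom C Ω (RatFunc Ω)
  let σ : ℕ → ℕ := fun i => if i < n then i else 0
  have hσ : ∀ i, σ i < n := fun i => by simp only [σ]; split_ifs <;> omega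
  have hσ1 : ∀ i < n, σ i = i := fun i hi => if_pos hi
  have hσ2 : σ n = 0 := if_neg (lt_irrefl n)
  have hon : ∀ i ≤ n, (m (σ i)).q = (l i).x + ((m (σ i)).q ⬝ᵥ (l i).u) • (l i).u := fun i hi => by
    rcases hi.lt_or_eq with h | rfl
    · rw [hσ1 i h]
      exact (hc i i.zero_le h).on.eq
    · rw [hσ2, hy.1, hy.2]
      exact (hc 0 le_rfl hn).on.eq
  have hs : ∀ p q : ι → Ω, g '' (range p ∪ range q) = range (g ∘ p) ∪ range (g ∘ q) := fun p q => by
    rw [image_union, ← range_comp, ← range_comp]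
  have := Alg.core (C := C) hd (N := n) (q := fun i => g ∘ (m (σ i)).q) (u := fun i => g ∘ (l i).u)
    (ν := fun i => g ∘ (m i).ν)
    (t := fun i => g ((m (σ (i + 1))).q ⬝ᵥ (l (i + 1)).u - (m i).q ⬝ᵥ (l (i + 1)).u))
    (P := fun i => map (algebraMap k C) (P (σ i))) (z := RatFunc.X) (c := c)
    (by rw [← hs]; exact Alg.X_not_mem _)
    (by
      rw [← hs, hσ1 0 hn]
      exact (Alg.rk_ge hd (hc 0 le_rfl hn).on).trans (rk_le_image g g.toRingHom.injective.injOn))
    (by rw [Alg.dot_map, (l 0).uu, map_one])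
    (fun i _ => ⟨Alg.top_of_nc hd hd1 (hP2 _ (hσ i)), by
      rw [Alg.ev_map, aeval_map_algebraMap, hP1 _ (hσ i), map_zero]⟩)
    (fun i hi => ⟨by rw [Alg.dot_map, (m i).νν, map_one], fun j => by
      have h1 := (m i).νH hE j
      rw [(m i).H_alg (hp i hi).1] at h1
      rw [hσ1 i hi, range_comp]
      exact H17.map_mem_cl g h1⟩)
    (fun i hi => by
      rw [(hc i i.zero_le hi).eq, Alg.dot_map]
      ext
      simp [map_ofNat])
    (fun i hi => by
      have h1 := hon (i + 1) hi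
      have h2 := (hc i i.zero_le hi).on'.eq
      rw [hσ1 i hi]
      ext j
      have h3 := congrArg g (congrFun h1 j)
      have h4 := congrArg g (congrFun h2 j)
      simp only [Pi.add_apply, Pi.smul_apply, smul_eq_mul, map_add, map_mul, map_sub,
        Function.comp_apply] at h3 h4 ⊢
      linear_combination h3 - h4)
    (by
      rw [← map_sum, ← g.commutes, hc0, del, ← Finset.range_eq_Ico]
      congr 1
      have h1 := Finset.sum_range_sub (fun i => (m (σ i)).q ⬝ᵥ (l i).u) n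
      rw [hσ2, hσ1 0 hn, hy.1, sub_self, Finset.sum_sub_distrib, sub_eq_zero] at h1
      simp only [dotProduct_sub, Finset.sum_sub_distrib]
      rw [h1]
      congr 1
      exact Finset.sum_congr rfl fun i hi => by rw [hσ1 i (Finset.mem_range.1 hi)])
  rw [← hc0, this, map_zero]

end Pool.Agent.MP_249f74_an.H90
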