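import Pool.Agent.MP_249f74_an.H90.Spec
import Pool.Agent.MP_249f74_an.H2.Sym

/-!
The last mirror is of finite type.
-/

open Set IntermediateField

namespace Pool.Agent.MP_249f74_an.H90

open H17 (Der St cl_le cl_mono)
open H88 (cl subset_cl)
open H96 (Kil Agr Pres pres_cl mem_cl_of_kil)

namespace Bas

variable {C Ω ι : Type} [Field C] [Field Ω] [Algebra C Ω] [Fintype ι] [CharZero Ω]
  {E : Submodule Ω (Der C Ω)} {m : Pt E ι} {l : Ln E ι}

/-- A unit vector proportional to a vector over a closed field is defined over that field. -/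
lemma unit_mem {T : Set Ω} {ν g : ι → Ω} {c : Ω} (hν : ν ⬝ᵥ ν = 1) (e : ν = c • g)
    (hg : ∀ j, g j ∈ cl C T) (j : ι) : ν j ∈ cl C T := mem_cl_of_kil fun θ hθ => by
  have h1 : dv ν θ = θ c • g := by
    rw [e, dv_smul, show dv g θ = 0 from funext fun j => hθ.cl _ (hg j), smul_zero, add_zero]
  have h2 := unit_dot hν θ
  have h3 : c * (g ⬝ᵥ ν) = 1 := by rw [← smul_eq_mul, ← smul_dotProduct, ← e, hν]
  rw [h1, smul_dotProduct, smul_eq_mul] at h2
  have : θ c = 0 := by linear_combination c * h2 - θ c * h3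
  simpa [this] using congrFun h1 j

omit [CharZero Ω] in
lemma line_val (h : On m l) {K : IntermediateField C Ω} {θ : Der C Ω} (hq : ∀ j, m.q j ∈ K)
    (hu : ∀ j, l.u j ∈ K) (h1 : ∀ j, θ (m.q j) ∈ K) (h2 : ∀ j, θ (l.u j) ∈ K) :
    ∀ f ∈ l.S, θ f ∈ K := by
  have a : ∀ j, m.q j ∈ St θ K := fun j => ⟨hq j, h1 j⟩
  have b : ∀ j, l.u j ∈ St θ K := fun j => ⟨hu j, h2 j⟩
  rintro _ (⟨j, rfl⟩ | ⟨j, rfl⟩)
  · exact h2 j
  · rw [h.x_eq]; exact (sub_mem (a j) (mul_mem (dot_mem a b) (b j))).2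

/-- A frame of the pencil. -/
lemma pen_frame [DecidableEq ι] (h : On m l) : ∃ δ : ι → Der C Ω, (∀ j, δ j ∈ m.D) ∧
    (∀ j, dv l.u (δ j) = Pi.single j 1 - l.u j • l.u) ∧ ∀ θ ∈ m.D, θ = ∑ j, θ (l.u j) • δ j := by
  choose δ h1 h2 using fun j => h.pen (a := Pi.single j 1 - l.u j • l.u) (by simp [l.uu])
  refine ⟨δ, h1, h2, fun θ hθ => ?_⟩
  have h3 := sub_mem hθ (sum_mem (t := Finset.univ) fun j _ => m.D.smul_mem (θ (l.u j)) (h1 j))
  refine sub_eq_zero.1 (h.inj h3.1 h3.2 ?_)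
  simp only [map_sub, map_sum, map_smul, h2, smul_sub, Finset.sum_sub_distrib, smul_smul,
    ← Finset.sum_smul]
  rw [show ∑ j, θ (l.u j) * l.u j = 0 from unit_dot l.uu θ, zero_smul, sub_zero]
  ext i
  simp [Pi.single_apply]

/-- The normal is defined over a differential field that contains the point and the line. -/
lemma nu_mem {T : Set Ω} (h : On m l) (hK : Stab l (cl C T)) (hs : m.q ⬝ᵥ l.u ∈ cl C T) (j : ι) :
    m.ν j ∈ cl C T := by
  classical
  have hu : ∀ j, l.u j ∈ cl C T := fun j => hK.sub (l.u_mem j)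
  choose Z z1 z2 z3 using fun j => l.surj 0 (Pi.single j 1 - l.u j • l.u) (by simp) (by simp [l.uu])
  refine unit_mem m.νν (c := m.ν ⬝ᵥ l.u) (g := fun j => l.u j - Z j (m.q ⬝ᵥ l.u))
    (funext fun j => ?_) (fun j => sub_mem (hu j) (hK.pres _ (z1 j) ?_ _ hs)) j
  · have := m.tan _ (z1 j)
    rw [h.dq, z2, z3] at this
    simp only [smul_zero, add_zero, dotProduct_add, dotProduct_sub, dotProduct_single, mul_one,
      dotProduct_smul, smul_eq_mul] at this
    simp only [Pi.smul_apply, smul_eq_mul]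
    linear_combination this
  · rintro _ (⟨i, rfl⟩ | ⟨i, rfl⟩)
    · exact mem_of_eq_of_mem (congrFun (z2 j) i) (zero_mem _)
    · exact mem_of_eq_of_mem (congrFun (z3 j) i)
        (sub_mem (by by_cases h : i = j <;> simp [h]) (mul_mem (hu j) (hu i)))

end Bas

open Bas

theorem bas : StmtBAS := by
  intro C Ω ι _ _ _ _ _ E m l a b hE h hab ht hG hD hs
  classical
  have hc := h.mono le_rfl b.le_succ
  have hc1 := h.mono a.le_succ b.le_succ
  have ob := (h b hab.le b.lt_succ_self).on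
  have ra := h a le_rfl (by omega)
  have sK := hc.stab hE hab.le le_rfl
  have uK : ∀ j, (l b).u j ∈ cl C (Seg l (HS m) a b) := fun j => sK.sub ((l b).u_mem j)
  have qK : ∀ j, (m b).q j ∈ cl C (Seg l (HS m) a b) := fun j => by
    rw [ob.eq]; exact add_mem (sK.sub ((l b).x_mem j)) (mul_mem hs (uK j))
  have νK := nu_mem ob sK hs
  obtain ⟨i0, hi⟩ : ∃ i, (m b).ν i ≠ 0 := by
    by_contra! hn
    simpa [show (m b).ν = 0 from funext hn] using (m b).νν
  choose Y y1 y2 y3 using fun j : {j // j ≠ i0} => ob.surj (a := 0)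
    (w := Pi.single j.1 1 - ((m b).ν j / (m b).ν i0) • Pi.single i0 1) (by simp [hi]) (by simp)
  have hd : ∀ j k : {j // j ≠ i0}, Y j ((m b).q k) = if j = k then 1 else 0 := fun j k =>
    (congrFun (y2 j) k).trans (by simp [k.2, Pi.single_apply, Subtype.ext_iff, eq_comm])
  have hd0 : ∀ j, Y j ((m b).q i0) = -((m b).ν j / (m b).ν i0) := fun j =>
    (congrFun (y2 j) i0).trans (by simp [j.2.symm])
  have hv : ∀ K : IntermediateField C Ω, (∀ j, (m b).ν j ∈ K) → ∀ j i, Y j ((m b).q i) ∈ K :=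
    fun K hK j i => by
      obtain rfl | hn := eq_or_ne i i0
      · rw [hd0]; exact neg_mem (div_mem (hK _) (hK _))
      · rw [hd j ⟨i, hn⟩]; split_ifs
        exacts [one_mem _, zero_mem _]
  have hq0 : ∀ D ∈ E, (∀ j : {j // j ≠ i0}, D ((m b).q j) = 0) → dv (m b).q D = 0 :=
    fun D h1 h2 => funext fun i => by
      obtain rfl | hn := eq_or_ne i i0
      · have := (m b).tan D h1
        rwa [dotProduct, Finset.sum_eq_single i (fun j _ hj => by simp [h2 ⟨j, hj⟩]) (by simp),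
          mul_eq_zero, or_iff_right hi] at this
      · exact h2 ⟨i, hn⟩
  have hH : ∀ f, f ∈ (m b).H ↔ ∀ D ∈ E, (∀ j : {j // j ≠ i0}, D ((m b).q j) = 0) → D f = 0 :=
    fun f => by
      rw [(m b).H_tr ht, (m b).mem_KrD]
      exact ⟨fun e D h1 h2 => e D h1 (hq0 D h1 h2), fun e D h1 h2 => e D h1 fun j => congrFun h2 j⟩
  have hle : cl C (Seg l (HS m) a b) ≤ cl C (Seg l (HS m) (a + 1) b ∪ (m a).H) :=
    cl_le (Seg_subset (ra.symm.line_mem (fun j => subset_cl _ (Or.inr ((m a).qH j)))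
      (fun j => subset_cl _ (Or.inr ((m a).νH hE j)))
      fun j => subset_cl _ (Or.inl (line_sub_Seg ((l _).u_mem j)))) fun i k1 k2 f hf =>
        subset_cl _ (k1.eq_or_lt.elim (fun e => Or.inr (e ▸ hf)) fun e => Or.inl (sub_Seg e k2 hf)))
  choose T t1 t2 t3 using fun j => H17.exists_finite_cl (hle (qK j))
  let S := range (m a).q ∪ (⋃ j, T j) ∩ (m a).H
  have sH : S ⊆ (m a).H := union_subset (range_subset_iff.2 (m a).qH) inter_subset_right
  have qL : ∀ j, (m b).q j ∈ cl C (Seg l (HS m) (a + 1) b ∪ S) := fun j =>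
    cl_mono (fun f hf => (t1 j hf).imp_right fun e => Or.inr ⟨mem_iUnion.2 ⟨j, hf⟩, e⟩) (t3 j)
  let π : (ι → Ω) →ₗ[Ω] {j // j ≠ i0} → Ω := LinearMap.pi fun j =>
    LinearMap.proj j.1 - (m b).ν j • dotProductBilin Ω Ω (m b).ν
  have hπ : ∀ w j, π w j = w j - (m b).ν j * ((m b).ν ⬝ᵥ w) := fun _ _ => rfl
  have hπ' : ∀ Z ∈ E, π (dv (m b).q Z) = fun j => Z ((m b).q j.1) := fun Z hZ =>
    funext fun j => by simp [hπ, (m b).tan Z hZ]
  obtain ⟨B, b1, b2, b3, b4⟩ := H2.fin_type hE.br y1 hd hH ((m b).qH i0)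
    (I := Seg l (HS m) (a + 1) b) (S := S)
    ((finite_range _).union ((finite_iUnion t2).inter_of_left _))
    (fun t => hc1.lift_last hE hab hD 0 t) (qL i0) (fun j => qL j) fun W w1 w2 => by
      have := hG (W.comap π) (fun ζ hζ w hw => ?_) ?_ fun θ hθ => ?_
      · refine eq_top_iff.2 fun v _ => ?_
        have e := this.ge (Submodule.mem_top (x := dv (m b).q (∑ j, v j • Y j)))
        rw [Submodule.mem_comap, hπ' _ (sum_mem fun j _ => E.smul_mem _ (y1 j))] at e
        simpa [H96.sum_apply, hd] using e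
      · have e := w1 ζ hζ.1 (fun j => congrFun hζ.2 j) _ hw
        have e1 := (m b).nu_D hE hζ
        refine Submodule.mem_comap.2 (mem_of_eq_of_mem (funext fun j => ?_) e)
        simp [hπ, dv_dot, e1, show ζ ((m b).ν j) = 0 from congrFun e1 j]
      · rw [Submodule.mem_comap, show π (m b).ν = 0 from funext fun j => by simp [hπ, (m b).νν]]
        exact zero_mem _
      obtain ⟨δ, d1, d2, d3⟩ := pen_frame ra.on'
      have hu : ∀ j, (l (a + 1)).u j ∈ cl C (Seg l (HS m) (a + 1) b ∪ S) := fun j =>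
        subset_cl _ (Or.inl (line_sub_Seg ((l _).u_mem j)))
      rw [d3 θ hθ, map_sum]
      refine sum_mem fun j _ => ?_
      rw [map_smul]
      refine Submodule.smul_mem _ _ ?_
      rw [Submodule.mem_comap, hπ' _ (d1 j).1]
      refine w2 _ (d1 j).1 (pres_cl fun f hf => hf.elim (hc1.stab_Seg hE (cl_mono subset_union_left)
        (d1 j).1 le_rfl hab (line_val ra.on' (fun i => subset_cl _ (Or.inr (Or.inl ⟨i, rfl⟩))) hu
          (fun i => mem_of_eq_of_mem (congrFun (d1 j).2 i) (zero_mem _)) fun i =>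
          mem_of_eq_of_mem (congrFun (d2 j) i)
            (sub_mem (by by_cases h : i = j <;> simp [h]) (mul_mem (hu j) (hu i)))) f)
        fun hf => mem_of_eq_of_mem ((m a).kil_H (d1 j) f (sH hf)) (zero_mem _))
  have bH := b3 _ ((m b).qH i0) fun j => (m b).pres_H hE (y1 j) (hv _ ((m b).νH hE) j)
  have qF : ∀ i, (m b).q i ∈ cl C (range (fun j : {j // j ≠ i0} => (m b).q j) ∪ B) := fun i => by
    obtain rfl | hn := eq_or_ne i i0
    exacts [subset_cl _ (Or.inr b2), subset_cl _ (Or.inl ⟨⟨i, hn⟩, rfl⟩)]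
  have νF := unit_mem (m b).νν (c := (m b).ν i0) (g := fun j => (m b).ν j / (m b).ν i0)
    (T := range (fun j : {j // j ≠ i0} => (m b).q j) ∪ B) (funext fun j => by simp; field_simp)
    fun i => by
      obtain rfl | hn := eq_or_ne i i0
      · rw [div_self hi]; exact one_mem _
      · simpa [hd0] using b4 ⟨i, hn⟩ _ (qF i0)
  have dH : range (m b).q ∪ range (m b).ν ∪ B ⊆ (m b).H := union_subset
    (union_subset (range_subset_iff.2 (m b).qH) (range_subset_iff.2 ((m b).νH hE))) bH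
  refine ⟨range (m b).q ∪ range (m b).ν ∪ B, ((finite_range _).union (finite_range _)).union b1,
    ⟨dH, fun j => Or.inl (Or.inl ⟨j, rfl⟩), fun j => Or.inl (Or.inr ⟨j, rfl⟩)⟩,
    union_subset (union_subset (range_subset_iff.2 qK) (range_subset_iff.2 νK))
      (b3 _ (qK i0) fun j => sK.pres _ (y1 j) (line_val ob qK uK (hv _ νK j)
        fun i => mem_of_eq_of_mem (congrFun (y3 j) i) (zero_mem _))), fun Z hZ z => pres_cl fun f hf => ?_⟩
  have e := (hH f).1 (dH hf) (Z - ∑ j : {j // j ≠ i0}, Z ((m b).q j) • Y j)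
    (sub_mem hZ (sum_mem fun j _ => E.smul_mem _ (y1 j))) fun k => by simp [H96.sum_apply, hd]
  rw [Derivation.sub_apply, sub_eq_zero, H96.sum_apply] at e
  rw [e]
  refine sum_mem fun j _ => mul_mem (z j) (cl_mono (union_subset_union_left _ ?_) (b4 j f
    (union_subset (union_subset (range_subset_iff.2 qF) (range_subset_iff.2 νF))
      (subset_union_right.trans (subset_cl _)) hf)))
  rintro _ ⟨j, rfl⟩
  exact Or.inl ⟨j, rfl⟩

end Pool.Agent.MP_249f74_an.H90
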