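import Pool.Agent.MP_249f74_an.H90.Spec

/-!
Splitting of basic forms along independent mirrors and closedness of the pieces.
-/

open Set IntermediateField

namespace Pool.Agent.MP_249f74_an.H90

open H17 (Der cl_le cl_mono)
open H88 (cl subset_cl)
open H96 (Kil Agr Fm dd Cls Van Big br_apply agr_iff dd_swap dd_add_left dd_add_right dd_smul_left
  dd_sum dd_rep)
open H2 (KrS mem_KrS Invl Dfn)

namespace Clo

variable {C Ω ι : Type} [Field C] [Field Ω] [Algebra C Ω] [Fintype ι]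
  {E : Submodule Ω (Der C Ω)}

lemma dd_sub_left (ω : Fm C Ω) (θ θ' φ : Der C Ω) :
    dd ω (θ - θ') φ = dd ω θ φ - dd ω θ' φ := by
  rw [eq_sub_iff_add_eq, ← dd_add_left, sub_add_cancel]

/-- A combination with constant coefficients. -/
lemma dd_const {κ : Type} [Fintype κ] {lam : κ → Ω}
    (h : ∀ k, lam k ∈ (⊥ : IntermediateField C Ω)) (ν : κ → Fm C Ω) (θ φ : Der C Ω) :
    dd (∑ k, lam k • ν k) θ φ = ∑ k, lam k * dd (ν k) θ φ := by
  have e : ∀ k (ψ : Der C Ω), ψ (lam k) = 0 := fun k ψ => by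
    obtain ⟨c, hc⟩ := mem_bot.1 (h k)
    rw [← hc, ψ.map_algebraMap]
  rw [dd_sum]
  refine Finset.sum_congr rfl fun k _ => ?_
  simp only [dd, LinearMap.smul_apply, smul_eq_mul, Derivation.leibniz, e]
  ring

/-- The characteristic module of a form. -/
def chr (η : Fm C Ω) : Submodule Ω (Der C Ω) where
  carrier := {θ | η θ = 0 ∧ ∀ φ, dd η θ φ = 0}
  add_mem' h h' := ⟨by rw [map_add, h.1, h'.1, add_zero],
    fun φ => by rw [dd_add_left, h.2, h'.2, add_zero]⟩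
  zero_mem' := ⟨map_zero _, fun φ => by simp [dd]⟩
  smul_mem' c θ h := ⟨by rw [map_smul, h.1, smul_zero],
    fun φ => by rw [dd_smul_left, h.2, mul_zero]⟩

lemma invl_chr (η : Fm C Ω) : Invl (chr η) := fun θ h θ' h' => by
  have k : ∀ θ ∈ chr η, ∀ φ, θ (η φ) = η ⁅θ, φ⁆ := fun θ h φ => by
    have := h.2 φ
    rwa [dd, h.1, map_zero, sub_zero, sub_eq_zero] at this
  have e : η ⁅θ, θ'⁆ = 0 := by rw [← k θ h, h'.1, map_zero]
  refine ⟨e, fun φ => ?_⟩
  rw [dd, e, map_zero, br_apply, k θ' h', k θ h, k θ h, k θ' h', lie_lie, map_sub]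
  ring

variable [CharZero Ω]

/-- A basic form has its coefficients in the field of the mirror. -/
lemma rep (m : Pt E ι) {S : Set Ω} {ω : Fm C Ω} (hS : S.Finite) (hH : S ⊆ m.H)
    (h : ∀ θ, TanS E S θ → ω θ = 0) (h0 : ∀ Z ∈ E, ∀ θ, dd ω Z θ = 0) :
    ∃ (n : ℕ) (a b : Fin n → Ω), (∀ j, a j ∈ m.H) ∧ (∀ j, b j ∈ m.H) ∧
      ∀ θ, ω θ = ∑ j, a j * θ (b j) := by
  by_cases t : m.Tr
  · obtain ⟨n, a, b, h1, h2, h3⟩ := Van.rep (ω := ω) (fun θ hθ => h θ (tanS_kil hθ)) hS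
    refine ⟨n, a, b, fun j => ?_, fun j => hH (h1 j), h2⟩
    rw [m.H_tr t]
    exact mem_KrS.2 fun ζ hζ => h3 ζ ((m.kil_H hζ).mono hH) (h0 ζ hζ.1) j
  · exact ⟨0, Fin.elim0, Fin.elim0, fun j => j.elim0, fun j => j.elim0, fun θ => by
      simpa using h θ (TanS.mono (m.tan_alg t θ) hH)⟩

lemma dfn (m : Pt E ι) {S : Set Ω} {ω : Fm C Ω} (hS : S.Finite) (hH : S ⊆ m.H)
    (h : ∀ θ, TanS E S θ → ω θ = 0) (h0 : ∀ Z ∈ E, ∀ θ, dd ω Z θ = 0) :
    ∃ T : Set Ω, T.Finite ∧ cl C T ≤ KrS (m.D : Set (Der C Ω)) ∧ Dfn (chr ω) T := by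
  obtain ⟨n, a, b, h1, h2, h3⟩ := rep m hS hH h h0
  refine ⟨range a ∪ range b, (finite_range _).union (finite_range _),
    (cl_mono (union_subset (range_subset_iff.2 h1) (range_subset_iff.2 h2))).trans
      (m.cl_H.le.trans m.H_le), fun θ hθ => ?_⟩
  have e1 : ∀ j, θ (a j) = 0 := fun j => hθ _ (Or.inl ⟨j, rfl⟩)
  have e2 : ∀ j, θ (b j) = 0 := fun j => hθ _ (Or.inr ⟨j, rfl⟩)
  exact ⟨by simp [h3, e2], fun φ => by simp [dd_rep h3, e1, e2]⟩

/-- A form that is basic for two mirrors in general position vanishes. -/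
lemma eq_zero [IsAlgClosed Ω] (hE : Amb E) (hB : Big C Ω) {m m' : Pt E ι} (hG : Gen m m')
    {S S' : Set Ω} {ω : Fm C Ω} (hS : S.Finite) (hH : S ⊆ m.H) (hS' : S'.Finite) (hH' : S' ⊆ m'.H)
    (h : ∀ θ, TanS E S θ → ω θ = 0) (h' : ∀ θ, TanS E S' θ → ω θ = 0)
    (h0 : ∀ Z ∈ E, ∀ θ, dd ω Z θ = 0) (θ : Der C Ω) : ω θ = 0 := by
  obtain ⟨T, t1, t2, t3⟩ := dfn m hS hH h h0
  obtain ⟨T', s1, s2, s3⟩ := dfn m' hS' hH' h' h0
  refine (H2.chm hB (invl_chr ω) t1 s1 t3 s3 θ fun f hf => ?_).1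
  obtain ⟨c, rfl⟩ := mem_bot.1 (hG.cap hE (t2 hf.1) (s2 hf.2))
  exact θ.map_algebraMap c

end Clo

open Clo

theorem spl : StmtSPL := by
  classical
  intro C Ω ι _ _ _ _ _ E m a b S ν hE hS hH hdec hν hZ
  choose π hπ using fun (i : ℕ) (θ : Der C Ω) => hdec fun j => if j = i then θ else 0
  have k1 : ∀ i θ φ, (∀ j, a ≤ j → j < b → (m j).Tan (φ - if j = i then θ else 0)) →
      ν (π i θ) = ν φ := fun i θ φ h => by
    rw [← sub_eq_zero, ← map_sub]
    refine hν _ fun j j1 j2 => TanS.mono ?_ (hH j)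
    simpa using TanS.sub (hπ i θ j j1 j2) (h j j1 j2)
  let ω : ℕ → Fm C Ω := fun i =>
    { toFun := fun θ => ν (π i θ)
      map_add' := fun θ θ' => by
        rw [← map_add]
        refine k1 i _ _ fun j j1 j2 => ?_
        rw [Pt.Tan]
        convert TanS.add (hπ i θ j j1 j2) (hπ i θ' j j1 j2) using 1
        split_ifs <;> abel
      map_smul' := fun c θ => by
        rw [RingHom.id_apply, ← map_smul]
        refine k1 i _ _ fun j j1 j2 => ?_
        rw [Pt.Tan]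
        convert TanS.smul (hπ i θ j j1 j2) c using 1
        split_ifs <;> simp [smul_sub] }
  have k2 : ∀ i θ, TanS E (S i) θ → ω i θ = 0 := fun i θ h => hν _ fun j j1 j2 => by
    have := TanS.mono (hπ i θ j j1 j2) (hH j)
    split_ifs at this with e
    · simpa only [sub_add_cancel] using this.add (φ := θ) (e ▸ h)
    · simpa using this
  have k3 : ∀ i, ∀ Z ∈ E, ∀ θ, dd (ω i) Z θ = 0 := fun i Z h θ => by
    have e : ω i ⁅Z, θ⁆ = ν ⁅Z, π i θ⁆ := k1 i _ _ fun j j1 j2 => by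
      convert Pt.Tan.br hE (tanS_mem h) (hπ i θ j j1 j2) using 1
      split_ifs <;> simp
    rw [← hZ Z h (π i θ), dd, dd, e, k2 i Z (tanS_mem h), hν Z fun _ _ _ => tanS_mem h, map_zero,
      map_zero]
    rfl
  refine ⟨ω, ?_, fun i _ _ => ⟨k2 i, fun θ hθ φ => ?_⟩⟩
  · ext1 θ
    rw [LinearMap.sum_apply, eq_comm, ← sub_eq_zero]
    change ∑ i ∈ Finset.Ico a b, ν (π i θ) - ν θ = 0
    rw [← map_sum, ← map_sub]
    refine hν _ fun j j1 j2 => TanS.mono ?_ (hH j)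
    simpa [j1, j2] using TanS.sum (Finset.Ico a b) fun i _ => hπ i θ j j1 j2
  · obtain ⟨n, c, d, h1, h2, h3⟩ := rep (m i) (hS i) (hH i) (k2 i) (k3 i)
    exact Pt.dd_tan _ h1 h2 h3 (k3 i) hθ φ

theorem clo : StmtCLO := by
  classical
  intro C Ω ι κ _ _ _ _ _ _ _ E m l a b S0 ν hE hB h hab _ hG D1 D2 F hS0
  choose! T t1 t2 t3 using fun x (hx : x ∈ S0) => H17.exists_finite_cl (hS0 hx)
  let T0 : Set Ω := ⋃ x ∈ S0, T x
  let S : ℕ → Set Ω := fun i =>
    if i = b then S0 else T0 ∩ HS m i ∪ (range (m i).q ∪ range (m i).ν)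
  have Sb : S b = S0 := if_pos rfl
  have hf : ∀ i, (S i).Finite := fun i => by
    by_cases e : i = b
    · rw [e, Sb]; exact F.fin
    · simp only [S, if_neg e]
      exact ((F.fin.biUnion t2).inter_of_left _).union ((finite_range _).union (finite_range _))
  have hS : ∀ i, (m i).Dat (S i) := fun i => by
    by_cases e : i = b
    · rw [e, Sb]; exact F.dat
    · simp only [S, if_neg e]
      exact ⟨union_subset inter_subset_right (union_subset (range_subset_iff.2 (m i).qH)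
        (range_subset_iff.2 ((m i).νH hE))), fun j => Or.inr (Or.inl ⟨j, rfl⟩),
        fun j => Or.inr (Or.inr ⟨j, rfl⟩)⟩
  have t4 : S0 ⊆ cl C (Seg l S a b) := fun x hx => cl_mono (fun f hf => by
    rcases t1 x hx hf with h1 | h1
    · exact line_sub_Seg h1
    · obtain ⟨i, hi, h1⟩ := mem_iUnion₂.1 h1
      refine sub_Seg hi.1 hi.2 ?_
      simp only [S, if_neg hi.2.ne]
      exact Or.inl ⟨mem_biUnion hx hf, h1⟩) (t3 x hx)
  have n1 : ∀ k θ, TanS E S0 θ → ν k θ = 0 := fun k θ ⟨Z, z1, z2⟩ =>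
    ((F.van k).agr z2).trans (F.bas k Z z1)
  have n2 : ∀ k, ∀ Z ∈ E, ∀ θ, dd (ν k) Z θ = 0 := fun k Z hZ => F.inv k Z (tanS_mem hZ)
  choose ω w1 w2 using fun k => spl C Ω ι E m a b S (ν k) hE hf (fun i => (hS i).le) D1
    (fun θ hθ => n1 k θ (((h.mono le_rfl b.le_succ).agr_Seg hab.le (fun i _ _ => hS i) hθ).cl.mono
      t4)) (n2 k)
  have w3 : ∀ i, a ≤ i → i < b → ∀ k θ, TanS E (S i) θ → ω k i θ = 0 := fun i h1 h2 k =>
    (w2 k i h1 h2).1
  have w4 : ∀ i, a ≤ i → i < b → ∀ k θ, (m i).Tan θ → ω k i θ = 0 := fun i h1 h2 k θ hθ =>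
    w3 i h1 h2 k θ (TanS.mono hθ (hS i).le)
  have w5 : ∀ i, a ≤ i → i < b → ∀ k θ, (m i).Tan θ → ∀ φ, dd (ω k i) θ φ = 0 := fun i h1 h2 k =>
    (w2 k i h1 h2).2
  let γ : κ → Fm C Ω := fun k => ∑ i ∈ Finset.Ico (a + 1) b, ω k i
  have g0 : ∀ k, ν k = ω k a + γ k := fun k => by rw [w1 k, Finset.sum_eq_sum_Ico_succ_bot hab]
  have g1 : ∀ k θ, (∀ i, a < i → i < b → (m i).Tan θ) → γ k θ = 0 ∧ ∀ φ, dd (γ k) θ φ = 0 :=
    fun k θ hθ => ⟨(LinearMap.sum_apply _ _ _).trans (Finset.sum_eq_zero fun i hi =>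
      have := Finset.mem_Ico.1 hi
      w4 i (by omega) this.2 k θ (hθ i this.1 this.2)), fun φ => (dd_sum _ _ _ _).trans
        (Finset.sum_eq_zero fun i hi =>
      have := Finset.mem_Ico.1 hi
      w5 i (by omega) this.2 k θ (hθ i this.1 this.2) φ)⟩
  have ind : ∀ lam : κ → Ω, (∀ θ, ∑ k, lam k * γ k θ = 0) → lam = 0 := fun lam hl => by
    by_contra hn
    let W : Submodule Ω (κ → Ω) :=
      ⨅ θ : Der C Ω, LinearMap.ker (dotProductBilin Ω Ω fun k => γ k θ)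
    have mW : ∀ v, v ∈ W ↔ ∀ θ, ∑ k, v k * γ k θ = 0 := fun v => by
      simp [W, dotProduct, mul_comm]
    obtain ⟨v, v1, ⟨j, v2⟩, v3⟩ := H2.exists_const (Δ := (E : Set (Der C Ω))) (W := W)
      (fun Z hZ v hv => (mW _).2 fun θ => by
        have e1 := congrArg Z ((mW v).1 hv θ)
        have e2 : ∀ k, Z (γ k θ) = γ k ⁅Z, θ⁆ := fun k => by
          have g := g1 k Z fun _ _ _ => tanS_mem hZ
          have := g.2 θ
          rwa [dd, g.1, map_zero, sub_zero, sub_eq_zero] at this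
        simp only [map_sum, Derivation.leibniz, smul_eq_mul, e2, Finset.sum_add_distrib,
          map_zero] at e1
        rw [(mW v).1 hv, zero_add] at e1
        simpa only [mul_comm] using e1) ((mW lam).2 hl) hn
    have v4 : ∀ k, v k ∈ (⊥ : IntermediateField C Ω) := fun k => hE.const _ (mem_KrS.1 (v3 k))
    have e : ∀ θ, (∑ k, v k • ν k) θ = ∑ k, v k * ν k θ := fun θ => by simp
    obtain ⟨θ, hθ⟩ := F.ind (Pi.single j 1)
    have := eq_zero hE hB hG (ω := ∑ k, v k • ν k) F.fin F.dat.le (hf a) (hS a).le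
      (fun θ hθ => by simp [n1 _ θ hθ]) (fun θ hθ => by
        rw [e]
        simp only [g0, LinearMap.add_apply, w3 a le_rfl hab _ θ hθ, zero_add, (mW v).1 v1])
      (fun Z hZ θ => by simp [dd_const v4, n2 _ Z hZ]) θ
    simp [hθ, Pi.single_apply, v2] at this
  have srj : ∀ θ : Der C Ω, ∃ φ, (m a).Tan φ ∧ ∀ k, ν k (θ - φ) = 0 := fun θ => by
    let U : Submodule Ω (Der C Ω) :=
      { carrier := {φ | (m a).Tan φ}
        add_mem' := TanS.add
        zero_mem' := tanS_mem (zero_mem _)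
        smul_mem' := fun c _ h => TanS.smul h c }
    have e : U.map (LinearMap.pi ν) = ⊤ := by
      by_contra hn
      obtain ⟨f, f1, f2⟩ := Submodule.exists_le_ker_of_lt_top _ (lt_top_iff_ne_top.2 hn)
      have f3 : ∀ v, f v = ∑ k, f (Pi.single k 1) * v k := fun v => by
        conv_lhs => rw [pi_eq_sum_univ' v, map_sum]
        simp [mul_comm]
      have := ind (fun k => f (Pi.single k 1)) fun t => by
        obtain ⟨φ, p⟩ := D1 fun i => if i = a then 0 else t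
        have p1 : (m a).Tan φ := by simpa using p a le_rfl hab
        rw [← show f _ = 0 from f2 ⟨φ, p1, rfl⟩, f3]
        refine Finset.sum_congr rfl fun k _ => ?_
        have := (g1 k (φ - t) fun i h1 h2 => by simpa [h1.ne'] using p i h1.le h2).1
        rw [map_sub, sub_eq_zero] at this
        rw [LinearMap.pi_apply, g0, LinearMap.add_apply, w4 a le_rfl hab k φ p1, zero_add, this]
      exact f1 (LinearMap.ext fun v => by simp [f3 v, congrFun this])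
    obtain ⟨φ, p1, p2⟩ := e.ge (Submodule.mem_top (x := LinearMap.pi ν θ))
    exact ⟨φ, p1, fun k => by rw [map_sub, sub_eq_zero]; exact (congrFun p2 k).symm⟩
  have c0 : ∀ k φ, (m a).Tan φ → ∀ ψ, dd (ν k) φ ψ = 0 := fun k φ hφ ψ => by
    obtain ⟨χ, p⟩ := D2 fun i => if i = b then ψ else 0
    have e1 := F.inv k (χ - ψ) (by simpa using p b hab b.lt_succ_self) φ
    have e2 := (g1 k χ fun i h1 h2 => by simpa [h2.ne] using p i h1 (by omega)).2 φ
    have e3 := w5 a le_rfl hab k φ hφ χ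
    rw [dd_sub_left, sub_eq_zero] at e1
    rw [dd_swap, ← e1, g0, H96.dd_add, e2, dd_swap, e3]
    simp
  have c1 : ∀ k, Cls (ν k) := fun k θ φ => by
    obtain ⟨θ1, p1, p2⟩ := srj θ
    obtain ⟨φ1, p3, p4⟩ := srj φ
    obtain ⟨Y, y1, y2⟩ := F.ker _ p2
    obtain ⟨Z, z1, z2⟩ := F.ker _ p4
    rw [agr_iff] at y2 z2
    have e : dd (ν k) (θ - θ1 - Y) (φ - φ1 - Z) = 0 := by
      rw [dd, F.van k _ y2, F.van k _ z2, F.van k _ (y2.br z2)]; simp
    rw [dd_sub_left, dd_sub_left, c0 k _ p1, n2 k _ y1, dd_swap, dd_sub_left, dd_sub_left,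
      c0 k _ p3, n2 k _ z1, dd_swap] at e
    simpa using e
  refine ⟨S, fun i k => ω k i, hf, hS, Sb ▸ F, w1, c1, fun i h1 h2 k θ φ => ?_, w3, ind⟩
  obtain ⟨χ, p⟩ := D1 fun j => if j = i then θ else 0
  have e1 := w5 i h1 h2 k (χ - θ) (by simpa using p i h1 h2) φ
  have e2 := c1 k χ φ
  rw [w1 k, dd_sum, Finset.sum_eq_single_of_mem i (Finset.mem_Ico.2 ⟨h1, h2⟩) fun j hj e =>
    have := Finset.mem_Ico.1 hj
    w5 j this.1 this.2 k χ (by simpa [e] using p j this.1 this.2) φ] at e2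
  rwa [dd_sub_left, e2, zero_sub, neg_eq_zero] at e1

end Pool.Agent.MP_249f74_an.H90
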