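import Pool.Agent.MP_249f74_an.H90.Spec
import Pool.Agent.MP_249f74_an.H96.Dbl

/-!
Doubling, and closed forms on a Lie algebra of derivations.
-/

open Set IntermediateField

namespace Pool.Agent.MP_249f74_an.H90

open H17 (Der cl_le cl_mono rk_finite)
open H88 (rk cl subset_cl coe_cl rk_le)
open H96 (Kil Agr Pres Ind Fm dd Cls Van Big dif dif_apply br_apply cl_cl mem_cl_of_kil push
  sep_pres dd_add dd_neg)
open H2 (KrS mem_KrS minsup span_const)

namespace Dbl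

variable {C Ω : Type} [Field C] [Field Ω] [Algebra C Ω]

/-- Either a vector is attained, or a linear relation excludes it. -/
lemma exists_rel (M : IntermediateField C Ω) (G : Set (Der C Ω)) {J : Type} [Fintype J]
    (μ : J → Fm C Ω) (h0 : 0 ∈ G) (ha : ∀ θ ∈ G, ∀ φ ∈ G, θ + φ ∈ G)
    (hs : ∀ a ∈ M, ∀ θ ∈ G, a • θ ∈ G) (hμ : ∀ j, ∀ θ ∈ G, μ j θ ∈ M) (a : J → Ω)
    (haM : ∀ j, a j ∈ M) :
    (∃ θ ∈ G, ∀ j, μ j θ = a j) ∨
      ∃ ρ : J → Ω, (∀ j, ρ j ∈ M) ∧ ∑ j, ρ j * a j ≠ 0 ∧ ∀ θ ∈ G, ∑ j, ρ j * μ j θ = 0 := by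
  classical
  let W : Submodule M (J → M) :=
    { carrier := {v | ∃ θ ∈ G, ∀ j, μ j θ = v j}
      zero_mem' := ⟨0, h0, fun j => by simp⟩
      add_mem' := by
        rintro v w ⟨θ, h1, h2⟩ ⟨φ, h3, h4⟩
        exact ⟨θ + φ, ha _ h1 _ h3, fun j => by simp [h2, h4]⟩
      smul_mem' := by
        rintro b v ⟨θ, h1, h2⟩
        exact ⟨(b : Ω) • θ, hs _ b.2 _ h1, fun j => by simp [h2]⟩ }
  let x : J → M := fun j => ⟨a j, haM j⟩
  by_cases hx : x ∈ W
  · exact Or.inl hx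
  right
  obtain ⟨f, h1, h2⟩ := Submodule.exists_dual_map_eq_bot_of_notMem hx inferInstance
  have hf : ∀ v : J → M, (f v : Ω) = ∑ j, (f (Pi.single j 1) : Ω) * v j := fun v => by
    conv_lhs => rw [← Finset.univ_sum_single v, map_sum, AddSubmonoidClass.coe_finsetSum]
    refine Finset.sum_congr rfl fun j _ => ?_
    rw [mul_comm, ← MulMemClass.coe_mul, ← smul_eq_mul, ← map_smul, ← Pi.single_smul, smul_eq_mul,
      mul_one]
  refine ⟨fun j => (f (Pi.single j 1) : Ω), fun j => (f (Pi.single j 1)).2,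
    fun h => h1 (Subtype.ext ((hf x).trans h)), fun θ hθ => ?_⟩
  have h3 : f (fun j => ⟨μ j θ, hμ j θ hθ⟩) ∈ W.map f :=
    Submodule.mem_map_of_mem ⟨θ, hθ, fun _ => rfl⟩
  rw [h2, Submodule.mem_bot] at h3
  exact (hf _).symm.trans (congrArg Subtype.val h3)

/-- A subset of a finitely generated closure has a finite basis. -/
lemma exists_fin {S X : Set Ω} (hS : S.Finite) (hX : X ⊆ cl C S) :
    ∃ U : Set Ω, U.Finite ∧ U ⊆ X ∧ X ⊆ cl C U := by
  obtain ⟨I, hI⟩ := (AlgebraicIndependent.matroid C Ω).exists_isBasis X (by simp)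
  refine ⟨I, Set.finite_of_encard_le_coe (k := (rk C S).toNat) ?_, hI.subset, ?_⟩
  · rw [ENat.natCast_toNat (rk_finite hS), ← hI.indep.eRk_eq_encard]
    exact rk_le (hI.subset.trans hX)
  · rw [coe_cl]; exact hI.subset_closure

/-- The derivative of a linear relation. -/
lemma der_rel {J : Type} [Fintype J] {μ : J → Fm C Ω} {w : J → Ω} {δ φ : Der C Ω}
    (h : ∑ j, w j * μ j φ = 0) (h' : ∑ j, w j * δ (μ j φ) = 0) : ∑ j, δ (w j) * μ j φ = 0 := by
  have := congrArg δ h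
  simp only [map_sum, Derivation.leibniz, smul_eq_mul, map_zero, Finset.sum_add_distrib, h',
    zero_add] at this
  simpa only [mul_comm] using this

end Dbl

open Dbl

theorem dbl : StmtDBL := by
  intro C Ω κ _ _ _ _ _ _ _ T SA SL LA LB ν ω γ hB hT hSA hSL hLA hLB hν hγ hsum hνL hωA hγT hIA
    hIL
  obtain ⟨σ, hσ, hI⟩ := H96.copy C Ω (SA ∪ SL) T hB (hSA.union hSL) hT
  obtain ⟨U, hU, u1, u2⟩ := exists_fin (C := C) (hSL.union (hSL.image σ))
    (X := ((cl C (SA ∪ σ '' SA) ⊓ cl C (SL ∪ σ '' SL) : IntermediateField C Ω) : Set Ω))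
    fun _ h => h.2
  have hUA : U ⊆ cl C (SA ∪ σ '' SA) := fun _ h => (u1 h).1
  have hUL : U ⊆ cl C (SL ∪ σ '' SL) := fun _ h => (u1 h).2
  have hμ : ∀ k, Van (ν k - push σ (ν k)) U := fun k θ hθ => by
    refine H96.ch H96.copy C Ω _ _ _ hB (fun θ φ => ?_) (hSA.union (hSA.image σ))
      (hSL.union (hSL.image σ)) (fun θ hθ => ?_) (fun θ hθ => ?_) θ (hθ.cl.mono u2)
    · rw [sub_eq_add_neg, dd_add, dd_neg, hν k, (hν k).push σ, neg_zero, add_zero]
    · have h3 := LinearMap.congr_fun ((hγT k).push_eq hT (hγ k) hσ) θ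
      have h4 := (hωA k).push σ θ (hθ.mono subset_union_right)
      rw [H96.push_apply] at h3 h4
      rw [LinearMap.sub_apply, H96.push_apply, hsum k, LinearMap.add_apply, LinearMap.add_apply,
        map_add, h3, h4, hωA k θ (hθ.mono subset_union_left), sub_self]
    · rw [LinearMap.sub_apply, hνL k θ (hθ.mono subset_union_left),
        (hνL k).push σ θ (hθ.mono subset_union_right), sub_self]
  have hbr : ∀ k θ φ, ν k ⁅θ, φ⁆ = θ (ν k φ) - φ (ν k θ) := fun k θ φ =>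
    (sub_eq_zero.1 (hν k θ φ)).symm
  let G : Set (Der C Ω) := {θ | Kil U θ ∧ Pres (cl C T) θ ∧ ∀ k, ν k θ ∈ cl C T}
  have hG : Lie (cl C T) G :=
    ⟨⟨fun _ _ => rfl, fun _ _ => zero_mem _, fun k => by simp⟩,
      fun θ hθ φ hφ => ⟨fun f hf => by simp [hθ.1 f hf, hφ.1 f hf],
        fun f hf => add_mem (hθ.2.1 f hf) (hφ.2.1 f hf),
        fun k => by rw [map_add]; exact add_mem (hθ.2.2 k) (hφ.2.2 k)⟩,
      fun a ha θ hθ => ⟨fun f hf => by simp [hθ.1 f hf], fun f hf => mul_mem ha (hθ.2.1 f hf),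
        fun k => by rw [map_smul]; exact mul_mem ha (hθ.2.2 k)⟩,
      fun θ hθ φ hφ => ⟨hθ.1.br hφ.1, hθ.2.1.br hφ.2.1, fun k => by
        rw [hbr]; exact sub_mem (hθ.2.1 _ (hφ.2.2 k)) (hφ.2.1 _ (hθ.2.2 k))⟩,
      fun θ hθ => hθ.2.1⟩
  by_cases hl : ∀ k, ∃ Δ ∈ {φ ∈ G | Kil (cl C T : Set Ω) φ}, ∀ j, ν j Δ = if j = k then 1 else 0
  · refine Or.inl ⟨σ, U, hσ, hI.mono (image_mono subset_union_right)
      (union_subset_union_left _ subset_union_right), hU, hUL, hμ, fun k => ?_⟩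
    obtain ⟨Δ, d1, d2⟩ := hl k
    exact ⟨Δ, d1.2.mono (subset_cl _), d1.1.1, d2⟩
  right
  obtain ⟨k, hk⟩ := not_forall.1 hl
  obtain ⟨ρ, r1, r2, r3⟩ := (exists_rel (cl C T) {φ ∈ G | Kil (cl C T : Set Ω) φ} ν
    ⟨hG.zero, fun _ _ => rfl⟩
    (fun θ hθ φ hφ => ⟨hG.add θ hθ.1 φ hφ.1, fun f hf => by simp [hθ.2 f hf, hφ.2 f hf]⟩)
    (fun a ha θ hθ => ⟨hG.smul a ha θ hθ.1, fun f hf => by simp [hθ.2 f hf]⟩)
    (fun j θ hθ => hθ.1.2.2 j) (fun j => if j = k then 1 else 0) fun j => by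
      split_ifs
      exacts [one_mem _, zero_mem _]).resolve_left hk
  obtain ⟨lam, ⟨l1, l2⟩, ⟨j, -, l3⟩, -, l4⟩ := minsup (Δ := G) (F := (cl C T : Set Ω))
    (W := {w | (∀ i, w i ∈ cl C T) ∧ ∀ φ ∈ G, Kil (cl C T : Set Ω) φ → ∑ i, w i * ν i φ = 0})
    (fun w hw i => ⟨fun k => mul_mem (inv_mem (hw.1 i)) (hw.1 k), fun φ p1 p2 => by
      simp only [Pi.smul_apply, smul_eq_mul, mul_assoc, ← Finset.mul_sum, hw.2 φ p1 p2, mul_zero]⟩)
    (fun δ hδ w hw => ⟨fun k => hδ.2.1 _ (hw.1 k), fun φ p1 p2 => der_rel (hw.2 φ p1 p2) (by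
      simpa only [hbr, p2 _ (hδ.2.2 _), sub_zero] using hw.2 _ (hG.br δ hδ φ p1) fun f hf => by
        rw [br_apply, p2 f hf, p2 _ (hδ.2.1 f hf), map_zero, sub_zero])⟩)
    (fun w hw => hw.1) Finset.univ ρ ⟨r1, fun φ p1 p2 => r3 φ ⟨p1, p2⟩⟩
    (fun h => r2 (by simp [h])) (by simp)
  refine ⟨lam, G, fun h => by simp [h] at l3, hG, fun k θ hθ => hθ.2.2 k, l1,
    fun k θ hθ => mem_KrS.1 (l4 k).2 θ hθ, l2, fun θ h1 h2 => ?_, fun θ h1 h2 => ?_⟩
  · obtain ⟨φ, b1, b2⟩ := H96.Dbl.lift hσ hI subset_union_left hIA hLA h2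
    have b3 : ∀ k, ν k φ = γ k θ := fun k => by
      rw [hsum k, LinearMap.add_apply, hωA k φ (b2.mono (subset_union_left.trans (subset_cl _))),
        zero_add, (hγT k).agr (b1.mono (subset_cl _))]
    refine ⟨φ, ⟨b2.mono hUA, fun g hg => b1 g hg ▸ h1 g hg, fun k => ?_⟩, b1, b3⟩
    obtain ⟨m, p, q, c1, c2, c3⟩ := (hγT k).coef hT (hγ k)
    rw [b3, c3]
    exact sum_mem fun j _ => mul_mem (c1 j) (h1 _ (subset_cl _ (c2 j)))
  · obtain ⟨φ, b1, b2⟩ := H96.Dbl.lift hσ hI subset_union_right hIL hLB h2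
    have b3 : ∀ k, ν k φ = 0 := fun k => hνL k φ (b2.mono (subset_union_left.trans (subset_cl _)))
    exact ⟨φ, ⟨b2.mono hUL, fun g hg => b1 g hg ▸ h1 g hg, fun k => b3 k ▸ zero_mem _⟩, b1, b3⟩

theorem kap : StmtKAP := by
  intro C Ω κ _ _ _ _ _ M G η z hM hG hz hη hd hl h0
  classical
  let μ : Option κ → Fm C Ω := fun j => j.elim η fun j => dif (z j)
  have hμ : ∀ j, ∀ θ ∈ G, μ j θ ∈ M := fun j θ hθ => by
    cases j
    exacts [hη θ hθ, hG.pres θ hθ _ (hz _)]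
  obtain ⟨ρ, -, r2, r3⟩ := (exists_rel M G μ hG.zero hG.add hG.smul hμ
    (fun j => j.elim 1 fun _ => 0) fun j => by
      cases j
      exacts [one_mem _, zero_mem _]).resolve_left fun ⟨θ, t1, t2⟩ =>
        one_ne_zero ((t2 none).symm.trans (h0 θ t1 (funext fun j => t2 (some j))))
  let W : Submodule Ω (Option κ → Ω) :=
    { carrier := {w | ∀ θ ∈ G, ∑ j, w j * μ j θ = 0}
      zero_mem' := fun θ _ => by simp
      add_mem' := fun {a b} ha hb θ hθ => by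
        simp only [Pi.add_apply, add_mul, Finset.sum_add_distrib, ha θ hθ, hb θ hθ, add_zero]
      smul_mem' := fun c a ha θ hθ => by
        simp only [Pi.smul_apply, smul_eq_mul, mul_assoc, ← Finset.mul_sum, ha θ hθ, mul_zero] }
  have hW := span_const (W := W) (Δ := {δ | Kil (M : Set Ω) δ ∨ (δ ∈ G ∧ dv z δ = 0)}) (by
    rintro δ (hδ | hδ) w hw θ hθ
    · exact der_rel (hw θ hθ) (by simp [hδ _ (hμ _ θ hθ)])
    · refine der_rel (hw θ hθ) (Eq.trans (Finset.sum_congr rfl fun j _ => ?_)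
        (hw _ (hG.br δ hδ.1 θ hθ)))
      congr 1
      cases j with
      | none =>
        have := hd δ hδ.1 θ hθ
        rw [dd, h0 δ hδ.1 hδ.2, map_zero, sub_zero, sub_eq_zero] at this
        exact this
      | some j =>
        have : δ (z j) = 0 := congrFun hδ.2 j
        simp [μ, br_apply, this])
  obtain ⟨v, ⟨v1, v2⟩, v3⟩ : ∃ v ∈ {v | v ∈ W ∧
      ∀ i, v i ∈ KrS {δ : Der C Ω | Kil (M : Set Ω) δ ∨ (δ ∈ G ∧ dv z δ = 0)}}, v none ≠ 0 := by
    by_contra hn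
    push Not at hn
    have := Submodule.span_le (p := LinearMap.ker (LinearMap.proj (R := Ω) none)) |>.2 hn (hW r3)
    exact r2 (by simpa using this)
  have hv : ∀ i, v i ∈ cl C (range z) := fun i => by
    by_contra hn
    obtain ⟨θ, t1, t2, t3⟩ := sep_pres hM (range_subset_iff.2 hz)
      (hM ▸ mem_cl_of_kil fun δ hδ => mem_KrS.1 (v2 i) δ (Or.inl hδ)) hn
    obtain ⟨φ, p1, p2⟩ := hl θ t1 (kil_range.1 t2)
    have := mem_KrS.1 (v2 i) φ (Or.inr ⟨p1, kil_range.1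
      (t2.of_agr (p2.mono (range_subset_iff.2 hz)))⟩)
    rw [p2 _ (hM ▸ mem_cl_of_kil fun δ hδ => mem_KrS.1 (v2 i) δ (Or.inl hδ)), t3] at this
    exact one_ne_zero this
  refine ⟨fun j => -(v none)⁻¹ * v (some j),
    fun j => mul_mem (neg_mem (inv_mem (hv _))) (hv _), fun θ hθ => ?_⟩
  have := v1 θ hθ
  rw [Fintype.sum_option] at this
  simp only [dotProduct, mul_assoc, ← Finset.mul_sum, dv_apply]
  simp only [μ, Option.elim, dif_apply] at this
  field_simp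
  linear_combination this

end Pool.Agent.MP_249f74_an.H90
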