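import Pool.Agent.MP_249f74_an.H90.Spec
import Pool.Agent.MP_249f74_an.H2.Calc3
import Pool.Agent.MP_249f74_an.H96.Free
import Pool.Agent.MP_249f74_an.H96.Pen
import Pool.Agent.MP_249f74_an.H96.Aut

/-!
Functions that are rational along a generic line, and free deformations of a transcendental point.
-/

open Set IntermediateField

namespace Pool.Agent.MP_249f74_an.H90

open H17 (Der Kr mem_Kr stab_sup cl_le cl_mono)
open H88 (cl subset_cl)
open H96 (Kil Agr Pres Ind br_apply mem_cl_of_kil mem_cl_of_der ext_one ind_of_der cj cj_apply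
  mem_cl_image)
open H96.PenAux (kl inl inr pr)
open H96.Free (sup_le_cl shift)
open H2 (KrS mem_KrS ind_of_ders sep_var)

namespace Free

variable {C Ω κ : Type} [Field C] [Field Ω] [Algebra C Ω]

lemma sup_cl (k : IntermediateField C Ω) (S : Set Ω) :
    k ⊔ adjoin C S ≤ cl C ((k : Set Ω) ∪ S) :=
  sup_le (fun _ h => subset_cl _ (Or.inl h)) (adjoin_le_iff.2 fun _ h => subset_cl _ (Or.inr h))

lemma pres_sup {k : IntermediateField C Ω} {S : Set Ω} {P : Der C Ω} (h : Pres k P)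
    (hs : Kil S P) : Pres (k ⊔ adjoin C S) P :=
  stab_sup (fun a ha => SetLike.le_def.1 le_sup_left (h a ha)) fun a ha => by
    rw [mem_Kr.1 ((adjoin_le_iff.2 hs : adjoin C S ≤ Kr P) ha)]; exact zero_mem _

variable [Fintype κ] [DecidableEq κ] [CharZero Ω] [IsAlgClosed Ω]

/-- Translation of the slopes and separation of variables. -/
lemma core {k : IntermediateField C Ω} {s x : κ → Ω} {y r : Ω} {D P : κ → Der C Ω} {Q : Der C Ω}
    (hk : ∀ j, Kil k (D j)) (hs : ∀ i j, D i (s j) = if i = j then 1 else 0)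
    (hP : ∀ j, Pres k (P j)) (hQ : Pres k Q)
    (hc : ∀ f ∈ k ⊔ adjoin C (range s), ∀ i, P i (Q f) = Q (P i f))
    (hc' : ∀ f ∈ k ⊔ adjoin C (range s), ∀ i j, P i (P j f) = P j (P i f))
    (ps : ∀ i j, P i (s j) = 0) (qs : ∀ j, Q (s j) = 0) (py : ∀ i, P i y = 0) (qy : Q y = 1)
    (px : ∀ i j, P i (x j) = if i = j then 1 else 0) (qx : ∀ j, Q (x j) = 0) (hx : ∀ j, x j ∈ k)
    (hy : y ∈ k) (hr : r ∈ k)
    (h0 : ∀ f ∈ k, (∀ j, P j f = 0) → Q f = 0 → f ∈ (⊥ : IntermediateField C Ω))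
    (h1 : r ∈ cl C ((Kr (Q + ∑ j, s j • P j) : Set Ω) ∪ {y})) :
    r ∈ cl C (insert y (range x)) := by
  have l1 : k ≤ k ⊔ adjoin C (range s) := le_sup_left
  have s1 : ∀ j, s j ∈ k ⊔ adjoin C (range s) := fun j =>
    SetLike.le_def.1 le_sup_right (subset_adjoin C _ ⟨j, rfl⟩)
  have P1 := fun j => pres_sup (hP j) (S := range s) (by rintro _ ⟨i, rfl⟩; exact ps j i)
  have Q1 := pres_sup hQ (S := range s) (by rintro _ ⟨i, rfl⟩; exact qs i)
  have eX : ∀ f, (Q + ∑ j, s j • P j) f = Q f + ∑ j, s j * P j f := fun f => by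
    simp [H96.sum_apply]
  generalize Q + ∑ j, s j • P j = X at h1 eX
  have X1 : Pres (k ⊔ adjoin C (range s)) X := fun f hf =>
    eX f ▸ add_mem (Q1 f hf) (sum_mem fun j _ => mul_mem (s1 j) (P1 j f hf))
  have Xs : ∀ j, X (s j) = 0 := fun j => by simp [eX, ps, qs]
  have Xy : X y = 1 := by simp [eX, py, qy]
  have Xc : ∀ j, X (x j - s j * y) = 0 := fun j => by
    rw [map_sub, Derivation.leibniz, Xs, Xy, eX]; simp [px, qx]
  have Pc : ∀ i j, P i (x j - s j * y) = if i = j then 1 else 0 := fun i j => by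
    simp [px, ps, py]
  have PX : ∀ f ∈ k ⊔ adjoin C (range s), ∀ i, P i (X f) = X (P i f) := fun f hf i => by
    simp [eX, hc f hf, hc' f hf i, ps]
  have h2 := (ind_of_der X1 (K0 := ((k ⊔ adjoin C (range s)) ⊓ Kr X : IntermediateField C Ω))
    fun g hg e => subset_cl _ ⟨hg, e⟩).symm.mem_cl (S := {y}) (singleton_subset_iff.2 (l1 hy))
    (l1 hr) h1
  have h3 : ∀ j, r ∈ cl C ((Kr (X + P j) : Set Ω) ∪ {y}) := fun j => by
    obtain ⟨τ, t0, t2⟩ := shift H96.aut (k := Kr (D j)) (D := D j) (s := s j) (fun _ h => h)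
      (by simp [hs])
    have t1 : ∀ a ∈ k, τ a = a := fun a ha => t0 a (hk j a ha)
    have t3 : ∀ i, τ (s i) = s i + if j = i then 1 else 0 := fun i => by
      split_ifs with e
      · rw [← e, t2]
      · rw [add_zero]; exact t0 _ (by rw [mem_Kr, hs, if_neg e])
    have t4 : Agr ((k : Set Ω) ∪ range s) (cj τ.symm (X + P j)) X := by
      rintro f (hf | ⟨i, rfl⟩)
      · rw [cj_apply, AlgEquiv.symm_symm, t1 f hf, AlgEquiv.symm_apply_eq, Derivation.add_apply, eX]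
        simp [t1 _ (hP _ f hf), t1 _ (hQ f hf), t3, add_mul, Finset.sum_add_distrib, add_assoc]
      · rw [cj_apply, AlgEquiv.symm_symm, t3, Xs]
        split_ifs <;> simp [Xs, ps]
    rw [← t1 r hr]
    refine cl_mono ?_ (mem_cl_image.2 h2)
    rintro _ ⟨f, hf | rfl, rfl⟩
    · have := t4.cl f (sup_cl k _ hf.1)
      rw [mem_Kr.1 hf.2, cj_apply, AlgEquiv.symm_symm] at this
      exact Or.inl ((map_eq_zero_iff _ τ.symm.injective).1 this)
    · exact Or.inr (t1 _ hy)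
  have c1 : ∀ j, x j - s j * y ∈ k ⊔ adjoin C (range s) := fun j =>
    sub_mem (l1 (hx j)) (mul_mem (s1 j) (l1 hy))
  have sh : ∀ (Y : Der C Ω) (z : Ω), Y (y - z) = 0 → r ∈ cl C ((Kr Y : Set Ω) ∪ {y}) →
      r ∈ cl C ((Kr Y : Set Ω) ∪ {z}) := fun Y z e h => by
    refine cl_le (union_subset (fun f hf => subset_cl _ (Or.inl hf)) ?_) h
    rintro _ rfl
    have := add_mem (subset_cl (k := C) ((Kr Y : Set Ω) ∪ {z}) (Or.inl e))
      (subset_cl (k := C) ((Kr Y : Set Ω) ∪ {z}) (Or.inr rfl))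
    rwa [sub_add_cancel] at this
  have h4 := sep_var (F := k ⊔ adjoin C (range s))
    (Y := fun a : Option κ => a.elim X fun j => X + P j)
    (z := fun a : Option κ => a.elim (y - ∑ j, (x j - s j * y)) fun j => x j - s j * y)
    (by
      rintro (_ | j)
      · exact X1
      · exact fun f hf => add_mem (X1 f hf) (P1 j f hf))
    (by
      rintro (_ | i) (_ | j) f hf
      · simp
      · simp [br_apply, PX f hf]
      · simp [br_apply, PX f hf]
      · simp only [Option.elim_some, br_apply, Derivation.add_apply, map_add, PX f hf, hc' f hf i j]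
        ring)
    (by
      rintro (_ | j)
      · exact sub_mem (l1 hy) (sum_mem fun j _ => c1 j)
      · exact c1 j)
    (by
      rintro (_ | i) (_ | j) h
      · exact absurd rfl h
      · exact Xc j
      · simp only [Option.elim_some, Option.elim_none, Derivation.add_apply]
        rw [map_sub X, map_sub (P i), map_sum, map_sum]
        simp only [Xc, Pc, Xy, py]
        simp
      · simp only [Option.elim_some, Derivation.add_apply, Xc, Pc, zero_add]
        exact if_neg fun e => h (congrArg some e))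
    (l1 hr)
    (by
      rintro (_ | j)
      · refine sh X _ ?_ h1
        simp only [Option.elim_none]
        rw [sub_sub_cancel, map_sum]
        simp only [Xc, Finset.sum_const_zero]
      · refine sh (X + P j) _ ?_ (h3 j)
        simp only [Option.elim_some]
        rw [Derivation.add_apply, map_sub X, map_sub (P j), Xc, Pc, Xy, py]
        simp) Finset.univ
  have hI := ind_of_ders (Δ := insert Q (range P)) (F := k) (K0 := ∅)
    (by rintro _ (rfl | ⟨j, rfl⟩); exacts [hQ, hP j])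
    fun f hf e => (bot_le : ⊥ ≤ cl C (∅ : Set Ω))
      (h0 f hf (fun j => e _ (Or.inr ⟨j, rfl⟩)) (e _ (Or.inl rfl)))
  refine mem_cl_of_kil fun θ hθ => ?_
  have k1 : Kil (range s) (θ - ∑ j, θ (s j) • D j) := by
    rintro _ ⟨i, rfl⟩
    simp [H96.sum_apply, hs]
  have k2 : ∀ f ∈ k, (θ - ∑ j, θ (s j) • D j) f = θ f := fun f hf => by
    simp [H96.sum_apply, hk _ f hf]
  generalize θ - ∑ j, θ (s j) • D j = φ at k1 k2
  have k3 : φ y = 0 := (k2 y hy).trans (hθ y (Or.inl rfl))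
  have k4 : ∀ j, φ (x j - s j * y) = 0 := fun j => by
    simp [k3, k1 _ ⟨j, rfl⟩, k2 _ (hx j), hθ _ (Or.inr ⟨j, rfl⟩)]
  rw [← k2 r hr]
  refine Kil.cl (Kil.union (fun f hf => ?_) ?_) r h4
  · have e0 : X f = 0 := mem_KrS.1 hf.2 _ ⟨none, by simp, rfl⟩
    have e1 : ∀ j, P j f = 0 := fun j => by
      simpa [e0] using mem_KrS.1 hf.2 _ ⟨some j, by simp, rfl⟩
    have e2 : Q f = 0 := by simpa [eX, e1] using e0
    have e3 := hI.mem_cl (S := range s) (u := f) (by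
      rintro _ ⟨i, rfl⟩
      exact mem_KrS.2 (by rintro _ (rfl | ⟨j, rfl⟩); exacts [qs i, ps j i]))
      (mem_KrS.2 (by rintro _ (rfl | ⟨j, rfl⟩); exacts [e2, e1 j])) (sup_cl k _ hf.1)
    rw [empty_union] at e3
    exact k1.cl f e3
  · rintro _ ⟨_ | j, -, rfl⟩
    · simp only [Option.elim_none]
      rw [map_sub, map_sum]
      simp only [k3, k4, Finset.sum_const_zero, sub_zero]
    · exact k4 j

/-- The pencil in affine coordinates. -/
lemma pen {K : IntermediateField C Ω} {s c : κ → Ω} {y r : Ω} {ds dc : κ → Der C Ω}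
    (hy : y ∉ cl C (K : Set Ω)) (hs : ∀ j, s j ∈ K) (hc : ∀ j, c j ∈ K)
    (p1 : ∀ j, Pres K (ds j)) (p2 : ∀ j, Pres K (dc j))
    (e11 : ∀ i j, ds i (s j) = if i = j then 1 else 0) (e12 : ∀ i j, ds i (c j) = 0)
    (e21 : ∀ i j, dc i (s j) = 0) (e22 : ∀ i j, dc i (c j) = if i = j then 1 else 0)
    (cm : ∀ i j f, ds i (dc j f) = dc j (ds i f)) (cm' : ∀ i j f, dc i (dc j f) = dc j (dc i f))
    (const : ∀ f, (∀ j, ds j f = 0) → (∀ j, dc j f = 0) → f ∈ (⊥ : IntermediateField C Ω))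
    (hD : ∀ j, (ds j - y • dc j) y = 0) (hr : r ∈ K ⊔ C⟮y⟯)
    (h0 : ∀ j, (ds j - y • dc j) r = 0) :
    r ∈ cl C (insert y (range fun j => c j + s j * y)) := by
  choose P a1 a2 using fun j => ext_one hy (dc j) 0
  obtain ⟨X, x1, x2⟩ := ext_one hy 0 1
  have pK : ∀ j, ∀ f ∈ K, P j f = dc j f := fun j f hf => a1 j f (subset_cl _ hf)
  have xK : ∀ f ∈ K, X f = 0 := fun f hf => x1 f (subset_cl _ hf)
  obtain ⟨D, eD⟩ : ∃ D : κ → Der C Ω, ∀ j, D j = ds j - y • dc j := ⟨_, fun _ => rfl⟩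
  have dD : ∀ j f, D j f = ds j f - y * dc j f := fun j f => by simp [eD]
  simp only [← eD] at hD h0
  have sP : ∀ j, Pres (K ⊔ C⟮y⟯) (P j) := fun j =>
    pr (fun f hf => pK j f hf ▸ inl (p2 j f hf)) (a2 j ▸ zero_mem _)
  have sX : Pres (K ⊔ C⟮y⟯) X := pr (fun f hf => xK f hf ▸ zero_mem _) (x2 ▸ one_mem _)
  have eQ : ∀ f, (X - ∑ j, s j • P j) f = X f - ∑ j, s j * P j f := fun f => by simp [H96.sum_apply]
  have b1 := fun i j => kl (K := K) (y := y) (θ := ⁅D i, P j⁆) (fun f hf => by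
    simp [br_apply, dD, pK j f hf, pK j _ (p1 i f hf), pK j _ (p2 i f hf), a2, cm, cm' i j])
    (by simp [br_apply, hD, a2])
  have b2 := fun i => kl (K := K) (y := y) (θ := ⁅D i, X⁆ - P i) (fun f hf => by
    simp [br_apply, dD, pK i f hf, xK f hf, xK _ (p1 i f hf), xK _ (p2 i f hf), x2])
    (by simp [br_apply, hD, a2, x2])
  have b3 := fun i => kl (K := K) (y := y) (θ := ⁅P i, X⁆) (fun f hf => by
    simp [br_apply, pK i f hf, xK f hf, xK _ (p2 i f hf)]) (by simp [br_apply, a2, x2])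
  have b4 := fun i j => kl (K := K) (y := y) (θ := ⁅P i, P j⁆) (fun f hf => by
    simp [br_apply, pK i f hf, pK j f hf, pK i _ (p2 j f hf), pK j _ (p2 i f hf), cm' i j])
    (by simp [br_apply, a2])
  simp only [br_apply, Derivation.sub_apply, sub_eq_zero] at b1 b2 b3 b4
  have ps : ∀ i j, P i (s j) = 0 := fun i j => (pK i _ (hs j)).trans (e21 i j)
  have pc : ∀ i j, P i (c j) = if i = j then 1 else 0 := fun i j => (pK i _ (hc j)).trans (e22 i j)
  have Ds : ∀ i j, D i (s j) = if i = j then 1 else 0 := fun i j => by simp [dD, e11, e21]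
  have Dc : ∀ i j, D i (c j) = if i = j then -y else 0 := fun i j => by
    rw [dD, e12, e22]; split_ifs <;> simp
  have k1 : ∀ f ∈ K ⊔ C⟮y⟯, ∀ i j, D i f = 0 → D i (P j f) = 0 := fun f hf i j h => by
    rw [b1 i j f hf, h, map_zero]
  have mk : ∀ {f}, f ∈ K ⊔ C⟮y⟯ → (∀ j, D j f = 0) → f ∈ (K ⊔ C⟮y⟯) ⊓ KrS (range D) :=
    fun hf h => ⟨hf, mem_KrS.2 (by rintro _ ⟨j, rfl⟩; exact h j)⟩
  have kD : ∀ j, Kil ((K ⊔ C⟮y⟯) ⊓ KrS (range D) : IntermediateField C Ω) (D j) := fun j f hf =>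
    mem_KrS.1 hf.2 _ ⟨j, rfl⟩
  have le : (K ⊔ C⟮y⟯) ⊓ KrS (range D) ⊔ adjoin C (range s) ≤ K ⊔ C⟮y⟯ :=
    sup_le inf_le_left (adjoin_le_iff.2 (by rintro _ ⟨j, rfl⟩; exact inl (hs j)))
  refine core (k := (K ⊔ C⟮y⟯) ⊓ KrS (range D)) (P := P) (Q := X - ∑ j, s j • P j) kD Ds
    (fun j f hf => mk (sP j f hf.1) fun i => k1 f hf.1 i j (kD i f hf))
    (fun f hf => mk (eQ f ▸ sub_mem (sX f hf.1)
      (sum_mem fun j _ => mul_mem (inl (hs j)) (sP j f hf.1))) fun i => ?_)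
    (fun f hf i => by simp [eQ, b3 i f (le hf), b4 i _ f (le hf), ps])
    (fun f hf i j => b4 i j f (le hf)) ps (fun j => by simp [eQ, ps, xK _ (hs j)]) a2
    (by simp [eQ, a2, x2]) (fun i j => by simp [ps, pc, a2])
    (fun j => by simp [eQ, ps, pc, a2, x2, xK _ (hs j), xK _ (hc j)])
    (fun j => mk (add_mem (inl (hc j)) (mul_mem (inl (hs j)) inr)) fun i => ?_) (mk inr hD)
    (mk hr h0) (fun f hf h1 h2 => ?_) ?_
  · have h1 := b2 i f hf.1
    rw [kD i f hf, map_zero, sub_zero] at h1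
    simp [eQ, h1, Ds, k1 f hf.1 i _ (kD i f hf)]
  · rw [map_add, Derivation.leibniz, Ds, Dc, hD]
    split_ifs <;> simp
  · have h3 : f ∈ cl C (K : Set Ω) := mem_cl_of_der (t := y) (δ := X)
      ((sup_le (fun g hg => subset_cl _ (Or.inr hg)) (adjoin_simple_le_iff.2
        (subset_cl _ (Or.inl rfl))) : K ⊔ C⟮y⟯ ≤ cl C (insert y (K : Set Ω))) hf.1) xK
      (by simpa [eQ, h1] using h2) (x2 ▸ one_ne_zero)
    have h4 : ∀ j, dc j f = 0 := fun j => (a1 j f h3).symm.trans (h1 j)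
    exact const f (fun j => by simpa [dD, h4] using kD j f hf) h4
  · rw [sub_add_cancel]
    exact cl_mono (union_subset_union_left _ xK) (sup_le_cl K y hr)

variable {ι : Type} [Fintype ι] {E : Submodule Ω (Der C Ω)}

omit [Fintype κ] [DecidableEq κ] [IsAlgClosed Ω] in
/-- The affine coordinates of a line separate the module. -/
lemma inj (l : Ln E ι) {i : ι} (hi : l.u i ≠ 0) {Z : Der C Ω} (hZ : Z ∈ E)
    (h1 : ∀ j, j ≠ i → Z (l.u j / l.u i) = 0)
    (h2 : ∀ j, j ≠ i → Z (l.x j - l.u j / l.u i * l.x i) = 0) : Z = 0 := by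
  have a1 : ∀ j, Z (l.u j / l.u i) = 0 := fun j => by
    by_cases e : j = i
    · rw [e, div_self hi, Derivation.map_one_eq_zero]
    · exact h1 j e
  have a2 : dv l.u Z = (Z (l.u i) / l.u i) • l.u := by
    ext j
    have := Z.leibniz (l.u j / l.u i) (l.u i)
    rw [div_mul_cancel₀ _ hi, a1, smul_zero, add_zero, smul_eq_mul] at this
    rw [dv_apply, this, Pi.smul_apply, smul_eq_mul]
    ring
  have a3 := unit_dot l.uu Z
  rw [a2, smul_dotProduct, l.uu, smul_eq_mul, mul_one] at a3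
  rw [a3, zero_smul] at a2
  have a4 : dv l.x Z = (Z (l.x i) / l.u i) • l.u := by
    ext j
    have : Z (l.x j - l.u j / l.u i * l.x i) = 0 := by
      by_cases e : j = i
      · rw [e, div_self hi, one_mul, sub_self, map_zero]
      · exact h2 j e
    rw [map_sub, Derivation.leibniz, a1, smul_zero, add_zero, smul_eq_mul, sub_eq_zero] at this
    rw [dv_apply, this, Pi.smul_apply, smul_eq_mul]
    ring
  have a5 := l.dx_dot Z
  rw [a2, a4, smul_dotProduct, l.uu, smul_eq_mul, mul_one, dotProduct_zero, add_zero] at a5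
  rw [a5, zero_smul] at a4
  exact l.inj Z hZ a2 a4

omit [Fintype κ] [DecidableEq κ] [IsAlgClosed Ω] [CharZero Ω] in
/-- Prescribing the motion of the affine coordinates. -/
lemma surj {l : Ln E ι} {K : IntermediateField C Ω} (hK : Stab l K) {i : ι} (hi : l.u i ≠ 0)
    {a b : ι → Ω} (ha : a i = 0) (hb : b i = 0) (aK : ∀ j, a j ∈ K) (bK : ∀ j, b j ∈ K) :
    ∃ Z ∈ E, Pres K Z ∧ (∀ j, Z (l.u j / l.u i) = a j) ∧
      ∀ j, Z (l.x j - l.u j / l.u i * l.x i) = b j := by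
  have uK : ∀ j, l.u j ∈ K := fun j => hK.sub (l.u_mem j)
  have xK : ∀ j, l.x j ∈ K := fun j => hK.sub (l.x_mem j)
  obtain ⟨Z, h1, h2, h3⟩ := l.surj (l.u i • a - (l.u i * (a ⬝ᵥ l.u)) • l.u)
    (b + l.x i • a - (b ⬝ᵥ l.u + l.x i * (a ⬝ᵥ l.u) + l.u i * (l.x ⬝ᵥ a)) • l.u)
    (by simp [l.uu]) (by simp [l.uu, l.xu])
  have e2 : ∀ j, Z (l.u j) = l.u i * a j - l.u i * (a ⬝ᵥ l.u) * l.u j := fun j => congrFun h2 j
  have e3 : ∀ j, Z (l.x j) = b j + l.x i * a j -
    (b ⬝ᵥ l.u + l.x i * (a ⬝ᵥ l.u) + l.u i * (l.x ⬝ᵥ a)) * l.u j := fun j => congrFun h3 j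
  have e4 : ∀ j, Z (l.u j / l.u i) = a j := fun j => by
    have := Z.leibniz (l.u j / l.u i) (l.u i)
    rw [div_mul_cancel₀ _ hi, e2, e2, ha, smul_eq_mul, smul_eq_mul] at this
    apply mul_left_cancel₀ hi
    field_simp at this
    linear_combination -this
  refine ⟨Z, h1, hK.pres Z h1 ?_, e4, fun j => ?_⟩
  · rintro _ (⟨j, rfl⟩ | ⟨j, rfl⟩)
    · exact e2 j ▸ sub_mem (mul_mem (uK i) (aK j)) (mul_mem (mul_mem (uK i) (dot_mem aK uK)) (uK j))
    · exact e3 j ▸ sub_mem (add_mem (bK j) (mul_mem (xK i) (aK j))) (mul_mem (add_mem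
        (add_mem (dot_mem bK uK) (mul_mem (xK i) (dot_mem aK uK))) (mul_mem (uK i) (dot_mem xK aK)))
        (uK j))
  · rw [map_sub, Derivation.leibniz, e4, e3, e3, ha, hb, smul_eq_mul, smul_eq_mul]
    field_simp
    ring

omit [Fintype κ] [DecidableEq κ] in
/-- A part of the pencil that preserves the field and has no new constants in it. -/
lemma pencil {m : Pt E ι} {l : Ln E ι} {K : IntermediateField C Ω} (hE : Amb E) (o : On m l)
    (hK : Stab l K) (ht : m.q ⬝ᵥ l.u ∉ K) :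
    ∃ Δ : Set (Der C Ω), (∀ δ ∈ Δ, δ ∈ m.D ∧ Pres (K ⊔ C⟮m.q ⬝ᵥ l.u⟯) δ) ∧
      ∀ r ∈ K ⊔ C⟮m.q ⬝ᵥ l.u⟯, (∀ δ ∈ Δ, δ r = 0) → r ∈ cl C (range m.q) := by
  classical
  obtain ⟨i, hi⟩ : ∃ i, l.u i ≠ 0 := by
    by_contra h
    push Not at h
    have := l.uu
    simp [dotProduct, h] at this
  have uK : ∀ j, l.u j ∈ K := fun j => hK.sub (l.u_mem j)
  have xK : ∀ j, l.x j ∈ K := fun j => hK.sub (l.x_mem j)
  have sK : ∀ j k : ι, Pi.single (M := fun _ => Ω) j 1 k ∈ K := fun j k => by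
    by_cases h : k = j <;> simp [h]
  have hq : ∀ j, m.q j = l.x j + (m.q ⬝ᵥ l.u) * l.u j := fun j => congrFun o.eq j
  have et : m.q ⬝ᵥ l.u = (m.q i - l.x i) / l.u i := by
    rw [eq_div_iff hi]; linear_combination -hq i
  have eF : K ⊔ C⟮m.q ⬝ᵥ l.u⟯ = K ⊔ C⟮m.q i⟯ := le_antisymm
    (sup_le le_sup_left (adjoin_simple_le_iff.2
      (et ▸ div_mem (sub_mem inr (inl (xK i))) (inl (uK i)))))
    (sup_le le_sup_left (adjoin_simple_le_iff.2
      (hq i ▸ add_mem (inl (xK i)) (mul_mem inr (inl (uK i))))))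
  have hy : m.q i ∉ cl C (K : Set Ω) := fun h => by
    rw [hK.cl] at h
    exact ht (et ▸ div_mem (sub_mem h (xK i)) (uK i))
  have eq : ∀ j, m.q j = (l.x j - l.u j / l.u i * l.x i) + l.u j / l.u i * m.q i := fun j => by
    rw [hq j, et]; field_simp; ring
  choose ds s1 s2 s3 s4 using fun j : {j // j ≠ i} => surj hK hi (a := Pi.single j.1 1) (b := 0)
    (Pi.single_eq_of_ne j.2.symm _) rfl (sK _) fun _ => zero_mem _
  choose dc c1 c2 c3 c4 using fun j : {j // j ≠ i} => surj hK hi (a := 0) (b := Pi.single j.1 1)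
    rfl (Pi.single_eq_of_ne j.2.symm _) (fun _ => zero_mem _) (sK _)
  have sg : ∀ j k : {j // j ≠ i}, Pi.single (M := fun _ => Ω) j.1 1 k.1 = if j = k then 1 else 0 :=
    fun j k => by simp [Pi.single_apply, Subtype.ext_iff, eq_comm]
  have z1 : ∀ (θ : Der C Ω) (j k : ι), θ (Pi.single (M := fun _ => Ω) j 1 k) = 0 := fun θ j k =>
    congrFun (dv_single j θ) k
  have hD : ∀ j, ds j - m.q i • dc j ∈ m.D := fun j => by
    have h1 : ds j - m.q i • dc j ∈ E := sub_mem (s1 j) (E.smul_mem _ (c1 j))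
    have h2 : dv m.q (ds j - m.q i • dc j) = ((ds j - m.q i • dc j) (m.q i) / l.u i) • l.u := by
      ext k
      rw [dv_apply, eq k, map_add, Derivation.leibniz]
      simp only [Derivation.sub_apply, Derivation.smul_apply, s3, s4, c3, c4, Pi.zero_apply,
        smul_eq_mul, Pi.smul_apply]
      ring
    have h3 := m.tan _ h1
    rw [h2, dotProduct_smul, smul_eq_mul, mul_eq_zero, or_iff_left o.c0] at h3
    rw [h3, zero_smul] at h2
    exact ⟨h1, h2⟩
  rw [eF]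
  refine ⟨range fun j => ds j - m.q i • dc j, ?_, fun r hr h0 => ?_⟩
  · rintro _ ⟨j, rfl⟩
    have e : (ds j - m.q i • dc j) (m.q i) = 0 := congrFun (hD j).2 i
    exact ⟨hD j, pr (fun f hf => sub_mem (inl (s2 j f hf)) (mul_mem inr (inl (c2 j f hf))))
      (by rw [e]; exact zero_mem _)⟩
  have cm : ∀ θ ∈ E, ∀ φ ∈ E, (∀ j, j ≠ i → ⁅θ, φ⁆ (l.u j / l.u i) = 0) →
      (∀ j, j ≠ i → ⁅θ, φ⁆ (l.x j - l.u j / l.u i * l.x i) = 0) → ∀ f, θ (φ f) = φ (θ f) :=
    fun θ h1 φ h2 h3 h4 f => by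
      rw [← sub_eq_zero, ← br_apply, inj l hi (hE.br _ h1 _ h2) h3 h4, Derivation.zero_apply]
  refine cl_mono ?_ (pen (κ := {j // j ≠ i}) (s := fun j => l.u j / l.u i)
    (c := fun j => l.x j - l.u j / l.u i * l.x i) (ds := ds) (dc := dc) hy
    (fun j => div_mem (uK j) (uK i))
    (fun j => sub_mem (xK j) (mul_mem (div_mem (uK j) (uK i)) (xK i))) s2 c2
    (fun j k => (s3 j k).trans (sg j k)) (fun j k => s4 j k) (fun j k => c3 j k)
    (fun j k => (c4 j k).trans (sg j k))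
    (fun j k => cm _ (s1 j) _ (c1 k) (fun a _ => by rw [br_apply, s3, c3, z1]; simp)
      fun a _ => by rw [br_apply, s4, c4, z1]; simp)
    (fun j k => cm _ (c1 j) _ (c1 k) (fun a _ => by rw [br_apply, c3, c3]; simp)
      fun a _ => by rw [br_apply, c4, c4, z1, z1, sub_self])
    (fun f h1 h2 => hE.const f fun θ hθ => ?_) (fun j => congrFun (hD j).2 i) hr
    fun j => h0 _ ⟨j, rfl⟩)
  · rintro _ (rfl | ⟨j, rfl⟩)
    exacts [⟨i, rfl⟩, ⟨j, eq j⟩]
  · have := inj l hi (Z := θ - ∑ j : {j // j ≠ i}, θ (l.u j / l.u i) • ds j -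
        ∑ j : {j // j ≠ i}, θ (l.x j - l.u j / l.u i * l.x i) • dc j)
      (sub_mem (sub_mem hθ (sum_mem fun j _ => E.smul_mem _ (s1 j)))
        (sum_mem fun j _ => E.smul_mem _ (c1 j)))
      (fun k hk => by
        simp only [Derivation.sub_apply, H96.sum_apply, Derivation.smul_apply, s3, c3, sg _ ⟨k, hk⟩]
        simp)
      fun k hk => by
        simp only [Derivation.sub_apply, H96.sum_apply, Derivation.smul_apply, s4, c4, sg _ ⟨k, hk⟩]
        simp
    simpa [H96.sum_apply, h1, h2] using congrArg (fun Z : Der C Ω => Z f) this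

end Free

theorem free : StmtFREE := by
  intro C Ω ι _ _ _ _ _ _ E m l K hE o hK ht r hr h0
  obtain ⟨Δ, h1, h2⟩ := Free.pencil hE o hK ht
  exact h2 r hr fun δ hδ => h0 δ (h1 δ hδ).1

theorem step : StmtSTEP := by
  intro C Ω ι _ _ _ _ _ _ E m l K hE o hK ht θ t
  obtain ⟨Δ, h1, h2⟩ := Free.pencil hE o hK ht
  obtain ⟨φ, f1, f2⟩ := ext_one (S := (K : Set Ω)) (by rwa [hK.cl]) (θ - t)
    (-(m.ν ⬝ᵥ (dv l.x (θ - t) + (m.q ⬝ᵥ l.u) • dv l.u (θ - t))) / (m.ν ⬝ᵥ l.u))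
  have f3 := l.agr_iff.1 (f1.mono (hK.sub.trans (subset_cl _)))
  obtain ⟨Z, z1, z2⟩ := m.surj (dv m.q φ) (by
    rw [o.dq, f2, f3.1, f3.2, add_right_comm, dotProduct_add, dotProduct_smul, smul_eq_mul,
      div_mul_cancel₀ _ o.c0, add_neg_cancel])
  obtain ⟨ψ, g1, g2⟩ := (ind_of_ders (fun δ hδ => (h1 δ hδ).2) h2).glue (θ1 := φ) (θ2 := Z)
    (agr_range.2 z2.symm)
  refine ⟨ψ + t, fun f hf => ?_, Z, z1, fun f hf => ?_⟩
  · rw [Derivation.add_apply, g1 f (inl hf), f1 f (subset_cl _ hf), Derivation.sub_apply,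
      sub_add_cancel]
  · rw [add_sub_cancel_right]
    exact g2 f (mem_KrS.2 fun δ hδ => m.kil_H (h1 δ hδ).1 f hf)

end Pool.Agent.MP_249f74_an.H90
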