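import Pool.Agent.MP_249f74_an.H90.Spec

/-!
Invariant forms in an extension.
-/

open Set IntermediateField Matrix

namespace Pool.Agent.MP_249f74_an.H90

open H17 (Der Kr St mem_Kr mem_St cl_le cl_mono toDer map_mem_cl)
open H88 (cl subset_cl coe_cl)
open H96 (Kil Agr Pres Ind Fm dd Cls Van Big dif dif_apply br_apply agr_iff pres_cl cl_cl
  mem_cl_of_kil not_mem_cl ext_indep indep_bot exists_dual dd_rep dd_add_right dd_sum)
open H2 (KrS mem_KrS cl_KrS kil_KrS Invl ind_of_ders)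

namespace Frm

variable {C Ω J κ : Type} [Field C] [Field Ω] [Algebra C Ω] [Fintype J] [Fintype κ]
  {E : Submodule Ω (Der C Ω)}

/-- Graph coordinates. -/
structure Fr (E : Submodule Ω (Der C Ω)) (y : J → Ω) (b : κ → Ω) (g : κ → J → Ω)
    (c : κ → J → J ⊕ κ → Ω) : Prop where
  amb : Amb E
  ind : AlgebraicIndependent C (Sum.elim y b)
  bas : ∀ θ ∈ E, ∀ j, θ (b j) = g j ⬝ᵥ dv y θ
  der : ∀ j i, ∀ θ : Der C Ω, θ (g j i) = ∑ o, c j i o * θ (Sum.elim y b o)
  surj : ∀ w, ∃ Z ∈ E, dv y Z = w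

/-- The horizontal forms. -/
noncomputable def hor (y : J → Ω) (b : κ → Ω) (g : κ → J → Ω) : Der C Ω →ₗ[Ω] (κ → Ω) :=
  dv b - (Matrix.of g).mulVecLin ∘ₗ dv y

/-- The connection. -/
noncomputable def con (y : J → Ω) (c : κ → J → J ⊕ κ → Ω) : Der C Ω →ₗ[Ω] Matrix κ κ Ω :=
  ∑ i, (dif (y i)).smulRight (Matrix.of fun j k => c j i (.inr k))

variable {y : J → Ω} {b : κ → Ω} {g : κ → J → Ω} {c : κ → J → J ⊕ κ → Ω} {θ φ ψ Z : Der C Ω}

omit [Fintype κ] in
lemma hor_apply (θ : Der C Ω) (j : κ) : hor y b g θ j = θ (b j) - g j ⬝ᵥ dv y θ := rfl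

omit [Fintype κ] in
lemma con_apply (θ : Der C Ω) (j k : κ) : con y c θ j k = ∑ i, θ (y i) * c j i (.inr k) := by
  simp [con, Matrix.sum_apply]

omit [Fintype J] in
lemma dv_mulVec (M : Matrix κ κ Ω) (v : κ → Ω) (θ : Der C Ω) :
    dv (M *ᵥ v) θ = M.map θ *ᵥ v + M *ᵥ dv v θ := funext fun j => dv_dot (M j) v θ

namespace Fr

variable (h : Fr E y b g c)
include h

lemma hor_eq (hZ : Z ∈ E) : hor y b g Z = 0 := funext fun j => sub_eq_zero.2 (h.bas Z hZ j)

/-- The structure equation. -/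
lemma key (hZ : Z ∈ E) (φ : Der C Ω) :
    dv (hor y b g φ) Z = con y c Z *ᵥ hor y b g φ + hor y b g ⁅Z, φ⁆ := by
  obtain ⟨W, w1, w2⟩ := h.surj (dv y φ)
  obtain ⟨ψ, rfl⟩ : ∃ ψ, φ = W + ψ := ⟨φ - W, (add_sub_cancel _ _).symm⟩
  rw [map_add, left_eq_add] at w2
  have e : hor y b g ψ = dv b ψ := funext fun j => by simp [hor_apply, w2]
  rw [lie_add, map_add, map_add, h.hor_eq w1, h.hor_eq (h.amb.br _ hZ _ w1), zero_add, zero_add, e]
  ext j
  have e1 := congrArg ψ (h.bas Z hZ j)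
  rw [dv_dot] at e1
  have e2 : dv (g j) ψ ⬝ᵥ dv y Z = (con y c Z *ᵥ dv b ψ) j := by
    have w3 : ∀ i, ψ (y i) = 0 := congrFun w2
    simp only [dotProduct, mulVec, con_apply, dv_apply, h.der j _ ψ, Fintype.sum_sum_type,
      Sum.elim_inl, Sum.elim_inr, w3, mul_zero, Finset.sum_const_zero, zero_add, Finset.sum_mul]
    rw [Finset.sum_comm]
    exact Finset.sum_congr rfl fun _ _ => Finset.sum_congr rfl fun _ _ => by ring
  rw [Pi.add_apply, hor_apply, dv_br, w2, dv_zero, br_apply, e1, e2]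
  simp only [dv_apply, zero_sub, dotProduct_neg]
  ring

lemma onto [CharZero Ω] (v : κ → Ω) : ∃ θ : Der C Ω, hor y b g θ = v := by
  obtain ⟨θ, -, t⟩ := ext_indep ⊥ (indep_bot h.ind) 0 (Sum.elim 0 v)
  exact ⟨θ, funext fun j => by
    rw [hor_apply, show dv y θ = 0 from funext fun i => t (.inl i), dotProduct_zero, sub_zero]
    exact t (.inr j)⟩

/-- The connection is flat. -/
lemma flat [CharZero Ω] [DecidableEq κ] (hθ : θ ∈ E) (hφ : φ ∈ E) :
    (con y c φ).map θ - (con y c θ).map φ - con y c ⁅θ, φ⁆ =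
      con y c θ * con y c φ - con y c φ * con y c θ := by
  refine Matrix.ext_iff_mulVec.2 fun v => ?_
  obtain ⟨ψ, rfl⟩ := h.onto v
  have e := dv_br (hor y b g ψ) θ φ
  rw [h.key (h.amb.br _ hθ _ hφ), h.key hθ, h.key hφ, dv_add, dv_add, dv_mulVec, dv_mulVec,
    h.key hθ, h.key hφ, h.key hθ, h.key hφ, lie_lie, map_sub] at e
  simp only [sub_mulVec, ← mulVec_mulVec, mulVec_add] at e ⊢
  linear_combination (exp := 1) -e

variable {C' Ω' : Type} [Field C'] [Field Ω'] [Algebra C' Ω'] [Algebra C Ω'] [Algebra C C']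
  [IsScalarTower C C' Ω'] {i : Ω →ₐ[C] Ω'} {E' : Submodule Ω' (Der C' Ω')}

/-- Transfer to an extension. -/
lemma map [CharZero Ω] [CharZero Ω'] (e : Ext i E E') (hE : Amb E') :
    Fr E' (i ∘ y) (i ∘ b) (fun j => i ∘ g j) fun j s => i ∘ c j s where
  amb := hE
  ind := by
    have := e.indep h.amb h.ind
    rwa [Sum.comp_elim] at this
  bas θ' h' j := e.rel (fun θ hθ => h.bas θ hθ j) h'
  der j s θ := by
    rw [← Sum.comp_elim]
    exact H96.Trf.chain i (mem_cl_of_kil fun θ hθ => by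
      simp [h.der j s θ, fun o => hθ _ (mem_range_self o)]) (h.der j s) h.ind θ
  surj w := by
    classical
    choose Z z1 z2 using fun s => h.surj (Pi.single s 1)
    choose Z' s1 s2 using fun s => e.lift _ (z1 s)
    refine ⟨∑ s, w s • Z' s, sum_mem fun s _ => E'.smul_mem _ (s1 s), ?_⟩
    rw [map_sum]
    ext k
    simp only [map_smul, dv_lift (s2 _), z2]
    simp [Pi.single_apply, apply_ite i]

/-- The invariant forms. -/
lemma frm [CharZero Ω] [DecidableEq κ] {ι : Type} [Fintype ι] {m : Pt E ι} (ht : m.Tr)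
    (hy : ∀ s, y s ∈ range m.q) {S : Set Ω} (hf : S.Finite) (hd : m.Dat S) (hb : ∀ j, b j ∈ S)
    (hS : S ⊆ cl C (range (Sum.elim y b))) {X : Matrix κ κ Ω} (hX : X.det ≠ 0)
    (hA : ∀ θ ∈ E, X.map θ = -(X * con y c θ)) :
    Frm m S fun k => LinearMap.proj k ∘ₗ X.mulVecLin ∘ₗ hor y b g := by
  have hy' : ∀ s, y s ∈ S := fun s => by obtain ⟨j, e⟩ := hy s; exact e ▸ hd.q j
  have hD : ∀ ζ ∈ m.D, dv y ζ = 0 := fun ζ hζ => funext fun s => by
    obtain ⟨j, e⟩ := hy s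
    rw [dv_apply, ← e]
    exact congrFun (m.mem_D.1 hζ).2 j
  refine ⟨hf, hd, fun k θ hθ => ?_, fun k Z hZ => by simp [h.hor_eq hZ], fun k θ hθ φ => ?_,
    fun θ hθ => ?_, fun v => ?_⟩
  · have : hor y b g θ = 0 := funext fun j => by
      simp [hor_apply, hθ _ (hb j), show dv y θ = 0 from funext fun s => hθ _ (hy' s)]
    simp [this]
  · have hX' : ∀ j, X k j ∈ m.H := fun j => by
      rw [m.H_tr ht]
      refine mem_KrS.2 fun ζ hζ => ?_
      have := congrFun (congrFun (hA ζ hζ.1) k) j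
      simpa [Matrix.mul_apply, con_apply, show ∀ s, ζ (y s) = 0 from congrFun (hD ζ hζ)] using this
    have hv : ∀ o, Sum.elim y b o ∈ m.H := by
      rintro (s | j); exacts [hd.le (hy' s), hd.le (hb j)]
    have hg : ∀ j s, g j s ∈ m.H := fun j s => by
      rw [m.H_tr ht]
      exact mem_KrS.2 fun ζ hζ => by simp [h.der j s ζ, fun o => m.kil_H hζ _ (hv o)]
    refine m.dd_tan (a := Sum.elim (fun s => -∑ j, X k j * g j s) (X k)) (b := Sum.elim y b) ?_ hv
      (fun θ => ?_) (fun Z hZ φ => ?_) hθ φ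
    · rintro (s | j)
      exacts [neg_mem (sum_mem fun j _ => mul_mem (hX' j) (hg j s)), hX' j]
    · simp only [LinearMap.comp_apply, mulVecLin_apply, LinearMap.proj_apply, mulVec, dotProduct,
        hor_apply, dv_apply, Fintype.sum_sum_type, Sum.elim_inl, Sum.elim_inr, mul_sub,
        Finset.sum_sub_distrib, neg_mul, Finset.sum_neg_distrib, Finset.sum_mul, Finset.mul_sum,
        mul_assoc]
      rw [Finset.sum_comm, neg_add_eq_sub]
    · have e := congrFun (dv_mulVec X (hor y b g φ) Z) k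
      rw [h.key hZ, hA Z hZ, mulVec_add, neg_mulVec, mulVec_mulVec, neg_add_cancel_left] at e
      simp only [dd, LinearMap.comp_apply, mulVecLin_apply, LinearMap.proj_apply, h.hor_eq hZ,
        map_zero, sub_zero]
      exact sub_eq_zero.2 e
  · have e := Matrix.eq_zero_of_mulVec_eq_zero hX (v := hor y b g θ) (funext hθ)
    obtain ⟨Z, z1, z2⟩ := h.surj (dv y θ)
    refine ⟨Z, z1, (Agr.cl ?_).mono hS⟩
    rintro _ ⟨s | j, rfl⟩
    · exact (congrFun z2 s).symm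
    · have e1 := congrFun e j
      rw [hor_apply, ← z2, ← h.bas Z z1 j] at e1
      exact sub_eq_zero.1 e1
  · obtain ⟨θ, t⟩ := h.onto (X⁻¹ *ᵥ v)
    exact ⟨θ, fun k => by simp [t, Matrix.mul_nonsing_inv X hX.isUnit]⟩

end Fr

/-- Existence of graph coordinates. -/
lemma exists_fr [CharZero Ω] {ι : Type} [Fintype ι] [DecidableEq ι] (hE : Amb E) (m : Pt E ι)
    {i0 : ι} (h0 : m.ν i0 ≠ 0) {S : Set Ω} (hf : S.Finite) (hd : m.Dat S)
    (hP : ∀ Z ∈ E, (∀ j, Z (m.q j) ∈ cl C S) → Pres (cl C S) Z) :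
    ∃ (r : ℕ) (b : Fin r → Ω) (g : Fin r → {j // j ≠ i0} → Ω) (c : Fin r → {j // j ≠ i0} → _),
      Fr E (fun s => m.q s.1) b g c ∧ (∀ j, b j ∈ S) ∧
        S ⊆ cl C (range (Sum.elim (fun s : {j // j ≠ i0} => m.q s.1) b)) := by
  set y : {j // j ≠ i0} → Ω := fun s => m.q s.1 with hy
  choose Z z1 z2 using fun s : {j // j ≠ i0} =>
    m.surj (Pi.single s.1 1 - Pi.single i0 (m.ν s.1 / m.ν i0)) (by simp [mul_div_cancel₀, h0])
  have z3 : ∀ s, dv y (Z s) = Pi.single s 1 := fun s => funext fun t => by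
    have := congrFun (z2 s) t.1
    simpa [Pi.single_apply, t.2, Subtype.ext_iff] using this
  have z4 : ∀ w : {j // j ≠ i0} → Ω, dv y (∑ s, w s • Z s) = w := fun w => by
    rw [map_sum]
    ext t
    simp only [map_smul, z3]
    simp [Pi.single_apply]
  have z5 : ∀ s, Pres (cl C S) (Z s) := fun s => hP _ (z1 s) fun j => by
    rw [show Z s (m.q j) = _ from congrFun (z2 s) j]
    refine sub_mem ?_ ?_ <;> rw [Pi.single_apply] <;> split_ifs
    exacts [one_mem _, zero_mem _, div_mem (subset_cl _ (hd.ν _)) (subset_cl _ (hd.ν _)), zero_mem _]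
  obtain ⟨r, b, e, b1, -, b3, b4, b5⟩ := exists_dual (C := C) (M := ⊤)
    (top_le_iff.1 (subset_cl _)) (cl C (range y)) le_top hf (subset_univ _)
  have e1 : ∀ k, dv y (e k) = 0 := fun k => kil_range.1 ((b3 k).2.mono (subset_cl _))
  have hS : S ⊆ cl C (range (Sum.elim y b)) := fun f hf => mem_cl_of_kil fun θ hθ => by
    rw [b5 θ (kil_range.2 (funext fun s => hθ _ ⟨.inl s, rfl⟩)).cl f (subset_cl _ (Or.inr hf))]
    simp [show ∀ k, θ (b k) = 0 from fun k => hθ _ ⟨.inr k, rfl⟩]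
  choose c hc using fun j s => rep_of_kil (E := ⊤) (Sum.elim y b) (dif (Z s (b j))) fun θ _ hθ =>
    (kil_range.2 hθ).cl _ (cl_le hS (z5 s _ (subset_cl _ (b1 j))))
  refine ⟨r, b, fun j s => Z s (b j), c, ⟨hE, indep_of_dual ?_, fun θ hθ j => ?_,
    fun j s θ => hc j s θ trivial, fun w => ⟨_, sum_mem fun s _ => E.smul_mem _ (z1 s), z4 w⟩⟩, b1,
    hS⟩
  · rintro (s | k)
    · have e2 : dv y (Z s - ∑ k, Z s (b k) • e k) = Pi.single s 1 := by simp [e1, z3]
      refine ⟨Z s - ∑ k, Z s (b k) • e k, (congrFun e2 s).trans_ne (by simp), ?_⟩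
      rintro (t | k) hn
      · exact (congrFun e2 t).trans (Pi.single_eq_of_ne (fun e => hn (congrArg _ e)) _)
      · simp [H96.sum_apply, b4]
    · refine ⟨e k, by simp [b4], ?_⟩
      rintro (t | j) hn
      · exact congrFun (e1 k) t
      · exact (b4 k j).trans (if_neg fun e => hn (congrArg _ e.symm))
  · have h1 := sub_mem hθ (sum_mem fun s (_ : s ∈ Finset.univ) => E.smul_mem (dv y θ s) (z1 s))
    have h2 : dv y (θ - ∑ s, dv y θ s • Z s) = 0 := by rw [map_sub, z4, sub_self]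
    have h3 := m.tan _ h1
    generalize hζ : θ - ∑ s, dv y θ s • Z s = ζ at h1 h2 h3
    have h4 : ∀ t, t ≠ i0 → ζ (m.q t) = 0 := fun t ht => congrFun h2 ⟨t, ht⟩
    rw [dotProduct, Finset.sum_eq_single i0 (fun t _ ht => by simp [h4 t ht]) (by simp),
      mul_eq_zero, or_iff_right h0] at h3
    have h5 := m.kil_H (m.mem_D.2 ⟨h1, funext fun t => by
      by_cases ht : t = i0
      exacts [ht ▸ h3, h4 t ht]⟩) _ (hd.le (b1 j))
    rw [← hζ] at h5
    simpa [H96.sum_apply, sub_eq_zero, dotProduct, mul_comm] using h5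

omit [Fintype κ] in
lemma ne_bot [CharZero Ω] {ι : Type} [Fintype ι] (hE : Amb E) {m : Pt E ι} (ht : m.Tr) :
    E ≠ ⊥ := fun h1 => by
  obtain ⟨θ, t⟩ := m.tr_iff.1 ht
  refine t ?_
  rw [show dv m.q θ = 0 from funext fun j => ?_, dotProduct_zero]
  obtain ⟨a, ha⟩ := mem_bot.1 (hE.const (m.q j) fun φ hφ => by
    rw [h1, Submodule.mem_bot] at hφ
    rw [hφ]; rfl)
  rw [dv_apply, ← ha]
  exact θ.map_algebraMap a

/-- The differential equation holds on the whole extended module. -/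
lemma sol {C' Ω' : Type} [Field C'] [Field Ω'] [Algebra C' Ω'] [Algebra C Ω'] {i : Ω →ₐ[C] Ω'}
    {E' : Submodule Ω' (Der C' Ω')} (e : Ext i E E') {X : Matrix κ κ Ω'}
    (hA : ∀ θ ∈ E, ∀ θ' ∈ E', (∀ f, θ' (i f) = i (θ f)) → X.map θ' = -(X * (con y c θ).map i))
    {θ' : Der C' Ω'} (h' : θ' ∈ E') :
    X.map θ' = -(X * con (i ∘ y) (fun j s => i ∘ c j s) θ') := by
  ext k j
  have := e.le (P := LinearMap.eqLocus (dif (X k j))
    (-∑ t, X k t • ∑ s, i (c t s (.inr j)) • dif (i (y s)))) (fun θ hθ θ' h' h1 => by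
      have := congrFun (congrFun (hA θ hθ θ' h' h1) k) j
      simpa [LinearMap.mem_eqLocus, Matrix.mul_apply, con_apply, h1, mul_comm] using this) h'
  simpa [LinearMap.mem_eqLocus, Matrix.mul_apply, con_apply, mul_comm] using this

end Frm

theorem frm : StmtPV → StmtFRM := by
  intro pv C Ω ι _ _ _ _ _ E m l S hE _ ht hf hd hP
  classical
  obtain ⟨i0, h0⟩ : ∃ i0, m.ν i0 ≠ 0 := by
    by_contra hn
    push Not at hn
    simpa [dotProduct, hn] using m.νν
  obtain ⟨r, b, g, c, h, hb, hS⟩ := Frm.exists_fr hE m h0 hf hd hP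
  obtain ⟨C', Ω', k1, k2, k3, k4, k5, k6, k7, k8, k9, E', i, X, hE', big, e, hX, hA⟩ :=
    pv C Ω (Fin r) E (Frm.con (fun s : {j // j ≠ i0} => m.q s.1) c) hE l.finite
      (Frm.ne_bot hE ht) fun θ hθ φ hφ => h.flat hθ hφ
  refine ⟨C', Ω', k1, k2, k3, k4, k5, k6, k7, k8, k9, E', i, e, r, _, hE', big,
    (h.map e hE').frm (m := m.map e) (e.indep hE ht) (fun s => ⟨s.1, rfl⟩) (hf.image _)
      (hd.map e hE) (fun j => ⟨_, hb j, rfl⟩) ?_ hX fun θ' h' => Frm.sol e hA h'⟩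
  rintro _ ⟨f, hf, rfl⟩
  rw [← Sum.comp_elim, range_comp]
  exact cl_map (hS hf)

end Pool.Agent.MP_249f74_an.H90
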