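import Pool.Agent.MP_249f74_an.H90.Spec

/-!
The two inductions.
-/

open Set IntermediateField

namespace Pool.Agent.MP_249f74_an.H90

open H17 (Der cl_mono)
open H88 (cl subset_cl)
open H96 (Kil Agr agr_iff)

theorem dec (hS : StmtSTEP) (hB : StmtBAS) (hF : StmtFRM) (hN : StmtNF2) : StmtD := by
  suffices key : ∀ (n : ℕ) (C Ω ι : Type) [Field C] [Field Ω] [CharZero Ω] [IsAlgClosed Ω]
      [Algebra C Ω] [Fintype ι] (E : Submodule Ω (Der C Ω)) (m : ℕ → Pt E ι) (l : ℕ → Ln E ι)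
      (a b : ℕ), b ≤ a + n + 1 → Amb E → Ch m l a b → NoF m a b → Dec m a b from
    fun C Ω ι _ _ _ _ _ _ E m l a b => key b C Ω ι E m l a b (by omega)
  intro n
  induction n with
  | zero =>
    intro C Ω ι _ _ _ _ _ _ E m l a b hb _ _ _ t
    exact ⟨t a, fun i h1 h2 => by
      rw [show i = a by omega, sub_self]; exact tanS_mem (zero_mem _)⟩
  | succ n ih =>
    intro C Ω ι _ _ _ _ _ _ E m l a b hb hE h hg
    by_cases hb' : b ≤ a + n + 1
    · exact ih C Ω ι E m l a b hb' hE h hg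
    obtain ⟨b, rfl⟩ : ∃ c, b = c + 1 := ⟨b - 1, by omega⟩
    have hab : a < b := by omega
    have h1 := h.mono le_rfl b.le_succ
    have o := (h b hab.le b.lt_succ_self).on
    intro t
    obtain ⟨θ, hθ⟩ := ih C Ω ι E m l a b (by omega) hE h1 (hg.mono le_rfl b.le_succ) t
    by_cases ht : (m b).Tr
    swap
    · exact ⟨θ, fun i k1 k2 => (Nat.lt_succ_iff_lt_or_eq.1 k2).elim (hθ i k1)
        fun e => e ▸ (m b).tan_alg ht _⟩
    by_cases hs : (m b).q ⬝ᵥ (l b).u ∈ cl C (Seg l (HS m) a b)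
    · exfalso
      obtain ⟨S, s1, s2, s3, s4⟩ := hB C Ω ι E m l a b hE h hab ht (hg a b le_rfl hab b.lt_succ_self)
        (ih C Ω ι E m l _ _ (by omega) hE (h.mono a.le_succ le_rfl) (hg.mono a.le_succ le_rfl)) hs
      obtain ⟨C', Ω', _, _, _, _, _, _, _, _, _, E', i, x, r, ν, e1, e2, e3⟩ :=
        hF C Ω ι E (m b) (l b) S hE o ht s1 s2 s4
      have h' := h.map x
      have g' := hg.map x
      exact hN C' Ω' ι (Fin r) E' _ _ a b _ ν e1 e2 h' hab (x.indep hE ht)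
        (g' a b le_rfl hab b.lt_succ_self)
        (ih C' Ω' ι E' _ _ _ _ (by omega) e1 (h'.mono le_rfl b.le_succ) (g'.mono le_rfl b.le_succ))
        (ih C' Ω' ι E' _ _ _ _ (by omega) e1 (h'.mono a.le_succ le_rfl) (g'.mono a.le_succ le_rfl))
        e3 (by rintro _ ⟨f, hf, rfl⟩; exact cl_mono (Seg_map x hE) (cl_map (s3 hf)))
    obtain ⟨φ, p1, p2⟩ := hS C Ω ι E (m b) (l b) _ hE o (h1.stab hE hab.le le_rfl) hs θ (t b)
    refine ⟨φ, fun i k1 k2 => (Nat.lt_succ_iff_lt_or_eq.1 k2).elim (fun k3 => ?_) fun e => e ▸ p2⟩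
    exact (hθ i k1 k3).of_agr fun f hf => by
      simp [p1 f (subset_cl _ (sub_Seg (S := HS m) k1 k3 hf))]

theorem cyc (p : Prp) (hp : p.Ok) (hR : StmtRED) (hD : StmtD) (hA : StmtA p) : StmtS p := by
  suffices key : ∀ (n : ℕ) (k C Ω ι : Type) [Field k] [Algebra k ℝ] [Field C] [IsAlgClosed C]
      [Field Ω] [CharZero Ω] [IsAlgClosed Ω] [Algebra C Ω] [Algebra k C] [Algebra k Ω]
      [IsScalarTower k C Ω] [Fintype ι] [Nontrivial ι] (E : Submodule Ω (Der C Ω)) (m : ℕ → Pt E ι)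
      (l : ℕ → Ln E ι), Amb E → Ch m l 0 n → Cyc l n →
      (∀ i < n, ¬(m i).Tr → p k Ω ι (m i).q) → del m l 0 n = 0 from
    fun k C Ω ι _ _ _ _ _ _ _ _ _ _ _ _ _ E m l n => key n k C Ω ι E m l
  intro n
  induction n using Nat.strong_induction_on with
  | _ n ih =>
  intro k C Ω ι _ _ _ _ _ _ _ _ _ _ _ _ _ E
  have red : ∀ (m : ℕ → Pt E ι) (l : ℕ → Ln E ι), Amb E → Ch m l 0 n → Cyc l n →
      (∀ i < n, ¬(m i).Tr → p k Ω ι (m i).q) → ¬NoF m 0 n → del m l 0 n = 0 :=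
    fun m l hE h hc hq hn => by
      simp only [NoF, not_forall] at hn
      obtain ⟨a, b, -, hab, hb, hg⟩ := hn
      obtain ⟨C', Ω', _, _, _, _, _, _, _, _, _, E', m', l', n', i0, r1, r2, r3, r4, r5, r6⟩ :=
        hR C Ω ι E m l n a b hE h hc hab hb hg
      let _ : Algebra k C' := ((algebraMap C C').comp (algebraMap k C)).toAlgebra
      let _ : Algebra k Ω' := ((algebraMap C Ω').comp (algebraMap k C)).toAlgebra
      have : IsScalarTower k C Ω' := .of_algebraMap_eq fun _ => rfl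
      have : IsScalarTower k C' Ω' := .of_algebraMap_eq fun _ =>
        IsScalarTower.algebraMap_apply C C' Ω' _
      have := ih n' r1 k C' Ω' ι E' m' l' r2 r3 r4 fun r hr ht => by
        obtain ⟨s, hs, i, x, e⟩ := r6 r hr
        rw [e]
        exact (hp k Ω Ω' ι (i.restrictScalars k) _).2
          (hq s hs fun t => ht (by rw [Pt.Tr, e]; exact x.indep hE t))
      rw [r5] at this
      exact (map_eq_zero i0).1 this
  intro m l hE h hc hq
  by_cases g1 : NoF m 0 n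
  swap
  · exact red m l hE h hc hq g1
  by_cases g2 : NoF (fun i => m (n - 1 - i)) 0 n
  swap
  · rw [← del_rev]
    exact red _ _ hE h.rev hc.rev (fun i hi => hq _ (by omega)) g2
  refine hA k C Ω ι E m l n hE h hc (fun i hi j hj hij => ?_) fun i hi => ?_
  · rcases lt_or_gt_of_ne hij with e | e
    · have := g2 (n - 1 - j) (n - 1 - i) (Nat.zero_le _) (by omega) (by omega)
      dsimp only at this
      rwa [show n - 1 - (n - 1 - i) = i by omega, show n - 1 - (n - 1 - j) = j by omega] at this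
    · exact g1 j i (Nat.zero_le _) e hi
  refine (fun t => ⟨t, hq i hi t⟩) fun ht => ?_
  obtain ⟨t, t1⟩ := (m i).tr_iff.1 ht
  obtain ⟨θ, hθ⟩ := hD C Ω ι E m l 0 n hE h g1 fun j => if j = i then t else 0
  have e : ∀ j < n, (m j).ν ⬝ᵥ dv (m j).q θ = (m j).ν ⬝ᵥ dv (m j).q (if j = i then t else 0) :=
    fun j hj => by
      have := (m j).tan_of_tanS (m j).qH (hθ j (Nat.zero_le _) hj)
      rwa [map_sub, dotProduct_sub, sub_eq_zero] at this
  have e1 := h.ddel_cyc hc θ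
  obtain ⟨c, e2⟩ := mem_bot.1 (h.del_const hE hc)
  rw [← e2, θ.map_algebraMap, Finset.sum_eq_single i
    (fun j hj hn => by simp [e j (Finset.mem_range.1 hj), hn]) (by simp [hi]), e i hi,
    if_pos rfl] at e1
  exact mul_ne_zero (mul_ne_zero two_ne_zero (h i (Nat.zero_le _) hi).on.c0) t1 e1.symm

end Pool.Agent.MP_249f74_an.H90
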