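import Pool.Agent.MP_249f74_an.H90.Spec

/-!
The non-focusing case in a large field.
-/

open Set IntermediateField

namespace Pool.Agent.MP_249f74_an.H90

open H17 (Der cl_mono)
open H88 (cl subset_cl)
open H96 (Kil Agr Ind Fm dd Cls Van dd_sum sep)

namespace Nf2

variable {C Ω : Type} [Field C] [Field Ω] [Algebra C Ω]

lemma ind_trans {X K T L : Set Ω} (h : Ind C X (K ∪ T) T) (h' : Ind C X T L) :
    Ind C X (K ∪ T) L := fun θ hθ => by
  obtain ⟨φ, p1, p2⟩ := h' θ hθ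
  obtain ⟨ψ, p3, p4⟩ := h (θ - φ) fun f hf => by simp [p2 f hf]
  exact ⟨φ + ψ, fun f hf => by simp [p1 f hf, p3 f hf], fun f hf => by simp [p4 f hf]⟩

lemma image_fix {σ : Ω ≃ₐ[C] Ω} {S : Set Ω} (h : ∀ f ∈ S, σ f = f) : σ '' S = S :=
  (image_congr h).trans (image_id' S)

end Nf2

open Nf2 in
theorem nf2 (hC : StmtCLO) (hD : StmtDBL) (hP : StmtPB) (hO : StmtOS) : StmtNF2 := by
  intro C Ω ι κ _ _ _ _ _ _ _ E m l a b S0 ν hE big h hab ht hg D1 D2 hF hS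
  classical
  obtain ⟨S, ω, Y⟩ := hC C Ω ι κ E m l a b S0 ν hE big h hab ht hg D1 D2 hF hS
  have h1 : Ch m l (a + 1) b := h.mono a.le_succ b.le_succ
  have h2 : Ch m l (a + 1) (b + 1) := h.mono a.le_succ le_rfl
  have hI : Seg l S (a + 1) b ⊆ Seg l (HS m) (a + 1) b := Seg_mono fun i _ _ => (Y.dat i).le
  have lB := h1.line_mem (fun i _ _ => Y.dat i) hab le_rfl
  have iB := (h2.ind_last hE hab D2).mono (Y.dat b).le hI
  have o := (h b hab.le b.lt_succ_self).on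
  rcases hD C Ω κ (Seg l S (a + 1) b) (S a) (S b) (l (a + 1)).S (l b).S ν (ω a)
    (fun k => ∑ i ∈ Finset.Ico (a + 1) b, ω i k) big (Seg_finite fun i _ _ => Y.fin i) (Y.fin a)
    (Y.fin b) (line_sub_Seg.trans (subset_cl _)) lB Y.cν
    (fun k θ φ => by
      rw [dd_sum]
      exact Finset.sum_eq_zero fun i hi =>
        Y.cω i (by have := Finset.mem_Ico.1 hi; omega) (Finset.mem_Ico.1 hi).2 k θ φ)
    (fun k => by rw [Y.sum, Finset.sum_eq_sum_Ico_succ_bot hab]) Y.frm.van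
    (fun k θ hθ => Y.van a le_rfl hab k θ (tanS_kil hθ))
    (fun k θ hθ => by
      rw [LinearMap.sum_apply]
      exact Finset.sum_eq_zero fun i hi =>
        have e := Finset.mem_Ico.1 hi
        Y.van i (by omega) e.2 k θ (tanS_kil (hθ.mono (sub_Seg e.1 e.2))))
    (((h.mono le_rfl b.le_succ).ind_first hE hab D1).mono (Y.dat a).le hI) iB with
    ⟨σ, U, s1, s2, u1, u2, u3, u4⟩ | ⟨lam, G, l0, hG⟩
  swap
  · exact l0 (hP C Ω ι κ E m l a b S ν ω lam G hE h1 hab (D1.mono a.le_succ le_rfl) Y hG)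
  have i1 := iB.push σ
  rw [image_fix fun f hf => s1 f (subset_cl _ hf), image_fix fun f hf => s1 f (lB hf)] at i1
  have hu : ∀ j, σ ((l b).u j) = (l b).u j := fun j => s1 _ (lB ((l b).u_mem j))
  refine hO C Ω ι κ (S b) U (m b).q (m b).ν (l b).u (l b).x ν σ big
    ⟨Y.fin b, (Y.dat b).q, (Y.dat b).ν, (m b).νν, Y.cν, Y.frm.van,
      fun θ hθ => (m b).tan_of_tanS (Y.dat b).q (Y.frm.ker θ hθ),
      fun θ hθ => (m b).kil_of_tanS (Y.dat b).le (Y.dat b).q (Y.frm.ker θ hθ),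
      fun w hw => ((m b).surj w hw).imp fun θ hθ => ⟨fun k => Y.frm.bas k θ hθ.1, hθ.2⟩, Y.frm.ind,
      fun f _ hf => hE.const f fun θ hθ => hf θ fun k => Y.frm.bas k θ hθ, (m b).tr_iff.1 ht⟩
    (l b).uu (l b).xu o.eq o.c0
    (fun w hw => (o.pen hw).imp fun ζ hζ => ⟨((m b).kil_H hζ.1).mono (Y.dat b).le, hζ.2⟩) hu
    (fun j => s1 _ (lB ((l b).x_mem j))) (fun e => ?_)
    ((ind_trans s2 i1).cl.mono (subset_cl _) (union_subset (subset_union_left.trans (subset_cl _))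
      (lB.trans (cl_mono subset_union_right)))) u1 u2 u3
    fun k => (u4 k).imp fun Δ hΔ => ⟨hΔ.1.cl.mono lB, hΔ.2⟩
  obtain ⟨θ, t1, t2⟩ := sep fun hs => h2.last_tr hE hab D2 ht (cl_mono hI hs)
  obtain ⟨φ, p1, p2⟩ := s2 θ t1
  have l2 : (l b).S ⊆ cl C (S b ∪ Seg l S (a + 1) b) := lB.trans (cl_mono subset_union_right)
  have e1 := p2.cl _ (dot_mem (fun j => subset_cl _ (Or.inl ((Y.dat b).q j)))
    fun j => l2 ((l b).u_mem j))
  rw [t2, ← e] at e1
  simp only [dotProduct, map_sum, map_mul, hu, Derivation.leibniz,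
    fun j => p1 _ ⟨_, (Y.dat b).q j, rfl⟩,
    fun j => (p2.cl _ (l2 ((l b).u_mem j))).trans (t1.cl _ (lB ((l b).u_mem j)))] at e1
  simp at e1

end Pool.Agent.MP_249f74_an.H90
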