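import Pool.Agent.MP_249f74_an.H90.Spec
import Pool.Agent.MP_249f74_an.H96.Norm

/-!
Normalization: from jets along a closed family to lines and mirrors.
-/

open Set IntermediateField

namespace Pool.Agent.MP_249f74_an.H90

open H17 (Der cl_le cl_mono)
open H88 (cl subset_cl)
open H96 (Kil Pres br_apply cl_cl pres_cl)
open H96.Norm (res res_apply isAlgClosed_cl)
open H2 (Invl)

namespace Norm

variable {C Ω ι : Type} [Field C] [Field Ω] [Algebra C Ω] [Fintype ι]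

/-- Derivations that satisfy the chain rule on all jets. -/
def EE (C : Type) [Field C] [Algebra C Ω] (n : ℕ) (q : ℕ → ι → Ω) (J : ℕ → List ι → Ω) :
    Submodule Ω (Der C Ω) where
  carrier := {θ | ∀ i < n, ∀ L, θ (J i L) = ∑ j, J i (j :: L) * θ (q (i + 1) j)}
  add_mem' := fun {a b} ha hb i hi L => by
    simp only [Derivation.add_apply, ha i hi L, hb i hi L, mul_add, Finset.sum_add_distrib]
  zero_mem' := fun i hi L => by simp
  smul_mem' := fun c a ha i hi L => by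
    simp only [Derivation.smul_apply, ha i hi L, smul_eq_mul, Finset.mul_sum]
    exact Finset.sum_congr rfl fun _ _ => by ring

/-- The foot point. -/
def ft (q u : ι → Ω) : ι → Ω := q - (q ⬝ᵥ u) • u

/-- The gradient. -/
def gr (J : List ι → Ω) : ι → Ω := fun j => J [j]

/-- The generators. -/
def SS (n : ℕ) (q u : ℕ → ι → Ω) (J : ℕ → List ι → Ω) : Set Ω :=
  {f | (∃ i ≤ n, ∃ j, f = q i j ∨ f = u i j) ∨ ∃ i < n, ∃ L, f = J i L}

variable {N n : ℕ} {δ : Fin N → Der C Ω} {q u : ℕ → ι → Ω} {t : ℕ → Ω} {J : ℕ → List ι → Ω}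
  {θ : Der C Ω}

lemma invl (h : ∀ i < n, ∀ j j' L, J i (j :: j' :: L) = J i (j' :: j :: L)) :
    Invl (EE C n q J) := fun θ hθ φ hφ i hi L => by
  rw [br_apply, hθ i hi L, hφ i hi L, map_sum, map_sum]
  simp only [Derivation.leibniz, smul_eq_mul, hθ i hi (_ :: L), hφ i hi (_ :: L), br_apply,
    Finset.sum_add_distrib, mul_sub, Finset.sum_sub_distrib, Finset.mul_sum]
  have : ∑ j, ∑ j', φ (q (i + 1) j) * (J i (j' :: j :: L) * θ (q (i + 1) j')) =
      ∑ j, ∑ j', θ (q (i + 1) j) * (J i (j' :: j :: L) * φ (q (i + 1) j')) := by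
    rw [Finset.sum_comm]
    exact Finset.sum_congr rfl fun j _ => Finset.sum_congr rfl fun j' _ => by
      rw [h i hi j j' L]; ring
  rw [this]; ring

lemma tan (hθ : θ ∈ EE C n q J) {i : ℕ} (hi : i < n) (h0 : J i [] = 0) :
    gr (J i) ⬝ᵥ dv (q (i + 1)) θ = 0 := by
  have := hθ i hi []
  rw [h0, map_zero] at this
  exact this.symm

lemma on_eq {q u q' : ι → Ω} {t : Ω} (hu : u ⬝ᵥ u = 1) (h : q' = q + t • u) :
    q' = ft q u + (q' ⬝ᵥ u) • u := by
  rw [h, ft, add_dotProduct, smul_dotProduct, hu, smul_eq_mul, mul_one, add_smul]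
  abel

lemma ft_dot {q u : ι → Ω} (hu : u ⬝ᵥ u = 1) : ft q u ⬝ᵥ u = 0 := by
  rw [ft, sub_dotProduct, smul_dotProduct, hu]; simp

lemma uu_refl {g u : ι → Ω} (hu : u ⬝ᵥ u = 1) (hg : g ⬝ᵥ g ≠ 0) :
    (u - (2 * (g ⬝ᵥ u) / (g ⬝ᵥ g)) • g) ⬝ᵥ (u - (2 * (g ⬝ᵥ u) / (g ⬝ᵥ g)) • g) = 1 := by
  simp only [sub_dotProduct, dotProduct_sub, smul_dotProduct, dotProduct_smul, smul_eq_mul, hu,
    dotProduct_comm u g]
  field_simp
  ring

lemma uu (h : ∀ i < n, Jet δ (q i) (u i) (q (i + 1)) (u (i + 1)) (t i) (J i)) (hn : 0 < n)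
    {i : ℕ} (hi : i ≤ n) : u i ⬝ᵥ u i = 1 := by
  cases i with
  | zero => exact (h 0 hn).uu
  | succ i => rw [(h i hi).refl]; exact uu_refl (h i hi).uu (h i hi).gg

/-- Motions of the point on the mirror. -/
lemma pt_surj {q u q' g w : ι → Ω} {t : Ω} (hu : u ⬝ᵥ u = 1) (h : q' = q + t • u)
    (hg : g ⬝ᵥ u ≠ 0) (h0 : g ⬝ᵥ dv q' θ = 0) (hw : g ⬝ᵥ w = 0) (h1 : dv u θ = 0)
    (h2 : dv (ft q u) θ = w - (w ⬝ᵥ u) • u) : dv q' θ = w := by
  have e := congrArg (dv · θ) (on_eq hu h)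
  simp only [dv_add, dv_smul, h1, h2, smul_zero, add_zero] at e
  rw [e, dotProduct_add, dotProduct_sub, hw, dotProduct_smul, dotProduct_smul, smul_eq_mul,
    smul_eq_mul] at h0
  have : θ (q' ⬝ᵥ u) = w ⬝ᵥ u := mul_right_cancel₀ hg (by linear_combination h0)
  rw [e, this, sub_add_cancel]

variable [CharZero Ω]

/-- Going round the cycle. -/
lemma round (h : ∀ i < n, Jet δ (q i) (u i) (q (i + 1)) (u (i + 1)) (t i) (J i)) (hn : 0 < n)
    (hq : q n = q 0) (hu : u n = u 0) (hθ : θ ∈ EE C n q J)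
    (W : Submodule (cl C (SS n q u J)) Ω) {j : ℕ} (hj : j ≤ n) (h1 : ∀ a, θ (u j a) ∈ W)
    (h2 : ∀ a, θ (ft (q j) (u j) a) ∈ W) : ∀ f ∈ cl C (SS n q u J), θ f ∈ W := by
  let K := cl C (SS n q u J)
  let T : Set Ω := {f | f ∈ K ∧ θ f ∈ W}
  have hT : cl C T ≤ K := cl_le fun f hf => hf.1
  have hG : ∀ f, f ∈ cl C T ↔ f ∈ K ∧ θ f ∈ W := fun f =>
    ⟨fun hf => ⟨hT hf, der_mem W hT (fun s hs => hs.2) hf⟩, fun hf => subset_cl T hf⟩
  have kq : ∀ i ≤ n, ∀ a, q i a ∈ K := fun i hi a => subset_cl _ (Or.inl ⟨i, hi, a, Or.inl rfl⟩)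
  have ku : ∀ i ≤ n, ∀ a, u i a ∈ K := fun i hi a => subset_cl _ (Or.inl ⟨i, hi, a, Or.inr rfl⟩)
  have kJ : ∀ i < n, ∀ L, J i L ∈ K := fun i hi L => subset_cl _ (Or.inr ⟨i, hi, L, rfl⟩)
  have kx : ∀ i ≤ n, ∀ a, ft (q i) (u i) a ∈ K := fun i hi a =>
    sub_mem (kq i hi a) (mul_mem (dot_mem (kq i hi) (ku i hi)) (ku i hi a))
  let P : ℕ → Prop := fun i => (∀ a, u i a ∈ cl C T) ∧ ∀ a, ft (q i) (u i) a ∈ cl C T
  have step : ∀ i < n, P i → (∀ a, q (i + 1) a ∈ cl C T) ∧ (∀ L, J i L ∈ cl C T) ∧ P (i + 1) := by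
    intro i hi hP
    have e := on_eq (h i hi).uu (h i hi).move
    have ks : q (i + 1) ⬝ᵥ u i ∈ K := dot_mem (kq _ hi) (ku i hi.le)
    have hs : q (i + 1) ⬝ᵥ u i ∈ cl C T := by
      refine (hG _).2 ⟨ks, ?_⟩
      have e0 := tan hθ hi (h i hi).zero
      have e1 := congrArg (dv · θ) e
      simp only [dv_add, dv_smul] at e1
      have hg : gr (J i) ⬝ᵥ u i ≠ 0 := (h i hi).gu
      rw [e1, dotProduct_add, dotProduct_add, dotProduct_smul, dotProduct_smul, smul_eq_mul,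
        smul_eq_mul] at e0
      have e2 : θ (q (i + 1) ⬝ᵥ u i) = -(gr (J i) ⬝ᵥ u i)⁻¹ * (gr (J i) ⬝ᵥ dv (ft (q i) (u i)) θ +
          (q (i + 1) ⬝ᵥ u i) * (gr (J i) ⬝ᵥ dv (u i) θ)) := by
        field_simp
        linear_combination e0
      have kg : ∀ a, gr (J i) a ∈ K := fun a => kJ i hi _
      have d1 : ∀ v : ι → Ω, (∀ a, v a ∈ cl C T) → gr (J i) ⬝ᵥ dv v θ ∈ W := fun v hv =>
        sum_mem fun a _ => W.smul_mem ⟨_, kg a⟩ ((hG _).1 (hv a)).2
      rw [e2]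
      exact W.smul_mem ⟨_, neg_mem (inv_mem (dot_mem kg (ku i hi.le)))⟩
        (add_mem (d1 _ hP.2) (W.smul_mem ⟨_, ks⟩ (d1 _ hP.1)))
    have a1 : ∀ a, q (i + 1) a ∈ cl C T := fun a => by
      rw [e]; exact add_mem (hP.2 a) (mul_mem (e ▸ hs) (hP.1 a))
    have a2 : ∀ L, J i L ∈ cl C T := fun L => (hG _).2 ⟨kJ i hi L, by
      rw [hθ i hi L]
      exact sum_mem fun a _ => W.smul_mem ⟨_, kJ i hi _⟩ ((hG _).1 (a1 a)).2⟩
    have a3 : ∀ a, u (i + 1) a ∈ cl C T := fun a => by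
      rw [(h i hi).refl]
      exact sub_mem (hP.1 a) (mul_mem (div_mem (mul_mem (_root_.ofNat_mem _ 2)
        (dot_mem (fun _ => a2 _) hP.1)) (dot_mem (fun _ => a2 _) fun _ => a2 _)) (a2 _))
    exact ⟨a1, a2, a3, fun a => sub_mem (a1 a) (mul_mem (dot_mem a1 a3) (a3 a))⟩
  have up : ∀ j ≤ n, P j → ∀ i, j ≤ i → i ≤ n → P i := fun j _ hj i hi => by
    induction i, hi using Nat.le_induction with
    | base => exact fun _ => hj
    | succ i _ ih => exact fun hi => (step i hi (ih (Nat.le_of_succ_le hi))).2.2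
  have p0 : P 0 := by
    have := up j hj ⟨fun a => (hG _).2 ⟨ku j hj a, h1 a⟩, fun a => (hG _).2 ⟨kx j hj a, h2 a⟩⟩
      n hj le_rfl
    simpa only [P, hq, hu] using this
  have pa : ∀ i ≤ n, P i := fun i hi => up 0 n.zero_le p0 i i.zero_le hi
  have qa : ∀ i ≤ n, ∀ a, q i a ∈ cl C T := by
    have : ∀ i < n, ∀ a, q (i + 1) a ∈ cl C T := fun i hi => (step i hi (pa i hi.le)).1
    intro i hi
    cases i with
    | zero =>
      have := this (n - 1) (by omega)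
      rwa [Nat.sub_add_cancel hn, hq] at this
    | succ i => exact this i hi
  have : K ≤ cl C T := cl_le (by
    rintro f (⟨i, hi, a, rfl | rfl⟩ | ⟨i, hi, L, rfl⟩)
    exacts [qa i hi a, (pa i hi).1 a, (step i hi (pa i hi.le)).2.1 L])
  exact fun f hf => ((hG f).1 (this hf)).2

lemma kil (h : ∀ i < n, Jet δ (q i) (u i) (q (i + 1)) (u (i + 1)) (t i) (J i)) (hn : 0 < n)
    (hq : q n = q 0) (hu : u n = u 0) (hθ : θ ∈ EE C n q J) {j : ℕ} (hj : j ≤ n)
    (h1 : dv (u j) θ = 0) (h2 : dv (ft (q j) (u j)) θ = 0) : ∀ f ∈ cl C (SS n q u J), θ f = 0 :=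
  round h hn hq hu hθ ⊥ hj (congrFun h1) (congrFun h2)

lemma pres (h : ∀ i < n, Jet δ (q i) (u i) (q (i + 1)) (u (i + 1)) (t i) (J i)) (hn : 0 < n)
    (hq : q n = q 0) (hu : u n = u 0) (hθ : θ ∈ EE C n q J) {j : ℕ} (hj : j ≤ n)
    (h1 : ∀ a, θ (u j a) ∈ cl C (SS n q u J))
    (h2 : ∀ a, θ (ft (q j) (u j) a) ∈ cl C (SS n q u J)) : Pres (cl C (SS n q u J)) θ :=
  fun f hf => by
    obtain ⟨y, hy⟩ := round h hn hq hu hθ (LinearMap.range (Algebra.linearMap _ Ω)) hj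
      (fun a => ⟨⟨_, h1 a⟩, rfl⟩) (fun a => ⟨⟨_, h2 a⟩, rfl⟩) f hf
    exact hy ▸ y.2

omit [CharZero Ω] in
lemma comb (h : ∀ i < n, Jet δ (q i) (u i) (q (i + 1)) (u (i + 1)) (t i) (J i)) (a : Fin N → Ω) :
    ∑ r, a r • δ r ∈ EE C n q J :=
  sum_mem fun r _ => Submodule.smul_mem _ _ fun i hi L => (h i hi).chain r L

/-- Counting dimensions. -/
lemma surj (h : ∀ i < n, Jet δ (q i) (u i) (q (i + 1)) (u (i + 1)) (t i) (J i)) (hn : 0 < n)
    (hq : q n = q 0) (hu : u n = u 0) (hN : 2 * Fintype.card ι ≤ N + 2)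
    (hi : ∀ a : Fin N → Ω, (∀ i < n, dv (q i) (∑ r, a r • δ r) = 0 ∧
      dv (u i) (∑ r, a r • δ r) = 0) → a = 0) {j : ℕ} (hj : j ≤ n) (a b : ι → Ω)
    (ha : a ⬝ᵥ u j = 0) (hb : b ⬝ᵥ u j + ft (q j) (u j) ⬝ᵥ a = 0) :
    ∃ c : Fin N → Ω, dv (u j) (∑ r, c r • δ r) = a ∧ dv (ft (q j) (u j)) (∑ r, c r • δ r) = b := by
  have hu1 := uu h hn hj
  let Φ : (Fin N → Ω) →ₗ[Ω] (ι → Ω) × (ι → Ω) :=
    ((dv (u j)).prod (dv (ft (q j) (u j)))).comp (Fintype.linearCombination Ω δ)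
  let Ψ : (ι → Ω) × (ι → Ω) →ₗ[Ω] Ω × Ω :=
    { toFun := fun v => (v.1 ⬝ᵥ u j, v.2 ⬝ᵥ u j + ft (q j) (u j) ⬝ᵥ v.1)
      map_add' := fun v w => by simp; ring
      map_smul' := fun c v => by simp; ring }
  have hΦ : ∀ c, Φ c = (dv (u j) (∑ r, c r • δ r), dv (ft (q j) (u j)) (∑ r, c r • δ r)) :=
    fun c => rfl
  have h1 : Function.Injective Φ := (injective_iff_map_eq_zero _).2 fun c hc => by
    have := kil h hn hq hu (comb h c) hj (congrArg Prod.fst hc) (congrArg Prod.snd hc)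
    exact hi c fun i hi => ⟨funext fun a => this _ (subset_cl _ (Or.inl ⟨i, hi.le, a, Or.inl rfl⟩)),
      funext fun a => this _ (subset_cl _ (Or.inl ⟨i, hi.le, a, Or.inr rfl⟩))⟩
  have h2 : Function.Surjective Ψ := fun v => ⟨(v.1 • u j, v.2 • u j), by
    simp [Ψ, hu1, ft_dot hu1]⟩
  have h3 : LinearMap.range Φ ≤ LinearMap.ker Ψ := by
    rintro _ ⟨c, rfl⟩
    rw [LinearMap.mem_ker, hΦ]
    refine Prod.ext (unit_dot hu1 _) ?_
    have := dv_dot (ft (q j) (u j)) (u j) (∑ r, c r • δ r)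
    rw [ft_dot hu1, map_zero] at this
    exact this.symm
  have h4 := LinearMap.finrank_range_add_finrank_ker Ψ
  rw [LinearMap.range_eq_top.2 h2] at h4
  have h5 := LinearMap.finrank_range_of_inj h1
  simp only [finrank_top, Module.finrank_prod, Module.finrank_self, Module.finrank_fintype_fun_eq_card,
    Fintype.card_fin] at h4 h5
  have h6 := Submodule.eq_of_le_of_finrank_le h3 (by omega)
  obtain ⟨c, hc⟩ : (a, b) ∈ LinearMap.range Φ := h6 ▸ Prod.ext ha hb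
  exact ⟨c, congrArg Prod.fst hc, congrArg Prod.snd hc⟩

/-- The statement for a field that is generated by the data. -/
lemma build {p : Prp} (hS : StmtS p) {k : Type} [Field k] [Algebra k ℝ] [IsAlgClosed C]
    [IsAlgClosed Ω] [Algebra k C] [Algebra k Ω] [IsScalarTower k C Ω] [Nontrivial ι]
    (h : ∀ i < n, Jet δ (q i) (u i) (q (i + 1)) (u (i + 1)) (t i) (J i)) (hn : 0 < n)
    (hq : q n = q 0) (hu : u n = u 0)
    (hc : ∀ f, (∀ θ ∈ EE C n q J, θ f = 0) → f ∈ (⊥ : IntermediateField C Ω))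
    (hi : ∀ j ≤ n, ∀ θ ∈ EE C n q J, dv (u j) θ = 0 → dv (ft (q j) (u j)) θ = 0 → θ = 0)
    (hs : ∀ j ≤ n, ∀ a b : ι → Ω, a ⬝ᵥ u j = 0 → b ⬝ᵥ u j + ft (q j) (u j) ⬝ᵥ a = 0 →
      ∃ θ ∈ EE C n q J, dv (u j) θ = a ∧ dv (ft (q j) (u j)) θ = b)
    (hp : ∀ i < n, ¬AlgebraicIndependent C (q (i + 1)) → p k Ω ι (q (i + 1))) :
    ∑ i ∈ Finset.range n, t i = 0 := by
  choose c hc2 using fun i => IsAlgClosed.exists_eq_mul_self (gr (J i) ⬝ᵥ gr (J i))
  have c0 : ∀ i < n, c i ≠ 0 := fun i hi e => (h i hi).gg (by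
    have := hc2 i; rwa [e, mul_zero] at this)
  let L : ∀ j, j ≤ n → Ln (EE C n q J) ι := fun j hj =>
    ⟨u j, ft (q j) (u j), uu h hn hj, ft_dot (uu h hn hj), hi j hj, hs j hj⟩
  let M : ∀ i, i < n → Pt (EE C n q J) ι := fun i hi =>
    { q := q (i + 1)
      ν := (c i)⁻¹ • gr (J i)
      νν := by
        have := c0 i hi
        rw [smul_dotProduct, dotProduct_smul, hc2, smul_eq_mul, smul_eq_mul]
        field_simp
      tan := fun θ hθ => by rw [smul_dotProduct, tan hθ hi (h i hi).zero, smul_zero]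
      surj := fun w hw => by
        rw [smul_dotProduct, smul_eq_mul, mul_eq_zero, or_iff_right (inv_ne_zero (c0 i hi))] at hw
        obtain ⟨θ, h1, h2, h3⟩ := hs i hi.le 0 (w - (w ⬝ᵥ u i) • u i) (by simp)
          (by simp [(h i hi).uu])
        exact ⟨θ, h1, pt_surj (h i hi).uu (h i hi).move (h i hi).gu (tan h1 hi (h i hi).zero) hw
          h2 h3⟩ }
  let l : ℕ → Ln (EE C n q J) ι := fun j => L (min j n) (min_le_right _ _)
  let m : ℕ → Pt (EE C n q J) ι := fun i => M (min i (n - 1)) (by omega)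
  have lu : ∀ j ≤ n, (l j).u = u j := fun j hj => by simp only [l, L, min_eq_left hj]
  have lx : ∀ j ≤ n, (l j).x = ft (q j) (u j) := fun j hj => by simp only [l, L, min_eq_left hj]
  have mq : ∀ i < n, (m i).q = q (i + 1) := fun i hi => by
    simp only [m, M, min_eq_left (show i ≤ n - 1 by omega)]
  have mν : ∀ i < n, (m i).ν = (c i)⁻¹ • gr (J i) := fun i hi => by
    simp only [m, M, min_eq_left (show i ≤ n - 1 by omega)]
  have key := hS k C Ω ι (EE C n q J) m l n ⟨invl fun i hi => (h i hi).symm, hc⟩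
    (fun i _ hi => by
      have h0 := c0 i hi
      have hg : gr (J i) ⬝ᵥ u i ≠ 0 := (h i hi).gu
      have hr : u (i + 1) = u i - (2 * (gr (J i) ⬝ᵥ u i) / (gr (J i) ⬝ᵥ gr (J i))) • gr (J i) :=
        (h i hi).refl
      refine ⟨⟨?_, ?_⟩, ⟨?_, ?_⟩, ?_⟩
      · rw [mq i hi, lu i hi.le, lx i hi.le]
        exact on_eq (h i hi).uu (h i hi).move
      · rw [mν i hi, lu i hi.le, smul_dotProduct]
        exact mul_ne_zero (inv_ne_zero h0) hg
      · rw [mq i hi, lu _ hi, lx _ hi, ft, sub_add_cancel]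
      · rw [mν i hi, lu _ hi, smul_dotProduct, hr, dotProduct_sub, dotProduct_smul, smul_eq_mul,
          smul_eq_mul, div_mul_cancel₀ _ (show gr (J i) ⬝ᵥ gr (J i) ≠ 0 from (h i hi).gg)]
        refine mul_ne_zero (inv_ne_zero h0) fun e => hg ?_
        linear_combination -e
      · rw [mν i hi, lu _ hi, lu i hi.le, hr, smul_dotProduct, smul_smul, hc2, smul_eq_mul]
        congr 2
        field_simp)
    ⟨by rw [lu n le_rfl, lu 0 n.zero_le, hu], by rw [lx n le_rfl, lx 0 n.zero_le, hq, hu]⟩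
    (fun i hi ht => by rw [mq i hi]; exact hp i hi (by rwa [Pt.Tr, mq i hi] at ht))
  rw [del, ← Finset.range_eq_Ico, Finset.sum_congr rfl (g := fun i =>
    t i + (q i ⬝ᵥ u i - q (i + 1) ⬝ᵥ u (i + 1))) fun i hi => by
      have hi := Finset.mem_range.1 hi
      rw [mq i hi, lu i hi.le, lu _ hi, dotProduct_sub]
      nth_rewrite 1 [(h i hi).move]
      rw [add_dotProduct, smul_dotProduct, (h i hi).uu, smul_eq_mul]
      ring, Finset.sum_add_distrib, Finset.sum_range_sub' (fun i => q i ⬝ᵥ u i), hq, hu, sub_self,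
    add_zero] at key
  exact key

open Classical in
/-- A retraction onto a subfield. -/
noncomputable def rt (K : IntermediateField C Ω) (f : Ω) : K := if h : f ∈ K then ⟨f, h⟩ else 0

omit [CharZero Ω] in
lemma rt_coe {K : IntermediateField C Ω} {f : Ω} (h : f ∈ K) : (rt K f : Ω) = f := by
  rw [rt, dif_pos h]

omit [CharZero Ω] in
lemma coe_dot {K : IntermediateField C Ω} (a b : ι → K) :
    ((a ⬝ᵥ b : K) : Ω) = (fun j => (a j : Ω)) ⬝ᵥ fun j => (b j : Ω) := by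
  simp [dotProduct]

omit [CharZero Ω] in
lemma mem_cl_of_map {Ω' : Type} [Field Ω'] [Algebra C Ω'] (i : Ω →ₐ[C] Ω') {S : Set Ω} {x : Ω}
    (h : i x ∈ cl C (i '' S)) : x ∈ cl C S := by
  rw [H88.mem_cl, ← AlgHom.map_adjoin] at h
  exact IsAlgebraic.of_ringHom_of_comp_eq
    ((Algebra.adjoin C S).equivMapOfInjective i i.injective).toRingEquiv.toRingHom i.toRingHom h
    ((Algebra.adjoin C S).equivMapOfInjective i i.injective).surjective i.injective rfl

end Norm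

open H90.Norm in
theorem norm (p : Prp) : p.Ok → StmtS p → StmtQ p := by
  classical
  intro hp hS k C Ω ι _ _ _ _ _ _ _ _ _ _ _ _ _ N n δ q u t J hc hN hi hq hu h ha
  rcases n.eq_zero_or_pos with rfl | hn
  · simp
  let K := cl C (SS n q u J)
  have : CharZero K := algebraRat.charZero _
  have : IsAlgClosed K := isAlgClosed_cl _
  have kq : ∀ i ≤ n, ∀ a, q i a ∈ K := fun i hi a => subset_cl _ (Or.inl ⟨i, hi, a, Or.inl rfl⟩)
  have ku : ∀ i ≤ n, ∀ a, u i a ∈ K := fun i hi a => subset_cl _ (Or.inl ⟨i, hi, a, Or.inr rfl⟩)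
  have kJ : ∀ i < n, ∀ L, J i L ∈ K := fun i hi L => subset_cl _ (Or.inr ⟨i, hi, L, rfl⟩)
  have kt : ∀ i < n, t i ∈ K := fun i hi => by
    have : t i = q (i + 1) ⬝ᵥ u i - q i ⬝ᵥ u i := by
      rw [(h i hi).move, add_dotProduct, smul_dotProduct, (h i hi).uu]; simp
    rw [this]
    exact sub_mem (dot_mem (kq _ hi) (ku _ hi.le)) (dot_mem (kq _ hi.le) (ku _ hi.le))
  let q' : ℕ → ι → K := fun i a => rt K (q i a)
  let u' : ℕ → ι → K := fun i a => rt K (u i a)
  let J' : ℕ → List ι → K := fun i L => rt K (J i L)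
  let t' : ℕ → K := fun i => rt K (t i)
  have eq : ∀ i ≤ n, (fun a => (q' i a : Ω)) = q i := fun i hi => funext fun a => rt_coe (kq i hi a)
  have eu : ∀ i ≤ n, (fun a => (u' i a : Ω)) = u i := fun i hi => funext fun a => rt_coe (ku i hi a)
  have eJ : ∀ i < n, ∀ L, (J' i L : Ω) = J i L := fun i hi L => rt_coe (kJ i hi L)
  have eg : ∀ i < n, (fun a => (J' i [a] : Ω)) = fun a => J i [a] := fun i hi =>
    funext fun a => eJ i hi _
  have et : ∀ i < n, (t' i : Ω) = t i := fun i hi => rt_coe (kt i hi)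
  have ex : ∀ i ≤ n, (fun a => ((ft (q' i) (u' i) a : K) : Ω)) = ft (q i) (u i) := fun i hi => by
    funext a
    simp only [ft, Pi.sub_apply, Pi.smul_apply, smul_eq_mul]
    push_cast
    rw [coe_dot, eq i hi, eu i hi, congrFun (eq i hi) a, congrFun (eu i hi) a]
  have h' : ∀ i < n, Jet (Fin.elim0 : Fin 0 → Der C K) (q' i) (u' i) (q' (i + 1)) (u' (i + 1))
      (t' i) (J' i) := fun i hi =>
    { zero := Subtype.ext (by rw [eJ i hi, (h i hi).zero]; rfl)
      chain := fun r => r.elim0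
      symm := fun j j' L => Subtype.ext (by rw [eJ i hi, eJ i hi, (h i hi).symm])
      uu := Subtype.ext (by rw [coe_dot, eu i hi.le, (h i hi).uu]; rfl)
      gg := fun e => (h i hi).gg (by rw [← eg i hi, ← coe_dot, e]; rfl)
      gu := fun e => (h i hi).gu (by rw [← eg i hi, ← eu i hi.le, ← coe_dot, e]; rfl)
      move := funext fun a => Subtype.ext (by
        simp only [Pi.add_apply, Pi.smul_apply, smul_eq_mul]
        push_cast
        rw [congrFun (eq _ hi) a, congrFun (eq _ hi.le) a, congrFun (eu _ hi.le) a, et i hi,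
          (h i hi).move]
        rfl)
      refl := funext fun a => Subtype.ext (by
        simp only [Pi.sub_apply, Pi.smul_apply, smul_eq_mul]
        push_cast
        rw [coe_dot, coe_dot, eg i hi, eu i hi.le, congrFun (eu _ hi) a, congrFun (eu _ hi.le) a,
          eJ i hi, (h i hi).refl]
        rfl) }
  have hq' : q' n = q' 0 := by simp only [q', hq]
  have hu' : u' n = u' 0 := by simp only [u', hu]
  have hres : ∀ θ ∈ EE C n q J, ∀ hθ : Pres K θ, res θ hθ ∈ EE C n q' J' :=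
    fun θ h1 h2 i hi L => Subtype.ext (by
      push_cast
      simp only [res_apply, eJ i hi, congrFun (eq _ hi) _]
      exact h1 i hi L)
  have hs : ∀ j ≤ n, ∀ a b : ι → K, a ⬝ᵥ u' j = 0 → b ⬝ᵥ u' j + ft (q' j) (u' j) ⬝ᵥ a = 0 →
      ∃ θ ∈ EE C n q J, ∃ hθ : Pres K θ, dv (u j) θ = (fun i => (a i : Ω)) ∧
        dv (ft (q j) (u j)) θ = fun i => (b i : Ω) := fun j hj a b h1 h2 => by
    obtain ⟨c, c1, c2⟩ := surj h hn hq hu hN hi hj (fun i => (a i : Ω)) (fun i => (b i : Ω))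
      (by rw [← eu j hj, ← coe_dot, h1]; rfl)
      (by rw [← ex j hj, ← eu j hj, ← coe_dot, ← coe_dot, ← IntermediateField.coe_add, h2]; rfl)
    exact ⟨_, comb h c, pres h hn hq hu (comb h c) hj (fun i => by rw [← dv_apply, c1]; exact (a i).2)
      (fun i => by rw [← dv_apply, c2]; exact (b i).2), c1, c2⟩
  have key := build (k := k) hS h' hn hq' hu' (fun f hf => ?_) (fun j hj θ h1 h2 h3 => ?_)
    (fun j hj a b h1 h2 => ?_) (fun i hi' hn' => ?_)
  · have := congrArg (Subtype.val : K → Ω) key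
    push_cast at this
    rwa [Finset.sum_congr rfl fun i hi => et i (Finset.mem_range.1 hi)] at this
  · have u1 := uu h' hn n.zero_le
    have u2 := uu h hn n.zero_le
    have x2 := ft_dot (q := q 0) u2
    choose θ t1 t2 t3 t4 using fun j => hs 0 n.zero_le (Pi.single j 1 - u' 0 j • u' 0)
      (-(ft (q' 0) (u' 0) j) • u' 0) (by simp [u1]) (by simp [u1, ft_dot u1])
    choose φ s1 s2 s3 s4 using fun j => hs 0 n.zero_le 0 (Pi.single j 1 - u' 0 j • u' 0)
      (by simp) (by simp [u1])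
    have e1 : ∀ j, (fun i => ((Pi.single j 1 - u' 0 j • u' 0 : ι → K) i : Ω)) =
        Pi.single j 1 - u 0 j • u 0 := fun j => funext fun i => by
      simp only [Pi.sub_apply, Pi.smul_apply, smul_eq_mul]
      push_cast
      rw [congrFun (eu 0 n.zero_le) i, congrFun (eu 0 n.zero_le) j]
      by_cases e : i = j <;> simp [e]
    have e2 : ∀ j, (fun i => ((-(ft (q' 0) (u' 0) j) • u' 0 : ι → K) i : Ω)) =
        -(ft (q 0) (u 0) j) • u 0 := fun j => funext fun i => by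
      simp only [Pi.smul_apply, smul_eq_mul]
      push_cast
      rw [congrFun (eu 0 n.zero_le) i, congrFun (ex 0 n.zero_le) j]
    have hb : ∀ v : ι → Ω, ∑ j, v j • (Pi.single j 1 - u 0 j • u 0 : ι → Ω) =
        v - (v ⬝ᵥ u 0) • u 0 := fun v => by
      simp only [smul_sub, Finset.sum_sub_distrib, smul_smul, ← Finset.sum_smul]
      congr 1
      ext i
      simp [Pi.single_apply]
    obtain ⟨c, hc'⟩ := IntermediateField.mem_bot.1 (hc f fun r => by
      have hr : δ r ∈ EE C n q J := fun i hi L => (h i hi).chain r L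
      have a1 := unit_dot u2 (δ r)
      have a2 := dv_dot (ft (q 0) (u 0)) (u 0) (δ r)
      rw [x2, map_zero] at a2
      have := kil (θ := δ r - (∑ j, dv (u 0) (δ r) j • θ j + ∑ j, dv (ft (q 0) (u 0)) (δ r) j • φ j))
        h hn hq hu (sub_mem hr (add_mem (sum_mem fun j _ => Submodule.smul_mem _ _ (t1 j))
          (sum_mem fun j _ => Submodule.smul_mem _ _ (s1 j)))) n.zero_le
        (by
          simp only [map_sub, map_add, map_sum, map_smul, t3, s3, e1, hb, a1]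
          ext i; simp)
        (by
          simp only [map_sub, map_add, map_sum, map_smul, t4, s4, e1, e2, hb, smul_smul,
            ← Finset.sum_smul]
          have : ∑ j, dv (u 0) (δ r) j * -ft (q 0) (u 0) j = dv (ft (q 0) (u 0)) (δ r) ⬝ᵥ u 0 := by
            rw [eq_neg_of_add_eq_zero_left a2.symm, dotProduct_comm]
            simp [dotProduct]
          rw [this]; abel) f f.2
      have z1 : ∀ j, θ j f = 0 := fun j => congrArg Subtype.val (hf _ (hres _ (t1 j) (t2 j)))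
      have z2 : ∀ j, φ j f = 0 := fun j => congrArg Subtype.val (hf _ (hres _ (s1 j) (s2 j)))
      simpa [H96.sum_apply, z1, z2] using this)
    exact IntermediateField.mem_bot.2 ⟨c, Subtype.ext hc'⟩
  · have h4 := kil h' hn hq' hu' h1 hj h2 h3
    refine Derivation.ext fun f => h4 f (mem_cl_of_map K.val (cl_le (Subset.trans ?_ (subset_cl _)) f.2))
    rintro _ (⟨i, hi, a, rfl | rfl⟩ | ⟨i, hi, L, rfl⟩)
    · exact ⟨q' i a, Or.inl ⟨i, hi, a, Or.inl rfl⟩, congrFun (eq i hi) a⟩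
    · exact ⟨u' i a, Or.inl ⟨i, hi, a, Or.inr rfl⟩, congrFun (eu i hi) a⟩
    · exact ⟨J' i L, Or.inr ⟨i, hi, L, rfl⟩, eJ i hi L⟩
  · obtain ⟨θ, t1, t2, t3, t4⟩ := hs j hj a b h1 h2
    refine ⟨res θ t2, hres θ t1 t2, funext fun i => Subtype.ext ?_, funext fun i => Subtype.ext ?_⟩
    · rw [dv_apply, res_apply, congrFun (eu j hj) i]; exact congrFun t3 i
    · rw [dv_apply, res_apply, congrFun (ex j hj) i]; exact congrFun t4 i
  · refine (hp k K Ω ι (K.val.restrictScalars k) _).1 ?_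
    have e : (K.val.restrictScalars k) ∘ q' (i + 1) = q (i + 1) := eq _ hi'
    rw [e]
    refine ha i hi' (fun w hw => ?_) fun e' => hn' ?_
    · obtain ⟨c, c1, c2⟩ := surj h hn hq hu hN hi hi'.le 0 (w - (w ⬝ᵥ u i) • u i) (by simp)
        (by simp [(h i hi').uu])
      exact ⟨c, pt_surj (h i hi').uu (h i hi').move (h i hi').gu
        (tan (comb h c) hi' (h i hi').zero) hw c1 c2⟩
    · exact (K.val.algebraicIndependent_iff K.val.injective).1 (by rwa [← eq _ hi'] at e')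

end Pool.Agent.MP_249f74_an.H90
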