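import Pool.Agent.MP_249f74_an.H90.Fam

/-!
Two conjugate families cannot be translated simultaneously.
-/

open Set IntermediateField

namespace Pool.Agent.MP_249f74_an.H90

open H17 (Der cl_le cl_mono rk_finite)
open H88 (cl subset_cl coe_cl rk rk_le)
open H96 (Kil Agr Pres Ind Fm dd Cls Van Big br_apply mem_cl_of_kil cj push cj_apply push_apply
  kil_cj kil_cj' mem_cl_image agr_iff pres_cl not_mem_cl ext_indep exists_basis indep_one copy ch)
open H2 (Invl Dfn chm)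

namespace Os

variable {C Ω ι κ : Type} [Field C] [Field Ω] [Algebra C Ω] [Fintype ι] [Fintype κ]
  {u x : ι → Ω} {θ : Der C Ω}

omit [Fintype ι] in
lemma kil_ln : Kil (range u ∪ range x) θ ↔ dv u θ = 0 ∧ dv x θ = 0 :=
  ⟨fun h => ⟨kil_range.1 (h.mono subset_union_left), kil_range.1 (h.mono subset_union_right)⟩,
    fun h => (kil_range.2 h.1).union (kil_range.2 h.2)⟩

omit [Fintype ι] in
lemma dv_pt (s : Ω) (θ : Der C Ω) : dv (x + s • u) θ = dv x θ + θ s • u + s • dv u θ := by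
  rw [dv_add, dv_smul, add_assoc]

/-- A derivation that fixes the direction and moves the foot point along the line. -/
lemma foot (uu : u ⬝ᵥ u = 1) (xu : x ⬝ᵥ u = 0) (h : dv u θ = 0) {c : Ω} (h' : dv x θ = c • u) :
    dv x θ = 0 := by
  have := dv_dot x u θ
  rw [xu, map_zero, h, h'] at this
  simp only [smul_dotProduct, uu, smul_eq_mul, mul_one, dotProduct_zero, add_zero] at this
  rw [h', ← this, zero_smul]

lemma tr {X K Y : Set Ω} (h : Ind C X K Y) (h' : Ind C X Y ∅) : Ind C X K ∅ := fun θ hθ => by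
  obtain ⟨φ, p1, p2⟩ := h' θ hθ
  obtain ⟨ψ, q1, q2⟩ := h _ (agr_iff.1 p2.symm)
  exact ⟨φ + ψ, fun f hf => by simp [p1 f hf, q1 f hf], fun f hf => by simp [q2 f hf]⟩

lemma kil_empty (θ : Der C Ω) : Kil ∅ θ := fun _ h => h.elim

variable [CharZero Ω]

/-- Two points determine the line. -/
lemma two (uu : u ⬝ᵥ u = 1) (xu : x ⬝ᵥ u = 0) {s t : Ω} (hs : t ≠ s)
    (h : dv (x + s • u) θ = 0) (h' : dv (x + t • u) θ = 0) : dv u θ = 0 ∧ dv x θ = 0 := by
  rw [dv_pt] at h h'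
  have e : (θ t - θ s) • u + (t - s) • dv u θ = 0 := by linear_combination (norm := module) h' - h
  have e1 := congrArg (· ⬝ᵥ u) e
  simp only [add_dotProduct, smul_dotProduct, uu, unit_dot uu, smul_eq_mul, mul_one, mul_zero,
    add_zero, zero_dotProduct] at e1
  rw [e1, zero_smul, zero_add, smul_eq_zero, or_iff_right (sub_ne_zero.2 hs)] at e
  exact ⟨e, foot uu xu e (c := -θ s) (by
    rw [e, smul_zero, add_zero] at h; linear_combination (norm := module) h)⟩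

omit [CharZero Ω] in
/-- A finite set with the same closure as an intersection. -/
lemma fin_inf {S : Set Ω} (hS : S.Finite) (T : Set Ω) :
    ∃ I : Set Ω, I.Finite ∧ I ⊆ cl C S ∧ I ⊆ cl C T ∧
      ((cl C S ⊓ cl C T : IntermediateField C Ω) : Set Ω) ⊆ cl C I := by
  obtain ⟨I, hI⟩ := (AlgebraicIndependent.matroid C Ω).exists_isBasis
    (cl C S ⊓ cl C T : IntermediateField C Ω) (by simp)
  have hIS : I ⊆ cl C S := fun x hx => (hI.subset hx).1
  refine ⟨I, Set.finite_of_encard_le_coe (k := (rk C S).toNat) ?_, hIS,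
    fun x hx => (hI.subset hx).2, by rw [coe_cl]; exact hI.subset_closure⟩
  rw [ENat.natCast_toNat (rk_finite hS), ← hI.indep.eRk_eq_encard]
  exact rk_le hIS

variable {S : Set Ω} {q n : ι → Ω} {ν : κ → Fm C Ω} (F : Fam S q n ν) {s : Ω}
  (e : q = x + s • u) (c0 : n ⬝ᵥ u ≠ 0)
include F e c0

omit [CharZero Ω] [Fintype κ] in
/-- A tangent derivation that fixes a transversal line fixes the point. -/
lemma kil_line (h : Kil (range u ∪ range x) θ) (h0 : ∀ k, ν k θ = 0) : Kil S θ := by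
  have h1 : dv q θ = θ s • u := by rw [e, dv_pt, (kil_ln.1 h).1, (kil_ln.1 h).2]; simp
  have h2 := F.tan θ h0
  rw [h1, dotProduct_smul, smul_eq_mul, mul_eq_zero, or_iff_left c0] at h2
  exact F.kil θ h0 (by rw [h1, h2, zero_smul])

/-- Translations along a fixed line. -/
lemma pres [DecidableEq κ] (h : Kil (range u ∪ range x) θ) {k : κ}
    (h0 : ∀ j, ν j θ = if j = k then 1 else 0) {f : Ω} (hf : f ∈ S) :
    θ f ∈ cl C ((range u ∪ range x) ∪ S) := mem_cl_of_kil fun φ hφ => by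
  have := kil_line F e c0 ((hφ.mono subset_union_left).br h) (fun j => by
    rw [F.kil_br (hφ.mono subset_union_right), h0]; split_ifs <;> simp) f hf
  simpa [br_apply, hφ f (Or.inr hf)] using this

/-- The line is generic. -/
lemma gl (uu : u ⬝ᵥ u = 1) (hp : ∀ a, a ⬝ᵥ u = 0 → ∃ θ : Der C Ω, Kil S θ ∧ dv u θ = a)
    (a b : ι → Ω) (ha : a ⬝ᵥ u = 0) : ∃ θ : Der C Ω, dv u θ = a ∧ ∃ c : Ω, dv x θ = b + c • u := by
  obtain ⟨θ, -, h⟩ := F.surj (b + s • a - (n ⬝ᵥ (b + s • a) / n ⬝ᵥ u) • u) (by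
    rw [dotProduct_sub, dotProduct_smul (_ / _), smul_eq_mul, div_mul_cancel₀ _ c0, sub_self])
  obtain ⟨ζ, z1, z2⟩ := hp (a - dv u θ) (by rw [sub_dotProduct, ha, unit_dot uu, sub_self])
  have h1 : dv u (θ + ζ) = a := by rw [map_add, z2, add_sub_cancel]
  have h2 : dv q (θ + ζ) = dv q θ := by rw [map_add, F.kil_q z1, add_zero]
  rw [h] at h2
  rw [e, dv_pt, h1] at h2
  exact ⟨θ + ζ, h1, -(n ⬝ᵥ (b + s • a) / n ⬝ᵥ u) - (θ + ζ) s, by
    linear_combination (norm := module) h2⟩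

omit c0 in
/-- The two conjugate families are independent. -/
lemma ind12 (uu : u ⬝ᵥ u = 1) (xu : x ⬝ᵥ u = 0)
    (hp : ∀ a, a ⬝ᵥ u = 0 → ∃ θ : Der C Ω, Kil S θ ∧ dv u θ = a) {σ : Ω ≃ₐ[C] Ω} (su : σ ∘ u = u)
    (e2 : σ ∘ q = x + σ s • u) (ne : σ s ≠ s)
    (hI : Ind C (σ '' S) (S ∪ (range u ∪ range x)) (range u ∪ range x)) : Ind C (σ '' S) S ∅ := by
  intro θ _
  obtain ⟨a, ha⟩ : ∃ a, (s - σ s) • a = dv q θ - (dv q θ ⬝ᵥ u) • u :=
    ⟨(s - σ s)⁻¹ • _, smul_inv_smul₀ (sub_ne_zero.2 ne.symm) _⟩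
  have au : a ⬝ᵥ u = 0 := by
    have := congrArg (· ⬝ᵥ u) ha
    simpa [uu, sub_ne_zero.2 ne.symm] using this
  obtain ⟨ζ, z1, z2⟩ := hp (a - dv u θ) (by rw [sub_dotProduct, au, unit_dot uu, sub_self])
  obtain ⟨ξ, y1, y2⟩ := hp (σ.symm ∘ a) (σ.injective (by
    rw [← aut_dot, su, map_zero, ← au]; congr 1; ext; simp))
  have h1 : dv u (θ + ζ) = a := by rw [map_add, z2, add_sub_cancel]
  have h2 : dv u (cj σ ξ) = a := by rw [← su, dv_cj, y2]; ext; simp
  have h3 : dv q (θ + ζ) = dv q θ := by rw [map_add, F.kil_q z1, add_zero]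
  have h4 : dv (σ ∘ q) (cj σ ξ) = 0 := by rw [dv_cj, F.kil_q y1]; ext; simp
  rw [e2, dv_pt, h2] at h4
  have h5 : dv u (θ + ζ - cj σ ξ) = 0 := by rw [map_sub, h1, h2, sub_self]
  obtain ⟨φ, p1, p2⟩ := hI.glue (θ1 := θ + ζ) (θ2 := cj σ ξ) (agr_iff.2 (kil_ln.2 ⟨h5,
    foot uu xu h5 (c := dv q θ ⬝ᵥ u - (θ + ζ) s + cj σ ξ (σ s)) (by
      nth_rw 1 [e] at h3
      rw [dv_pt, h1] at h3
      rw [map_sub]
      linear_combination (norm := module) h3 - h4 - ha)⟩))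
  exact ⟨φ, (kil_cj.2 y1).of_agr p2, fun f hf => by simp [p1 f (Or.inl hf), z1 f hf]⟩

end Os

open Os in
theorem os : StmtPOL → StmtOS := by
  intro pol C Ω ι κ _ _ _ _ _ _ _ _ S U q n u x ν σ hB F uu xu e c0 hp su sx ne hI hU US vU hΔ
  classical
  generalize hs : q ⬝ᵥ u = s at e ne
  replace su : σ ∘ u = u := funext su
  have F2 := F.push σ
  have e2 : σ ∘ q = x + σ s • u := by
    ext j; simp [e, sx, show σ (u j) = u j from congrFun su j]
  have c2 : (σ ∘ n) ⬝ᵥ u ≠ 0 := by rw [← su, aut_dot]; simpa using c0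
  have i12 := ind12 F e uu xu hp su e2 ne hI
  have gl := gl F e c0 uu hp
  generalize hL : range u ∪ range x = L at hI hΔ
  have kL : ∀ θ : Der C Ω, Kil L θ → dv u θ = 0 ∧ dv x θ = 0 := fun θ h => kil_ln.1 (hL ▸ h)
  have fL : L.Finite := hL ▸ (finite_range u).union (finite_range x)
  have LS : U ∪ L ⊆ cl C (S ∪ σ '' S) := union_subset US fun f hf => mem_cl_of_kil fun θ hθ =>
    (hL ▸ kil_ln.2 (two uu xu ne (e ▸ F.kil_q (hθ.mono subset_union_left))
      (e2 ▸ F2.kil_q (hθ.mono subset_union_right))) : Kil L θ) f hf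
  have s2 : σ s ∈ cl C (S ∪ σ '' S) := by
    rw [← hs, ← aut_dot, su]
    exact dot_mem (fun j => subset_cl _ (Or.inr (F2.hq j))) fun j =>
      LS (Or.inr (hL ▸ Or.inl ⟨j, rfl⟩))
  generalize h2 : σ '' S = S2 at *
  obtain ⟨ρ, r1, r2⟩ := copy C Ω S S2 hB F.fin F2.fin
  have F4 := F.push ρ
  have r3 : ρ '' S2 = S2 := (image_congr fun a ha => r1 a (subset_cl _ ha)).trans (image_id' _)
  have i4 : Ind C (ρ '' S) (S ∪ S2) ∅ := tr r2 (by simpa [r3] using (i12.push ρ).symm)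
  have i1 : Ind C S (ρ '' S ∪ S2) ∅ := tr (Y := S2) (fun θ hθ => by
    obtain ⟨φ, p1, p2⟩ := r2.symm θ hθ
    exact ⟨φ, p1.mono subset_union_left, p2.union fun f hf =>
      (p1 f (Or.inr hf)).trans (hθ f hf).symm⟩) i12.symm
  have mc : ∀ f ∈ cl C (S ∪ S2), ρ f ∈ cl C (ρ '' S ∪ S2) := fun f hf => by
    rw [← r3, ← image_union]; exact mem_cl_image.2 hf
  have US' : ρ '' (U ∪ L) ⊆ cl C (ρ '' S ∪ S2) := by rintro _ ⟨f, hf, rfl⟩; exact mc f (LS hf)
  have vU' : ∀ k, Van (push ρ (ν k) - push σ (ν k)) (ρ '' (U ∪ L)) := fun k θ hθ => by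
    have := ((vU k).mono subset_union_left).push ρ θ hθ
    rw [LinearMap.sub_apply, ← (F2.van k).push_eq F2.fin (F2.cls k) r1]
    simpa using this
  have uL : ∀ j, (ρ ∘ u) j ∈ ρ '' (U ∪ L) := fun j => ⟨_, Or.inr (hL ▸ Or.inl ⟨j, rfl⟩), rfl⟩
  have xL : ∀ j, (ρ ∘ x) j ∈ ρ '' (U ∪ L) := fun j => ⟨_, Or.inr (hL ▸ Or.inr ⟨j, rfl⟩), rfl⟩
  have fU' := (hU.union fL).image ρ
  have uu' : (ρ ∘ u) ⬝ᵥ (ρ ∘ u) = 1 := by rw [aut_dot, uu, map_one]
  have e4 : ρ ∘ q = ρ ∘ x + ρ s • ρ ∘ u := by ext j; simp [e]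
  have e2' : ρ ∘ x + ρ (σ s) • ρ ∘ u = x + σ s • u := by
    ext j
    have := r1 _ (subset_cl _ (F2.hq j))
    rw [e2] at this
    simpa using this
  have gl' : ∀ a b, a ⬝ᵥ (ρ ∘ u) = 0 → ∃ θ : Der C Ω, Kil S θ ∧ dv (ρ ∘ u) θ = a ∧
      ∃ c : Ω, dv (ρ ∘ x) θ = b + c • ρ ∘ u := fun a b ha => by
    obtain ⟨θ, h1, c, h3⟩ := gl (ρ.symm ∘ a) (ρ.symm ∘ b) (ρ.injective (by
      rw [← aut_dot, map_zero, ← ha]; congr 1; ext; simp))
    obtain ⟨φ, p1, p2⟩ := i1 (cj ρ θ) (kil_empty _)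
    refine ⟨φ, p1, funext fun j => ?_, ρ c, funext fun j => ?_⟩
    · rw [dv_apply, p2.cl _ (US' (uL j)), ← dv_apply, dv_cj, h1]; simp
    · rw [dv_apply, p2.cl _ (US' (xL j)), ← dv_apply, dv_cj, h3]; simp
  have c' : n ⬝ᵥ (ρ ∘ u) ≠ 0 := fun h => by
    have := par uu' (g := n) fun w hw => by
      obtain ⟨θ, h1, h2, -⟩ := gl' w 0 (by rwa [dotProduct_comm])
      have := dv_dot n (ρ ∘ u) θ
      rw [h, map_zero, F.kil_n h1, h2] at this
      simpa using this.symm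
    rw [h, zero_smul] at this
    simpa [this] using F.nn
  obtain ⟨c, -, ⟨k, hk⟩, hc⟩ := F.nk
  obtain ⟨Δ, d1, d2, d3⟩ := hΔ k
  have d4 : ∀ j, push σ (ν j) Δ = if j = k then 1 else 0 := fun j => by
    rw [← d3, eq_comm, ← sub_eq_zero]; exact vU j Δ d2
  have d5 : Δ (σ s) ≠ 0 := fun h => hk (σ.injective (by
    have := congrArg σ (hc (cj σ.symm Δ))
    rw [← aut_dot, ← dv_cj', e2, dv_pt, h, (kL _ d1).1, (kL _ d1).2] at this
    simp only [map_sum, map_mul, ← push_apply, d4] at this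
    simpa using this.symm))
  have hs' : ρ (σ s) ∉ cl C (S ∪ ρ '' (U ∪ L)) := by
    obtain ⟨η, p1, p2⟩ := i1 (cj ρ Δ) (kil_empty _)
    refine not_mem_cl (δ := η) (p1.union ((kil_cj.2 (d2.union d1)).of_agr (p2.cl.mono US'))) ?_
    rw [p2.cl _ (mc _ s2)]
    simpa using d5
  obtain ⟨I, b1, b2, b3, b4⟩ := exists_basis _ (indep_one hs') (T := insert (ρ (σ s)) S2)
    fun _ => Or.inl rfl
  have hs'' : ρ (σ s) ∉ cl C (S ∪ (ρ '' (U ∪ L) ∪ I \ {ρ (σ s)})) := by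
    obtain ⟨φ, p1, p2⟩ := ext_indep _ b3 0 fun a => if (a : Ω) = ρ (σ s) then 1 else 0
    refine not_mem_cl (δ := φ) ?_ ?_
    · rw [← union_assoc]
      exact Kil.union (fun f hf => p1 f (subset_cl _ hf)) fun f hf =>
        (p2 ⟨f, hf.1⟩).trans (if_neg hf.2)
    · rw [show φ _ = 1 from (p2 ⟨_, b1 ⟨(), rfl⟩⟩).trans (if_pos rfl)]
      exact one_ne_zero
  have hT : ∀ θ : Der C Ω, Kil (insert (ρ (σ s)) (S ∪ (ρ '' (U ∪ L) ∪ I \ {ρ (σ s)}))) θ →
      Kil (L ∪ S2 ∪ ρ '' S) θ := fun θ hθ => by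
    have k1 : Kil S θ := fun f hf => hθ f (Or.inr (Or.inl hf))
    have k2 : Kil (ρ '' (U ∪ L)) θ := fun f hf => hθ f (Or.inr (Or.inr (Or.inl hf)))
    have k3 : Kil I θ := fun f hf => by
      by_cases h : f = ρ (σ s)
      · exact hθ f (Or.inl h)
      · exact hθ f (Or.inr (Or.inr (Or.inr ⟨hf, h⟩)))
    have k4 : Kil S2 θ := ((k1.union k2).cl.union k3).cl.mono ((subset_insert _ _).trans b4)
    refine (((k1.union k4).cl.mono (subset_union_right.trans LS)).union k4).union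
      (kil_line F4 e4 (by rw [aut_dot]; simpa using c0) (k2.mono ?_) fun j => ?_)
    · exact union_subset (range_subset_iff.2 uL) (range_subset_iff.2 xL)
    · simpa [F2.van j θ k4] using vU' j θ k2
  obtain ⟨δ1, p1, p2⟩ := hI Δ d1
  obtain ⟨δ, p3, p4⟩ := i4 δ1 (kil_empty _)
  have p5 : Kil S2 δ := p1.of_agr (p4.mono subset_union_right)
  have p6 : Kil L δ := (d1.of_agr (p2.mono subset_union_right)).of_agr
    (p4.cl.mono (subset_union_right.trans LS))
  have p7 : Agr S δ Δ := (p4.mono subset_union_left).trans (p2.mono subset_union_left)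
  have p8 : ∀ j, ν j δ = if j = k then 1 else 0 := fun j => ((F.van j).agr p7).trans (d3 j)
  obtain ⟨ξ, x1, x2⟩ := i4 Δ (kil_empty _)
  have x3 : Kil (U ∪ L) ξ := (d2.union d1).of_agr (x2.cl.mono LS)
  have x4 : Pres (cl C (L ∪ S2 ∪ ρ '' S)) ξ := pres_cl (by
    rintro f ((hf | hf) | hf)
    · rw [x3 f (Or.inr hf)]; exact zero_mem _
    · rw [x2 f (Or.inr hf)]
      exact cl_mono subset_union_left (hL ▸ pres F2 e2 c2 (hL ▸ d1) d4 hf)
    · rw [x1 f hf]; exact zero_mem _)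
  obtain ⟨A, a1, a2, a3, a4⟩ := fin_inf (C := C) (F.fin.union fU') (U ∪ ρ '' S)
  have vA : ∀ j, Van (ν j + (push ρ (ν j) - push σ (ν j))) A := fun j =>
    (Van.mono (ch copy C Ω _ _ _ hB (fun θ φ => by
      rw [H96.dd_add, sub_eq_add_neg, H96.dd_add, H96.dd_neg, F.cls, F4.cls, F2.cls]; simp)
      (F.fin.union fU') (hU.union F4.fin) (fun θ hθ => by
        rw [LinearMap.add_apply, F.van j θ (hθ.mono subset_union_left),
          vU' j θ (hθ.mono subset_union_right), add_zero]) fun θ hθ => by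
        simpa [F4.van j θ (hθ.mono subset_union_right), sub_eq_add_neg] using
          vU j θ (hθ.mono subset_union_left)) a4).of_cl
  have hN := chm (𝓕 := ⨅ j, LinearMap.ker (ν j)) hB (fun θ hθ φ hφ => (Submodule.mem_iInf _).2
    (F.br ((Submodule.mem_iInf _).1 hθ) ((Submodule.mem_iInf _).1 hφ))) F.fin (a1.union fU')
    (fun θ hθ => (Submodule.mem_iInf _).2 fun j => F.van j θ hθ) fun θ hθ =>
      (Submodule.mem_iInf _).2 fun j => by
        have := vA j θ (hθ.mono subset_union_left)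
        rwa [LinearMap.add_apply, vU' j θ (hθ.mono subset_union_right), add_zero] at this
  obtain ⟨θ, hθ⟩ := F.tr
  refine hθ (F.tan θ ((Submodule.mem_iInf _).1 (hN θ fun h hh => ?_)))
  obtain ⟨a, rfl⟩ := mem_bot.1 (pol C Ω ι κ S (ρ '' (U ∪ L) ∪ I \ {ρ (σ s)})
    (cl C (L ∪ S2 ∪ ρ '' S)) q n (ρ ∘ u) (ρ ∘ x) ν k (ρ (σ s)) (δ s / (σ s - s)) h δ F c'
    (fun w => gl' 0 w (zero_dotProduct _)) (fun j => subset_cl _ (Or.inl (uL j)))
    (fun j => subset_cl _ (Or.inl (xL j))) hs''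
    (((p3.union p5).cl.mono US').union fun f hf => p5 f ((b2 hf.1).resolve_left hf.2))
    ((p3.union p5).cl _ (mc _ s2)) p8 (by simpa [hc, p8] using hk) (by
      rw [e2', e, dv_pt, (kL _ p6).1, (kL _ p6).2, add_sub_add_left_eq_sub,
        ← sub_smul, smul_smul, div_mul_cancel₀ _ (sub_ne_zero.2 ne)]
      simp)
    (fun f hf => mem_cl_of_kil fun θ hθ => (hT θ hθ).cl f hf) ((p6.union p5).union p3).cl hh.1 (by
      rw [(p7.trans (x2.mono subset_union_left).symm).cl h hh.1]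
      refine der_mem _ (cl_le (union_subset (a2.trans (cl_mono ?_)) fun f hf =>
        subset_cl _ (Or.inr (Or.inl hf)))) ?_ hh.2
      · exact union_subset_union_right _ subset_union_left
      · rintro f (hf | hf)
        · rw [((x3.mono subset_union_left).union x1).cl f (a3 hf)]; exact zero_mem _
        · exact Submodule.subset_span (x4 f (cl_mono (union_subset subset_union_right
            (subset_union_right.trans subset_union_left)) (US' hf)))))
  exact θ.map_algebraMap a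

end Pool.Agent.MP_249f74_an.H90
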