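import Pool.Agent.MP_249f74_an.H90.Spec

/-!
The equation at one mirror.
-/

open Set IntermediateField

namespace Pool.Agent.MP_249f74_an.H90

open H17 (Der cl_le cl_mono)
open H88 (cl subset_cl)
open H96 (Kil Agr Pres Fm dd Cls Van ext_pres indep_bot not_mem_cl exists_dual)
open H2 (KrS mem_KrS span_const)

namespace Pde

variable {C Ω ι κ : Type} [Field C] [Field Ω] [Algebra C Ω]

/-- The maximal ideal of a valuation ring. -/
def mm (V : ValuationSubring Ω) : AddSubgroup Ω where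
  carrier := {x | V.valuation x < 1}
  add_mem' ha hb := V.valuation.map_add_lt ha hb
  zero_mem' := by simp
  neg_mem' h := by simpa using h

/-- Integral elements with integral derivative. -/
def OO (V : ValuationSubring Ω) (U : Der C Ω) : Subring Ω where
  carrier := {f | f ∈ V ∧ U f ∈ V}
  mul_mem' ha hb := ⟨mul_mem ha.1 hb.1, by
    rw [U.leibniz]; exact add_mem (mul_mem ha.1 hb.2) (mul_mem hb.1 ha.2)⟩
  one_mem' := ⟨one_mem _, by simp⟩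
  add_mem' ha hb := ⟨add_mem ha.1 hb.1, by rw [map_add]; exact add_mem ha.2 hb.2⟩
  zero_mem' := ⟨zero_mem _, by simp⟩
  neg_mem' h := ⟨neg_mem h.1, by rw [map_neg]; exact neg_mem h.2⟩

variable {V : ValuationSubring Ω} {U : Der C Ω}

lemma mm_mul {a x : Ω} (ha : a ∈ V) (hx : x ∈ mm V) : a * x ∈ mm V := by
  change V.valuation (a * x) < 1
  rw [map_mul]
  exact mul_lt_one_of_nonneg_of_lt_one_right ((V.valuation_le_one_iff _).2 ha) zero_le hx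

lemma mm_le {x : Ω} (hx : x ∈ mm V) : x ∈ V := (V.valuation_le_one_iff _).1 (le_of_lt hx)

lemma mm_cancel {a x : Ω} (h0 : a ≠ 0) (hi : a⁻¹ ∈ V) (h : a * x ∈ mm V) : x ∈ mm V := by
  simpa [h0] using mm_mul hi h

lemma one_not : (1 : Ω) ∉ mm V := fun h => by
  simpa using show V.valuation (1 : Ω) < 1 from h

lemma dot {T : Type} [SetLike T Ω] [SubsemiringClass T Ω] [Fintype ι] {R : T} {p q : ι → Ω}
    (hp : ∀ j, p j ∈ R) (hq : ∀ j, q j ∈ R) : p ⬝ᵥ q ∈ R :=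
  sum_mem fun j _ => mul_mem (hp j) (hq j)

lemma adj_le {F : IntermediateField C Ω} (hF : ∀ f ∈ F, f ∈ V) {π : Ω} (hπ : π ∈ V) {x : Ω}
    (hx : x ∈ Algebra.adjoin F {π}) : x ∈ V := by
  induction hx using Algebra.adjoin_induction with
  | mem x hx => exact hx ▸ hπ
  | algebraMap r => exact hF r r.2
  | add _ _ _ _ ha hb => exact add_mem ha hb
  | mul _ _ _ _ ha hb => exact mul_mem ha hb

/-- The computation at the place. -/
lemma core {I P c G av Aa X : Ω} (hI : I ∈ OO V U) (h0 : 2 * I ≠ 0) (hi : (2 * I)⁻¹ ∈ V)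
    (hP : P ∈ OO V U) (hc : c ∈ mm V) (hc' : c ∈ OO V U) (hG : G ∈ OO V U) (hav : av ∈ OO V U)
    (hA : Aa ∈ OO V U) (hX : X ∈ OO V U)
    (e1 : 2 * (I + c * av) * P + 2 * c * X - 2 * c ^ 2 * Aa + c * G = 0)
    (e2 : U P = X + c * Aa) (e3 : U c = -I + c * av) : G ∈ mm V := by
  have h2 : (2 : Ω) ∈ OO V U := ofNat_mem _ 2
  obtain ⟨R, hR⟩ : ∃ R, R = 2 * av * P + 2 * X - 2 * c * Aa + G := ⟨_, rfl⟩
  have hR' : R ∈ OO V U := hR ▸ add_mem (sub_mem (add_mem (mul_mem (mul_mem h2 hav) hP)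
    (mul_mem h2 hX)) (mul_mem (mul_mem h2 hc') hA)) hG
  have e4 : 2 * I * P + c * R = 0 := by rw [hR]; linear_combination e1
  have hPm : P ∈ mm V := mm_cancel h0 hi (by
    rw [show 2 * I * P = -R * c by linear_combination e4]; exact mm_mul (neg_mem hR'.1) hc)
  have e5 := congrArg U e4
  simp only [map_add, Derivation.leibniz, smul_eq_mul, der_two, map_zero, e2, e3] at e5
  refine mm_cancel h0 hi ?_
  rw [show 2 * I * G = 2 * (2 * U I - 2 * I * av) * P + 2 * (2 * (2 * I * Aa) + av * R + U R) * c by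
    linear_combination 2 * I * -hR - 2 * e5]
  exact add_mem (mm_mul (mul_mem h2.1 (sub_mem (mul_mem h2.1 hI.2)
    (mul_mem (mul_mem h2.1 hI.1) hav.1))) hPm) (mm_mul (mul_mem h2.1 (add_mem (add_mem
      (mul_mem h2.1 (mul_mem (mul_mem h2.1 hI.1) hA.1)) (mul_mem hav.1 hR'.1)) hR'.2)) hc)

variable [Fintype ι] [CharZero Ω] {E : Submodule Ω (Der C Ω)} {m : Pt E ι} {l l' : Ln E ι}

/-- Sliding along the line. -/
lemma slide (h : On m l) (θ : Der C Ω) (hq : dv m.q θ = l.u) : ∃ U : Der C Ω, θ - U ∈ m.D ∧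
    Agr m.H U θ ∧ dv m.q U = l.u ∧ Kil l.S U ∧ U (m.q ⬝ᵥ l.u) = 1 := by
  obtain ⟨ζ, z1, z2⟩ := h.pen (unit_dot l.uu θ)
  have a1 : dv m.q (θ - ζ) = l.u := by rw [map_sub, hq, z1.2, sub_zero]
  have a2 : dv l.u (θ - ζ) = 0 := by rw [map_sub, z2, sub_self]
  have a3 : (θ - ζ) (m.q ⬝ᵥ l.u) = 1 := by rw [dv_dot, a1, a2, l.uu]; simp
  exact ⟨θ - ζ, by simpa using z1, fun f hf => by simp [m.kil_H z1 f hf], a1,
    l.kil_iff.2 ⟨a2, by rw [h.x_eq, dv_sub, dv_smul, a1, a2, a3]; simp⟩, a3⟩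

omit [CharZero Ω] in
lemma B_eq (h : On m l) (α β : ι → Ω) (θ : Der C Ω) : α ⬝ᵥ dv l.u θ + β ⬝ᵥ dv l.x θ =
    (α - (β ⬝ᵥ l.u) • l.x - (m.q ⬝ᵥ l.u) • (β - (β ⬝ᵥ l.u) • l.u)) ⬝ᵥ dv l.u θ +
      (β - (β ⬝ᵥ l.u) • l.u) ⬝ᵥ dv m.q θ := by
  have e := l.dx_dot θ
  rw [h.dq θ]
  simp only [sub_dotProduct, smul_dotProduct, dotProduct_add, dotProduct_smul, smul_eq_mul, l.uu,
    dotProduct_comm l.u (dv l.x θ)]
  linear_combination (β ⬝ᵥ l.u) * e

omit [CharZero Ω] in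
lemma dv_frame [DecidableEq ι] {Z : ι → Der C Ω}
    (hZ : ∀ j, dv m.q (Z j) = Pi.single j 1 - m.ν j • m.ν) (g : ι → Ω) :
    dv m.q (∑ j, g j • Z j) = g - (m.ν ⬝ᵥ g) • m.ν := by
  simp only [map_sum, map_smul, hZ, smul_sub, Finset.sum_sub_distrib, smul_smul, ← Finset.sum_smul]
  rw [dotProduct_comm]
  congr 1
  ext i
  simp [Pi.single_apply]

/-- The place and the equation for a normal derivation. -/
lemma star0 (hT : StmtTRV) [Fintype κ] (hE : Amb E) (h : Refl m l l') {ω : κ → Fm C Ω}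
    {lam : κ → Ω} {α β : ι → Ω} (w0 : ∀ k, ∀ Z ∈ E, ω k Z = 0)
    (wH : ∀ k θ, Pres m.H θ → ω k θ ∈ m.H) (hl : ∀ k, lam k ∈ cl C l'.S)
    (hα : ∀ j, α j ∈ cl C l'.S) (hβ : ∀ j, β j ∈ cl C l'.S)
    (hy : ∀ θ, Kil l.S θ → α ⬝ᵥ dv l'.u θ + β ⬝ᵥ dv l'.x θ = ∑ k, lam k * ω k θ)
    {t π : Ω} {w : ι → Ω} {j0 : ι} {Y : Der C Ω} (t0 : t ≠ 0) (hu : l'.u = t • (w + π • m.ν))
    (hw : m.ν ⬝ᵥ w = 0) (hj : w j0 = 1) (y1 : Y ∈ E) (y2 : dv m.q Y = w)
    (y3 : ∀ f ∈ m.H, Y f ∈ cl C ((m.H : Set Ω) ∪ range w)) (hI : dv m.ν Y ⬝ᵥ w ≠ 0) :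
    ∃ V : ValuationSubring Ω, (∀ f ∈ m.H, f ∈ V) ∧ ∀ δ, Pres m.H δ → dv m.q δ = m.ν →
      (∀ f ∈ cl C l'.S, f ∈ V) ∧ ∑ k, lam k * ω k δ ∈ mm V := by
  have hw' : w ⬝ᵥ m.ν = 0 := by rwa [dotProduct_comm]
  have ec : m.ν ⬝ᵥ l'.u = t * π := by rw [hu]; simp [hw, m.νν]
  have ev : l'.u - (m.ν ⬝ᵥ l'.u) • m.ν = t • w := by
    rw [ec, hu, smul_add, smul_smul, add_sub_cancel_right]
  have el : l.u = t • (w - π • m.ν) := by
    rw [h.symm.eq, ec, hu]; ext i; simp; ring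
  have e0 : t ^ 2 * (w ⬝ᵥ w + π ^ 2) = 1 := by
    rw [← l'.uu, hu]
    simp only [smul_dotProduct, dotProduct_smul, add_dotProduct, dotProduct_add, hw, hw', m.νν,
      smul_eq_mul]
    ring
  have d0 : ∀ θ : Der C Ω, dv w θ = 0 → θ t + t ^ 3 * π * θ π = 0 := fun θ hθ => by
    have := congrArg θ e0
    simp only [Derivation.leibniz, map_add, pow_two, dv_dot, hθ, smul_eq_mul,
      Derivation.map_one_eq_zero, zero_dotProduct, dotProduct_zero] at this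
    linear_combination (t / 2) * this - θ t * e0
  have ww : w ⬝ᵥ w ≠ 0 := fun hn => by
    have := eq_zero_of_par m.νν (v := m.ν) (g := w) (by simp [m.νν]) (fun e he => by
      obtain ⟨ζ, -, z2⟩ := h.on'.pen' hE he
      have := dv_dot (t • w) (t • w) ζ
      rw [← ev, z2, ev] at this
      simp only [smul_dotProduct, dotProduct_smul, hn, mul_zero, map_zero, smul_eq_mul,
        dotProduct_comm e w] at this
      exact (mul_eq_zero.1 (show t * (w ⬝ᵥ e) = 0 by linear_combination (-1 / 2 : Ω) * this)).resolve_left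
        t0) hw
    simp [this] at hj
  obtain ⟨F, hF⟩ : ∃ F, F = cl C ((m.H : Set Ω) ∪ range w) := ⟨_, rfl⟩
  have fH : ∀ f ∈ m.H, f ∈ F := fun f hf => hF ▸ subset_cl _ (Or.inl hf)
  have fw : ∀ j, w j ∈ F := fun j => hF ▸ subset_cl _ (Or.inr ⟨j, rfl⟩)
  have fν := fun j => fH _ (m.νH hE j)
  have fσ : ∀ j, dv m.ν Y j ∈ F := fun j => hF ▸ y3 _ (m.νH hE j)
  obtain ⟨V, v1, v2, v3⟩ := hT C Ω ((m.H : Set Ω) ∪ range w) π (by
    obtain ⟨ζ, z1, z2⟩ := h.on'.pen' hE (w := t • w) (by simp [hw])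
    rw [ev, dv_smul] at z2
    have a1 : ζ t = t := by
      have := congrFun z2 j0
      simpa [hj] using this
    have a2 : dv w ζ = 0 := by
      rw [a1, add_eq_left] at z2
      exact (smul_eq_zero.1 z2).resolve_left t0
    refine not_mem_cl ((m.kil_H z1).union (kil_range.2 a2)) fun hn => t0 ?_
    simpa [hn, a1] using d0 ζ a2)
  rw [← hF] at v1 v3 y3
  have πV : π ∈ V := mm_le v2
  have tV : t ∈ V := by
    by_contra hn
    have a1 : t⁻¹ ∈ mm V := by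
      change V.valuation t⁻¹ < 1
      rw [map_inv₀]
      exact inv_lt_one_of_one_lt₀ (not_le.1 fun hh => hn ((V.valuation_le_one_iff _).1 hh))
    refine one_not (mm_cancel ww (v1 _ (inv_mem (dot fw fw))) ?_)
    rw [show w ⬝ᵥ w * 1 = t⁻¹ * t⁻¹ - π * π by field_simp; linear_combination e0]
    exact sub_mem (mm_mul (mm_le a1) a1) (mm_mul πV v2)
  refine ⟨V, fun f hf => v1 f (fH f hf), fun δ p1 p2 => ?_⟩
  obtain ⟨U, -, u1, u2, u3, u4⟩ := slide h.on' (t • (Y + π • δ))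
    (by rw [map_smul, map_add, map_smul, y2, p2, hu])
  obtain ⟨U', s0, s1, s2, s3, -⟩ := slide h.on (t • (Y - π • δ))
    (by rw [map_smul, map_sub, map_smul, y2, p2, el])
  obtain ⟨σ, hσ⟩ : ∃ σ, σ = dv m.ν Y := ⟨_, rfl⟩
  obtain ⟨a, ha⟩ : ∃ a, a = dv m.ν δ := ⟨_, rfl⟩
  have σν : σ ⬝ᵥ m.ν = 0 := hσ ▸ unit_dot m.νν Y
  have aν : a ⬝ᵥ m.ν = 0 := ha ▸ unit_dot m.νν δ
  have fa : ∀ j, a j ∈ F := fun j => ha ▸ fH _ (p1 _ (m.νH hE j))
  have n1 : dv m.ν U = t • (σ + π • a) := by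
    rw [hσ, ha, ← map_smul, ← map_add, ← map_smul]; exact funext fun j => u1 _ (m.νH hE j)
  have n2 : dv m.ν U' = t • (σ - π • a) := by
    rw [hσ, ha, ← map_smul, ← map_sub, ← map_smul]; exact funext fun j => s1 _ (m.νH hE j)
  rw [← hσ] at fσ hI
  have ku := (l'.kil_iff.1 u3).1
  have uc : U (t * π) = t ^ 2 * (σ ⬝ᵥ w + π * (a ⬝ᵥ w)) := by
    rw [← ec, dv_dot, n1, ku, hu]
    simp only [smul_dotProduct, dotProduct_smul, add_dotProduct, dotProduct_add, σν, aν,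
      smul_eq_mul, dotProduct_zero]
    ring
  have ui : ∀ i, U t * w i + t * U (w i) +
      t ^ 2 * ((σ ⬝ᵥ w + π * (a ⬝ᵥ w)) * m.ν i + π * (σ i + π * a i)) = 0 := fun i => by
    have a1 : U (t * w i + t * π * m.ν i) = 0 := by
      rw [← show U (l'.u i) = 0 from congrFun ku i, hu]; simp [mul_add, mul_assoc]
    rw [map_add, U.leibniz, U.leibniz (t * π), uc, show U (m.ν i) = _ from congrFun n1 i] at a1
    simp only [smul_eq_mul, Pi.smul_apply, Pi.add_apply] at a1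
    linear_combination a1
  obtain ⟨p, hp⟩ : ∃ p, p = -((σ ⬝ᵥ w + π * (a ⬝ᵥ w)) * m.ν j0 + π * (σ j0 + π * a j0)) := ⟨_, rfl⟩
  have ut : U t = t ^ 2 * p := by
    have := ui j0
    rw [hj, Derivation.map_one_eq_zero] at this
    rw [hp]; linear_combination this
  have uπ : (t⁻¹ • U) π = σ ⬝ᵥ w + π * (a ⬝ᵥ w - p) := by
    rw [U.leibniz, ut] at uc
    simp only [Derivation.smul_apply, smul_eq_mul] at uc ⊢
    field_simp
    apply mul_left_cancel₀ t0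
    linear_combination uc
  have r1 : ∀ f ∈ F, f ∈ Algebra.adjoin F {π} := fun f hf =>
    Subalgebra.algebraMap_mem _ (⟨f, hf⟩ : F)
  have r2 : π ∈ Algebra.adjoin F {π} := Algebra.subset_adjoin rfl
  have r3 : ∀ i, (σ ⬝ᵥ w + π * (a ⬝ᵥ w)) * m.ν i + π * (σ i + π * a i) ∈ Algebra.adjoin F {π} :=
    fun i => add_mem (mul_mem (add_mem (r1 _ (dot fσ fw)) (mul_mem r2 (r1 _ (dot fa fw))))
      (r1 _ (fν i))) (mul_mem r2 (add_mem (r1 _ (fσ i)) (mul_mem r2 (r1 _ (fa i)))))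
  have r4 : p ∈ Algebra.adjoin F {π} := hp ▸ neg_mem (r3 j0)
  have r5 : a ⬝ᵥ w - p ∈ Algebra.adjoin F {π} := sub_mem (r1 _ (dot fa fw)) r4
  have r6 : ∀ s ∈ (m.H : Set Ω) ∪ range w, (t⁻¹ • U) s ∈ Algebra.adjoin F {π} := by
    rintro s (hs | ⟨i, rfl⟩)
    · rw [show (t⁻¹ • U) s = Y s + π * δ s by simp [u1 s hs, ← mul_add, t0]]
      exact add_mem (r1 _ (y3 s hs)) (mul_mem r2 (r1 _ (fH _ (p1 s hs))))
    · rw [show (t⁻¹ • U) (w i) =
          -(p * w i) - ((σ ⬝ᵥ w + π * (a ⬝ᵥ w)) * m.ν i + π * (σ i + π * a i)) by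
        have := ui i
        rw [ut] at this
        simp only [Derivation.smul_apply, smul_eq_mul]
        field_simp
        apply mul_left_cancel₀ t0
        linear_combination this]
      exact sub_mem (neg_mem (mul_mem r4 (r1 _ (fw i)))) (r3 i)
  have eU : ∀ s, U s = t * (t⁻¹ • U) s := fun s => by simp [t0]
  have kV : ∀ f ∈ cl C l'.S, f ∈ V := fun f hf => by
    refine v3 _ r6 ⟨_, dot fσ fw, hI, _, r5, uπ⟩ f (cl_le ?_ hf) (by simp [u3.cl f hf])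
    have a0 : ∀ f ∈ (m.H : Set Ω) ∪ range w, f ∈ cl C (insert π ((m.H : Set Ω) ∪ range w)) :=
      fun f hf => subset_cl _ (Or.inr hf)
    have a1 : ∀ j, l'.u j ∈ cl C (insert π ((m.H : Set Ω) ∪ range w)) := fun j => by
      rw [hu]
      refine mul_mem (H96.mem_cl_of_kil fun θ hθ => ?_) (add_mem (a0 _ (Or.inr ⟨j, rfl⟩))
        (mul_mem (subset_cl _ (Or.inl rfl)) (a0 _ (Or.inl (m.νH hE j)))))
      simpa [hθ π (Or.inl rfl)] using d0 θ (funext fun j => hθ _ (Or.inr (Or.inr ⟨j, rfl⟩)))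
    rintro _ (⟨j, rfl⟩ | ⟨j, rfl⟩)
    · exact a1 j
    · rw [h.on'.x_eq]
      exact sub_mem (a0 _ (Or.inl (m.qH j)))
        (mul_mem (dot (fun j => a0 _ (Or.inl (m.qH j))) a1) (a1 j))
  refine ⟨kV, ?_⟩
  have o1 : ∀ f ∈ F, f ∈ OO V U := fun f hf => ⟨v1 f hf, der_mem (F := F)
    { carrier := V
      add_mem' := add_mem
      zero_mem' := zero_mem _
      smul_mem' := fun c _ hx => mul_mem (v1 c c.2) hx } hF.ge
    (fun s hs => show U s ∈ V from eU s ▸ mul_mem tV (adj_le v1 πV (r6 s hs))) (hF ▸ hf)⟩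
  have o2 : ∀ f ∈ cl C l'.S, f ∈ OO V U := fun f hf => ⟨kV f hf, u3.cl f hf ▸ zero_mem _⟩
  have o3 : π ∈ OO V U := ⟨πV, by
    rw [eU, uπ]
    exact mul_mem tV (add_mem (v1 _ (dot fσ fw)) (mul_mem πV (adj_le v1 πV r5)))⟩
  have o4 : t ∈ OO V U := ⟨tV, ut ▸ mul_mem (pow_mem tV _) (adj_le v1 πV r4)⟩
  have cu : ∀ j, l'.u j ∈ cl C l'.S := fun j => subset_cl _ (l'.u_mem j)
  have cx : ∀ j, l'.x j ∈ cl C l'.S := fun j => subset_cl _ (l'.x_mem j)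
  have e := hy U' s3
  rw [B_eq h.on'] at e
  obtain ⟨b, hb⟩ : ∃ b, b = β - (β ⬝ᵥ l'.u) • l'.u := ⟨_, rfl⟩
  obtain ⟨g, hg⟩ : ∃ g, g = α - (β ⬝ᵥ l'.u) • l'.x := ⟨_, rfl⟩
  have cb : ∀ j, b j ∈ cl C l'.S := fun j => hb ▸ sub_mem (hβ j) (mul_mem (dot hβ cu) (cu j))
  have cg : ∀ j, g j ∈ cl C l'.S := fun j => hg ▸ sub_mem (hα j) (mul_mem (dot hβ cu) (cx j))
  have bu : b ⬝ᵥ l'.u = 0 := by rw [hb]; simp [l'.uu]
  rw [← hb, ← hg] at e
  obtain ⟨A, hA⟩ : ∃ A, A = g - (m.q ⬝ᵥ l'.u) • b := ⟨_, rfl⟩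
  have oA : ∀ j, A j ∈ OO V U := fun j => hA ▸ sub_mem (o2 _ (cg j))
    (mul_mem (dot (fun j => o1 _ (fH _ (m.qH j))) fun j => o2 _ (cu j)) (o2 _ (cb j)))
  have dA : dv A U = -b := by
    rw [hA, dv_sub, dv_smul, u4, show dv g U = 0 from funext fun j => u3.cl _ (cg j),
      show dv b U = 0 from funext fun j => u3.cl _ (cb j)]
    simp
  have eω : ∀ k, ω k U' = -(t * π) * ω k δ := fun k => by
    have := w0 k _ s0.1
    rw [map_sub, map_smul, map_sub, map_smul, w0 k Y y1] at this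
    simp only [smul_eq_mul] at this
    linear_combination -this
  rw [← hA, h.du, (l.kil_iff.1 s3).1, s2, n2, ← neg_neg (m.ν ⬝ᵥ l.u), ← h.c_eq, ec] at e
  rw [h.symm.eq, ec, dotProduct_sub b, bu, ← ec, ← h.symm.eq, el] at e
  have oν := fun j => o1 _ (fν j)
  refine core (U := U) (I := -(t ^ 2 * (σ ⬝ᵥ w))) (P := A ⬝ᵥ m.ν) (c := t * π) (av := t * (a ⬝ᵥ w))
    (Aa := A ⬝ᵥ a) (X := t * (A ⬝ᵥ σ) - b ⬝ᵥ m.ν) (neg_mem (mul_mem (pow_mem o4 _) (o1 _ (dot fσ fw))))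
    (by simp [t0, hI]) ?_ (dot oA oν) (mm_mul tV v2) (mul_mem o4 o3)
    (sum_mem fun k _ => mul_mem (o2 _ (hl k)) (o1 _ (fH _ (wH k δ p1))))
    (mul_mem o4 (o1 _ (dot fa fw))) (dot oA fun j => o1 _ (fa j))
    (sub_mem (mul_mem o4 (dot oA fun j => o1 _ (fσ j))) (dot (fun j => o2 _ (cb j)) oν)) ?_ ?_
    (by rw [uc]; ring)
  · rw [show (2 * -(t ^ 2 * (σ ⬝ᵥ w)))⁻¹ = (w ⬝ᵥ w + π ^ 2) * (-(2 * (σ ⬝ᵥ w)))⁻¹ by
      field_simp; linear_combination e0]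
    exact mul_mem (add_mem (v1 _ (dot fw fw)) (pow_mem πV _))
      (v1 _ (inv_mem (neg_mem (mul_mem (ofNat_mem _ 2) (dot fσ fw)))))
  · simp only [eω, smul_dotProduct, dotProduct_smul, sub_dotProduct, dotProduct_sub, σν, aν, ec,
      smul_eq_mul, dotProduct_zero, mul_left_comm (lam _), ← Finset.mul_sum] at e
    linear_combination e
  · rw [dv_dot, dA, n1]
    simp only [dotProduct_smul, dotProduct_add, neg_dotProduct, smul_eq_mul]
    ring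

end Pde

open Pde in
/-- The equation at one mirror. -/
theorem pde (hT : StmtTRV) : StmtPDE := by
  intro C Ω ι κ _ _ _ _ _ _ E m l l' S ω lam α β hE h hf hS hc hv hl hα hβ hy θ
  classical
  by_cases ht : m.Tr
  swap
  · simp [fun k => hv k θ (TanS.mono (m.tan_alg ht θ) hS.le)]
  obtain ⟨Z, z1, z2, z3, -, -⟩ := m.frame_H hE
  have sE : ∀ g : ι → Ω, ∑ j, g j • Z j ∈ E := fun g => sum_mem fun j _ => E.smul_mem _ (z1 j)
  obtain ⟨v, ev⟩ : ∃ v, v = l'.u - (m.ν ⬝ᵥ l'.u) • m.ν := ⟨_, rfl⟩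
  obtain ⟨j0, t0⟩ : ∃ j, v j ≠ 0 := by
    by_contra! hn
    exact h.on'.II_ne hE ht E.zero_mem (by rw [← ev, map_zero]; exact (funext hn).symm) (by simp)
  obtain ⟨w, hw⟩ : ∃ w, w = (v j0)⁻¹ • v := ⟨_, rfl⟩
  have wν : m.ν ⬝ᵥ w = 0 := by rw [hw, dotProduct_smul, ev]; simp [m.νν]
  have y2 : dv m.q (∑ j, w j • Z j) = w := by rw [dv_frame z2, wν]; simp
  have vw : v j0 • w = v := by rw [hw, smul_smul, mul_inv_cancel₀ t0, one_smul]
  have hI := h.on'.II_ne hE ht (E.smul_mem (v j0) (sE w)) (by rw [map_smul, y2, vw, ev])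
  rw [map_smul, map_smul, y2, smul_dotProduct, dotProduct_smul] at hI
  have w0 : ∀ k, ∀ Z ∈ E, ω k Z = 0 := fun k Z hZ => hv k Z (tanS_mem hZ)
  have hV : ∀ k, Van (ω k) S := fun k θ hθ => hv k θ (tanS_kil hθ)
  have wH : ∀ k θ, Pres m.H θ → ω k θ ∈ m.H := fun k θ hθ => by
    obtain ⟨n, a, b, h1, h2, h3⟩ := (hV k).coef hf (hc k)
    rw [h3]
    exact sum_mem fun i _ => mul_mem (m.cl_H.le (cl_mono hS.le (h1 i))) (hθ _ (hS.le (h2 i)))
  obtain ⟨V, v1, v2⟩ := star0 hT hE h w0 wH hl hα hβ hy (π := (v j0)⁻¹ * (m.ν ⬝ᵥ l'.u)) (j0 := j0) t0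
    (by rw [smul_add, vw, smul_smul, mul_inv_cancel_left₀ t0, ev, sub_add_cancel]) wν
    (by simp [hw, t0]) (sE w) y2 (fun f hf => by
      rw [H96.sum_apply]
      exact sum_mem fun j _ => mul_mem (subset_cl _ (Or.inr ⟨j, rfl⟩))
        (subset_cl _ (Or.inl (z3 j f hf)))) fun e => hI (by rw [e, smul_zero, smul_zero])
  obtain ⟨δ, d1, -, d2⟩ := ext_pres m.cl_H ⊥ bot_le (indep_bot ht) m.qH (θ := 0)
    (fun _ _ => zero_mem _) (m.νH hE)
  have d3 : dv m.q δ = m.ν := funext d2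
  obtain ⟨kV, k0⟩ := v2 δ d1 d3
  have k1 : ∀ φ, Pres m.H φ → ∑ k, lam k * ω k φ ∈ mm V := fun φ hφ => by
    have c1 : m.ν ⬝ᵥ dv m.q φ ∈ m.H := dot_mem (m.νH hE) fun j => hφ _ (m.qH j)
    have := (v2 (δ + (φ - ∑ j, dv m.q φ j • Z j - (m.ν ⬝ᵥ dv m.q φ) • δ)) (fun f hf => by
      rw [Derivation.add_apply, Derivation.sub_apply, Derivation.sub_apply, H96.sum_apply]
      exact add_mem (d1 f hf) (sub_mem (sub_mem (hφ f hf) (sum_mem fun j _ =>
        mul_mem (hφ _ (m.qH j)) (z3 j f hf))) (mul_mem c1 (d1 f hf))))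
      (by rw [map_add, map_sub, map_sub, map_smul, dv_frame z2, d3]; simp)).2
    simp only [map_add, map_sub, map_smul, w0 _ _ (sE _), sub_zero, mul_add, mul_sub, smul_eq_mul,
      Finset.sum_add_distrib, Finset.sum_sub_distrib, mul_left_comm (lam _), ← Finset.mul_sum] at this
    simpa using add_mem (sub_mem this k0) (mm_mul (v1 _ c1) k0)
  obtain ⟨r, hr⟩ := (Algebra.linearMap m.H Ω).exists_leftInverse_of_injective
    (LinearMap.ker_eq_bot.2 (algebraMap m.H Ω).injective)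
  obtain ⟨n, b, e, -, -, e1, -, e2⟩ := exists_dual m.cl_H ⊥ bot_le hf hS.le
  refine (Submodule.span_le (p := LinearMap.ker (dotProductBilin Ω Ω lam))).2 (fun y hy => ?_)
    (span_const (Δ := (E : Set (Der C Ω))) (W := LinearMap.range (LinearMap.pi ω)) ?_ ⟨θ, rfl⟩)
  · obtain ⟨⟨φ, rfl⟩, c⟩ := hy
    have c0 : ∀ k, ω k φ ∈ (⊥ : IntermediateField C Ω) := fun k => hE.const _ (mem_KrS.1 (c k))
    have a1 : ∀ k, ω k (∑ i, (r (φ (b i)) : Ω) • e i) = ω k φ := fun k => by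
      have a2 : ω k φ = ∑ i, (⟨_, wH k _ (e1 i).1⟩ : m.H) • φ (b i) := by
        rw [(hV k).agr ((e2 φ (by rintro _ ⟨c, rfl⟩; exact φ.map_algebraMap c)).mono
          (subset_union_right.trans (subset_cl _))), map_sum]
        exact Finset.sum_congr rfl fun i _ => by rw [map_smul, smul_eq_mul, mul_comm]; rfl
      have a3 := congrArg Subtype.val (LinearMap.congr_fun hr ⟨_, bot_le (a := m.H) (c0 k)⟩)
      rw [← show (r (ω k φ) : Ω) = ω k φ from a3, a2]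
      simp [mul_comm]
    have a4 := k1 (∑ i, (r (φ (b i)) : Ω) • e i) fun f hf => by
      rw [H96.sum_apply]; exact sum_mem fun i _ => mul_mem (r _).2 ((e1 i).1 f hf)
    simp only [a1] at a4
    by_contra hn
    exact one_not (mm_cancel hn (kV _ (inv_mem (sum_mem fun k _ =>
      mul_mem (hl k) (bot_le (a := cl C l'.S) (c0 k))))) (by rw [mul_one]; exact a4))
  · rintro X hX _ ⟨φ, rfl⟩
    refine ⟨⁅X, φ⁆, funext fun k => ?_⟩
    have := hc k X φ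
    rw [dd, w0 k X hX, map_zero, sub_zero, sub_eq_zero] at this
    exact this.symm

end Pool.Agent.MP_249f74_an.H90
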