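import Pool.Agent.MP_249f74_an.H90.Spec

/-!
The pole at tangent rays.
-/

open Set IntermediateField

namespace Pool.Agent.MP_249f74_an.H90

open H17 (Der cl_le cl_mono)
open H88 (cl subset_cl)
open H96 (Kil Fm dd Cls Van br_apply mem_cl_of_kil)

namespace Pol

variable {C Ω ι κ : Type} [Field C] [Field Ω] [CharZero Ω] [Algebra C Ω] [Fintype ι] [Fintype κ]
  {S : Set Ω} {q n : ι → Ω} {ν : κ → Fm C Ω}

omit [CharZero Ω] in
lemma zero_of_perp (hn : n ⬝ᵥ n = 1) {g : ι → Ω} (h : ∀ w, n ⬝ᵥ w = 0 → g ⬝ᵥ w = 0)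
    (h' : n ⬝ᵥ g = 0) : g = 0 := eq_zero_of_par hn (v := n) (by simp [hn]) h h'

/-- The differential of an element of the field of the family. -/
lemma grad (hF : Fam S q n ν) {h : Ω} (hh : h ∈ cl C S) : ∃ (a : κ → Ω) (g : ι → Ω),
    (∀ k, a k ∈ cl C S) ∧ (∀ j, g j ∈ cl C S) ∧ n ⬝ᵥ g = 0 ∧
      ∀ θ : Der C Ω, θ h = (a ⬝ᵥ fun k => ν k θ) + g ⬝ᵥ dv q θ := by
  classical
  choose e he using fun k => hF.ind (Pi.single k 1)
  choose Z z1 z2 using fun j => hF.surj (Pi.single j 1 - n j • n) (by simp [hF.nn])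
  have hz : ∀ w : ι → Ω, dv q (∑ j, w j • Z j) = w - (n ⬝ᵥ w) • n := fun w => by
    simp only [map_sum, map_smul, z2, smul_sub, Finset.sum_sub_distrib, smul_smul,
      ← Finset.sum_smul]
    rw [dotProduct_comm]
    congr 1
    ext i
    simp [Pi.single_apply]
  have k0 : ∀ θ : Der C Ω, (∀ k, ν k θ = 0) → θ h = (fun j => Z j h) ⬝ᵥ dv q θ := fun θ hθ => by
    have := (hF.kil (θ - ∑ j, dv q θ j • Z j) (fun k => by simp [hθ, z1])
      (by rw [map_sub, hz, hF.tan θ hθ]; simp)).cl h hh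
    rw [Derivation.sub_apply, sub_eq_zero, H96.sum_apply] at this
    rw [this, dotProduct_comm]
    rfl
  have k1 : n ⬝ᵥ (fun j => Z j h) = 0 := by
    have := (hF.kil (∑ j, n j • Z j) (fun k => by simp [z1]) (by rw [hz, hF.nn]; simp)).cl h hh
    rw [H96.sum_apply] at this
    exact this
  generalize (fun j => Z j h) = g at k0 k1
  obtain ⟨a, ha⟩ : ∃ a : κ → Ω, ∀ θ : Der C Ω, θ h = (a ⬝ᵥ fun k => ν k θ) + g ⬝ᵥ dv q θ := by
    refine ⟨fun k => e k h - g ⬝ᵥ dv q (e k), fun θ => ?_⟩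
    have := k0 (θ - ∑ k, ν k θ • e k) fun k => by simp [he, Pi.single_apply]
    simp only [Derivation.sub_apply, H96.sum_apply, map_sub, map_sum, map_smul, dotProduct_sub,
      dotProduct_sum, dotProduct_smul, Derivation.smul_apply, smul_eq_mul] at this
    rw [show ((fun k => e k h - g ⬝ᵥ dv q (e k)) ⬝ᵥ fun k => ν k θ) =
      ∑ k, ν k θ * e k h - ∑ k, ν k θ * (g ⬝ᵥ dv q (e k)) by
        rw [← Finset.sum_sub_distrib]
        exact Finset.sum_congr rfl fun _ _ => by ring]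
    linear_combination this
  have key : ∀ φ : Der C Ω, Kil S φ → dv a φ = 0 ∧ dv g φ = 0 := fun φ hφ => by
    have hq : dv q φ = 0 := funext fun j => hφ _ (hF.hq j)
    have hn : dv n φ = 0 := funext fun j => hφ _ (hF.hn j)
    have r : ∀ θ, (dv a φ ⬝ᵥ fun k => ν k θ) + dv g φ ⬝ᵥ dv q θ = 0 := fun θ => by
      have e1 := ha ⁅φ, θ⁆
      have e2 : (fun k => ν k ⁅φ, θ⁆) = dv (fun k => ν k θ) φ := funext fun k => by
        have := hF.cls k φ θ
        rw [dd, hF.van k φ hφ, map_zero, sub_zero, sub_eq_zero] at this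
        exact this.symm
      rw [br_apply, hφ.cl h hh, map_zero, sub_zero, ha θ, map_add, dv_dot, dv_dot, e2, dv_br, hq,
        dv_zero, sub_zero] at e1
      linear_combination e1
    have g0 : dv g φ = 0 := zero_of_perp hF.nn (fun w hw => by
      obtain ⟨θ, h1, rfl⟩ := hF.surj w hw
      simpa [h1, dotProduct] using r θ) (by simpa [k1, hn] using (dv_dot n g φ).symm)
    refine ⟨funext fun k => ?_, g0⟩
    have := r (e k)
    rwa [g0, zero_dotProduct, add_zero, show (fun j => ν j (e k)) = Pi.single k 1 from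
      funext (he k), dotProduct_single, mul_one] at this
  exact ⟨a, g, fun k => mem_cl_of_kil fun φ hφ => congrFun (key φ hφ).1 k,
    fun j => mem_cl_of_kil fun φ hφ => congrFun (key φ hφ).2 j, k1, ha⟩

lemma nk (hF : Fam S q n ν) : ∃ N : κ → Ω, (∀ k, N k ∈ cl C S) ∧
    ∀ θ : Der C Ω, n ⬝ᵥ dv q θ = N ⬝ᵥ fun k => ν k θ := by
  choose a g h1 h2 h3 h4 using fun j => grad hF (subset_cl _ (hF.hq j))
  have e : ∀ θ : Der C Ω, n ⬝ᵥ dv q θ = ((∑ j, n j • a j) ⬝ᵥ fun k => ν k θ) +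
      (∑ j, n j • g j) ⬝ᵥ dv q θ := fun θ => by
    simp only [sum_dotProduct, smul_dotProduct, smul_eq_mul, ← Finset.sum_add_distrib, ← mul_add,
      ← h4]
    rfl
  have g0 : ∑ j, n j • g j = 0 := zero_of_perp hF.nn (fun w hw => by
    obtain ⟨θ, t1, rfl⟩ := hF.surj w hw
    have := e θ
    rw [hw, show (fun k => ν k θ) = 0 from funext t1, dotProduct_zero, zero_add] at this
    exact this.symm) (by simp [dotProduct_sum, h3])
  refine ⟨_, fun k => ?_, fun θ => by rw [e, g0, zero_dotProduct, add_zero]⟩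
  rw [Finset.sum_apply]
  exact sum_mem fun j _ => mul_mem (subset_cl _ (hF.hn j)) (h1 j k)

omit [CharZero Ω] [Fintype κ] in
lemma symm (hF : Fam S q n ν) {θ φ : Der C Ω} (h : ∀ k, ν k θ = 0) (h' : ∀ k, ν k φ = 0) :
    dv n θ ⬝ᵥ dv q φ = dv n φ ⬝ᵥ dv q θ := by
  have a1 := dv_dot n (dv q φ) θ
  have a2 := dv_dot n (dv q θ) φ
  have a3 := hF.tan ⁅θ, φ⁆ fun k => by simpa [dd, h, h'] using hF.cls k θ φ
  rw [hF.tan _ h', map_zero] at a1
  rw [hF.tan _ h, map_zero] at a2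
  rw [dv_br, dotProduct_sub] at a3
  linear_combination a2 - a1 - a3

/-- The second fundamental form does not vanish at a generic tangent vector. -/
lemma II_ne (hF : Fam S q n ν) {B : ι → ι → Ω} (hB : ∀ j i, B j i ∈ cl C S)
    (hn : ∀ θ : Der C Ω, (∀ k, ν k θ = 0) → ∀ j, θ (n j) = B j ⬝ᵥ dv q θ) {U : ι → Ω}
    (hU : ∀ w, n ⬝ᵥ w = 0 → ∃ θ : Der C Ω, Kil S θ ∧ dv U θ = w) :
    (fun j => B j ⬝ᵥ U) ⬝ᵥ U ≠ 0 := by
  classical
  intro h0
  have d1 : ∀ (θ : Der C Ω) (v : ι → Ω), Kil S θ →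
      dv (fun j => B j ⬝ᵥ v) θ = fun j => B j ⬝ᵥ dv v θ := fun θ v hθ => funext fun j => by
    rw [dv_apply, dv_dot, show dv (B j) θ = 0 from funext fun i => hθ.cl _ (hB j i),
      zero_dotProduct, zero_add]
  have sy : ∀ w w', n ⬝ᵥ w = 0 → n ⬝ᵥ w' = 0 →
      (fun j => B j ⬝ᵥ w) ⬝ᵥ w' = (fun j => B j ⬝ᵥ w') ⬝ᵥ w := fun w w' hw hw' => by
    obtain ⟨θ, t1, rfl⟩ := hF.surj w hw
    obtain ⟨φ, t2, rfl⟩ := hF.surj w' hw'
    rw [← funext (hn θ t1), ← funext (hn φ t2)]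
    exact symm hF t1 t2
  have p1 : ∀ w, n ⬝ᵥ w = 0 → (fun j => B j ⬝ᵥ w) ⬝ᵥ U + (fun j => B j ⬝ᵥ U) ⬝ᵥ w = 0 :=
    fun w hw => by
      obtain ⟨θ, t1, rfl⟩ := hU w hw
      rw [← d1 θ U t1, ← dv_dot, h0, map_zero]
  have p2 : ∀ (i : ι) w, n ⬝ᵥ w = 0 →
      (fun j => B j ⬝ᵥ w) ⬝ᵥ (Pi.single i 1 - n i • n) = 0 := fun i w hw => by
    obtain ⟨θ, t1, rfl⟩ := hU w hw
    have e0 : n ⬝ᵥ (Pi.single i 1 - n i • n) = 0 := by simp [hF.nn]
    have e1 : dv (Pi.single i 1 - n i • n) θ = 0 := by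
      rw [dv_sub, dv_single, dv_smul, t1 _ (hF.hn i),
        show dv n θ = 0 from funext fun j => t1 _ (hF.hn j)]
      simp
    have := congrArg θ (p1 _ e0)
    rw [map_add, dv_dot, dv_dot, d1 θ _ t1, d1 θ _ t1, e1, map_zero, sy _ _ e0 hw] at this
    simp only [dotProduct_zero, add_zero] at this
    rw [show (fun _ : ι => (0 : Ω)) ⬝ᵥ U = 0 from zero_dotProduct U] at this
    linear_combination (1 / 2 : Ω) * this
  have n0 : ∀ θ : Der C Ω, (∀ k, ν k θ = 0) → dv n θ = 0 := fun θ hθ => funext fun i => by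
    have := p2 i _ (hF.tan θ hθ)
    rw [← funext (hn θ hθ), dotProduct_sub, dotProduct_single, dotProduct_smul,
      show (fun j => θ (n j)) ⬝ᵥ n = 0 from unit_dot hF.nn θ] at this
    simpa using this
  have bot : ∀ f ∈ (⊥ : IntermediateField C Ω), ∀ θ : Der C Ω, θ f = 0 := by
    rintro _ ⟨c, rfl⟩ θ
    exact θ.map_algebraMap c
  obtain ⟨θ, hθ⟩ := hF.tr
  have := bot _ (hF.const _ (dot_mem (fun j => subset_cl _ (hF.hn j)) fun j =>
    subset_cl _ (hF.hq j)) fun φ hφ => by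
      rw [dv_dot, n0 φ hφ, hF.tan φ hφ, zero_dotProduct, add_zero]) θ
  rw [dv_dot, show dv n θ = 0 from funext fun j => bot _ (hF.const _ (subset_cl _ (hF.hn j))
    fun φ hφ => congrFun (n0 φ hφ) j) θ, zero_dotProduct, zero_add] at this
  exact hθ this

end Pol

open Pol in
theorem pol : StmtTRV → StmtPOL := by
  intro hT C Ω ι κ _ _ _ _ _ _ _ S R T q n u x ν k s t h δ hF hu hg uR xR hs hR hδ hν hn hq hTs hTδ
    hh hsp
  have mS : ∀ {f}, f ∈ cl C S → f ∈ cl C (S ∪ R) := fun hf => cl_mono subset_union_left hf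
  have mR : ∀ {f}, f ∈ cl C R → f ∈ cl C (S ∪ R) := fun hf => cl_mono subset_union_right hf
  have nF : ∀ j, n j ∈ cl C (S ∪ R) := fun j => subset_cl _ (.inl (hF.hn j))
  have qF : ∀ j, q j ∈ cl C (S ∪ R) := fun j => subset_cl _ (.inl (hF.hq j))
  have uF : ∀ j, u j ∈ cl C (S ∪ R) := fun j => mR (uR j)
  have nu := dot_mem nF uF
  obtain ⟨s0, hs0⟩ : ∃ s0, s0 = n ⬝ᵥ (q - x) / n ⬝ᵥ u := ⟨_, rfl⟩
  have s0F : s0 ∈ cl C (S ∪ R) :=
    hs0 ▸ div_mem (dot_mem nF fun j => sub_mem (qF j) (mR (xR j))) nu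
  obtain ⟨π, rfl⟩ : ∃ π, s = π + s0 := ⟨s - s0, by ring⟩
  obtain ⟨U, hU⟩ : ∃ U, U = x + s0 • u - q := ⟨_, rfl⟩
  have UF : ∀ j, U j ∈ cl C (S ∪ R) := fun j =>
    hU ▸ sub_mem (add_mem (mR (xR j)) (mul_mem s0F (uF j))) (qF j)
  have nU : n ⬝ᵥ U = 0 := by
    rw [hU, hs0, dotProduct_sub, dotProduct_add, dotProduct_smul, dotProduct_sub, smul_eq_mul,
      div_mul_cancel₀ _ hu]
    ring
  have mv : ∀ w, n ⬝ᵥ w = 0 → ∃ θ : Der C Ω, Kil S θ ∧ dv U θ = w := fun w hw => by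
    obtain ⟨θ, t1, t2, c, t3⟩ := hg w
    have e : dv U θ = w + (c + θ s0) • u := by
      rw [hU, dv_sub, dv_add, dv_smul, t2, t3, show dv q θ = 0 from
        funext fun j => t1 _ (hF.hq j), add_smul]
      simp [add_assoc]
    have := dv_dot n U θ
    rw [nU, map_zero, show dv n θ = 0 from funext fun j => t1 _ (hF.hn j), zero_dotProduct,
      zero_add, e, dotProduct_add, hw, zero_add, dotProduct_smul, smul_eq_mul, eq_comm,
      mul_eq_zero, or_iff_left hu] at this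
    exact ⟨θ, t1, by rw [e, this, zero_smul, add_zero]⟩
  rw [show x + (π + s0) • u - q = U + π • u by rw [hU, add_smul]; abel] at hq
  have hk : ∀ a : κ → Ω, (a ⬝ᵥ fun j => ν j δ) = a k := fun a => by simp [hν, dotProduct]
  obtain ⟨N, N1, N2⟩ := nk hF
  have nd : n ⬝ᵥ dv q δ ∈ cl C (S ∪ R) := by rw [N2, hk]; exact mS (N1 k)
  have ec : n ⬝ᵥ dv q δ = π * t * n ⬝ᵥ u := by
    rw [hq, dotProduct_smul, dotProduct_add, nU, dotProduct_smul, smul_eq_mul, smul_eq_mul]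
    ring
  have cF : π * t ∈ cl C (S ∪ R) := by
    rw [← mul_div_cancel_right₀ (π * t) hu, ← ec]
    exact div_mem nd nu
  have c0 : π * t ≠ 0 := fun e => hn (by rw [ec, e, zero_mul])
  have ev : ∀ {f : Ω} {a : κ → Ω} {g : ι → Ω},
      (∀ θ : Der C Ω, θ f = (a ⬝ᵥ fun k => ν k θ) + g ⬝ᵥ dv q θ) →
      π * δ f = π * t * g ⬝ᵥ U + π * (a k + π * t * g ⬝ᵥ u) := fun {f a g} e => by
    rw [e, hk, hq, dotProduct_smul, dotProduct_add, dotProduct_smul, smul_eq_mul, smul_eq_mul]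
    ring
  have am : ∀ {f}, f ∈ cl C (S ∪ R) → f ∈ Algebra.adjoin (cl C (S ∪ R)) {π} := fun {f} hf =>
    Subalgebra.algebraMap_mem _ (⟨f, hf⟩ : cl C (S ∪ R))
  obtain ⟨V, v1, v2, v3⟩ := hT C Ω (S ∪ R) π fun e => hs (add_mem e s0F)
  choose A B a1 b1 _ ab using fun j => grad hF (subset_cl _ (hF.hn j))
  have BF : ∀ {w : ι → Ω}, (∀ j, w j ∈ cl C (S ∪ R)) →
      (fun j => B j ⬝ᵥ w) ⬝ᵥ U ∈ cl C (S ∪ R) := fun hw =>
    dot_mem (fun j => dot_mem (fun i => mS (b1 j i)) hw) UF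
  have TV : ∀ f ∈ T, f ∈ V := fun f hf => by
    refine v3 (π • δ) ?_ ⟨π * t * ((fun j => B j ⬝ᵥ U) ⬝ᵥ U) / n ⬝ᵥ u,
      div_mem (mul_mem cF (BF UF)) nu, div_ne_zero (mul_ne_zero c0 (II_ne hF b1
        (fun θ hθ j => by simp [ab j θ, hθ, dotProduct]) mv)) hu,
      (((fun j => A j k) ⬝ᵥ U + π * t * ((fun j => B j ⬝ᵥ u) ⬝ᵥ U)) - n ⬝ᵥ dv q δ) / n ⬝ᵥ u,
      am (div_mem (sub_mem (add_mem (dot_mem (fun j => mS (a1 j k)) UF) (mul_mem cF (BF uF))) nd)
        nu), ?_⟩ f (cl_le ?_ (hTs hf)) (by simp [hTδ f hf])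
    · rintro r (hr | hr)
      · obtain ⟨a, g, g1, g2, -, g3⟩ := grad hF (subset_cl _ hr)
        have gF := fun j => mS (g2 j)
        rw [Derivation.smul_apply, smul_eq_mul, ev g3]
        exact add_mem (am (mul_mem cF (dot_mem gF UF))) (mul_mem (Algebra.subset_adjoin rfl)
          (am (add_mem (mS (g1 k)) (mul_mem cF (dot_mem gF uF)))))
      · simp [hR r hr]
    · have e1 := dv_dot n U δ
      have e2 : π * (dv n δ ⬝ᵥ U) = π * t * ((fun j => B j ⬝ᵥ U) ⬝ᵥ U) +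
          π * ((fun j => A j k) ⬝ᵥ U + π * t * ((fun j => B j ⬝ᵥ u) ⬝ᵥ U)) := by
        rw [← smul_eq_mul, ← smul_dotProduct, show π • dv n δ = (π * t) • (fun j => B j ⬝ᵥ U) +
          π • ((fun j => A j k) + (π * t) • fun j => B j ⬝ᵥ u) from funext fun j => ev (ab j)]
        simp only [add_dotProduct, smul_dotProduct, smul_eq_mul]
      have e3 : dv U δ = δ s0 • u - dv q δ := by
        rw [hU, dv_sub, dv_add, dv_smul, show dv x δ = 0 from funext fun j => hR.cl _ (xR j),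
          show dv u δ = 0 from funext fun j => hR.cl _ (uR j)]
        simp
      rw [nU, map_zero, e3, dotProduct_sub, dotProduct_smul, smul_eq_mul] at e1
      rw [map_add] at hδ
      rw [Derivation.smul_apply, smul_eq_mul, ← mul_div_assoc, ← add_div, eq_div_iff hu]
      linear_combination e2 + π * e1 + π * (n ⬝ᵥ u) * hδ
    · refine insert_subset (add_mem (subset_cl _ (mem_insert _ _))
        (cl_mono (subset_insert _ _) s0F)) ((subset_insert _ _).trans (subset_cl _))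
  have hV : δ h ∈ V := by
    refine Submodule.span_induction (p := fun f _ => f ∈ V) TV (zero_mem _)
      (fun _ _ _ _ => add_mem) (fun a f _ hf => mul_mem (v1 _ a.2) hf) hsp
  obtain ⟨a, g, g1, g2, g3, g4⟩ := grad hF hh
  have gF := fun j => mS (g2 j)
  have gU : g ⬝ᵥ U = 0 := by
    by_contra hne
    have y0 := mul_ne_zero c0 hne
    have y1 : (π * t * g ⬝ᵥ U)⁻¹ * (δ h - (a k + π * t * g ⬝ᵥ u)) ∈ V :=
      mul_mem (v1 _ (inv_mem (mul_mem cF (dot_mem gF UF))))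
        (sub_mem hV (v1 _ (add_mem (mS (g1 k)) (mul_mem cF (dot_mem gF uF)))))
    have y2 : π * ((π * t * g ⬝ᵥ U)⁻¹ * (δ h - (a k + π * t * g ⬝ᵥ u))) = 1 := by
      rw [mul_left_comm, mul_sub, ev g4, add_sub_cancel_right, inv_mul_cancel₀ y0]
    have y3 := congrArg V.valuation y2
    rw [map_mul, map_one] at y3
    exact (mul_lt_one_of_lt_of_le v2 ((V.valuation_le_one_iff _).2 y1)).ne y3
  have g0 : g = 0 := zero_of_perp hF.nn (fun w hw => by
    obtain ⟨θ, t1, rfl⟩ := mv w hw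
    have := dv_dot g U θ
    rw [gU, map_zero, show dv g θ = 0 from funext fun j => t1.cl _ (g2 j), zero_dotProduct,
      zero_add] at this
    exact this.symm) g3
  exact hF.const h hh fun θ hθ => by simp [g4 θ, g0, hθ, dotProduct]

end Pool.Agent.MP_249f74_an.H90
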