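import Pool.Agent.MP_249f74_an.H2.Red
import Pool.Agent.MP_249f74_an.H2.PvTrv
import Pool.Agent.MP_249f74_an.H90.Alg
import Pool.Agent.MP_249f74_an.H90.Bas
import Pool.Agent.MP_249f74_an.H90.Clo
import Pool.Agent.MP_249f74_an.H90.Dbl
import Pool.Agent.MP_249f74_an.H90.Free
import Pool.Agent.MP_249f74_an.H90.Frm
import Pool.Agent.MP_249f74_an.H90.Ind
import Pool.Agent.MP_249f74_an.H90.Nf2
import Pool.Agent.MP_249f74_an.H90.Norm
import Pool.Agent.MP_249f74_an.H90.Os
import Pool.Agent.MP_249f74_an.H90.Pb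
import Pool.Agent.MP_249f74_an.H90.Pde
import Pool.Agent.MP_249f74_an.H90.Pol

/-!
Transcendental mirrors cancel in every dimension: reduction to closed chains of algebraic mirrors.
-/

namespace Pool.Agent.MP_249f74_an.H90

theorem decAll : StmtD :=
  dec step bas (frm H2.pv) (nf2 clo dbl (pb kap (pde H2.trvS)) (os (pol H2.trvS)))

theorem reduce (p : Prp) (hp : p.Ok) (hA : StmtA p) : StmtQ p :=
  norm p hp (cyc p hp H2.red decAll hA)

theorem qnc : StmtQ NC := reduce NC nc_ok alg

end Pool.Agent.MP_249f74_an.H90
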