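import Pool.Agent.MP_249f74_an.H90.Spec

/-!
Polynomials tangent to infinite order: descent to the constants and irreducible factors.
-/

open MvPolynomial

namespace Pool.Agent.MP_249f74_an.H90

open H17 (toDer toDer_apply)

namespace Lnk

variable {d : ℕ}

variable (d) in
/-- Smooth functions. -/
def Sm : Subalgebra ℝ (EuclideanSpace ℝ (Fin d) → ℝ) where
  carrier := {g | ContDiff ℝ ((⊤ : ℕ∞) : WithTop ℕ∞) g}
  mul_mem' := fun ha hb => Set.mem_ofPred.2 ((Set.mem_ofPred.1 ha).mul (Set.mem_ofPred.1 hb))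
  add_mem' := fun ha hb => Set.mem_ofPred.2 ((Set.mem_ofPred.1 ha).add (Set.mem_ofPred.1 hb))
  algebraMap_mem' := fun c => Set.mem_ofPred.2 (contDiff_const (c := c))

variable {f : EuclideanSpace ℝ (Fin d) → ℝ} {x : EuclideanSpace ℝ (Fin d)}

lemma mem_Sm : f ∈ Sm d ↔ ContDiff ℝ ((⊤ : ℕ∞) : WithTop ℕ∞) f := Iff.rfl

lemma fd (hf : f ∈ Sm d) : ContDiff ℝ ((⊤ : ℕ∞) : WithTop ℕ∞) (fderiv ℝ f) :=
  (mem_Sm.1 hf).fderiv_right (by simp)

lemma grad (hf : f ∈ Sm d) (j : Fin d) :
    ContDiff ℝ ((⊤ : ℕ∞) : WithTop ℕ∞) fun x => gradient f x j := by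
  have e : (fun x => gradient f x j) = fun x => fderiv ℝ f x (EuclideanSpace.single j 1) := by
    ext x
    have := InnerProductSpace.toDual_symm_apply (𝕜 := ℝ) (x := EuclideanSpace.single j (1 : ℝ))
      (y := fderiv ℝ f x)
    rw [EuclideanSpace.inner_single_right] at this
    simpa [gradient] using this
  rw [e]
  exact (fd hf).clm_apply contDiff_const

lemma single_smooth (hf : f ∈ Sm d) (i j : Fin d) : ContDiff ℝ ((⊤ : ℕ∞) : WithTop ℕ∞)
    fun x => EuclideanSpace.single i (gradient f x j) :=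
  contDiff_euclidean.2 fun l => by
    by_cases h : l = i
    · simpa [h] using grad hf j
    · simpa [h] using contDiff_const

lemma tg_mem (hf : f ∈ Sm d) (a : Fin d × Fin d) {g : EuclideanSpace ℝ (Fin d) → ℝ}
    (hg : g ∈ Sm d) : tg f a g ∈ Sm d :=
  mem_Sm.2 ((fd hg).clm_apply ((single_smooth hf _ _).sub (single_smooth hf _ _)))

lemma diff (g : Sm d) (x : EuclideanSpace ℝ (Fin d)) : DifferentiableAt ℝ g.1 x :=
  ((mem_Sm.1 g.2).differentiable (by simp)) x

/-- Directional derivatives at a point. -/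
noncomputable def dir (x w : EuclideanSpace ℝ (Fin d)) : Sm d →ₗ[ℝ] ℝ where
  toFun g := fderiv ℝ g.1 x w
  map_add' a b := by simp [fderiv_add (diff a x) (diff b x)]
  map_smul' c a := by simp [fderiv_const_smul (diff a x)]

/-- Evaluation at a point. -/
def val (x : EuclideanSpace ℝ (Fin d)) : Sm d →ₐ[ℝ] ℝ := (Pi.evalAlgHom ℝ _ x).comp (Sm d).val

/-- The derivative along the level sets. -/
noncomputable def der (hf : f ∈ Sm d) (a : Fin d × Fin d) : Derivation ℝ (Sm d) (Sm d) :=
  Derivation.mk'
    { toFun := fun g => ⟨tg f a g, tg_mem hf a g.2⟩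
      map_add' := fun g h => Subtype.ext (funext fun x => (dir x _).map_add g h)
      map_smul' := fun c g => Subtype.ext (funext fun x => (dir x _).map_smul c g) }
    fun g h => Subtype.ext (funext fun x => by
      simp [tg, fderiv_mul (diff g x) (diff h x), -map_sub])

/-- Iterated derivatives. -/
noncomputable def ders (hf : f ∈ Sm d) (L : List (Fin d × Fin d)) : Sm d →ₗ[ℝ] Sm d :=
  L.foldr (fun a T => (der hf a).toLinearMap ∘ₗ T) LinearMap.id

lemma ders_coe (hf : f ∈ Sm d) (L : List (Fin d × Fin d)) (g : Sm d) :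
    (ders hf L g).1 = L.foldr (tg f) g.1 := by
  induction L with
  | nil => rfl
  | cons a L ih => rw [List.foldr_cons, ← ih]; rfl

lemma ders_snoc (hf : f ∈ Sm d) (L : List (Fin d × Fin d)) (a : Fin d × Fin d) (g : Sm d) :
    ders hf (L ++ [a]) g = ders hf L (der hf a g) :=
  Subtype.ext (by rw [ders_coe, ders_coe, List.foldr_append]; rfl)

/-- Polynomial functions. -/
noncomputable def pol : MvPolynomial (Fin d) ℝ →ₐ[ℝ] Sm d :=
  aeval fun j => ⟨fun x => x j, mem_Sm.2 (contDiff_euclidean.1 contDiff_id j)⟩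

lemma pol_apply (P : MvPolynomial (Fin d) ℝ) :
    (pol P).1 = fun x => eval (fun j => x j) P := by
  induction P using MvPolynomial.induction_on with
  | C a => ext x; simp [pol]
  | add p q hp hq => ext x; simp [hp, hq]
  | mul_X p j hp => ext x; rw [map_mul, Subalgebra.coe_mul, hp]; simp [pol]

/-- Iterated derivatives of polynomials. -/
noncomputable def tl (hf : f ∈ Sm d) (L : List (Fin d × Fin d)) :
    MvPolynomial (Fin d) ℝ →ₗ[ℝ] Sm d := ders hf L ∘ₗ pol.toLinearMap

lemma tl_coe (hf : f ∈ Sm d) (L : List (Fin d × Fin d)) (P : MvPolynomial (Fin d) ℝ) :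
    (tl hf L P).1 = tgs f L P := by
  rw [tgs, ← pol_apply, ← ders_coe hf]; rfl

/-- Functions that vanish to infinite order along the level set. -/
noncomputable def flat (hf : f ∈ Sm d) (x : EuclideanSpace ℝ (Fin d)) : Ideal (Sm d) where
  carrier := {g | ∀ L, val x (ders hf L g) = 0}
  add_mem' ha hb L := by rw [map_add, map_add, ha L, hb L, add_zero]
  zero_mem' L := by rw [map_zero, map_zero]
  smul_mem' h g hg L := by
    induction L using List.reverseRecOn generalizing h g with
    | nil => exact (map_mul (val x) h g).trans (mul_eq_zero_of_right _ (hg []))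
    | append_singleton L a ih =>
      rw [ders_snoc, smul_eq_mul, Derivation.leibniz, map_add, map_add,
        ih h _ fun L => by rw [← ders_snoc]; exact hg _, smul_eq_mul, mul_comm, zero_add]
      exact ih _ _ hg

lemma flat_prime (hf : f ∈ Sm d) (x : EuclideanSpace ℝ (Fin d)) : (flat hf x).IsPrime := by
  have := RingHom.ker_isPrime (val x)
  obtain ⟨p, hp, h1⟩ := Ideal.exists_minimalPrimes_le (I := flat hf x) (J := RingHom.ker (val x))
    fun g hg => hg []
  have h2 : p ≤ flat hf x := fun g hg L => h1 (by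
    induction L with
    | nil => exact hg
    | cons a L ih =>
      exact H17.minp (I := flat hf x) (der hf a).toLinearMap.toAddMonoidHom (der hf a).leibniz
        (fun g hg L => (congrArg (val x) (ders_snoc hf L a g).symm).trans (hg _)) hp _ ih)
  rw [le_antisymm hp.1.2 h2]
  exact hp.1.1

lemma tang_iff (hf : f ∈ Sm d) (P : MvPolynomial (Fin d) ℝ) : Tang f x P ↔ pol P ∈ flat hf x :=
  forall_congr' fun L => by rw [← tl_coe hf]; rfl

/-- The polynomial with given coefficients. -/
noncomputable def pv {k : Type} [CommRing k] (s : Finset (Fin d →₀ ℕ)) :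
    (s → k) →ₗ[k] MvPolynomial (Fin d) k := ∑ α : s, monomial α.1 ∘ₗ LinearMap.proj α

lemma pv_apply {k : Type} [CommRing k] (s : Finset (Fin d →₀ ℕ)) (c : s → k) :
    pv s c = ∑ α : s, monomial α.1 (c α) := by simp [pv]

lemma pv_coeff (P : MvPolynomial (Fin d) ℝ) : pv P.support (fun α => coeff α.1 P) = P := by
  rw [pv_apply, Finset.sum_coe_sort P.support fun α => monomial α (coeff α P), ← as_sum]

lemma lin (φ : MvPolynomial (Fin d) ℝ →ₗ[ℝ] ℝ) {s : Finset (Fin d →₀ ℕ)} (c : s → ℝ) :
    φ (pv s c) = ∑ α : s, c α * φ (monomial α.1 1) := by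
  rw [pv_apply, map_sum]
  exact Finset.sum_congr rfl fun α _ => by rw [← smul_eq_mul, ← map_smul, smul_monomial]; simp

lemma der_tgs (hf : f ∈ Sm d) {δ : Derivation ℤ ℝ ℝ} {w : EuclideanSpace ℝ (Fin d)}
    {L : List (Fin d × Fin d)}
    (h : ∀ α, δ (tgs f L (monomial α 1) x) = fderiv ℝ (tgs f L (monomial α 1)) x w)
    {s : Finset (Fin d →₀ ℕ)} (c : s → ℝ) : δ (tgs f L (pv s c) x) =
      tgs f L (pv s fun α => δ (c α)) x + fderiv ℝ (tgs f L (pv s c)) x w := by
  have h1 : ∀ c : s → ℝ, tgs f L (pv s c) x = ∑ α : s, c α * tgs f L (monomial α.1 1) x :=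
    fun c => by
      simp only [← tl_coe hf]
      exact lin ((val x).toLinearMap ∘ₗ tl hf L) c
  have h2 : fderiv ℝ (tgs f L (pv s c)) x w =
      ∑ α : s, c α * fderiv ℝ (tgs f L (monomial α.1 1)) x w := by
    simp only [← tl_coe hf]
    exact lin (dir x w ∘ₗ tl hf L) c
  rw [h1, h1, h2, map_sum, ← Finset.sum_add_distrib]
  exact Finset.sum_congr rfl fun α _ => by rw [Derivation.leibniz, h]; simp only [smul_eq_mul]; ring

lemma inner_eq (w g : EuclideanSpace ℝ (Fin d)) : inner ℝ w g = ∑ j, w j * g j := by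
  simp [PiLp.inner_apply, mul_comm]

lemma fd_zero {g : EuclideanSpace ℝ (Fin d) → ℝ} (h0 : gradient f x ≠ 0)
    (h : ∀ a, tg f a g x = 0) {w : EuclideanSpace ℝ (Fin d)}
    (hw : inner ℝ w (gradient f x) = 0) : fderiv ℝ g x w = 0 := by
  obtain ⟨i, hi⟩ : ∃ i, gradient f x i ≠ 0 := by
    by_contra hn
    push Not at hn
    exact h0 (by ext i; exact hn i)
  have e : gradient f x i • w = ∑ j, w j • (EuclideanSpace.single j (gradient f x i) -
      EuclideanSpace.single i (gradient f x j)) := by
    rw [inner_eq] at hw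
    ext l
    by_cases hl : l = i
    · simp [smul_sub, Pi.single_apply, hl, hw, mul_comm]
    · simp [smul_sub, Pi.single_apply, hl, mul_comm]
  have := congrArg (fderiv ℝ g x) e
  rw [map_smul, map_sum, Finset.sum_eq_zero fun j _ => by
    rw [map_smul, show fderiv ℝ g x _ = 0 from h (i, j), smul_zero]] at this
  exact (mul_eq_zero.1 this).resolve_left hi

end Lnk

open Lnk

theorem irr : StmtIRR := by
  intro d f hf q P
  have hp := flat_prime hf q
  simp only [tang_iff hf]
  induction P using WfDvdMonoid.induction_on_irreducible with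
  | zero => exact fun h => (h rfl).elim
  | unit u hu => exact fun _ h => (hp.ne_top (Ideal.eq_top_of_isUnit_mem _ h (hu.map _))).elim
  | mul a i ha hi ih =>
    intro _ h
    rw [map_mul] at h
    exact (hp.mem_or_mem h).elim (fun h => ⟨i, hi, h⟩) (ih ha)

theorem link_rl : Link RL fun _ _ _ => True := by
  intro d N f x δ v k _ _ _ hk _ _ _ hx
  refine ⟨fun y hy => ⟨⟨y, (hk y).2 fun r => ?_⟩, rfl⟩, hx, _, fun _ => Iff.rfl⟩
  exact H17.kill_cl (δ := toDer (C := k) (δ r) fun c => (hk c).1 c.2 r) (S := ∅) (by simp)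
    (H88.mem_cl.2 (hy.extendScalars (FaithfulSMul.algebraMap_injective _ _)))

theorem link_nc : Link NC NCJ := by
  intro d N f x δ v k hf hR h0 hk hv hδ hs hx
  rw [algebraicIndependent_iff] at hx
  push Not at hx
  obtain ⟨P0, p1, p2⟩ := hx
  have e0 : ∀ P : MvPolynomial (Fin d) k,
      tgs f [] (map (algebraMap k ℝ) P) x = aeval (fun j => x j) P := fun P => by
    rw [aeval_def, ← eval_map]; rfl
  have h1 : Tang f x (map (algebraMap k ℝ) P0) := fun L => by
    induction L with
    | nil => rw [e0, p1]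
    | cons a L ih =>
      obtain ⟨c, hc⟩ := hs (EuclideanSpace.single a.2 (gradient f x a.1) -
        EuclideanSpace.single a.1 (gradient f x a.2)) (by
          rw [inner_sub_left, EuclideanSpace.inner_single_left, EuclideanSpace.inner_single_left]
          simp [mul_comm])
      change fderiv ℝ (tgs f L _) x _ = 0
      rw [← hc, map_sum]
      refine Finset.sum_eq_zero fun r _ => ?_
      have := der_tgs hf (hδ r L) fun α : (map (algebraMap k ℝ) P0).support =>
        coeff α.1 (map (algebraMap k ℝ) P0)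
      rw [pv_coeff, ih, map_zero, show (fun α : (map (algebraMap k ℝ) P0).support =>
        δ r (coeff α.1 (map (algebraMap k ℝ) P0))) = 0 from funext fun α => by
          rw [coeff_map]; exact (hk _).1 (coeff α.1 P0).2 r, map_zero, ← tl_coe hf, map_zero] at this
      simp only [Subalgebra.coe_zero, Pi.zero_apply, zero_add] at this
      rw [map_smul, ← this, smul_zero]
  obtain ⟨Q, q1, q2⟩ := hR _ (fun e => p2 (map_injective _ (algebraMap k ℝ).injective
    (e.trans (map_zero _).symm))) h1
  let W : Submodule ℝ (Q.support → ℝ) :=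
    (((flat hf x).restrictScalars ℝ).comap pol.toLinearMap).comap (pv Q.support)
  have hW : ∀ c, c ∈ W ↔ Tang f x (pv Q.support c) := fun c => (tang_iff hf _).symm
  have h2 := H2.span_const
    (Δ := Set.range fun r => toDer (C := k) (δ r) fun c => (hk c).1 c.2 r) (W := W) (by
      rintro _ ⟨r, rfl⟩ c hc
      rw [hW] at hc ⊢
      intro L
      have := der_tgs hf (hδ r L) c
      rw [hc L, map_zero, fd_zero (g := tgs f L _) h0 (fun a => hc (a :: L)) (hv r), add_zero] at this
      exact this.symm) ((hW fun α => coeff α.1 Q).2 (by rwa [pv_coeff]))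
  by_contra hn
  refine q2 (Ideal.mem_span_singleton.1 ?_)
  have h3 := (Submodule.span_le (p := ((Ideal.span {∑ i, X i ^ 2}).restrictScalars ℝ).comap
    (homogeneousComponent Q.totalDegree ∘ₗ pv Q.support))).2 ?_ h2
  · simpa [pv_coeff] using h3
  rintro c ⟨c1, c2⟩
  choose c' hc' using fun α => (show ∃ a : k, algebraMap k ℝ a = c α from
    ⟨⟨c α, (hk _).2 fun r => H2.mem_KrS.1 (c2 α) _ ⟨r, rfl⟩⟩, rfl⟩)
  have h4 : map (algebraMap k ℝ) (pv Q.support c') = pv Q.support c := by
    simp [pv_apply, hc']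
  have h5 : (pv Q.support c').totalDegree ≤ Q.totalDegree := by
    rw [pv_apply]
    exact totalDegree_finsetSum_le fun α _ => (totalDegree_monomial_le _ _).trans
      (le_totalDegree α.2)
  have h6 : H97.Q k (Fin d) ∣ homogeneousComponent Q.totalDegree (pv Q.support c') := by
    rcases h5.eq_or_lt with h | h
    · by_contra h7
      exact hn ⟨pv Q.support c', by rw [← e0, h4]; exact (hW c).1 c1 [], by rwa [H97.top, h]⟩
    · rw [homogeneousComponent_eq_zero _ _ h]
      exact dvd_zero _
  have h7 := map_dvd (map (algebraMap k ℝ)) h6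
  rw [show map (algebraMap k ℝ) (homogeneousComponent Q.totalDegree (pv Q.support c')) =
    homogeneousComponent Q.totalDegree (pv Q.support c) by
      ext α
      rw [← h4, coeff_map, coeff_homogeneousComponent, coeff_homogeneousComponent, coeff_map]
      split_ifs <;> simp] at h7
  exact Ideal.mem_span_singleton.2 (by simpa [H97.Q] using h7)

end Pool.Agent.MP_249f74_an.H90
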