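import Pool.Agent.MP_249f74_an.H90.An
import Pool.Agent.MP_249f74_an.H90.Dec
import Pool.Agent.MP_249f74_an.H90.Link

/-!
Dimension bound for periodic orbits from the statement about algebraic mirrors.
-/

namespace Pool.Agent.MP_249f74_an.H90

theorem final : Final NCJ := an NC NCJ nc_ok link_nc qnc

theorem full (hA : StmtA RL) : Final fun _ _ _ => True :=
  an RL _ rl_ok link_rl (reduce RL rl_ok hA)

end Pool.Agent.MP_249f74_an.H90
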