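import Pool.Agent.MP_249f74_an.H90.Link
import Pool.Agent.MP_249f74_an.H17.Anal

/-!
From a smooth billiard in any dimension to jets in a differential field.
-/

open Set IntermediateField Module

namespace Pool.Agent.MP_249f74_an.H90

namespace An

open H17 (Der toDer toDer_apply ext_int kill_cl)
open H17.Anal (cx cx_ofReal cx_re cx_im cx_I per)
open H69 (Tan Dir dimH_small_tangent)
open H88 (cl mem_cl_of_root)

section Gen

variable {X : Type*} [NormedAddCommGroup X] [NormedSpace ℝ X] [FiniteDimensional ℝ X]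

lemma gen {ι : Type*} [Countable ι] (F : ι → X → ℝ) (hF : ∀ i, Differentiable ℝ (F i))
    {S : Set X} {m : ℕ} (hS : ¬ dimH S ≤ m) :
    ∃ y ∈ S, ∃ v : Fin (m + 1) → X, LinearIndependent ℝ v ∧
      ∀ i, F i y = 0 → ∀ r, fderiv ℝ (F i) y (v r) = 0 := by
  classical
  by_contra hcon
  apply hS
  let Z : Finset ι → Set X := fun t => {y | y ∈ S ∧ ∀ i ∈ t, F i y = 0}
  have hcov : S ⊆ ⋃ t, {y | y ∈ Z t ∧ finrank ℝ (Tan (Z t) y) ≤ m} := by
    intro y hy
    let T : Finset ι → Submodule ℝ X := fun t =>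
      ⨅ i ∈ t, LinearMap.ker (fderiv ℝ (F i) y : X →ₗ[ℝ] ℝ)
    have hT : ∀ t v, v ∈ T t ↔ ∀ i ∈ t, fderiv ℝ (F i) y v = 0 := fun t v => by simp [T]
    obtain ⟨t, ht, hmin⟩ := (InvImage.wf (fun t => finrank ℝ (T t)) wellFounded_lt).has_min
      {t | ∀ i ∈ t, F i y = 0} ⟨∅, by simp⟩
    refine mem_iUnion.2 ⟨t, ⟨hy, ht⟩, ?_⟩
    have h1 : Tan (Z t) y ≤ T t := fun v hv => (hT t v).2 fun i hi =>
      Dir.eq_zero ⟨_, (hF i y).hasFDerivAt, rfl⟩ (show y ∈ Z t from ⟨hy, ht⟩) hv
        fun x hx => hx.2 i hi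
    refine (Submodule.finrank_mono h1).trans ?_
    by_contra h2
    obtain ⟨e, he⟩ := exists_linearIndependent_of_le_finrank (R := ℝ) (M := T t) (n := m + 1)
      (by omega)
    refine hcon ⟨y, hy, _, he.map' (T t).subtype (Submodule.ker_subtype _), fun i hi r => ?_⟩
    have h3 : T (insert i t) ≤ T t := fun v hv => (hT _ v).2 fun j hj =>
      (hT _ v).1 hv j (Finset.mem_insert_of_mem hj)
    have h4 : T (insert i t) = T t := Submodule.eq_of_le_of_finrank_le h3 (not_lt.1
      (hmin (insert i t) fun j hj => (Finset.mem_insert.1 hj).elim (fun e => e ▸ hi) (ht j)))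
    exact (hT _ _).1 (h4.ge (e r).2) i (Finset.mem_insert_self _ _)
  refine (dimH_mono hcov).trans ?_
  rw [dimH_iUnion]
  exact iSup_le fun t => dimH_small_tangent (Z t) m

lemma gen2 {ι : Type} [Countable ι] (g : ι → X → ℝ) (hg : ∀ i, Differentiable ℝ (g i))
    {S : Set X} {m : ℕ} (hS : ¬ dimH S ≤ m) :
    ∃ y ∈ S, ∃ v : Fin (m + 1) → X, LinearIndependent ℝ v ∧
      ∃ δ : Fin (m + 1) → Derivation ℤ ℝ ℝ, ∀ r i, δ r (g i y) = fderiv ℝ (g i) y (v r) := by
  classical
  have : Countable (MvPolynomial ι ℤ) :=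
    AddMonoidAlgebra.coeff_injective.countable
  let Φ : MvPolynomial ι ℤ →+* (X → ℝ) := (MvPolynomial.aeval g).toRingHom
  have hX : ∀ i, Φ (MvPolynomial.X i) = g i := fun i => MvPolynomial.aeval_X g i
  have hΦ : ∀ a, Differentiable ℝ (Φ a) := fun a => by
    induction a using MvPolynomial.induction_on with
    | C c => rw [eq_intCast MvPolynomial.C, map_intCast]; exact differentiable_const _
    | add p q hp hq => rw [map_add]; exact hp.add hq
    | mul_X p i hp => rw [map_mul, hX]; exact hp.mul (hg i)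
  obtain ⟨y, hy, v, hv, h⟩ := gen (fun a => Φ a) hΦ hS
  have key : ∀ r, ∃ δ : Derivation ℤ ℝ ℝ, ∀ i, δ (g i y) = fderiv ℝ (g i) y (v r) := fun r => by
    obtain ⟨δ, hδ⟩ := ext_int ((Pi.evalRingHom (fun _ : X => ℝ) y).comp Φ)
      (AddMonoidHom.mk' (fun a => fderiv ℝ (Φ a) y (v r)) fun a b => by
        simp only [map_add]
        rw [fderiv_add (hΦ a y) (hΦ b y)]; rfl)
      (fun a b => by
        simp only [map_mul, AddMonoidHom.mk'_apply]
        rw [fderiv_mul (hΦ a y) (hΦ b y)]; simp) fun a ha => h a ha r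
    exact ⟨δ, fun i => by simpa [hX] using hδ (MvPolynomial.X i)⟩
  choose δ hδ using key
  exact ⟨y, hy, v, hv, δ, hδ⟩

lemma gen3 {ι A : Type} [Countable ι] [Fintype A] (g : ι → X → ℝ)
    (hg : ∀ i, Differentiable ℝ (g i)) {S : Set (A → X)} {m : ℕ} (hS : ¬ dimH S ≤ m) :
    ∃ y ∈ S, ∃ v : Fin (m + 1) → A → X, LinearIndependent ℝ v ∧
      ∃ δ : Fin (m + 1) → Derivation ℤ ℝ ℝ,
        ∀ r a i, δ r (g i (y a)) = fderiv ℝ (g i) (y a) (v r a) := by
  obtain ⟨y, hy, v, hv, δ, h⟩ := gen2 (ι := A × ι) (fun i y => g i.2 (y i.1))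
    (fun i => (hg i.2).comp (f := fun y : A → X => y i.1) (differentiable_apply i.1)) hS
  exact ⟨y, hy, v, hv, δ, fun r a i => (h r (a, i)).trans (DFunLike.congr_fun
    ((hg i _).hasFDerivAt.comp y (ContinuousLinearMap.proj (R := ℝ) (φ := fun _ : A => X)
      a).hasFDerivAt).fderiv _)⟩

end Gen

section Cx

open Complex

variable {N : ℕ} (δ : Fin N → Derivation ℤ ℝ ℝ)

/-- The real constants. -/
def KR : Subfield ℝ where
  carrier := {c | ∀ r, δ r c = 0}
  mul_mem' ha hb r := by simp [ha r, hb r]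
  one_mem' r := by simp
  add_mem' ha hb r := by simp [ha r, hb r]
  zero_mem' r := by simp
  neg_mem' ha r := by simp [ha r]
  inv_mem' a ha r := by simp [ha r, Derivation.leibniz_inv]

/-- The complex constants. -/
def KC : Subfield ℂ where
  carrier := {c | ∀ r, cx (δ r) c = 0}
  mul_mem' ha hb r := by simp [ha r, hb r]
  one_mem' r := by simp
  add_mem' ha hb r := by simp [ha r, hb r]
  zero_mem' r := by simp
  neg_mem' ha r := by simp [ha r]
  inv_mem' a ha r := by simp [ha r, Derivation.leibniz_inv]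

/-- The derivations over the real constants. -/
noncomputable def dR (r : Fin N) : Der (KR δ) ℝ := toDer (δ r) fun c => c.2 r

/-- The derivations over the complex constants. -/
noncomputable def dC (r : Fin N) : Der (KC δ) ℂ := toDer (cx (δ r)) fun c => c.2 r

lemma dC_ofReal (r : Fin N) (x : ℝ) : dC δ r x = (dR δ r x : ℝ) := cx_ofReal _ _

lemma closed : IsAlgClosed (KC δ) :=
  IsAlgClosed.of_exists_root _ fun p hm hi => by
    obtain ⟨z, hz⟩ := IsAlgClosed.exists_root (p.map (algebraMap (KC δ) ℂ)) (by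
      rw [Polynomial.degree_map]; exact (Polynomial.degree_pos_of_irreducible hi).ne')
    have h : z ∈ cl (KC δ) (∅ : Set ℂ) := mem_cl_of_root (hm.map _).ne_zero
      (fun i => by rw [Polynomial.coeff_map]; exact IntermediateField.algebraMap_mem _ _) hz
    refine ⟨⟨z, fun r => kill_cl (δ := dC δ r) (by simp) h⟩, ?_⟩
    apply (algebraMap (KC δ) ℂ).injective
    rw [map_zero, ← Polynomial.eval₂_at_apply, ← Polynomial.eval_map]
    exact hz

/-- Real constants are complex constants. -/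
noncomputable def inc : KR δ →+* KC δ :=
  ((algebraMap (KR δ) ℂ).codRestrict (KC δ) fun c r => by
    change cx (δ r) ((c : ℝ) : ℂ) = 0
    rw [cx_ofReal, c.2 r, ofReal_zero])

variable {δ} {ι : Type} [Fintype ι]

lemma dot_ofReal (a b : ι → ℝ) :
    (fun j => (a j : ℂ)) ⬝ᵥ (fun j => (b j : ℂ)) = ((a ⬝ᵥ b : ℝ) : ℂ) := by
  simp [dotProduct]

lemma jet_cx {q u q' u' : ι → ℝ} {t : ℝ} {J : List ι → ℝ} (h : Jet (dR δ) q u q' u' t J) :
    Jet (dC δ) (fun j => (q j : ℂ)) (fun j => (u j : ℂ)) (fun j => (q' j : ℂ))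
      (fun j => (u' j : ℂ)) t fun L => J L where
  zero := by rw [h.zero, ofReal_zero]
  chain r L := by simp [dC_ofReal, h.chain r L]
  symm j j' L := by rw [h.symm]
  uu := by rw [dot_ofReal, h.uu, ofReal_one]
  gg := by rw [dot_ofReal (fun j => J [j]) fun j => J [j]]; exact ofReal_ne_zero.2 h.gg
  gu := by rw [dot_ofReal fun j => J [j]]; exact ofReal_ne_zero.2 h.gu
  move := by ext j; simp [h.move]
  refl := by
    ext j
    rw [dot_ofReal fun j => J [j], dot_ofReal (fun j => J [j]) fun j => J [j], h.refl]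
    simp

lemma dv_re (a : Fin N → ℂ) (q : ι → ℝ) (j : ι) :
    (dv (fun j => (q j : ℂ)) (∑ r, a r • dC δ r) j).re = dv q (∑ r, (a r).re • dR δ r) j ∧
    (dv (fun j => (q j : ℂ)) (∑ r, a r • dC δ r) j).im = dv q (∑ r, (a r).im • dR δ r) j := by
  simp only [map_sum, map_smul, Finset.sum_apply]
  simp [dC_ofReal]

lemma rq {p : Prp} (hp : p.Ok) (hQ : StmtQ p) [Nontrivial ι] {n : ℕ} (q u : ℕ → ι → ℝ)
    (t : ℕ → ℝ) (J : ℕ → List ι → ℝ) (hN : 2 * Fintype.card ι ≤ N + 2)
    (ind : ∀ a : Fin N → ℝ, (∀ i < n, dv (q i) (∑ r, a r • dR δ r) = 0 ∧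
      dv (u i) (∑ r, a r • dR δ r) = 0) → a = 0) (hq : q n = q 0) (hu : u n = u 0)
    (jet : ∀ i < n, Jet (dR δ) (q i) (u i) (q (i + 1)) (u (i + 1)) (t i) (J i))
    (lk : ∀ i < n, (∀ w, (fun j => J i [j]) ⬝ᵥ w = 0 → ∃ a : Fin N → ℝ,
      dv (q (i + 1)) (∑ r, a r • dR δ r) = w) → ¬AlgebraicIndependent (KR δ) (q (i + 1)) →
      p (KR δ) ℝ ι (q (i + 1))) : ∑ i ∈ Finset.range n, t i = 0 := by
  have := closed δ
  let _ := (inc δ).toAlgebra
  have : IsScalarTower (KR δ) (KC δ) ℂ := .of_algebraMap_eq fun _ => rfl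
  have hI : IsIntegral (KR δ) (⟨I, fun r => cx_I _⟩ : KC δ) :=
    .of_pow two_pos (by
      rw [show (⟨I, fun r => cx_I _⟩ : KC δ) ^ 2 = -1 from Subtype.ext I_sq]
      exact isIntegral_one.neg)
  have : Algebra.IsAlgebraic (KR δ) (KC δ) := ⟨fun c => by
    rw [show c = algebraMap (KR δ) _ ⟨c.1.re, fun r => congrArg re (c.2 r)⟩ +
      algebraMap (KR δ) _ ⟨c.1.im, fun r => congrArg im (c.2 r)⟩ * ⟨I, fun r => cx_I _⟩ from
        Subtype.ext (re_add_im _).symm]
    exact (isIntegral_algebraMap.add (isIntegral_algebraMap.mul hI)).isAlgebraic⟩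
  let e := IsScalarTower.toAlgHom (KR δ) ℝ ℂ
  have h := hQ (KR δ) (KC δ) ℂ ι N n (dC δ) (fun i j => q i j) (fun i j => u i j) (fun i => t i)
    (fun i L => J i L) (fun f hf => mem_bot.2 ⟨⟨f, hf⟩, rfl⟩) hN
    (fun a ha => by
      have h1 := ind (fun r => (a r).re) fun i hi =>
        ⟨funext fun j => by rw [← (dv_re a _ j).1, (ha i hi).1]; rfl,
          funext fun j => by rw [← (dv_re a _ j).1, (ha i hi).2]; rfl⟩
      have h2 := ind (fun r => (a r).im) fun i hi =>
        ⟨funext fun j => by rw [← (dv_re a _ j).2, (ha i hi).1]; rfl,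
          funext fun j => by rw [← (dv_re a _ j).2, (ha i hi).2]; rfl⟩
      exact funext fun r => Complex.ext (congrFun h1 r) (congrFun h2 r))
    (by rw [hq]) (by rw [hu]) (fun i hi => jet_cx (jet i hi)) fun i hi h1 h2 =>
      (hp _ _ _ _ e _).2 (lk i hi (fun w hw => by
        obtain ⟨a, ha⟩ := h1 (fun j => w j) (by
          rw [dot_ofReal fun j => J i [j], hw, ofReal_zero])
        exact ⟨fun r => (a r).re, funext fun j => by rw [← (dv_re a _ j).1, ha]; rfl⟩)
        fun h3 => h2 ((h3.map' (f := e) e.injective).extendScalars _))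
  exact_mod_cast h

end Cx

section Pd

variable {d : ℕ}

/-- Iterated directional derivatives along the coordinate axes. -/
noncomputable def pd (f : EuclideanSpace ℝ (Fin d) → ℝ) :
    List (Fin d) → EuclideanSpace ℝ (Fin d) → ℝ
  | [] => f
  | j :: l => fun x => fderiv ℝ (pd f l) x (EuclideanSpace.single j 1)

variable {f : EuclideanSpace ℝ (Fin d) → ℝ}

lemma pd_smooth (hf : ContDiff ℝ ((⊤ : ℕ∞) : WithTop ℕ∞) f) (l : List (Fin d)) :
    ContDiff ℝ ((⊤ : ℕ∞) : WithTop ℕ∞) (pd f l) := by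
  induction l with
  | nil => exact hf
  | cons j l ih =>
    exact (ih.fderiv_right (m := ((⊤ : ℕ∞) : WithTop ℕ∞)) le_rfl).clm_apply contDiff_const

lemma fderiv_pd (l : List (Fin d)) (x v : EuclideanSpace ℝ (Fin d)) :
    fderiv ℝ (pd f l) x v = ∑ j, pd f (j :: l) x * v j := by
  have : v = ∑ j, v j • EuclideanSpace.single j 1 := by
    ext i; simp [Pi.single_apply]
  conv_lhs => rw [this]
  simp only [map_sum, map_smul, smul_eq_mul, pd, mul_comm]

lemma pd_symm (hf : ContDiff ℝ ((⊤ : ℕ∞) : WithTop ℕ∞) f) (j j' : Fin d) (l : List (Fin d))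
    (x : EuclideanSpace ℝ (Fin d)) : pd f (j :: j' :: l) x = pd f (j' :: j :: l) x := by
  have h1 := ((Lnk.fd (pd_smooth hf l)).differentiable (by simp)) x
  have h2 := (pd_smooth hf l).contDiffAt.isSymmSndFDerivAt (x := x) (by
    simpa using WithTop.coe_le_coe.2 (le_top (a := (2 : ℕ∞))))
  simp only [pd]
  rw [fderiv_clm_apply h1 (differentiableAt_const _), fderiv_clm_apply h1 (differentiableAt_const _)]
  simpa using h2 _ _

lemma grad (x : EuclideanSpace ℝ (Fin d)) (j : Fin d) : pd f [j] x = gradient f x j := by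
  have := InnerProductSpace.toDual_symm_apply (𝕜 := ℝ) (x := EuclideanSpace.single j (1 : ℝ))
    (y := fderiv ℝ f x)
  rw [EuclideanSpace.inner_single_right] at this
  simpa [pd, gradient] using this.symm

lemma dot (a b : EuclideanSpace ℝ (Fin d)) : (fun j => a j) ⬝ᵥ (fun j => b j) = inner ℝ b a := by
  simp [Lnk.inner_eq, dotProduct, mul_comm]

end Pd

end An

open An H17.Anal in
theorem an : StmtAN := by
  intro p R hp hL hQ d hd f hf n
  let S : Set (Bool × Fin (n + 1) → EuclideanSpace ℝ (Fin d)) :=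
    {y | ∀ k, f (y (true, k)) = 0 ∧ ‖y (false, k)‖ = 1 ∧
      inner ℝ (y (false, k)) (gradient f (y (true, k))) < 0 ∧
      (∃ t : ℝ, 0 < t ∧ y (true, k + 1) = y (true, k) + t • y (false, k)) ∧
      y (false, k + 1) = y (false, k) - (2 * inner ℝ (y (false, k)) (gradient f (y (true, k + 1))) /
        ‖gradient f (y (true, k + 1))‖ ^ 2) • gradient f (y (true, k + 1)) ∧ R d f (y (true, k))}
  let L : (Bool × Fin (n + 1) → EuclideanSpace ℝ (Fin d)) →L[ℝ]
      EuclideanSpace ℝ (Fin d) × EuclideanSpace ℝ (Fin d) :=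
    (ContinuousLinearMap.proj (true, 0)).prod (ContinuousLinearMap.proj (false, 0))
  refine (dimH_mono (t := L '' S) ?_).trans ((L.lipschitz.dimH_image_le S).trans ?_)
  · rintro q ⟨p, u, h1, h2, h3, h4, h⟩
    refine ⟨fun a => cond a.1 (p a.2) (u a.2), fun k => ?_, Prod.ext h1 h2⟩
    simp only [cond_true, cond_false]
    rw [per (h3.trans h1.symm), per (h4.trans h2.symm)]
    exact h k k.2
  by_contra hS
  obtain ⟨y, hy, v, hv, δ, h⟩ :=
    gen3 (ι := List (Fin d) ⊕ (List (Fin d × Fin d) × (Fin d →₀ ℕ)) ⊕ Fin d)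
      (Sum.elim (An.pd f) (Sum.elim (fun i => tgs f i.1 (MvPolynomial.monomial i.2 1))
        fun j x => x j)) (by
      rintro (l | i | j)
      · exact (An.pd_smooth hf l).differentiable (by simp)
      · rw [Sum.elim_inr, Sum.elim_inl, ← Lnk.tl_coe hf]
        exact Lnk.diff _
      · exact (EuclideanSpace.proj (𝕜 := ℝ) j).differentiable) hS
  have hx : ∀ r a j, dR δ r (y a j) = v r a j := fun r a j =>
    (h r a (.inr (.inr j))).trans (DFunLike.congr_fun (EuclideanSpace.proj (𝕜 := ℝ) j).fderiv _)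
  have hv' : ∀ (c : Fin (2 * d - 3 + 1) → ℝ) a j,
      dv (fun j => y a j) (∑ r, c r • dR δ r) j = (∑ r, c r • v r a) j := fun c a j => by
    simp only [map_sum, map_smul, Finset.sum_apply]
    simp [hx]
  have hc : ∀ r a l, dR δ r (An.pd f l (y a)) = ∑ j, An.pd f (j :: l) (y a) * dR δ r (y a j) :=
    fun r a l => by simp only [hx]; exact (h r a (.inl l)).trans (An.fderiv_pd l _ _)
  obtain ⟨c, c1, c2, c3⟩ : ∃ c : ℕ → Fin (n + 1), (∀ i, c (i + 1) = c i + 1) ∧
      c (n + 1) = c 0 ∧ ∀ k : Fin (n + 1), c k = k :=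
    ⟨Fin.ofNat _, fun i => Fin.ext (by simp [Fin.val_add]), Fin.ext (by simp),
      fun k => Fin.ext (Nat.mod_eq_of_lt k.2)⟩
  choose t ht using fun k => (hy k).2.2.2.1
  have g0 : ∀ k, gradient f (y (true, k)) ≠ 0 := fun k e => by simpa [e] using (hy k).2.2.1
  have : Nontrivial (Fin d) := Fin.nontrivial_iff_two_le.2 hd
  have key := rq (δ := δ) (n := n + 1) hp hQ (fun i j => y (true, c i) j)
    (fun i j => y (false, c i) j) (fun i => t (c i)) (fun i l => An.pd f l (y (true, c (i + 1))))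
    (by rw [Fintype.card_fin]; omega)
    (fun a ha => funext (Fintype.linearIndependent_iff.1 hv a (by
      ext ⟨b, k⟩ j
      have := ha k k.2
      rw [c3] at this
      rw [Finset.sum_apply]
      cases b
      · exact (hv' a _ j).symm.trans (congrFun this.2 j)
      · exact (hv' a _ j).symm.trans (congrFun this.1 j))))
    (by rw [c2]) (by rw [c2])
    (fun i _ => by
      simp only [c1]
      refine ⟨(hy _).1, fun r => hc r _, fun j j' l => pd_symm hf j j' l _, ?_, ?_, ?_, ?_, ?_⟩ <;>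
        try simp only [An.grad, dot]
      · rw [real_inner_self_eq_norm_sq, (hy _).2.1, one_pow]
      · exact inner_self_ne_zero.2 (g0 _)
      · intro e
        have h1 := (hy (c i + 1)).2.2.1
        rw [(hy (c i)).2.2.2.2.1, e] at h1
        simp [e] at h1
      · rw [(ht _).2]; rfl
      · rw [(hy _).2.2.2.2.1, real_inner_self_eq_norm_sq]; rfl)
    fun i _ h1 h2 => hL d _ f _ δ (fun r => v r (true, c (i + 1))) (KR δ) hf (hy _).2.2.2.2.2
      (g0 _) (fun _ => Iff.rfl)
      (fun r => by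
        have := hc r (true, c (i + 1)) []
        simp only [hx, An.grad] at this
        rw [← dot]
        exact this.symm.trans ((congrArg _ (hy _).1).trans (map_zero _)))
      (fun r l α => h r _ (.inr (.inl (l, α))))
      (fun w hw => by
        obtain ⟨a, ha⟩ := h1 (fun j => w j) (by simp only [An.grad, dot, hw])
        exact ⟨a, by ext j; exact (hv' a _ j).symm.trans (congrFun ha j)⟩) h2
  exact (Finset.sum_pos (fun i _ => (ht (c i)).1) Finset.nonempty_range_add_one).ne' key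

end Pool.Agent.MP_249f74_an.H90
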