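import Pool.Agent.MP_249f74_an.H90.Geo
import Pool.Agent.MP_249f74_an.H96.Trf
import Pool.Agent.MP_249f74_an.H96.Chn

/-!
Chains of reflections and extensions of differential fields.
-/

open Set IntermediateField

namespace Pool.Agent.MP_249f74_an.H90

open H17 (Der Kr St mem_Kr mem_St cl_le cl_mono toDer map_mem_cl)
open H88 (cl subset_cl coe_cl)
open H96 (Kil Agr Pres Ind Fm dd Cls Van Big dif dif_apply br_apply agr_iff pres_cl cl_cl
  mem_cl_of_kil not_mem_cl ext_indep indep_bot nat_conn)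
open H2 (KrS mem_KrS cl_KrS kil_KrS Invl ind_of_ders)

variable {C Ω ι : Type} [Field C] [Field Ω] [Algebra C Ω] [Fintype ι]
  {E : Submodule Ω (Der C Ω)}

/-- The vertices `a ≤ i < b` reflect the line `i` to the line `i + 1`. -/
def Ch (m : ℕ → Pt E ι) (l : ℕ → Ln E ι) (a b : ℕ) : Prop :=
  ∀ i, a ≤ i → i < b → Refl (m i) (l i) (l (i + 1))

/-- The mirrors `a ≤ i < b` can be deformed independently. -/
def Dec (m : ℕ → Pt E ι) (a b : ℕ) : Prop :=
  ∀ t : ℕ → Der C Ω, ∃ θ : Der C Ω, ∀ i, a ≤ i → i < b → (m i).Tan (θ - t i)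

/-- No focusing. -/
def NoF (m : ℕ → Pt E ι) (a b : ℕ) : Prop := ∀ i j, a ≤ i → i < j → j < b → Gen (m j) (m i)

/-- The line `a` and the data of the mirrors `a ≤ i < b`. -/
def Seg (l : ℕ → Ln E ι) (S : ℕ → Set Ω) (a b : ℕ) : Set Ω := (l a).S ∪ ⋃ i ∈ Ico a b, S i

/-- The fields of the mirrors as sets. -/
def HS (m : ℕ → Pt E ι) (i : ℕ) : Set Ω := (m i).H

/-- The total delay. -/
def del (m : ℕ → Pt E ι) (l : ℕ → Ln E ι) (a b : ℕ) : Ω :=
  ∑ i ∈ Finset.Ico a b, (m i).q ⬝ᵥ ((l i).u - (l (i + 1)).u)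

/-- The last line is the first one. -/
def Cyc (l : ℕ → Ln E ι) (n : ℕ) : Prop := (l n).u = (l 0).u ∧ (l n).x = (l 0).x

/-- A closed differential field that contains the line. -/
structure Stab (l : Ln E ι) (K : IntermediateField C Ω) : Prop where
  cl : cl C (K : Set Ω) = K
  sub : l.S ⊆ K
  pres : ∀ Z ∈ E, (∀ f ∈ l.S, Z f ∈ K) → Pres K Z

/-- A form that vanishes with the differentials of finitely many elements. -/
lemma rep_of_kil {κ : Type} [Fintype κ] (v : κ → Ω) (ω : Fm C Ω)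
    (h : ∀ θ ∈ E, dv v θ = 0 → ω θ = 0) : ∃ g : κ → Ω, ∀ θ ∈ E, ω θ = g ⬝ᵥ dv v θ := by
  obtain ⟨g, hg⟩ := (Submodule.mem_span_range_iff_exists_fun Ω).1
    (mem_span_of_iInf_ker_le_ker (L := fun j => (dif (v j)).comp E.subtype) (K := ω.comp E.subtype)
      fun θ hθ => h θ θ.2 (funext fun j => by simpa using (Submodule.mem_iInf _).1 hθ j))
  exact ⟨g, fun θ hθ => by simpa [dotProduct] using (LinearMap.congr_fun hg ⟨θ, hθ⟩).symm⟩

variable {m : ℕ → Pt E ι} {l : ℕ → Ln E ι} {a b : ℕ} {S : ℕ → Set Ω} {θ Z : Der C Ω}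

lemma line_sub_Seg : (l a).S ⊆ Seg l S a b := subset_union_left

lemma sub_Seg {i : ℕ} (h0 : a ≤ i) (h1 : i < b) : S i ⊆ Seg l S a b := fun _ hf =>
  Or.inr (mem_biUnion (show i ∈ Ico a b from ⟨h0, h1⟩) hf)

lemma Seg_subset {T : Set Ω} (h1 : (l a).S ⊆ T) (h2 : ∀ i, a ≤ i → i < b → S i ⊆ T) :
    Seg l S a b ⊆ T := union_subset h1 (iUnion₂_subset fun i hi => h2 i hi.1 hi.2)

lemma Seg_mono {S' : ℕ → Set Ω} (h : ∀ i, a ≤ i → i < b → S i ⊆ S' i) :
    Seg l S a b ⊆ Seg l S' a b :=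
  Seg_subset line_sub_Seg fun i h0 h1 => (h i h0 h1).trans (sub_Seg h0 h1)

lemma Seg_finite (h : ∀ i, a ≤ i → i < b → (S i).Finite) : (Seg l S a b).Finite :=
  (l a).S_finite.union ((finite_Ico a b).biUnion fun i hi => h i hi.1 hi.2)

lemma Dec.mono (h : Dec m a b) {a' b' : ℕ} (ha : a ≤ a') (hb : b' ≤ b) : Dec m a' b' := fun t =>
  (h t).imp fun _ h i h1 h2 => h i (ha.trans h1) (h2.trans_le hb)

lemma NoF.mono (h : NoF m a b) {a' b' : ℕ} (ha : a ≤ a') (hb : b' ≤ b) : NoF m a' b' :=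
  fun i j h1 h2 h3 => h i j (ha.trans h1) h2 (h3.trans_le hb)

lemma del_split {c : ℕ} (h1 : a ≤ b) (h2 : b ≤ c) : del m l a c = del m l a b + del m l b c :=
  (Finset.sum_Ico_consecutive _ h1 h2).symm

lemma del_one : del m l a (a + 1) = (m a).q ⬝ᵥ ((l a).u - (l (a + 1)).u) := by simp [del]

namespace Ch

lemma mono (h : Ch m l a b) {a' b' : ℕ} (ha : a ≤ a') (hb : b' ≤ b) : Ch m l a' b' :=
  fun i h1 h2 => h i (ha.trans h1) (h2.trans_le hb)

/-- A field that contains the points, the normals and one line contains all lines. -/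
lemma line_sub (h : Ch m l a b) {K : IntermediateField C Ω}
    (hK : ∀ i, a ≤ i → i < b → (∀ j, (m i).q j ∈ K) ∧ ∀ j, (m i).ν j ∈ K) {j : ℕ} (h1 : a ≤ j)
    (h2 : j ≤ b) (hj : (l j).S ⊆ K) {i : ℕ} (h3 : a ≤ i) (h4 : i ≤ b) : (l i).S ⊆ K :=
  (nat_conn (p := fun i => (l i).S ⊆ K) (fun k k1 k2 =>
    ⟨fun e => (h k k1 k2).line_mem (hK k k1 k2).1 (hK k k1 k2).2 fun j => e ((l _).u_mem j),
      fun e => (h k k1 k2).symm.line_mem (hK k k1 k2).1 (hK k k1 k2).2 fun j => e ((l _).u_mem j)⟩)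
    h1 h2 h3 h4).1 hj

lemma line_mem (h : Ch m l a b) (hS : ∀ i, a ≤ i → i < b → (m i).Dat (S i)) {i : ℕ} (h1 : a ≤ i)
    (h2 : i ≤ b) : (l i).S ⊆ cl C (Seg l S a b) :=
  h.line_sub (fun i k1 k2 => ⟨fun j => subset_cl _ (sub_Seg k1 k2 ((hS i k1 k2).q j)),
    fun j => subset_cl _ (sub_Seg k1 k2 ((hS i k1 k2).ν j))⟩) le_rfl (h1.trans h2)
    (line_sub_Seg.trans (subset_cl _)) h1 h2

/-- A shorter segment lies in the closure of a longer one. -/
lemma Seg_le (h : Ch m l a b) (hS : ∀ i, a ≤ i → i < b → (m i).Dat (S i)) {a' b' : ℕ}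
    (h1 : a ≤ a') (h2 : a' ≤ b) (h3 : b' ≤ b) : Seg l S a' b' ⊆ cl C (Seg l S a b) :=
  Seg_subset (h.line_mem hS h1 h2) fun _ k1 k2 =>
    (sub_Seg (h1.trans k1) (k2.trans_le h3)).trans (subset_cl _)

/-- The reversed chain. -/
lemma rev {n : ℕ} (h : Ch m l 0 n) : Ch (fun i => m (n - 1 - i)) (fun i => (l (n - i)).neg) 0 n :=
  fun i _ h2 => by
    have := (h (n - 1 - i) (Nat.zero_le _) (by omega)).neg
    rwa [show n - 1 - i + 1 = n - i by omega,
      show l (n - 1 - i) = l (n - (i + 1)) by congr 1; omega] at this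

variable [CharZero Ω]

lemma kil_line (h : Ch m l a b) (hS : ∀ i, a ≤ i → i < b → (m i).Dat (S i))
    (ht : ∀ i, a ≤ i → i < b → TanS E (S i) θ) {j : ℕ} (h1 : a ≤ j) (h2 : j ≤ b)
    (hj : Kil (l j).S θ) {i : ℕ} (h3 : a ≤ i) (h4 : i ≤ b) : Kil (l i).S θ :=
  (nat_conn (p := fun i => Kil (l i).S θ) (fun k k1 k2 =>
    ⟨fun e => ((h k k1 k2).kil (hS k k1 k2) (ht k k1 k2) e).2,
      fun e => ((h k k1 k2).symm.kil (hS k k1 k2) (ht k k1 k2) e).2⟩) h1 h2 h3 h4).1 hj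

/-- A derivation tangent to the mirrors that kills one line kills everything. -/
lemma kil_Seg (h : Ch m l a b) (hS : ∀ i, a ≤ i → i < b → (m i).Dat (S i))
    (ht : ∀ i, a ≤ i → i < b → TanS E (S i) θ) {j : ℕ} (h1 : a ≤ j) (h2 : j ≤ b)
    (hj : Kil (l j).S θ) : Kil (Seg l S a b) θ := fun _ hf =>
  Seg_subset (T := Kr θ) (h.kil_line hS ht h1 h2 hj le_rfl (h1.trans h2)) (fun i k1 k2 =>
    ((h i k1 k2).kil (hS i k1 k2) (ht i k1 k2) (h.kil_line hS ht h1 h2 hj k1 k2.le)).1) hf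

lemma agr_Seg (h : Ch m l a b) (hab : a ≤ b) (hS : ∀ i, a ≤ i → i < b → (m i).Dat (S i))
    (ht : ∀ i, a ≤ i → i < b → TanS E (S i) θ) : TanS E (Seg l S a b) θ := by
  obtain ⟨Z, h1, h2⟩ := (l a).any θ
  exact ⟨Z, h1, agr_iff.2 (h.kil_Seg hS (fun i k1 k2 => (ht i k1 k2).sub (tanS_mem h1)) le_rfl hab
    (agr_iff.1 h2))⟩

lemma line_mem_H (hE : Amb E) (h : Ch m l a b) {i : ℕ} (h1 : a ≤ i) (h2 : i ≤ b) :
    (l i).S ⊆ cl C (Seg l (HS m) a b) := h.line_mem (fun i _ _ => (m i).dat_H hE) h1 h2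

/-- Free deformation of one more mirror. -/
lemma lift (hE : Amb E) (h : Ch m l a b) (hab : a ≤ b) {a' b' r : ℕ} (hD : Dec m a' b')
    (h1 : a' ≤ a) (h2 : b ≤ b') (h3 : a' ≤ r) (h4 : r < b') (h5 : r < a ∨ b ≤ r) (θ t : Der C Ω) :
    ∃ φ : Der C Ω, Agr (Seg l (HS m) a b) φ θ ∧ (m r).Tan (φ - t) := by
  obtain ⟨φ, hφ⟩ := hD fun i => if i = r then t else θ
  obtain ⟨Z, z1, z2⟩ := h.agr_Seg (S := HS m) (θ := φ - θ) hab (fun i _ _ => (m i).dat_H hE)
    fun i k1 k2 => by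
      simpa [show i ≠ r by omega, Pt.Tan, HS] using hφ i (by omega) (by omega)
  refine ⟨φ - Z, agr_iff.2 (by rw [sub_right_comm]; exact agr_iff.1 z2), ?_⟩
  rw [sub_right_comm]
  exact TanS.sub (by simpa [Pt.Tan] using hφ r h3 h4) (tanS_mem z1)

lemma lift_last (hE : Amb E) (h : Ch m l a b) (hab : a ≤ b) (hD : Dec m a (b + 1))
    (θ t : Der C Ω) : ∃ φ : Der C Ω, Agr (Seg l (HS m) a b) φ θ ∧ (m b).Tan (φ - t) :=
  h.lift hE hab hD le_rfl b.le_succ hab b.lt_succ_self (Or.inr le_rfl) θ t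

lemma lift_first (hE : Amb E) (h : Ch m l (a + 1) b) (hab : a < b) (hD : Dec m a b)
    (θ t : Der C Ω) : ∃ φ : Der C Ω, Agr (Seg l (HS m) (a + 1) b) φ θ ∧ (m a).Tan (φ - t) :=
  h.lift hE hab hD a.le_succ le_rfl le_rfl hab (Or.inl a.lt_succ_self) θ t

lemma ind_last (hE : Amb E) (h : Ch m l a (b + 1)) (hab : a ≤ b) (hD : Dec m a (b + 1)) :
    Ind C (HS m b) (Seg l (HS m) a b) (l b).S := fun θ hθ => by
  have h' := h.mono le_rfl b.le_succ
  obtain ⟨φ, h1, h2⟩ := h'.lift_last hE hab hD θ 0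
  exact ⟨φ, ((h b hab b.lt_succ_self).kil ((m b).dat_H hE) (by simpa [Pt.Tan] using h2)
    (hθ.of_agr (h1.cl.mono (h'.line_mem_H hE hab le_rfl)))).1, h1⟩

lemma ind_first (hE : Amb E) (h : Ch m l a b) (hab : a < b) (hD : Dec m a b) :
    Ind C (HS m a) (Seg l (HS m) (a + 1) b) (l (a + 1)).S := fun θ hθ => by
  obtain ⟨φ, h1, h2⟩ := (h.mono a.le_succ le_rfl).lift_first hE hab hD θ 0
  exact ⟨φ, ((h a le_rfl hab).symm.kil ((m a).dat_H hE) (by simpa [Pt.Tan] using h2)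
    (hθ.of_agr (h1.mono line_sub_Seg))).1, h1⟩

lemma last_tr (hE : Amb E) (h : Ch m l a (b + 1)) (hab : a ≤ b) (hD : Dec m a (b + 1))
    (ht : (m b).Tr) : (m b).q ⬝ᵥ (l b).u ∉ cl C (Seg l (HS m) a b) := fun hy => by
  have h' := h.mono le_rfl b.le_succ
  obtain ⟨t, t1⟩ := (m b).tr_iff.1 ht
  obtain ⟨φ, h1, h2⟩ := h'.lift_last hE hab hD 0 t
  have h3 : Kil (cl C (Seg l (HS m) a b) : Set Ω) φ := h1.cl
  have k := (l b).kil_iff.1 (h3.mono (h'.line_mem_H hE hab le_rfl))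
  have e := (m b).tan_of_tanS (m b).qH h2
  rw [map_sub, (h b hab b.lt_succ_self).on.dq φ, k.1, k.2, h3 _ hy] at e
  exact t1 (by simpa using e)

/-- A derivation that kills an intermediate line splits. -/
lemma split (hE : Amb E) (h : Ch m l a b) (hD : Dec m a b) {j : ℕ} (h1 : a ≤ j) (h2 : j ≤ b)
    (hθ : Kil (l j).S θ) :
    ∃ φ : Der C Ω, Agr (Seg l (HS m) a j) φ θ ∧ Kil (Seg l (HS m) j b) φ := by
  obtain ⟨ψ, hψ⟩ := hD fun i => if i < j then θ else 0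
  obtain ⟨Z, z1, z2⟩ := (l j).any ψ
  refine ⟨ψ - Z, agr_iff.2 ((h.mono le_rfl h2).kil_Seg (fun i _ _ => (m i).dat_H hE)
    (fun i k1 k2 => ?_) h1 le_rfl fun f hf => by simp [z2 f hf, hθ f hf]),
    (h.mono h1 le_rfl).kil_Seg (fun i _ _ => (m i).dat_H hE) (fun i k1 k2 => ?_) le_rfl h2
      (agr_iff.1 z2)⟩
  · rw [sub_right_comm]
    exact TanS.sub (by simpa [k2, Pt.Tan, HS] using hψ i k1 (by omega)) (tanS_mem z1)
  · exact TanS.sub (by simpa [k1.not_gt, Pt.Tan, HS] using hψ i (by omega) k2) (tanS_mem z1)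

/-- Stability of a field that contains the data. -/
lemma stab_Seg (hE : Amb E) (h : Ch m l a b) {K : IntermediateField C Ω}
    (hK : cl C (Seg l (HS m) a b) ≤ K) (hZ : Z ∈ E) {j : ℕ} (h1 : a ≤ j) (h2 : j ≤ b)
    (hj : ∀ f ∈ (l j).S, Z f ∈ K) : ∀ f ∈ Seg l (HS m) a b, Z f ∈ K := by
  have hH : ∀ i, a ≤ i → i < b → (m i).H ≤ K := fun i k1 k2 f hf =>
    hK (subset_cl _ (sub_Seg (S := HS m) k1 k2 hf))
  have hl : ∀ i, a ≤ i → i ≤ b → (l i).S ⊆ K := fun i k1 k2 => (h.line_mem_H hE k1 k2).trans hK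
  have st : ∀ i, a ≤ i → i < b → ∀ l0 : Ln E ι, On (m i) l0 → l0.S ⊆ K → l0.S ⊆ St Z K →
      (m i).H ≤ St Z K := fun i k1 k2 l0 o e1 e2 f hf => ⟨hH i k1 k2 hf, (m i).stab_H hE hZ
        (hH i k1 k2) (o.dq_mem (fun j => hH i k1 k2 ((m i).qH j))
          (fun j => hH i k1 k2 ((m i).νH hE j)) e1 ((m i).tan Z hZ) fun f hf => (e2 hf).2) hf⟩
  have k : ∀ i, a ≤ i → i ≤ b → (l i).S ⊆ St Z K := fun i k1 k2 =>
    (nat_conn (p := fun i => (l i).S ⊆ St Z K) (fun k k1 k2 =>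
      ⟨fun e => have s := st k k1 k2 _ (h k k1 k2).on (hl k k1 k2.le) e
        (h k k1 k2).line_mem (fun j => s ((m k).qH j)) (fun j => s ((m k).νH hE j))
          fun j => e ((l _).u_mem j),
      fun e => have s := st k k1 k2 _ (h k k1 k2).on' (hl _ (by omega) k2) e
        (h k k1 k2).symm.line_mem (fun j => s ((m k).qH j)) (fun j => s ((m k).νH hE j))
          fun j => e ((l _).u_mem j)⟩) h1 h2 k1 k2).1 fun f hf => ⟨hl j h1 h2 hf, hj f hf⟩
  exact fun f hf => (Seg_subset (T := St Z K) (k a le_rfl (h1.trans h2)) (fun i k1 k2 =>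
    st i k1 k2 _ (h i k1 k2).on (hl i k1 k2.le) (k i k1 k2.le)) hf).2

lemma stab (hE : Amb E) (h : Ch m l a b) {j : ℕ} (h1 : a ≤ j) (h2 : j ≤ b) :
    Stab (l j) (cl C (Seg l (HS m) a b)) :=
  ⟨cl_cl _, h.line_mem_H hE h1 h2, fun _ hZ hj => pres_cl (h.stab_Seg hE le_rfl hZ h1 h2 hj)⟩

/-- First variation of the delay. -/
lemma ddel (h : Ch m l a b) (hab : a ≤ b) (θ : Der C Ω) : θ (del m l a b) =
    ∑ i ∈ Finset.Ico a b, 2 * ((m i).ν ⬝ᵥ (l i).u) * ((m i).ν ⬝ᵥ dv (m i).q θ) +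
      ((l a).x ⬝ᵥ dv (l a).u θ - (l b).x ⬝ᵥ dv (l b).u θ) := by
  induction b, hab using Nat.le_induction with
  | base => simp [del]
  | succ b hab ih =>
    rw [del_split hab b.le_succ, map_add, ih (h.mono le_rfl b.le_succ), del_one,
      (h b hab b.lt_succ_self).ddel, Finset.sum_Ico_succ_top hab]
    ring

lemma ddel_cyc {n : ℕ} (h : Ch m l 0 n) (hc : Cyc l n) (θ : Der C Ω) : θ (del m l 0 n) =
    ∑ i ∈ Finset.range n, 2 * ((m i).ν ⬝ᵥ (l i).u) * ((m i).ν ⬝ᵥ dv (m i).q θ) := by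
  rw [h.ddel (Nat.zero_le _), hc.1, hc.2, sub_self, add_zero, Finset.range_eq_Ico]

lemma del_const {n : ℕ} (hE : Amb E) (h : Ch m l 0 n) (hc : Cyc l n) :
    del m l 0 n ∈ (⊥ : IntermediateField C Ω) :=
  hE.const _ fun θ hθ => by simp [h.ddel_cyc hc, fun i => (m i).tan θ hθ]

/-- Invariance of the two-form along the chain. -/
lemma sym_eq (hE : Amb E) (h : Ch m l a b) {φ : Der C Ω} (hθ : θ ∈ E) (hφ : φ ∈ E) {i : ℕ}
    (h1 : a ≤ i) (h2 : i ≤ b) : (l i).sym θ φ = (l a).sym θ φ := by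
  induction i, h1 using Nat.le_induction with
  | base => rfl
  | succ i h1 ih => rw [(h i h1 h2).sym_eq hE hθ hφ, ih (by omega)]

end Ch

lemma Cyc.rev {n : ℕ} (h : Cyc l n) : Cyc (fun i => (l (n - i)).neg) n := by
  simp [Cyc, Ln.neg, h.1, h.2]

lemma del_rev (n : ℕ) :
    del (fun i => m (n - 1 - i)) (fun i => (l (n - i)).neg) 0 n = del m l 0 n := by
  simp only [del, ← Finset.range_eq_Ico]
  rw [← Finset.sum_range_reflect]
  refine Finset.sum_congr rfl fun i hi => ?_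
  have := Finset.mem_range.1 hi
  rw [show n - 1 - (n - 1 - i) = i by omega, show n - (n - 1 - i) = i + 1 by omega,
    show n - (n - 1 - i + 1) = i by omega]
  simp only [Ln.neg]
  congr 1
  abel

section Ext

variable {C' Ω' : Type} [Field C'] [Field Ω'] [Algebra C' Ω'] [Algebra C Ω']

/-- `θ'` extends `θ` along `i`. -/
def Lft (i : Ω →ₐ[C] Ω') (θ : Der C Ω) (θ' : Der C' Ω') : Prop := ∀ f, θ' (i f) = i (θ f)

/-- An extension of differential fields. -/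
structure Ext (i : Ω →ₐ[C] Ω') (E : Submodule Ω (Der C Ω)) (E' : Submodule Ω' (Der C' Ω')) :
    Prop where
  lift : ∀ θ ∈ E, ∃ θ' ∈ E', ∀ f, θ' (i f) = i (θ f)
  span : E' ≤ Submodule.span Ω' {θ' | θ' ∈ E' ∧ ∃ θ ∈ E, ∀ f, θ' (i f) = i (θ f)}
  inj : ∀ θ' ∈ E', (∀ f, θ' (i f) = 0) → θ' = 0

variable {i : Ω →ₐ[C] Ω'} {E' : Submodule Ω' (Der C' Ω')}

lemma map_dot (i : Ω →ₐ[C] Ω') (p q : ι → Ω) : (i ∘ p) ⬝ᵥ (i ∘ q) = i (p ⬝ᵥ q) := by
  simp [dotProduct]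

omit [Fintype ι] in
lemma dv_lift {θ : Der C Ω} {θ' : Der C' Ω'} (h : ∀ f, θ' (i f) = i (θ f)) (q : ι → Ω) :
    dv (i ∘ q) θ' = i ∘ dv q θ := funext fun j => h (q j)

namespace Ext

variable (h : Ext i E E')
include h

lemma le {P : Submodule Ω' (Der C' Ω')}
    (hP : ∀ θ ∈ E, ∀ θ' ∈ E', (∀ f, θ' (i f) = i (θ f)) → θ' ∈ P) : E' ≤ P :=
  h.span.trans (Submodule.span_le.2 fun θ' ⟨h1, θ, h2, h3⟩ => hP θ h2 θ' h1 h3)

/-- Transfer of a linear relation between differentials. -/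
lemma rel {κ : Type} [Fintype κ] {v g : κ → Ω} {f : Ω} (e : ∀ θ ∈ E, θ f = g ⬝ᵥ dv v θ)
    {θ' : Der C' Ω'} (h' : θ' ∈ E') : θ' (i f) = (i ∘ g) ⬝ᵥ dv (i ∘ v) θ' := by
  have := h.le (P := LinearMap.eqLocus (dif (i f)) ((dotProductBilin Ω' Ω' (i ∘ g)).comp
    (dv (i ∘ v)))) (fun θ h1 θ' _ h3 => show θ' (i f) = (i ∘ g) ⬝ᵥ dv (i ∘ v) θ' by
      rw [dv_lift h3, map_dot, h3, e θ h1]) h'
  exact this

lemma kil {κ : Type} [Fintype κ] {v : κ → Ω} {f : Ω} (e : ∀ θ ∈ E, dv v θ = 0 → θ f = 0)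
    {θ' : Der C' Ω'} (h' : θ' ∈ E') (h0 : dv (i ∘ v) θ' = 0) : θ' (i f) = 0 := by
  obtain ⟨g, hg⟩ := rep_of_kil v (dif f) e
  rw [h.rel hg h', h0, dotProduct_zero]

end Ext

/-- The image of a line. -/
def Ln.map (l : Ln E ι) (h : Ext i E E') : Ln E' ι where
  u := i ∘ l.u
  x := i ∘ l.x
  uu := by rw [map_dot, l.uu, map_one]
  xu := by rw [map_dot, l.xu, map_zero]
  inj θ' h1 h2 h3 := h.inj θ' h1 fun f => h.kil (v := Sum.elim l.u l.x) (fun θ hθ e => by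
      rw [l.inj θ hθ (funext fun j => congrFun e (.inl j)) (funext fun j => congrFun e (.inr j))]
      rfl) h1 (funext fun j => by cases j; exacts [congrFun h2 _, congrFun h3 _])
  surj a b ha hb := by
    classical
    choose θ t1 t2 t3 using fun j => l.surj (Pi.single j 1 - l.u j • l.u) (-l.x j • l.u)
      (by simp [l.uu]) (by simp [l.uu, l.xu])
    choose φ p1 p2 p3 using fun j => l.surj 0 (Pi.single j 1 - l.u j • l.u) (by simp)
      (by simp [l.uu])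
    choose θ' s1 s2 using fun j => h.lift _ (t1 j)
    choose φ' r1 r2 using fun j => h.lift _ (p1 j)
    refine ⟨∑ j, a j • θ' j + ∑ j, b j • φ' j, add_mem (sum_mem fun j _ => E'.smul_mem _ (s1 j))
      (sum_mem fun j _ => E'.smul_mem _ (r1 j)), ?_, ?_⟩ <;> ext k <;>
      simp only [map_add, map_sum, map_smul, dv_lift (s2 _), dv_lift (r2 _), t2, t3, p2, p3,
        Pi.add_apply, Finset.sum_apply, Pi.smul_apply, Function.comp_apply, Pi.sub_apply,
        smul_eq_mul, map_sub, map_mul, map_neg, Pi.zero_apply, map_zero, mul_zero,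
        Finset.sum_const_zero, add_zero, mul_sub, Finset.sum_sub_distrib, ← mul_assoc,
        ← Finset.sum_mul, Pi.single_apply, apply_ite i, map_one, mul_ite, mul_one,
        Finset.sum_ite_eq, Finset.mem_univ, if_true, mul_neg, Finset.sum_neg_distrib]
    · rw [show ∑ j, a j * i (l.u j) = 0 from ha]; ring
    · rw [dotProduct_comm _ a] at hb
      have e : ∑ j, b j * i (l.u j) + ∑ j, a j * i (l.x j) = 0 := hb
      linear_combination (-i (l.u k)) * e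

/-- The image of a point. -/
def Pt.map (m : Pt E ι) (h : Ext i E E') : Pt E' ι where
  q := i ∘ m.q
  ν := i ∘ m.ν
  νν := by rw [map_dot, m.νν, map_one]
  tan θ' h1 := by
    simpa using (h.rel (f := 0) (g := m.ν) (fun θ hθ => by simp [m.tan θ hθ]) h1).symm
  surj w hw := by
    classical
    obtain ⟨Z, z1, z2, -⟩ := m.frame
    choose Z' s1 s2 using fun j => h.lift _ (z1 j)
    refine ⟨∑ j, w j • Z' j, sum_mem fun j _ => E'.smul_mem _ (s1 j), ?_⟩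
    ext k
    simp only [map_sum, map_smul, dv_lift (s2 _), z2, Finset.sum_apply, Pi.smul_apply,
      Function.comp_apply, Pi.sub_apply, smul_eq_mul, map_sub, map_mul, mul_sub,
      Finset.sum_sub_distrib, ← mul_assoc, ← Finset.sum_mul, Pi.single_apply, apply_ite i, map_one,
      map_zero, mul_ite, mul_one, mul_zero, Finset.sum_ite_eq, Finset.mem_univ, if_true]
    rw [dotProduct_comm] at hw
    rw [show ∑ j, w j * i (m.ν j) = 0 from hw]; ring

variable (h : Ext i E E')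

@[simp] lemma Ln.map_u (l : Ln E ι) : (l.map h).u = i ∘ l.u := rfl
@[simp] lemma Ln.map_x (l : Ln E ι) : (l.map h).x = i ∘ l.x := rfl
@[simp] lemma Pt.map_q (m : Pt E ι) : (m.map h).q = i ∘ m.q := rfl
@[simp] lemma Pt.map_ν (m : Pt E ι) : (m.map h).ν = i ∘ m.ν := rfl

lemma Ln.map_S (l : Ln E ι) : (l.map h).S = i '' l.S := by
  simp [Ln.S, range_comp, image_union]

lemma On.map {m : Pt E ι} {l : Ln E ι} (o : On m l) : On (m.map h) (l.map h) :=
  ⟨by ext j; simpa [map_dot] using congrArg i (congrFun o.eq j),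
    by simpa [map_dot] using o.c0⟩

lemma Refl.map {m : Pt E ι} {l l' : Ln E ι} (r : Refl m l l') :
    Refl (m.map h) (l.map h) (l'.map h) :=
  ⟨r.on.map h, r.on'.map h, by ext j; simpa [map_dot, map_ofNat] using congrArg i (congrFun r.eq j)⟩

lemma Ch.map (c : Ch m l a b) : Ch (fun j => (m j).map h) (fun j => (l j).map h) a b :=
  fun j h1 h2 => (c j h1 h2).map h

lemma del_map : del (fun j => (m j).map h) (fun j => (l j).map h) a b = i (del m l a b) := by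
  simp only [del, map_sum, ← map_dot]
  exact Finset.sum_congr rfl fun j _ => by congr 1; ext; simp

lemma Gen.map {m m' : Pt E ι} (g : Gen m m') : Gen (m.map h) (m'.map h) := fun W w1 w2 w3 => by
  classical
  let W0 : Submodule Ω (ι → Ω) :=
    { carrier := {a | i ∘ a ∈ W}
      add_mem' := fun {a b} ha hb => by
        have := W.add_mem ha hb
        rwa [show i ∘ a + i ∘ b = i ∘ (a + b) by ext; simp] at this
      zero_mem' := show i ∘ (0 : ι → Ω) ∈ W by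
        rw [show i ∘ (0 : ι → Ω) = 0 by ext; simp]; exact W.zero_mem
      smul_mem' := fun c a ha => by
        have := W.smul_mem (i c) ha
        rwa [show i c • i ∘ a = i ∘ (c • a) by ext; simp] at this }
  have k : ∀ (p : Pt E ι), ∀ ζ ∈ p.D, ∃ ζ' ∈ (p.map h).D, ∀ f, ζ' (i f) = i (ζ f) := fun p ζ hζ => by
    obtain ⟨ζ', z1, z2⟩ := h.lift ζ hζ.1
    exact ⟨ζ', ⟨z1, (dv_lift z2 _).trans (by rw [(p.mem_D.1 hζ).2]; ext; simp)⟩, z2⟩
  have e := g W0 (fun ζ hζ w hw => by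
    obtain ⟨ζ', z1, z2⟩ := k m ζ hζ
    exact show i ∘ dv w ζ ∈ W from dv_lift z2 w ▸ w1 ζ' z1 _ hw) w2 fun θ hθ => by
      obtain ⟨θ', z1, z2⟩ := k m' θ hθ
      exact show i ∘ dv m.q θ ∈ W from dv_lift z2 m.q ▸ w3 θ' z1
  refine eq_top_iff.2 fun w _ => ?_
  rw [pi_eq_sum_univ' w]
  refine sum_mem fun j _ => W.smul_mem _ ?_
  have : i ∘ Pi.single j 1 ∈ W := e.ge (Submodule.mem_top (x := Pi.single j 1))
  convert this using 1
  ext k
  simp [Pi.single_apply, apply_ite i]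

lemma NoF.map (g : NoF m a b) : NoF (fun j => (m j).map h) a b :=
  fun r s h1 h2 h3 => (g r s h1 h2 h3).map h

lemma KrD_map (m : Pt E ι) {f : Ω} (hf : f ∈ KrS (m.D : Set (Der C Ω))) :
    i f ∈ KrS ((m.map h).D : Set (Der C' Ω')) :=
  (m.map h).mem_KrD.2 fun _ h1 h2 => h.kil (m.mem_KrD.1 hf) h1 h2

variable [Algebra C C'] [IsScalarTower C C' Ω']

omit h in
lemma cl_map {S : Set Ω} {f : Ω} (hf : f ∈ cl C S) : i f ∈ cl C' (i '' S) :=
  H96.Trf.cl_up (map_mem_cl i hf)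

variable [CharZero Ω']

include h in
/-- Independent elements stay independent over the new constants. -/
lemma Ext.indep (hE : Amb E) {κ : Type} {v : κ → Ω} (hv : AlgebraicIndependent C v) :
    AlgebraicIndependent C' (i ∘ v) := by
  classical
  let Δ : Set (Der C Ω') := {δ | (∀ c, δ (algebraMap C' Ω' c) = 0) ∧ ∃ θ ∈ E, ∀ f, δ (i f) = i (θ f)}
  have hI := ind_of_ders (Δ := Δ) (F := i.fieldRange) (K0 := ∅) (by
      rintro δ ⟨-, θ, -, e⟩ _ ⟨f, rfl⟩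
      exact ⟨θ f, (e f).symm⟩) (by
      rintro _ ⟨f, rfl⟩ h0
      obtain ⟨c, rfl⟩ := mem_bot.1 (hE.const f fun θ hθ => by
        obtain ⟨θ', -, e⟩ := h.lift θ hθ
        exact i.toRingHom.injective (((e f).symm.trans (h0 (θ'.restrictScalars C)
          ⟨θ'.map_algebraMap, θ, hθ, e⟩)).trans (map_zero i).symm))
      exact (i.commutes c).symm ▸ (cl C ∅).algebraMap_mem c)
  refine indep_of_dual fun j => ?_
  obtain ⟨θ, -, t⟩ := ext_indep ⊥ (indep_bot (hv.map' (f := i) i.toRingHom.injective)) 0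
    (Pi.single j 1)
  obtain ⟨φ, p1, p2⟩ := hI θ fun _ h => h.elim
  have e : ∀ k, φ ((i ∘ v) k) = Pi.single (M := fun _ => Ω') j 1 k := fun k =>
    (p2 _ ⟨v k, rfl⟩).trans (t k)
  exact ⟨toDer (φ.restrictScalars ℤ) fun c => p1 _ (mem_KrS.2 fun δ hδ => hδ.1 c),
    (e j).trans_ne (by simp), fun k hk => (e k).trans (by simp [hk])⟩

lemma Pt.tr_map (hE : Amb E) (m : Pt E ι) : (m.map h).Tr ↔ m.Tr :=
  ⟨fun t => AlgebraicIndependent.of_comp i (t.restrictScalars (algebraMap C C').injective), h.indep hE⟩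

lemma Pt.H_map (hE : Amb E) (m : Pt E ι) : i '' m.H ⊆ (m.map h).H := by
  rintro _ ⟨f, hf, rfl⟩
  by_cases t : m.Tr
  · rw [m.H_tr t] at hf
    rw [(m.map h).H_tr (h.indep hE t)]
    exact KrD_map h m hf
  · rw [m.H_alg t] at hf
    rw [(m.map h).H_alg fun t' => t ((Pt.tr_map h hE m).1 t'), Pt.map_q, range_comp]
    exact cl_map hf

lemma Pt.Dat.map (hE : Amb E) {m : Pt E ι} {S : Set Ω} (d : m.Dat S) : (m.map h).Dat (i '' S) :=
  ⟨(image_mono d.le).trans (Pt.H_map h hE m), fun j => ⟨_, d.q j, rfl⟩, fun j => ⟨_, d.ν j, rfl⟩⟩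

lemma Seg_map (hE : Amb E) : i '' Seg l (HS m) a b ⊆
    Seg (fun j => (l j).map h) (HS fun j => (m j).map h) a b :=
  image_subset_iff.2 (Seg_subset (image_subset_iff.1 (((l a).map_S h).ge.trans
      (line_sub_Seg (l := fun j => (l j).map h))))
    fun j h1 h2 => image_subset_iff.1 ((Pt.H_map h hE (m j)).trans
      (sub_Seg (S := HS fun j => (m j).map h) h1 h2)))

end Ext

end Pool.Agent.MP_249f74_an.H90
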