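import Pool.Agent.MP_249f74_an.H90.Spec

/-!
Families of hypersurfaces given by closed forms.
-/

open Set IntermediateField

namespace Pool.Agent.MP_249f74_an.H90

open H17 (Der)
open H88 (cl subset_cl)
open H96 (Kil Agr Pres Ind Fm dd Cls Van dif br_apply mem_cl_of_kil cj push cj_apply push_apply
  kil_cj kil_cj' cj_cj cj_cj' mem_cl_image)

variable {C Ω ι κ : Type} [Field C] [Field Ω] [Algebra C Ω] [Fintype ι] [Fintype κ]

/-- A form that vanishes on the common kernel of finitely many forms. -/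
lemma rep_forms (ν : κ → Fm C Ω) (ω : Fm C Ω) (h : ∀ θ, (∀ k, ν k θ = 0) → ω θ = 0) :
    ∃ a : κ → Ω, ∀ θ, ω θ = ∑ k, a k * ν k θ := by
  obtain ⟨a, ha⟩ := (Submodule.mem_span_range_iff_exists_fun Ω).1
    (mem_span_of_iInf_ker_le_ker (L := ν) (K := ω) fun θ hθ =>
      h θ fun k => (Submodule.mem_iInf _).1 hθ k)
  exact ⟨a, fun θ => by simp [← ha]⟩

omit [Fintype ι] in
lemma dv_cj (σ : Ω ≃ₐ[C] Ω) (q : ι → Ω) (θ : Der C Ω) : dv (σ ∘ q) (cj σ θ) = σ ∘ dv q θ := by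
  ext; simp

omit [Fintype ι] in
lemma dv_cj' (σ : Ω ≃ₐ[C] Ω) (q : ι → Ω) (θ : Der C Ω) :
    dv (σ ∘ q) θ = σ ∘ dv q (cj σ.symm θ) := by
  ext; simp

lemma aut_dot (σ : Ω ≃ₐ[C] Ω) (p q : ι → Ω) : (σ ∘ p) ⬝ᵥ (σ ∘ q) = σ (p ⬝ᵥ q) := by
  simp [dotProduct]

lemma push_cj (σ : Ω ≃ₐ[C] Ω) (ω : Fm C Ω) (θ : Der C Ω) : push σ ω (cj σ θ) = σ (ω θ) := by
  rw [push_apply, cj_cj']

namespace Fam

variable {S : Set Ω} {q n : ι → Ω} {ν : κ → Fm C Ω} (F : Fam S q n ν) {θ φ : Der C Ω}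
include F

lemma br (h : ∀ k, ν k θ = 0) (h' : ∀ k, ν k φ = 0) (k : κ) : ν k ⁅θ, φ⁆ = 0 := by
  simpa [dd, h, h'] using F.cls k θ φ

lemma kil_br (h : Kil S φ) (θ : Der C Ω) (k : κ) : ν k ⁅φ, θ⁆ = φ (ν k θ) := by
  have := F.cls k φ θ
  rw [dd, F.van k φ h, map_zero, sub_zero, sub_eq_zero] at this
  exact this.symm

lemma kil_q (h : Kil S φ) : dv q φ = 0 := funext fun j => h _ (F.hq j)

lemma kil_n (h : Kil S φ) : dv n φ = 0 := funext fun j => h _ (F.hn j)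

lemma II_symm (h : ∀ k, ν k θ = 0) (h' : ∀ k, ν k φ = 0) :
    dv n θ ⬝ᵥ dv q φ = dv n φ ⬝ᵥ dv q θ := by
  have a1 := dv_dot n (dv q φ) θ
  have a2 := dv_dot n (dv q θ) φ
  have a3 := F.tan _ (F.br h h')
  rw [F.tan _ h', map_zero] at a1
  rw [F.tan _ h, map_zero] at a2
  rw [dv_br, dotProduct_sub] at a3
  linear_combination a2 - a1 - a3

/-- Transport by an automorphism. -/
lemma push (σ : Ω ≃ₐ[C] Ω) : Fam (σ '' S) (σ ∘ q) (σ ∘ n) fun k => push σ (ν k) := by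
  have k0 : ∀ θ : Der C Ω, (∀ k, H96.push σ (ν k) θ = 0) → ∀ k, ν k (cj σ.symm θ) = 0 :=
    fun θ h k => by simpa using h k
  refine ⟨F.fin.image _, fun j => ⟨_, F.hq j, rfl⟩, fun j => ⟨_, F.hn j, rfl⟩,
    by rw [aut_dot, F.nn, map_one], fun k => (F.cls k).push σ, fun k => (F.van k).push σ,
    fun θ h => by rw [dv_cj', aut_dot, F.tan _ (k0 θ h), map_zero], fun θ h h0 => ?_,
    fun w hw => ?_, fun v => ?_, ?_, ?_⟩
  · refine kil_cj'.1 (F.kil _ (k0 θ h) (funext fun j => ?_))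
    simpa using congrFun h0 j
  · obtain ⟨θ, h1, h2⟩ := F.surj (σ.symm ∘ w) (σ.injective (by
      rw [← aut_dot, map_zero, ← hw]; congr 1; ext; simp))
    exact ⟨cj σ θ, fun k => by rw [push_cj, h1, map_zero], by rw [dv_cj, h2]; ext; simp⟩
  · obtain ⟨θ, h⟩ := F.ind (σ.symm ∘ v)
    exact ⟨cj σ θ, fun k => by rw [push_cj, h]; simp⟩
  · intro f hf h
    obtain ⟨f, rfl⟩ := σ.surjective f
    obtain ⟨c, rfl⟩ := mem_bot.1 (F.const f (mem_cl_image.1 hf) fun θ hθ => by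
      simpa using h (cj σ θ) fun k => by rw [push_cj, hθ, map_zero])
    exact mem_bot.2 ⟨c, (σ.commutes c).symm⟩
  · obtain ⟨θ, h⟩ := F.tr
    exact ⟨cj σ θ, by rw [dv_cj, aut_dot]; simpa using h⟩

lemma uniq {a : κ → Ω} {g : ι → Ω} (hg : n ⬝ᵥ g = 0)
    (h : ∀ θ, ∑ k, a k * ν k θ + g ⬝ᵥ dv q θ = 0) : a = 0 ∧ g = 0 := by
  classical
  have h1 : g = 0 := eq_zero_of_par F.nn (v := n) (by simp [F.nn]) (fun w hw => by
    obtain ⟨θ, t1, rfl⟩ := F.surj w hw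
    simpa [t1] using h θ) hg
  refine ⟨funext fun k => ?_, h1⟩
  obtain ⟨θ, t⟩ := F.ind (Pi.single k 1)
  simpa [t, h1, Pi.single_apply] using h θ

variable [CharZero Ω]

/-- Coefficients of an invariant form. -/
lemma coef {ω : Fm C Ω} (h0 : ∀ θ, (∀ k, ν k θ = 0) → dv q θ = 0 → ω θ = 0)
    (h1 : ∀ φ : Der C Ω, Kil S φ → ∀ θ, ω ⁅φ, θ⁆ = φ (ω θ)) :
    ∃ (a : κ → Ω) (g : ι → Ω), (∀ k, a k ∈ cl C S) ∧ (∀ j, g j ∈ cl C S) ∧ n ⬝ᵥ g = 0 ∧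
      ∀ θ, ω θ = ∑ k, a k * ν k θ + g ⬝ᵥ dv q θ := by
  obtain ⟨c, hc⟩ := rep_forms (Sum.elim ν fun j => dif (q j)) ω fun θ h =>
    h0 θ (fun k => h (.inl k)) (funext fun j => h (.inr j))
  obtain ⟨b, hb⟩ := rep_forms ν ((dotProductBilin Ω Ω n).comp (dv q)) F.tan
  have e : ∀ θ, ω θ = ∑ k, (c (.inl k) + (n ⬝ᵥ fun j => c (.inr j)) * b k) * ν k θ +
      ((fun j => c (.inr j)) - (n ⬝ᵥ fun j => c (.inr j)) • n) ⬝ᵥ dv q θ := fun θ => by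
    have : n ⬝ᵥ dv q θ = _ := hb θ
    rw [hc, Fintype.sum_sum_type, sub_dotProduct, smul_dotProduct, this]
    simp only [add_mul, Finset.sum_add_distrib, mul_assoc, ← Finset.mul_sum, smul_eq_mul]
    simp [dotProduct]
  have hg : n ⬝ᵥ ((fun j => c (.inr j)) - (n ⬝ᵥ fun j => c (.inr j)) • n) = 0 := by simp [F.nn]
  generalize ((fun j => c (.inr j)) - (n ⬝ᵥ fun j => c (.inr j)) • n) = g at e hg
  obtain ⟨a, ha⟩ : ∃ a : κ → Ω, ∀ θ, ω θ = ∑ k, a k * ν k θ + g ⬝ᵥ dv q θ := ⟨_, e⟩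
  have key : ∀ φ : Der C Ω, Kil S φ → dv a φ = 0 ∧ dv g φ = 0 := fun φ hφ => F.uniq (by
      have := dv_dot n g φ
      rw [hg, map_zero, F.kil_n hφ] at this
      simpa using this.symm) fun θ => by
    have := h1 φ hφ θ
    rw [ha, ha, map_add, map_sum, dv_dot, dv_br, F.kil_q hφ, dv_zero, sub_zero] at this
    simp only [F.kil_br hφ, Derivation.leibniz, smul_eq_mul, Finset.sum_add_distrib] at this
    simp only [dv_apply, mul_comm (φ (a _))]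
    linear_combination -this
  exact ⟨a, g, fun k => mem_cl_of_kil fun φ hφ => congrFun (key φ hφ).1 k,
    fun j => mem_cl_of_kil fun φ hφ => congrFun (key φ hφ).2 j, hg, ha⟩

/-- The differential of a function on the family. -/
lemma grad {h : Ω} (hh : h ∈ cl C S) :
    ∃ (a : κ → Ω) (g : ι → Ω), (∀ k, a k ∈ cl C S) ∧ (∀ j, g j ∈ cl C S) ∧ n ⬝ᵥ g = 0 ∧
      ∀ θ, θ h = ∑ k, a k * ν k θ + g ⬝ᵥ dv q θ :=
  F.coef (ω := dif h) (fun θ h1 h2 => (F.kil θ h1 h2).cl h hh) fun φ hφ θ => by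
    simp [br_apply, hφ.cl h hh]

/-- The normal displacement. -/
lemma nk : ∃ c : κ → Ω, (∀ k, c k ∈ cl C S) ∧ (∃ k, c k ≠ 0) ∧
    ∀ θ, n ⬝ᵥ dv q θ = ∑ k, c k * ν k θ := by
  obtain ⟨a, g, h1, -, h3, h4⟩ := F.coef (ω := (dotProductBilin Ω Ω n).comp (dv q))
    (fun θ h _ => F.tan θ h) fun φ hφ θ => show n ⬝ᵥ dv q ⁅φ, θ⁆ = φ (n ⬝ᵥ dv q θ) by
      rw [dv_dot, dv_br, F.kil_q hφ, F.kil_n hφ, dv_zero]; simp
  have h5 : g = 0 := eq_zero_of_par F.nn (v := n) (by simp [F.nn]) (fun w hw => by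
    obtain ⟨θ, t1, rfl⟩ := F.surj w hw
    simpa [t1, hw] using (h4 θ).symm) h3
  have h6 : ∀ θ, n ⬝ᵥ dv q θ = ∑ k, a k * ν k θ := fun θ => by simpa [h5] using h4 θ
  refine ⟨a, h1, ?_, h6⟩
  by_contra hn
  push Not at hn
  obtain ⟨θ, hθ⟩ := F.tr
  exact hθ (by simp [h6, hn])

/-- A generic tangent direction is not asymptotic. -/
lemma II_ne {g : ι → ι → Ω} (hg : ∀ j i, g j i ∈ cl C S)
    (e : ∀ θ, (∀ k, ν k θ = 0) → ∀ j, θ (n j) = g j ⬝ᵥ dv q θ) {U : ι → Ω} (hU : n ⬝ᵥ U = 0)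
    (gen : ∀ w, n ⬝ᵥ w = 0 → ∃ θ : Der C Ω, Kil S θ ∧ dv U θ = w) :
    ∑ j, g j ⬝ᵥ U * U j ≠ 0 := fun h0 => by
  classical
  have e1 : ∀ X, (∀ k, ν k X = 0) → ∀ w, dv n X ⬝ᵥ w = ∑ j, g j ⬝ᵥ dv q X * w j := fun X hX w =>
    Finset.sum_congr rfl fun j _ => by rw [← e X hX]; rfl
  have sy : ∀ a b, n ⬝ᵥ a = 0 → n ⬝ᵥ b = 0 → ∑ j, g j ⬝ᵥ a * b j = ∑ j, g j ⬝ᵥ b * a j :=
    fun a b ha hb => by
      obtain ⟨X, x1, rfl⟩ := F.surj a ha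
      obtain ⟨Y, y1, rfl⟩ := F.surj b hb
      rw [← e1 X x1, ← e1 Y y1, F.II_symm x1 y1]
  have d : ∀ ζ : Der C Ω, Kil S ζ → ∀ a b : ι → Ω, ζ (∑ j, g j ⬝ᵥ a * b j) =
      ∑ j, g j ⬝ᵥ dv a ζ * b j + ∑ j, g j ⬝ᵥ a * dv b ζ j := fun ζ hζ a b => by
    rw [map_sum, ← Finset.sum_add_distrib]
    refine Finset.sum_congr rfl fun j _ => ?_
    rw [Derivation.leibniz, dv_dot, show dv (g j) ζ = 0 from funext fun i => hζ.cl _ (hg j i)]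
    simp; ring
  have a1 : ∀ w, n ⬝ᵥ w = 0 → ∑ j, g j ⬝ᵥ w * U j = 0 := fun w hw => by
    obtain ⟨ζ, z1, z2⟩ := gen w hw
    have := d ζ z1 U U
    rw [h0, map_zero, z2, sy U w hU hw] at this
    linear_combination (-1 / 2 : Ω) * this
  have a2 : ∀ X, (∀ k, ν k X = 0) → dv n X = 0 := fun X hX => funext fun i => by
    have hi : n ⬝ᵥ (Pi.single i 1 - n i • n) = 0 := by simp [F.nn]
    obtain ⟨ζ, z1, z2⟩ := gen _ (F.tan X hX)
    have := d ζ z1 (Pi.single i 1 - n i • n) U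
    rw [a1 _ hi, map_zero, z2, sy _ _ hi (F.tan X hX), ← e1 X hX, dv_sub, dv_smul, dv_single,
      F.kil_n z1, z1 _ (F.hn i)] at this
    simpa [unit_dot F.nn] using this.symm
  obtain ⟨θ, hθ⟩ := F.tr
  have k : ∀ f ∈ cl C S, (∀ X, (∀ k, ν k X = 0) → X f = 0) → θ f = 0 := fun f h1 hf => by
    obtain ⟨c, rfl⟩ := mem_bot.1 (F.const f h1 hf)
    exact θ.map_algebraMap c
  have h1 := k (n ⬝ᵥ q) (dot_mem (fun j => subset_cl _ (F.hn j)) fun j => subset_cl _ (F.hq j))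
    fun X hX => by rw [dv_dot, a2 X hX, F.tan X hX]; simp
  rw [dv_dot, show dv n θ = 0 from funext fun j => k _ (subset_cl _ (F.hn j)) fun X hX =>
    congrFun (a2 X hX) j] at h1
  exact hθ (by simpa using h1)

end Fam

end Pool.Agent.MP_249f74_an.H90
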