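import Pool.Agent.MP_249f74_an.H90.Spec

/-!
A function all of whose derivatives along a level hypersurface vanish at a point vanishes to
infinite order along the hypersurface.
-/

namespace Pool.Agent.MP_249f74_an.H90

namespace Flat

open Filter Topology Asymptotics

variable {d : ℕ} {f g : EuclideanSpace ℝ (Fin d) → ℝ} {q : EuclideanSpace ℝ (Fin d)}

lemma fd_inner (f : EuclideanSpace ℝ (Fin d) → ℝ) (x v : EuclideanSpace ℝ (Fin d)) :
    fderiv ℝ f x v = inner ℝ (gradient f x) v :=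
  (InnerProductSpace.toDual_symm_apply (𝕜 := ℝ) (x := v) (y := fderiv ℝ f x)).symm

lemma fd_sum (f : EuclideanSpace ℝ (Fin d) → ℝ) (x v : EuclideanSpace ℝ (Fin d)) :
    fderiv ℝ f x v = ∑ j, v j * gradient f x j := by
  rw [fd_inner, PiLp.inner_apply]
  simp

lemma fd_single (f : EuclideanSpace ℝ (Fin d) → ℝ) (x : EuclideanSpace ℝ (Fin d)) (j : Fin d)
    (c : ℝ) : fderiv ℝ f x (EuclideanSpace.single j c) = c * gradient f x j := by
  rw [fd_inner, EuclideanSpace.inner_single_right]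
  simp

lemma grad (hf : ContDiff ℝ ((⊤ : ℕ∞) : WithTop ℕ∞) f) (j : Fin d) :
    ContDiff ℝ ((⊤ : ℕ∞) : WithTop ℕ∞) fun x => gradient f x j := by
  have e : (fun x => gradient f x j) = fun x => fderiv ℝ f x (EuclideanSpace.single j 1) := by
    ext x
    rw [fd_single, one_mul]
  rw [e]
  exact (hf.fderiv_right (by simp)).clm_apply contDiff_const

lemma tg_eq (f g : EuclideanSpace ℝ (Fin d) → ℝ) (a : Fin d × Fin d) :
    tg f a g = fun x =>
      gradient f x a.1 * gradient g x a.2 - gradient f x a.2 * gradient g x a.1 := by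
  ext x
  rw [tg, map_sub, fd_single, fd_single]

lemma tg_smooth (hf : ContDiff ℝ ((⊤ : ℕ∞) : WithTop ℕ∞) f)
    (hg : ContDiff ℝ ((⊤ : ℕ∞) : WithTop ℕ∞) g) (a : Fin d × Fin d) :
    ContDiff ℝ ((⊤ : ℕ∞) : WithTop ℕ∞) (tg f a g) := by
  rw [tg_eq]
  exact ((grad hf _).mul (grad hg _)).sub ((grad hf _).mul (grad hg _))

/-- Derivatives in tangent directions are combinations of the tangent fields. -/
lemma tan_eq (g : EuclideanSpace ℝ (Fin d) → ℝ) {x v : EuclideanSpace ℝ (Fin d)}
    (h : fderiv ℝ f x v = 0) (i : Fin d) :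
    gradient f x i * fderiv ℝ g x v = ∑ j, v j * tg f (i, j) g x := by
  rw [fd_sum] at h
  simp only [tg_eq, fd_sum, mul_sub, Finset.sum_sub_distrib, Finset.mul_sum, ← mul_assoc,
    ← Finset.sum_mul, h, zero_mul, sub_zero]
  exact Finset.sum_congr rfl fun _ _ => by ring

/-- A retraction onto the level set. -/
lemma exists_param (hf : ContDiff ℝ ((⊤ : ℕ∞) : WithTop ℕ∞) f) (h0 : f q = 0)
    (hq : gradient f q ≠ 0) :
    ∃ γ : EuclideanSpace ℝ (Fin d) → EuclideanSpace ℝ (Fin d), γ q = q ∧ ContDiffAt ℝ 1 γ q ∧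
      (∀ᶠ y in 𝓝 q, f (γ y) = 0) ∧ ∀ᶠ x in 𝓝 q, f x = 0 → γ x = x := by
  set n := gradient f q with hn
  have hnn : inner ℝ n n ≠ 0 := inner_self_ne_zero.2 hq
  let p : EuclideanSpace ℝ (Fin d) → EuclideanSpace ℝ (Fin d) := fun x =>
    x - (inner ℝ n (x - q) / inner ℝ n n) • n
  let Φ : EuclideanSpace ℝ (Fin d) → EuclideanSpace ℝ (Fin d) := fun x =>
    p x + (f x / inner ℝ n n) • n
  have hi : ContDiff ℝ 1 fun x : EuclideanSpace ℝ (Fin d) => inner ℝ n (x - q) :=
    contDiff_const.inner ℝ (contDiff_id.sub contDiff_const)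
  have hp : ContDiff ℝ 1 p := contDiff_id.sub ((hi.div_const _).smul contDiff_const)
  have hΦ : ContDiff ℝ 1 Φ := hp.add (((hf.of_le (by simp)).div_const _).smul contDiff_const)
  have hΦ' : HasFDerivAt Φ ((ContinuousLinearEquiv.refl ℝ (EuclideanSpace ℝ (Fin d)) :
      _ ≃L[ℝ] _) : EuclideanSpace ℝ (Fin d) →L[ℝ] EuclideanSpace ℝ (Fin d)) q := by
    have a1 : HasFDerivAt (fun x : EuclideanSpace ℝ (Fin d) => inner ℝ n (x - q))
        (fderiv ℝ f q) q := by
      have := (innerSL ℝ n).hasFDerivAt.comp q ((hasFDerivAt_id q).sub_const q)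
      refine this.congr_fderiv ?_
      ext v
      simp [hn]
    have a2 := ((hf.differentiable (by simp)) q).hasFDerivAt
    have a3 := ((hasFDerivAt_id q).sub ((a1.mul_const (inner ℝ n n)⁻¹).smul_const n)).add
      ((a2.mul_const (inner ℝ n n)⁻¹).smul_const n)
    rw [sub_add_cancel] at a3
    exact a3
  have hq0 : Φ q = q := by simp [Φ, p, h0]
  have hp0 : p q = q := by simp [p]
  have hf0 : ∀ x, inner ℝ n (Φ x - q) = f x := fun x => by
    have : Φ x - q = x - q + ((f x - inner ℝ n (x - q)) / inner ℝ n n) • n := by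
      simp only [Φ, p, sub_div, sub_smul]; abel
    rw [this, inner_add_right, inner_smul_right, div_mul_cancel₀ _ hnn, add_sub_cancel]
  have hp1 : ∀ x, inner ℝ n (p x - q) = 0 := fun x => by
    have : p x - q = x - q - (inner ℝ n (x - q) / inner ℝ n n) • n := by
      simp only [p]; abel
    rw [this, inner_sub_right, inner_smul_right, div_mul_cancel₀ _ hnn, sub_self]
  let Ψ := hΦ.contDiffAt.localInverse hΦ' one_ne_zero
  have h1 : ContDiffAt ℝ 1 Ψ (p q) :=
    (hq0.trans hp0.symm) ▸ hΦ.contDiffAt.to_localInverse hΦ' one_ne_zero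
  have h2 : ∀ᶠ x in 𝓝 q, Ψ (Φ x) = x :=
    (hΦ.contDiffAt.hasStrictFDerivAt' hΦ' one_ne_zero).eventually_left_inverse
  have h3 : ∀ᶠ y in 𝓝 (p q), Φ (Ψ y) = y := (hq0.trans hp0.symm) ▸
    (hΦ.contDiffAt.hasStrictFDerivAt' hΦ' one_ne_zero).eventually_right_inverse
  refine ⟨fun y => Ψ (p y), ?_, h1.comp q hp.contDiffAt, ?_, ?_⟩
  · have := h2.self_of_nhds
    rwa [hq0.trans hp0.symm] at this
  · filter_upwards [hp.continuous.continuousAt.eventually h3] with y hy
    rw [← hf0, hy, hp1]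
  · filter_upwards [h2] with x hx h
    simpa [Φ, h] using hx

lemma flat_fun (hf : ContDiff ℝ ((⊤ : ℕ∞) : WithTop ℕ∞) f) (h0 : f q = 0) (hq : gradient f q ≠ 0)
    (m : ℕ) (hg : ContDiff ℝ ((⊤ : ℕ∞) : WithTop ℕ∞) g)
    (h : ∀ L : List (Fin d × Fin d), L.foldr (tg f) g q = 0) :
    g =O[𝓝[{x | f x = 0}] q] fun x => ‖x - q‖ ^ m := by
  obtain ⟨γ, g0, g1, g2, g3⟩ := exists_param hf h0 hq
  obtain ⟨i, hi⟩ : ∃ i, gradient f q i ≠ 0 := by
    by_contra hn
    exact hq (by ext i; simpa using not_exists.1 hn i)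
  have c0 : ContinuousAt (fun y => gradient f (γ y) i) q :=
    (grad hf i).continuous.continuousAt.comp g1.continuousAt
  have c1 : gradient f (γ q) i ≠ 0 := by rwa [g0]
  let B : Fin d → EuclideanSpace ℝ (Fin d) → EuclideanSpace ℝ (Fin d) →L[ℝ] ℝ := fun j y =>
    (gradient f (γ y) i)⁻¹ • (EuclideanSpace.proj j).comp (fderiv ℝ γ y)
  have cB : ∀ j, ContinuousAt (B j) q := fun j =>
    (c0.inv₀ c1).smul (continuousAt_const.clm_comp (g1.continuousAt_fderiv one_ne_zero))
  have hd : ∀ᶠ y in 𝓝 q, ∀ g : EuclideanSpace ℝ (Fin d) → ℝ, Differentiable ℝ g →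
      HasFDerivAt (fun y => g (γ y)) (∑ j, tg f (i, j) g (γ y) • B j y) y := by
    filter_upwards [g1.eventually (by simp), c0.eventually_ne c1, g2.eventually_nhds]
      with y t1 t2 t3 g hg
    have d1 := (t1.differentiableAt one_ne_zero).hasFDerivAt
    have d2 := ((hf.differentiable (by simp) _).hasFDerivAt.comp y d1).unique
      ((hasFDerivAt_const (0 : ℝ) y).congr_of_eventuallyEq t3)
    refine ((hg _).hasFDerivAt.comp y d1).congr_fderiv ?_
    ext v
    have := tan_eq g (v := fderiv ℝ γ y v) (congrArg (fun A => A v) d2) i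
    simp only [ContinuousLinearMap.comp_apply, sum_apply, smul_apply, B, smul_eq_mul]
    rw [← mul_right_inj' t2, this, Finset.mul_sum]
    exact Finset.sum_congr rfl fun j _ => by simp; field_simp
  have key : ∀ m : ℕ, ∀ g : EuclideanSpace ℝ (Fin d) → ℝ, ContDiff ℝ ((⊤ : ℕ∞) : WithTop ℕ∞) g →
      (∀ L : List (Fin d × Fin d), L.foldr (tg f) g q = 0) →
      (fun y => g (γ y)) =o[𝓝 q] fun y => ‖y - q‖ ^ m := by
    intro m
    induction m with
    | zero =>
      intro g hg h
      have := (hg.continuous.continuousAt.comp g1.continuousAt).tendsto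
      simp only [Function.comp_def, g0, show g q = 0 from h []] at this
      simpa using this
    | succ m ih =>
      intro g hg h
      obtain ⟨ε, hε, hb⟩ := Metric.eventually_nhds_iff_ball.1 hd
      have h1 := (convex_ball q ε).isLittleO_pow_succ (n := m) (Metric.mem_ball_self hε)
        (fun y hy => (hb y hy g (hg.differentiable (by simp))).hasFDerivWithinAt) ?_
      · rw [nhdsWithin_eq_nhds.2 (Metric.ball_mem_nhds _ hε)] at h1
        simpa only [g0, show g q = 0 from h [], sub_zero] using h1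
      · refine IsLittleO.fun_sum fun j _ => ?_
        have := (ih _ (tg_smooth hf hg (i, j)) fun L => by
          simpa using h (L ++ [(i, j)])).smul_isBigO ((cB j).tendsto.isBigO_one ℝ)
        simpa only [smul_eq_mul, mul_one] using this.mono nhdsWithin_le_nhds
  refine ((key m g hg h).isBigO.mono nhdsWithin_le_nhds).congr' ?_ EventuallyEq.rfl
  filter_upwards [self_mem_nhdsWithin, nhdsWithin_le_nhds g3] with x hx h
  rw [h hx]

lemma pol_smooth (P : MvPolynomial (Fin d) ℝ) : ContDiff ℝ ((⊤ : ℕ∞) : WithTop ℕ∞)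
    fun x : EuclideanSpace ℝ (Fin d) => MvPolynomial.eval (fun j => x j) P := by
  induction P using MvPolynomial.induction_on with
  | C a => simpa using contDiff_const
  | add p q hp hq => simpa using hp.add hq
  | mul_X p j hp => simpa using hp.mul (contDiff_euclidean.1 contDiff_id j)

end Flat

theorem flat : StmtFLAT := fun _ _ hf _ P h0 hq h m =>
  Flat.flat_fun hf h0 hq m (Flat.pol_smooth P) h

end Pool.Agent.MP_249f74_an.H90
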