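import Pool.Agent.MP_249f74_an.H90.Spec

/-!
Pulling back through the inner mirrors.
-/

open Set IntermediateField

namespace Pool.Agent.MP_249f74_an.H90

open H17 (Der cl_le cl_mono)
open H88 (cl subset_cl)
open H96 (Kil Agr Pres Fm dd Cls Van agr_iff pres_cl cl_cl sep_pres exists_dual dd_sum)

namespace Pb

variable {C Ω ι κ : Type} [Field C] [Field Ω] [CharZero Ω] [Algebra C Ω] [Fintype ι] [Fintype κ]
  {E : Submodule Ω (Der C Ω)} {m : ℕ → Pt E ι} {l : ℕ → Ln E ι} {a b : ℕ} {S : ℕ → Set Ω}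
  {ν γ : κ → Fm C Ω} {lam : κ → Ω} {G : Set (Der C Ω)}

/-- A linear combination of forms. -/
noncomputable def cmb (lam : κ → Ω) (ν : κ → Fm C Ω) : Fm C Ω := ∑ k, lam k • ν k

omit [CharZero Ω] in
lemma cmb_apply (θ : Der C Ω) : cmb lam ν θ = ∑ k, lam k * ν k θ := by
  simp [cmb, LinearMap.sum_apply]

omit [CharZero Ω] in
lemma dd_cmb (hν : ∀ k, Cls (ν k)) {θ φ : Der C Ω} (h : ∀ k, θ (lam k) = 0)
    (h' : ∀ k, φ (lam k) = 0) : dd (cmb lam ν) θ φ = 0 := by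
  rw [cmb, dd_sum]
  refine Finset.sum_eq_zero fun k _ => ?_
  have := hν k θ φ
  simp only [dd, LinearMap.smul_apply, smul_eq_mul, Derivation.leibniz, h, h', mul_zero,
    add_zero] at this ⊢
  linear_combination lam k * this

/-- Every derivation of `M` that kills one of the lines lifts. -/
lemma lift (hE : Amb E) (hc : Ch m l a b) (hD : Dec m a b) (hS : ∀ i, (m i).Dat (S i))
    (hG : Grp (cl C (Seg l S a b)) (l a).S (l b).S ν γ lam G) {j : ℕ} (h1 : a ≤ j) (h2 : j ≤ b)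
    {θ : Der C Ω} (hθ : Pres (cl C (Seg l S a b)) θ) (h0 : Kil (l j).S θ) :
    ∃ ψ ∈ G, Agr (cl C (Seg l S a b)) ψ θ := by
  obtain ⟨φ, p1, p2⟩ := hc.split hE hD h1 h2 h0
  have hT : Seg l S a b ⊆ Seg l (HS m) a j ∪ Seg l (HS m) j b :=
    Seg_subset (line_sub_Seg.trans subset_union_left) fun i k1 k2 => by
      rcases Nat.lt_or_ge i j with k | k
      · exact (hS i).le.trans ((sub_Seg (S := HS m) k1 k).trans subset_union_left)
      · exact (hS i).le.trans ((sub_Seg (S := HS m) k k2).trans subset_union_right)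
  have hφ : Pres (cl C (Seg l S a b)) φ := pres_cl fun s hs => by
    rcases hT hs with h | h
    · rw [p1 s h]; exact hθ s (subset_cl _ hs)
    · rw [p2 s h]; exact zero_mem _
  obtain ⟨ψ, q1, q2, -⟩ := hG.lb φ hφ (p2.cl.mono ((hc.mono h1 le_rfl).line_mem_H hE h2 le_rfl))
  obtain ⟨ψ', r1, r2, -⟩ := hG.la (θ - φ) (fun f hf => sub_mem (hθ f hf) (hφ f hf))
    (agr_iff.1 (p1.symm.mono line_sub_Seg))
  exact ⟨ψ + ψ', hG.lie.add _ q1 _ r1, fun f hf => by simp [q2 f hf, r2 f hf]⟩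

lemma lam_mem (hE : Amb E) (hc : Ch m l a b) (hD : Dec m a b) (hS : ∀ i, (m i).Dat (S i))
    (hG : Grp (cl C (Seg l S a b)) (l a).S (l b).S ν γ lam G) {j : ℕ} (h1 : a ≤ j) (h2 : j ≤ b)
    (k : κ) : lam k ∈ cl C (l j).S := by
  by_contra hn
  obtain ⟨θ, t1, t2, t3⟩ := sep_pres (cl_cl _) (hc.line_mem (fun i _ _ => hS i) h1 h2) (hG.mem k) hn
  obtain ⟨ψ, q1, q2⟩ := lift hE hc hD hS hG h1 h2 t1 t2
  exact one_ne_zero (t3.symm.trans ((q2 _ (hG.mem k)).symm.trans (hG.con k ψ q1)))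

omit [CharZero Ω] [Fintype ι] in
lemma base {M : IntermediateField C Ω} {LA LB : Set Ω} (hG : Grp M LA LB ν γ lam G) {θ : Der C Ω}
    (hθ : θ ∈ G) (h0 : Kil LB θ) : cmb lam ν θ = 0 := by
  obtain ⟨φ, p1, p2, p3⟩ := hG.lb θ (hG.lie.pres θ hθ) h0
  have h := hG.ann _ (hG.lie.add _ hθ _ (hG.lie.smul (-1) (neg_mem (one_mem _)) _ p1))
    fun f hf => by simp [p2 f hf]
  simpa [cmb_apply, p3] using h

/-- The equation at the mirror `i`. -/
lemma star (hE : Amb E) (hc : Ch m l a b) (hD : Dec m a b) (hf : ∀ i, (S i).Finite)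
    (hS : ∀ i, (m i).Dat (S i)) {ω : ℕ → κ → Fm C Ω}
    (hω : ∀ i, a ≤ i → i < b → ∀ k, Van (ω i k) (S i))
    (hG : Grp (cl C (Seg l S a b)) (l a).S (l b).S ν (fun k => ∑ i ∈ Finset.Ico a b, ω i k) lam G)
    {i : ℕ} (h1 : a ≤ i) (h2 : i < b) (h3 : ∀ j, i < j → j < b → ∀ θ, cmb lam (ω j) θ = 0)
    {B : Fm C Ω} (hB : Van B (l (i + 1)).S) (hB' : ∀ θ ∈ G, cmb lam ν θ = B θ) {θ : Der C Ω}
    (h0 : Kil (l i).S θ) : B θ = cmb lam (ω i) θ := by
  have hv : ∀ j, a ≤ j → j < b → Van (cmb lam (ω j)) (S j) := fun j k1 k2 φ hφ => by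
    simp [cmb_apply, hω j k1 k2 _ φ hφ]
  have hl : (l (i + 1)).S ⊆ cl C (Seg l S a b) := hc.line_mem (fun i _ _ => hS i) (by omega) h2
  obtain ⟨φ, p1, p2⟩ := hc.split hE hD h1 h2.le h0
  have e1 : B φ = 0 := hB φ (p2.cl.mono ((hc.mono h1 le_rfl).line_mem_H hE i.le_succ h2))
  have e2 : cmb lam (ω i) φ = 0 :=
    hv i h1 h2 φ (p2.mono ((hS i).le.trans (sub_Seg (S := HS m) le_rfl h2)))
  obtain ⟨n, v, e, -, -, d1, -, d2⟩ := exists_dual (cl_cl (Seg l S a b)) (cl C (Seg l S a i))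
    (cl_le (hc.Seg_le (fun i _ _ => hS i) le_rfl (h1.trans h2.le) h2.le))
    (Seg_finite (l := l) (a := a) (b := b) fun i _ _ => hf i) (subset_cl _)
  have d3 := (d2 (θ - φ) ((agr_iff.1 p1.symm).mono (Seg_mono fun j _ _ => (hS j).le)).cl).mono
    (cl_mono subset_union_right)
  have key : ∀ r, B (e r) = cmb lam (ω i) (e r) := fun r => by
    obtain ⟨ψ, q1, q2, q3⟩ := hG.la (e r) (d1 r).1
      ((d1 r).2.mono (line_sub_Seg.trans (subset_cl _)))
    rw [← hB.agr (q2.mono hl), ← hB' ψ q1, cmb_apply]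
    simp only [q3, LinearMap.sum_apply, Finset.mul_sum]
    rw [Finset.sum_comm, cmb_apply]
    refine Finset.sum_eq_single_of_mem i (Finset.mem_Ico.2 ⟨h1, h2⟩) fun j hj hn => ?_
    obtain ⟨k1, k2⟩ := Finset.mem_Ico.1 hj
    rw [← cmb_apply]
    rcases lt_or_gt_of_ne hn with k | k
    · exact hv j k1 k2 _ ((d1 r).2.mono ((sub_Seg k1 k).trans (subset_cl _)))
    · exact h3 j k k2 _
  have e3 : B (θ - φ) = cmb lam (ω i) (θ - φ) := by
    rw [hB.agr (d3.mono hl), (hv i h1 h2).agr (d3.mono ((sub_Seg h1 h2).trans (subset_cl _))),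
      map_sum, map_sum]
    exact Finset.sum_congr rfl fun r _ => by rw [map_smul, map_smul, key]
  rwa [map_sub, map_sub, e1, e2, sub_zero, sub_zero] at e3

end Pb

open Pb in
theorem pb (hK : StmtKAP) (hP : StmtPDE) : StmtPB := by
  intro C Ω ι κ _ _ _ _ _ _ E m l a b S ν ω lam G hE hc hab hD hS hG
  have key : ∀ d j, j + d = b → a + 1 ≤ j → (∀ θ ∈ G, Kil (l j).S θ → cmb lam ν θ = 0) ∧
      ∀ i, j ≤ i → i < b → ∀ θ, cmb lam (ω i) θ = 0 := by
    intro d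
    induction d with
    | zero =>
      rintro j rfl _
      exact ⟨fun θ hθ h0 => base hG hθ h0, fun i k1 k2 => absurd k2 (by omega)⟩
    | succ d ih =>
      intro i hi h1
      obtain ⟨i1, i2⟩ := ih (i + 1) (by omega) (by omega)
      have h2 : i < b := by omega
      have hr : range (Sum.elim (l (i + 1)).u (l (i + 1)).x) = (l (i + 1)).S := Set.Sum.elim_range ..
      have hk : ∀ θ : Der C Ω, dv (Sum.elim (l (i + 1)).u (l (i + 1)).x) θ = 0 ↔
          Kil (l (i + 1)).S θ := fun θ => by rw [← kil_range, hr]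
      obtain ⟨c, c1, c2⟩ := hK C Ω (ι ⊕ ι) _ G (cmb lam ν) (Sum.elim (l (i + 1)).u (l (i + 1)).x)
        (cl_cl _) hG.lie
        (fun j => hc.line_mem (fun i _ _ => hS.dat i) (by omega) h2 (hr ▸ mem_range_self j))
        (fun θ hθ => by
          rw [cmb_apply]; exact sum_mem fun k _ => mul_mem (hG.mem k) (hG.val k θ hθ))
        (fun θ hθ φ hφ => dd_cmb hS.cν (fun k => hG.con k θ hθ) fun k => hG.con k φ hφ)
        (fun θ hθ h0 => lift hE hc hD hS.dat hG (by omega) h2 hθ ((hk θ).1 h0))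
        fun θ hθ h0 => i1 θ hθ ((hk θ).1 h0)
      rw [hr] at c1
      let B : Fm C Ω := (dotProductBilin Ω Ω c).comp (dv (Sum.elim (l (i + 1)).u (l (i + 1)).x))
      have hs : ∀ θ : Der C Ω, Kil (l i).S θ → B θ = cmb lam (ω i) θ := fun θ h0 =>
        star hE hc hD hS.fin hS.dat
          (fun j k1 k2 k φ hφ => hS.van j (by omega) k2 k φ (tanS_kil hφ)) hG h1 h2 i2
          (fun φ hφ => by simp [B, (hk φ).2 hφ]) c2 h0
      have h3 := hP C Ω ι κ E (m i) (l i) (l (i + 1)) (S i) (ω i) lam (c ∘ .inl) (c ∘ .inr) hE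
        (hc i h1 h2) (hS.fin i) (hS.dat i) (hS.cω i (by omega) h2) (hS.van i (by omega) h2)
        (lam_mem hE hc hD hS.dat hG (by omega) h2) (fun j => c1 _) (fun j => c1 _) fun θ h0 => by
          rw [← cmb_apply, ← hs θ h0]
          simp [B, dotProduct, Fintype.sum_sum_type]
      refine ⟨fun θ hθ h0 => ?_, fun j k1 k2 θ => ?_⟩
      · rw [c2 θ hθ]
        exact (hs θ h0).trans (cmb_apply θ |>.trans (h3 θ))
      · rcases k1.eq_or_lt with rfl | k
        · rw [cmb_apply, h3]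
        · exact i2 j k k2 θ
  refine hS.ind lam fun θ => ?_
  simp only [LinearMap.sum_apply, Finset.mul_sum]
  rw [Finset.sum_comm]
  refine Finset.sum_eq_zero fun i hi => ?_
  rw [← cmb_apply]
  exact (key (b - (a + 1)) (a + 1) (by omega) le_rfl).2 i (Finset.mem_Ico.1 hi).1
    (Finset.mem_Ico.1 hi).2 θ

end Pool.Agent.MP_249f74_an.H90
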